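import Pool.Agent.VDK.T3
import Pool.Agent.VDC.All
import Pool.Agent.VDC.P_ISO

/-!
# VDK: the main theorem, from the targets
-/

set_option autoImplicit false

open MvPolynomial CategoryTheory AlgebraicGeometry Pool.Agent.VDC

noncomputable section

namespace Pool.Agent.VDK

theorem gZ_iff_of_grd {f f' : Sr} (e : RR f' ≃ₐ[ℂ] RR f)
    (h : ∀ n r, r ∈ grd f' n ↔ e r ∈ grd f n) (m : ℤ) (r : RR f') :
    r ∈ gZ f' m ↔ e r ∈ gZ f m := by
  rcases lt_or_ge m 0 with hm | hm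
  · constructor
    · intro h1
      rw [NonNeg.out m hm r h1, map_zero]
      exact zero_mem _
    · intro h1
      have h2 : e r = 0 := NonNeg.out m hm _ h1
      rw [map_eq_zero_iff e e.injective] at h2
      rw [h2]
      exact zero_mem _
  · obtain ⟨n, rfl⟩ := Int.eq_ofNat_of_zero_le hm
    exact h n r

theorem main5_of (hKUE : T_KUE) (hN15 : T_N15) (hU05 : T_U05) (hU06 : T_U06) (hKA : T_KA)
    (w w' : P5) (hw : IsVDC5 w) (hw' : IsVDC5 w')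
    (h : Nonempty (KuEquiv (gr5 w) (gr5 w'))) :
    ∃ e : CR w ≃ₐ[ℂ] CR w', ∀ (m : ℤ) (r : CR w), r ∈ gr5 w m ↔ e r ∈ gr5 w' m := by
  obtain ⟨f, hf, e, he⟩ := hN15 w hw
  obtain ⟨f', hf', e', he'⟩ := hN15 w' hw'
  obtain ⟨h6, hD⟩ := hKA f hf
  obtain ⟨h6', hD'⟩ := hKA f' hf'
  haveI : H6 f := ⟨h6⟩
  haveI : H6 f' := ⟨h6'⟩
  have h1 : Nonempty (KuEquiv (gZ f) (gr5 w)) :=
    hU05 _ _ (gZ f) (gr5 w) e.symm fun m r => by rw [he, e.apply_symm_apply]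
  have h2 : Nonempty (KuEquiv (gr5 w') (gZ f')) := hU05 _ _ _ _ e' he'
  have h3 := hU06 _ _ _ (gZ f) (gr5 w) (gr5 w') h1 h
  have h4 := hU06 _ _ _ (gZ f) (gr5 w') (gZ f') h3 h2
  have h5 := hKUE f f' hD hD' h4
  obtain ⟨g, lam, hlam, hg⟩ := main_eq f f' hf hf' h5
  obtain ⟨e0, he0⟩ := p_ISO f f' g lam hlam hg
  refine ⟨(e.trans e0.symm).trans e'.symm, fun m r => ?_⟩
  rw [he', AlgEquiv.trans_apply, AlgEquiv.trans_apply, e'.apply_symm_apply,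
    gZ_iff_of_grd e0 he0, e0.apply_symm_apply, he]

end Pool.Agent.VDK
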