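import Pool.Agent.VDK.Sext

/-!
# The Kuznetsov component of `Proj A` and its exact equivalences

The same objects as in `Pool.Agent.VDK.Kdefs`, written so that the statement is short.
`A` is a graded `ℂ`-algebra.
-/

set_option autoImplicit false

open CategoryTheory CategoryTheory.Limits Pretriangulated

noncomputable section

namespace Pool.Agent.VDK

variable {A : Type} [CommRing A] [Algebra ℂ A] (𝒜 : ℤ → Submodule ℂ A) [SetLike.GradedMonoid 𝒜]

/-! ### The homotopy category of complexes of finitely generated graded free modules -/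

/-- The homotopy category of complexes of finitely generated graded free modules. -/
def KH : Type 1 := HomotopyCategory (GF 𝒜) (ComplexShape.up ℤ)

instance khCat : Category.{0} (KH 𝒜) :=
  instCategoryHomotopyCategory (GF 𝒜) (ComplexShape.up ℤ)

instance khPre : Preadditive (KH 𝒜) :=
  HomotopyCategory.instPreadditive (GF 𝒜) (ComplexShape.up ℤ)

instance khLin : Linear ℂ (KH 𝒜) := HomotopyCategory.instLinear (GF 𝒜) (ComplexShape.up ℤ)

instance khShift : HasShift (KH 𝒜) ℤ := HomotopyCategory.hasShift (GF 𝒜)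

theorem khZero' : HasZeroObject (KH 𝒜) :=
  HomotopyCategory.instHasZeroObject (GF 𝒜) (ComplexShape.up ℤ)

instance khZero : HasZeroObject (KH 𝒜) := khZero' 𝒜

theorem khAdd' (n : ℤ) : (shiftFunctor (KH 𝒜) n).Additive :=
  HomotopyCategory.instAdditiveIntUpShiftFunctor (GF 𝒜) n

instance khAdd (n : ℤ) : (shiftFunctor (KH 𝒜) n).Additive := khAdd' 𝒜 n

instance khTri : Pretriangulated (KH 𝒜) := HomotopyCategory.instPretriangulatedIntUp (GF 𝒜)

theorem khIsTri' : IsTriangulated (KH 𝒜) :=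
  inferInstanceAs (IsTriangulated (HomotopyCategory (GF 𝒜) (ComplexShape.up ℤ)))

instance khIsTri : IsTriangulated (KH 𝒜) := khIsTri' 𝒜

/-- the object given by a complex -/
def toKH (K : CochainComplex (GF 𝒜) ℤ) : KH 𝒜 :=
  (HomotopyCategory.quotient (GF 𝒜) (ComplexShape.up ℤ)).obj K

/-- the module `A(m)`, as a complex in degree `0` -/
def KH.tw (m : ℤ) : KH 𝒜 := (HomotopyCategory.singleFunctor (GF 𝒜) 0).obj (GF.tw 𝒜 m)

variable {𝒜} in
/-- `H^n(C)_d = 0`: here `H^n(C)_d` is the set of maps `A(-d) → C[n]`. -/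
def KH.CohZero (C : KH 𝒜) (n d : ℤ) : Prop :=
  ∀ x : KH.tw 𝒜 (-d) ⟶ (shiftFunctor (KH 𝒜) n).obj C, x = 0

/-- complexes isomorphic to bounded above complexes -/
def BddC : ObjectProperty (KH 𝒜) := fun C =>
  ∃ (K : CochainComplex (GF 𝒜) ℤ) (n : ℤ), K.IsStrictlyLE n ∧ Nonempty (C ≅ toKH 𝒜 K)

/-- bounded above complexes with bounded cohomology: they are the objects of `D^b(gr A)` -/
def DgrC : ObjectProperty (KH 𝒜) := fun C =>
  BddC 𝒜 C ∧ ∃ N : ℤ, ∀ n < N, ∀ d, KH.CohZero C n d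

/-- bounded above complexes with finite-dimensional cohomology -/
def TorC : ObjectProperty (KH 𝒜) := fun C =>
  BddC 𝒜 C ∧ {p : ℤ × ℤ | ¬ KH.CohZero C p.1 p.2}.Finite

theorem dgrC_tri' : (DgrC 𝒜).IsTriangulated := inferInstanceAs (Dgr 𝒜).IsTriangulated

instance dgrC_tri : (DgrC 𝒜).IsTriangulated := dgrC_tri' 𝒜

/-! ### The category `D^b(gr A)` -/

/-- The derived category of bounded complexes of finitely generated graded modules. -/
def DbG : Type 1 := (DgrC 𝒜).FullSubcategory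

instance dgCat : Category.{0} (DbG 𝒜) := ObjectProperty.FullSubcategory.category (DgrC 𝒜)

instance dgPre : Preadditive (DbG 𝒜) := Preadditive.fullSubcategory (DgrC 𝒜)

instance dgLin : Linear ℂ (DbG 𝒜) := Linear.fullSubcategory (DgrC 𝒜)

instance dgShift : HasShift (DbG 𝒜) ℤ := ObjectProperty.hasShift (DgrC 𝒜)

theorem dgZero' : HasZeroObject (DbG 𝒜) :=
  ObjectProperty.instHasZeroObjectFullSubcategoryOfContainsZero (DgrC 𝒜)

instance dgZero : HasZeroObject (DbG 𝒜) := dgZero' 𝒜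

theorem dgAdd' (n : ℤ) : (shiftFunctor (DbG 𝒜) n).Additive :=
  ObjectProperty.instAdditiveFullSubcategoryShiftFunctor (DgrC 𝒜) n

instance dgAdd (n : ℤ) : (shiftFunctor (DbG 𝒜) n).Additive := dgAdd' 𝒜 n

instance dgTri : Pretriangulated (DbG 𝒜) :=
  ObjectProperty.instPretriangulatedFullSubcategory (DgrC 𝒜)

theorem dgIsTri' : IsTriangulated (DbG 𝒜) :=
  ObjectProperty.instIsTriangulatedFullSubcategory (DgrC 𝒜)

instance dgIsTri : IsTriangulated (DbG 𝒜) := dgIsTri' 𝒜

/-- the complexes with finite-dimensional cohomology -/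
def TorG : ObjectProperty (DbG 𝒜) := fun C => TorC 𝒜 (ObjectProperty.FullSubcategory.obj C)

theorem torG_tri' : (TorG 𝒜).IsTriangulated := inferInstanceAs (TorsGr 𝒜).IsTriangulated

instance torG_tri : (TorG 𝒜).IsTriangulated := torG_tri' 𝒜

/-- the maps whose cone has finite-dimensional cohomology -/
def torW : MorphismProperty (DbG 𝒜) := (TorG 𝒜).trW

theorem torW_left' : (torW 𝒜).HasLeftCalculusOfFractions :=
  ObjectProperty.instHasLeftCalculusOfFractionsTrWOfIsTriangulatedOfIsTriangulated (TorG 𝒜)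

instance torW_left : (torW 𝒜).HasLeftCalculusOfFractions := torW_left' 𝒜

theorem torW_shift' : (torW 𝒜).IsCompatibleWithShift ℤ :=
  ObjectProperty.instIsCompatibleWithShiftTrWIntOfIsStableUnderShift (TorG 𝒜)

instance torW_shift : (torW 𝒜).IsCompatibleWithShift ℤ := torW_shift' 𝒜

theorem torW_tri' : (torW 𝒜).IsCompatibleWithTriangulation :=
  ObjectProperty.instIsCompatibleWithTriangulationTrWOfIsTriangulatedOfIsTriangulated (TorG 𝒜)

instance torW_tri : (torW 𝒜).IsCompatibleWithTriangulation := torW_tri' 𝒜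

/-! ### The category `D^b(coh Proj A)` -/

/-- The Verdier quotient of `D^b(gr A)` by the complexes with finite-dimensional cohomology.  By
Serre's theorem it is `D^b(coh Proj A)` if `O(1)` is invertible. -/
def DbC : Type 1 := (torW 𝒜).Localization

instance dcCat : Category.{1} (DbC 𝒜) := MorphismProperty.instCategoryLocalization (torW 𝒜)

instance dcPre : Preadditive (DbC 𝒜) := Localization.instPreadditiveLocalization (torW 𝒜)

instance dcLin : Linear ℂ (DbC 𝒜) := Localization.instLinearLocalization ℂ (torW 𝒜)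

instance dcShift : HasShift (DbC 𝒜) ℤ := HasShift.localization (torW 𝒜) ℤ

theorem dcZero' : HasZeroObject (DbC 𝒜) :=
  Localization.instHasZeroObjectLocalization (torW 𝒜)

instance dcZero : HasZeroObject (DbC 𝒜) := dcZero' 𝒜

theorem dcAdd' (n : ℤ) : (shiftFunctor (DbC 𝒜) n).Additive :=
  Triangulated.Localization.instAdditiveLocalizationShiftFunctorInt (torW 𝒜) n

instance dcAdd (n : ℤ) : (shiftFunctor (DbC 𝒜) n).Additive := dcAdd' 𝒜 n

instance dcTri : Pretriangulated (DbC 𝒜) :=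
  Triangulated.Localization.instPretriangulatedLocalization (torW 𝒜)

theorem dgr_tw (m : ℤ) : DgrC 𝒜 (KH.tw 𝒜 m) := dgr_OK 𝒜 m

/-- the sheaf `O(m)` -/
def DbC.tw (m : ℤ) : DbC 𝒜 := (torW 𝒜).Q.obj ⟨KH.tw 𝒜 m, dgr_tw 𝒜 m⟩

/-! ### The Kuznetsov component -/

/-- the objects `E` with `Hom(O, E[k]) = Hom(O(1), E[k]) = 0` for all `k` -/
def KuP : ObjectProperty (DbC 𝒜) := fun E =>
  (∀ (k : ℤ) (x : DbC.tw 𝒜 0 ⟶ (shiftFunctor (DbC 𝒜) k).obj E), x = 0) ∧
    ∀ (k : ℤ) (x : DbC.tw 𝒜 1 ⟶ (shiftFunctor (DbC 𝒜) k).obj E), x = 0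

theorem kuP_tri' : (KuP 𝒜).IsTriangulated := inferInstanceAs (KuProp 𝒜).IsTriangulated

instance kuP_tri : (KuP 𝒜).IsTriangulated := kuP_tri' 𝒜

/-- The Kuznetsov component, the right orthogonal of `O` and `O(1)` in `D^b(coh Proj A)`. -/
def KuC : Type 1 := (KuP 𝒜).FullSubcategory

instance kuCat : Category.{1} (KuC 𝒜) := ObjectProperty.FullSubcategory.category (KuP 𝒜)

instance kuPre : Preadditive (KuC 𝒜) := Preadditive.fullSubcategory (KuP 𝒜)

instance kuLin : Linear ℂ (KuC 𝒜) := Linear.fullSubcategory (KuP 𝒜)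

instance kuShift : HasShift (KuC 𝒜) ℤ := ObjectProperty.hasShift (KuP 𝒜)

theorem kuZero' : HasZeroObject (KuC 𝒜) :=
  ObjectProperty.instHasZeroObjectFullSubcategoryOfContainsZero (KuP 𝒜)

instance kuZero : HasZeroObject (KuC 𝒜) := kuZero' 𝒜

theorem kuAdd' (n : ℤ) : (shiftFunctor (KuC 𝒜) n).Additive :=
  ObjectProperty.instAdditiveFullSubcategoryShiftFunctor (KuP 𝒜) n

instance kuAdd (n : ℤ) : (shiftFunctor (KuC 𝒜) n).Additive := kuAdd' 𝒜 n

instance kuTri : Pretriangulated (KuC 𝒜) :=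
  ObjectProperty.instPretriangulatedFullSubcategory (KuP 𝒜)

variable {B : Type} [CommRing B] [Algebra ℂ B] (ℬ : ℤ → Submodule ℂ B) [SetLike.GradedMonoid ℬ]

/-- A triangulated `ℂ`-linear equivalence between the Kuznetsov components. -/
structure KuEq where
  F : KuC 𝒜 ⥤ KuC ℬ
  isEquiv : F.IsEquivalence
  comm : F.CommShift ℤ
  tri : F.IsTriangulated
  lin : F.Linear ℂ

variable {𝒜 ℬ}

/-- the same, for the category `Ku` -/
def KuEq.toK (E : KuEq 𝒜 ℬ) : KuEquiv 𝒜 ℬ where
  F := E.F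
  isEquiv := E.isEquiv
  comm := E.comm
  tri := E.tri
  lin := E.lin

end Pool.Agent.VDK
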