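import Pool.Agent.VDK.T1

/-!
# VDK: the periodic complex is acyclic (T_ACF)
-/

set_option autoImplicit false
set_option linter.unusedVariables false

open CategoryTheory CategoryTheory.Limits Pretriangulated MvPolynomial Pool.Agent.VDC

noncomputable section

namespace Pool.Agent.VDK

namespace ACF_

lemma col {f : Sr} (F : CM f) (k : ℤ) (M : Matrix F.ι Unit (RR f))
    (h : dmat F (k + 1) * M = 0) :
    dmat F k * rm f (sg k • imM M) 0 = M := by
  have h1 : rm f F.Φ (sg (k + 1) • (1 : Matrix F.ι F.ι Sr)) * rm f (reM M) (imM M) =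
      rm f 0 0 := by
    rw [rm_zero]
    exact h
  rw [rm_mul, rm_inj, sg_succ] at h1
  have h2 : F.Φ * imM M = sg k • reM M := by
    have h3 := h1.2
    rw [neg_smul, Matrix.neg_mul, Matrix.smul_mul, Matrix.one_mul, add_neg_eq_zero] at h3
    exact h3
  unfold dmat
  rw [rm_mul, Matrix.mul_zero, Matrix.mul_zero, smul_zero, sub_zero, zero_add, Matrix.smul_mul,
    Matrix.one_mul, Matrix.mul_smul, h2, sg_sq, sg_sq]
  exact rm_eta M

lemma aux {f : Sr} [H6 f] (F : CM f) (k d : ℤ) (x : GF.tw (gZ f) (-d) ⟶ (CF F).X (k + 1))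
    (hx : x ≫ (CF F).d (k + 1) (k + 1 + 1) = 0) :
    ∃ y : GF.tw (gZ f) (-d) ⟶ (CF F).X k, y ≫ (CF F).d k (k + 1) = x := by
  let M : Matrix F.ι Unit (RR f) := mat x
  have h1 : dmat F (k + 1) * M = 0 := by
    have h := congrArg mat hx
    rw [mat_comp, mat_CF_d] at h
    exact h
  have hM : ∀ (i : F.ι) (j : Unit), M i j ∈ gZ f (d - (F.deg i - 3 * (k + 1))) := by
    intro i j
    have h := mat_mem x i j
    have e : (GF.tw (gZ f) (-d)).deg j - ((CF F).X (k + 1)).deg i =
        d - (F.deg i - 3 * (k + 1)) := by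
      show - -d - (F.deg i - 3 * (k + 1)) = _
      ring
    rw [e] at h
    exact h
  refine ⟨ofm (X := GF.tw (gZ f) (-d)) (Y := perX F k) (rm f (sg k • imM M) 0) ?_, ?_⟩
  · intro i j
    refine ⟨((hM i j).2.zsmul (sg k)).congr ?_, Hmg.zero _⟩
    show d - (F.deg i - 3 * (k + 1)) - 3 = - -d - (F.deg i - 3 * k)
    ring
  · refine gf_ext ?_
    rw [CF_d]
    exact col F k M h1

end ACF_

theorem p_ACF : T_ACF := by
  intro f _ F n d x hx
  obtain ⟨k, rfl⟩ : ∃ k, n = k + 1 := ⟨n - 1, by ring⟩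
  have key : ∀ m, m = k → ∃ y : GF.tw (gZ f) (-d) ⟶ (CF F).X m, y ≫ (CF F).d m (k + 1) = x := by
    rintro m rfl
    exact ACF_.aux F m d x hx
  exact key _ (by ring)

end Pool.Agent.VDK
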