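import Pool.Agent.VDK.T1

/-!
# VDK-ACZ: cohomology of a complex in terms of elements
-/

set_option autoImplicit false
set_option linter.unusedVariables false

open CategoryTheory CategoryTheory.Limits Pretriangulated

noncomputable section

namespace Pool.Agent.VDK

/-- The maps `OK 𝒜 (-d) → (q C)[n]` are classes of cocycles. -/
lemma ACZ_coh (A : Type) [CommRing A] [Algebra ℂ A] (𝒜 : ℤ → Submodule ℂ A)
    [SetLike.GradedMonoid 𝒜] (C : CochainComplex (GF 𝒜) ℤ) (n d : ℤ) :
    CohZero ((qK 𝒜).obj C) n d ↔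
      ∀ z : CochainComplex.HomComplex.Cocycle
        ((CochainComplex.singleFunctor (GF 𝒜) 0).obj (GF.tw 𝒜 (-d))) C n,
        z ∈ CochainComplex.HomComplex.coboundaries
          ((CochainComplex.singleFunctor (GF 𝒜) 0).obj (GF.tw 𝒜 (-d))) C n := by
  constructor
  · intro h z
    rw [← CochainComplex.HomComplex.CohomologyClass.toHom_mk_eq_zero_iff]
    have h1 := h (CochainComplex.HomComplex.CohomologyClass.toHom
      (CochainComplex.HomComplex.CohomologyClass.mk z) ≫ (((qK 𝒜).commShiftIso n).app C).hom)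
    exact (cancel_mono (((qK 𝒜).commShiftIso n).app C).hom).1 (h1.trans zero_comp.symm)
  · intro h x
    obtain ⟨z, hz⟩ := (CochainComplex.HomComplex.CohomologyClass.toHom_bijective _ _ _).2
      ((show (qK 𝒜).obj ((CochainComplex.singleFunctor (GF 𝒜) 0).obj (GF.tw 𝒜 (-d))) ⟶
        (shiftFunctor (KK 𝒜) n).obj ((qK 𝒜).obj C) from x) ≫
        (((qK 𝒜).commShiftIso n).app C).inv)
    obtain ⟨z, rfl⟩ := z.mk_surjective
    have h1 := (CochainComplex.HomComplex.CohomologyClass.toHom_mk_eq_zero_iff z).2 (h z)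
    rw [h1] at hz
    exact (cancel_mono (((qK 𝒜).commShiftIso n).app C).inv).1 (hz.symm.trans zero_comp.symm)

/-- `T_ACZ` -/
theorem p_ACZ : T_ACZ := by
  intro A _ _ 𝒜 _ C n d
  rw [ACZ_coh]
  constructor
  · intro h x hx
    exact (CochainComplex.HomComplex.Cocycle.fromSingleMk_mem_coboundaries_iff x (zero_add n)
      (n + 1) rfl hx (n - 1) (by lia)).1 (h _)
  · intro h z
    obtain ⟨f, hf, rfl⟩ := CochainComplex.HomComplex.Cocycle.fromSingleMk_surjective z n
      (zero_add n) (n + 1) rfl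
    exact (CochainComplex.HomComplex.Cocycle.fromSingleMk_mem_coboundaries_iff f (zero_add n)
      (n + 1) rfl hf (n - 1) (by lia)).2 (h f hf)

end Pool.Agent.VDK
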