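import Pool.Agent.VDK.T1

/-!
# VDK-BDC: bounded complexes are iterated extensions of their terms (helper91)
-/

set_option autoImplicit false
set_option linter.unusedVariables false

open CategoryTheory CategoryTheory.Limits Pretriangulated

noncomputable section

namespace Pool.Agent.VDK

namespace BDC_

variable {A : Type} [CommRing A] [Algebra ℂ A] {𝒜 : ℤ → Submodule ℂ A} [SetLike.GradedMonoid 𝒜]

/-- a free module without generators is zero -/
lemma isZero_of_empty (X : GF 𝒜) (h : X.ι → False) : IsZero X :=
  ⟨fun Y => ⟨⟨⟨0⟩, fun a => gf_ext (Matrix.ext fun i j => (h j).elim)⟩⟩,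
    fun Y => ⟨⟨⟨0⟩, fun a => gf_ext (Matrix.ext fun i j => (h i).elim)⟩⟩⟩

/-- the submodule spanned by some generators of a zero module is zero -/
lemma isZero_resX (X : GF 𝒜) (u : X.ι → Prop) (h : IsZero X) : IsZero (resX X u) := by
  by_cases hne : Nonempty X.ι
  · obtain ⟨i⟩ := hne
    have h1 : (𝟙 X : X ⟶ X) = 0 := h.eq_of_src _ _
    have h2 : (1 : Matrix X.ι X.ι A) = 0 := congrArg mat h1
    have h3 : (1 : A) = 0 := by
      have h4 := congrFun (congrFun h2 i) i
      rwa [Matrix.one_apply_eq] at h4
    have h5 : Subsingleton A := subsingleton_of_zero_eq_one h3.symm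
    exact ⟨fun Y => ⟨⟨⟨0⟩, fun a => gf_ext (Matrix.ext fun i j => Subsingleton.elim _ _)⟩⟩,
      fun Y => ⟨⟨⟨0⟩, fun a => gf_ext (Matrix.ext fun i j => Subsingleton.elim _ _)⟩⟩⟩
  · exact isZero_of_empty _ fun i => hne ⟨i.1⟩

/-- all generators -/
lemma qc_top (C : CochainComplex (GF 𝒜) ℤ) : QC C (fun _ _ => True) :=
  fun _ _ _ h _ => (h trivial).elim

end BDC_

open BDC_ in
/-- Bounded complexes are in the triangulated subcategory generated by their generators. -/
theorem p_BDC (hR : T_RTR) (hI : T_RTI) (hS : T_SNG) : T_BDC := by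
  intro A _ _ 𝒜 _ G hG hG'
  have key : ∀ (N : ℕ) (K : CochainComplex (GF 𝒜) ℤ) (a b : ℤ), b + 1 - a ≤ N →
      K.IsStrictlyGE a → K.IsStrictlyLE b →
      (∀ (n : ℤ) (i : (K.X n).ι), G (OK 𝒜 (-((K.X n).deg i)))) → G ((qK 𝒜).obj K) := by
    intro N
    induction N with
    | zero =>
      intro K a b hN ha hb h
      have hz : ∀ n, IsZero (K.X n) := by
        intro n
        by_cases hn : n < a
        · exact K.isZero_of_isStrictlyGE a n hn
        · exact K.isZero_of_isStrictlyLE b n (by push_cast at hN; lia)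
      have hK : IsZero K := by
        rw [IsZero.iff_id_eq_zero]
        ext n : 1
        exact (hz n).eq_of_src _ _
      exact G.prop_of_isZero (Functor.map_isZero (qK 𝒜) hK)
    | succ N ih =>
      intro K a b hN ha hb h
      have hV : QC K (Ule (b - 1) K) := Ule_qc K (b - 1)
      have hU : QC K (fun _ _ => True) := qc_top K
      obtain ⟨α, β, γ, hT⟩ := hR A 𝒜 K (fun _ _ => True) (Ule (b - 1) K) hU hV
        fun _ _ _ => trivial
      obtain ⟨e⟩ := (hI A 𝒜 K).1 (fun _ _ => True) hU.lc fun _ _ => trivial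
      refine G.prop_of_iso ((qK 𝒜).mapIso e) ?_
      refine G.ext_of_isTriangulatedClosed₂ _ hT ?_ ?_
      · -- the term in position `b`
        have hz : ∀ n, n ≠ b →
            IsZero ((resC K (fun n i => True ∧ ¬ Ule (b - 1) K n i) (hU.lc_diff hV)).X n) := by
          intro n hn
          by_cases hn' : n ≤ b - 1
          · exact isZero_of_empty _ fun i => i.2.2 hn'
          · exact isZero_resX _ _ (K.isZero_of_isStrictlyLE b n (by lia))
        have h1 : (resC K (fun n i => True ∧ ¬ Ule (b - 1) K n i)
            (hU.lc_diff hV)).IsStrictlyGE b := by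
          rw [CochainComplex.isStrictlyGE_iff]
          exact fun i hi => hz i (by lia)
        have h2 : (resC K (fun n i => True ∧ ¬ Ule (b - 1) K n i)
            (hU.lc_diff hV)).IsStrictlyLE b := by
          rw [CochainComplex.isStrictlyLE_iff]
          exact fun i hi => hz i (by lia)
        obtain ⟨M, ⟨e⟩⟩ := CochainComplex.exists_iso_single
          (resC K (fun n i => True ∧ ¬ Ule (b - 1) K n i) (hU.lc_diff hV)) b
        have e1 : M ≅ (resC K (fun n i => True ∧ ¬ Ule (b - 1) K n i) (hU.lc_diff hV)).X b :=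
          (HomologicalComplex.singleObjXSelf (ComplexShape.up ℤ) b M).symm ≪≫
            ((HomologicalComplex.eval (GF 𝒜) (ComplexShape.up ℤ) b).mapIso e).symm
        have e4 : (qK 𝒜).obj (resC K (fun n i => True ∧ ¬ Ule (b - 1) K n i)
            (hU.lc_diff hV)) ≅ (HomotopyCategory.singleFunctor (GF 𝒜) b).obj
              (resX (K.X b) fun i => True ∧ ¬ Ule (b - 1) K b i) :=
          (qK 𝒜).mapIso (e ≪≫
            (HomologicalComplex.single (GF 𝒜) (ComplexShape.up ℤ) b).mapIso e1)
        refine G.prop_of_iso e4.symm ?_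
        exact hS A 𝒜 G hG hG' (resX (K.X b) fun i => True ∧ ¬ Ule (b - 1) K b i)
          (fun i => h b i.1) b
      · -- the lower positions
        refine ih (resC K (Ule (b - 1) K) hV.lc) a (b - 1) (by push_cast at hN; lia) ?_ ?_ ?_
        · rw [CochainComplex.isStrictlyGE_iff]
          intro n hn
          exact isZero_resX _ _ (K.isZero_of_isStrictlyGE a n hn)
        · rw [CochainComplex.isStrictlyLE_iff]
          intro n hn
          exact isZero_of_empty _ fun i => absurd (show n ≤ b - 1 from i.2) (not_le.2 hn)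
        · intro n i
          exact h n i.1
  intro K a b ha hb h
  exact key (b + 1 - a).toNat K a b (Int.self_le_toNat _) ha hb h

end Pool.Agent.VDK
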