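import Pool.Agent.VDK.T1

/-!
# VDK: the dual of the periodic complex is acyclic (T_CCF)
-/

set_option autoImplicit false
set_option linter.unusedVariables false

open CategoryTheory CategoryTheory.Limits Pretriangulated MvPolynomial Pool.Agent.VDC

noncomputable section

namespace Pool.Agent.VDK

namespace CCF_

lemma row {f : Sr} (F : CM f) (k : ℤ) (M : Matrix Unit F.ι (RR f))
    (h : M * dmat F k = 0) :
    rm f (sg (k + 1) • imM M) 0 * dmat F (k + 1) = M := by
  have h1 : rm f (reM M) (imM M) * rm f F.Φ (sg k • (1 : Matrix F.ι F.ι Sr)) =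
      rm f 0 0 := by
    rw [rm_zero]
    exact h
  rw [rm_mul, rm_inj] at h1
  have h2 : imM M * F.Φ = sg (k + 1) • reM M := by
    have h3 := h1.2
    rw [Matrix.mul_smul, Matrix.mul_one] at h3
    rw [sg_succ, neg_smul]
    exact eq_neg_of_add_eq_zero_right h3
  unfold dmat
  rw [rm_mul, Matrix.zero_mul, Matrix.zero_mul, smul_zero, sub_zero, add_zero, Matrix.mul_smul,
    Matrix.mul_one, Matrix.smul_mul, h2, sg_sq, sg_sq]
  exact rm_eta M

lemma aux {f : Sr} [H6 f] (F : CM f) (k e : ℤ) (x : (CF F).X (k + 1) ⟶ GF.tw (gZ f) (-e))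
    (hx : (CF F).d k (k + 1) ≫ x = 0) :
    ∃ y : (CF F).X (k + 1 + 1) ⟶ GF.tw (gZ f) (-e), (CF F).d (k + 1) (k + 1 + 1) ≫ y = x := by
  let M : Matrix Unit F.ι (RR f) := mat x
  have h1 : M * dmat F k = 0 := by
    have h := congrArg mat hx
    rw [mat_comp, mat_CF_d] at h
    exact h
  have hM : ∀ (i : Unit) (j : F.ι), M i j ∈ gZ f (F.deg j - 3 * (k + 1) - e) := by
    intro i j
    have h := mat_mem x i j
    have e' : ((CF F).X (k + 1)).deg j - (GF.tw (gZ f) (-e)).deg i =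
        F.deg j - 3 * (k + 1) - e := by
      show F.deg j - 3 * (k + 1) - - -e = _
      ring
    rw [e'] at h
    exact h
  refine ⟨ofm (X := perX F (k + 1 + 1)) (Y := GF.tw (gZ f) (-e))
    (rm f (sg (k + 1) • imM M) 0) ?_, ?_⟩
  · intro i j
    refine ⟨((hM i j).2.zsmul (sg (k + 1))).congr ?_, Hmg.zero _⟩
    show F.deg j - 3 * (k + 1) - e - 3 = F.deg j - 3 * (k + 1 + 1) - - -e
    ring
  · refine gf_ext ?_
    rw [CF_d]
    exact row F k M h1

end CCF_

theorem p_CCF : T_CCF := by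
  intro f _ F n e x hx
  obtain ⟨k, rfl⟩ : ∃ k, n = k + 1 := ⟨n - 1, by ring⟩
  have key : ∀ m, m = k → (CF F).d m (k + 1) ≫ x = 0 →
      ∃ y : (CF F).X (k + 1 + 1) ⟶ GF.tw (gZ f) (-e), (CF F).d (k + 1) (k + 1 + 1) ≫ y = x := by
    rintro m rfl h
    exact CCF_.aux F m e x h
  exact key _ (by ring) hx

end Pool.Agent.VDK
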