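import Pool.Agent.VDK.T1

/-!
# VDK-COP: the dual of `P_k(t)` is exact except in one degree
-/

set_option autoImplicit false
set_option linter.unusedVariables false

open CategoryTheory CategoryTheory.Limits Pretriangulated MvPolynomial Pool.Agent.VDC

noncomputable section

namespace Pool.Agent.VDK

namespace COP_

lemma sum_sub {ι R : Type} [Fintype ι] [AddCommMonoid R] (p : ι → Prop) [Fintype {i // p i}]
    (g : ι → R) (h : ∀ i, ¬ p i → g i = 0) : ∑ i : {i // p i}, g i.1 = ∑ i, g i := by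
  classical
  rw [← Finset.sum_subtype (Finset.univ.filter p) (by simp) g, Finset.sum_filter]
  refine Finset.sum_congr rfl fun i _ => ?_
  split_ifs with hi
  · rfl
  · exact (h i hi).symm

variable {f : Sr}

/-- the part of `Φ` which lowers the cardinality -/
def kp (F : CM f) (c : F.ι → ℤ) : Matrix F.ι F.ι Sr :=
  Matrix.of fun i j => if c i + 1 = c j then F.Φ i j else 0

/-- the algebraic core -/
lemma core (F : CM f) (cc : F.ι → ℤ)
    (hcd : ∀ i j, F.Φ i j ≠ 0 → cc i = cc j + 1 ∨ cc i + 1 = cc j) (n m w : ℤ)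
    (hK : ∀ u : F.ι → Sr, (∀ i, Hmg (u i) (F.deg i - w)) → (∀ i, u i ≠ 0 → cc i = m) →
      Matrix.vecMul u (kp F cc) = 0 →
      ∃ v : F.ι → Sr, (∀ i, Hmg (v i) (F.deg i - 3 - w)) ∧
        (∀ i, v i ≠ 0 → cc i = m - 1) ∧ Matrix.vecMul v (kp F cc) = u)
    (a b : Matrix Unit F.ι Sr) (hbdeg : ∀ i, Hmg (b () i) (F.deg i - w))
    (ha0 : ∀ i, ¬ cc i ≤ m → a () i = 0) (hb0 : ∀ i, ¬ cc i ≤ m → b () i = 0)
    (hcyc : rm f a b * dmat F n = 0) :
    ∃ A c : Matrix Unit F.ι Sr, (∀ i, ¬ cc i ≤ m - 1 → A () i = 0) ∧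
      (∀ i, ¬ cc i ≤ m - 1 → c () i = 0) ∧ (∀ i, Hmg (A () i) (F.deg i - w)) ∧
      (∀ i, Hmg (c () i) (F.deg i - 3 - w)) ∧ rm f A c * dmat F (n + 1) = rm f a b := by
  classical
  unfold dmat at hcyc
  rw [rm_mul, ← rm_zero, rm_inj, Matrix.mul_smul, Matrix.mul_smul, Matrix.mul_one,
    Matrix.mul_one] at hcyc
  obtain ⟨-, hr2⟩ := hcyc
  have hsg : sg (n + 1) = -sg n := sg_succ n
  have hbΦ : b * F.Φ = sg (n + 1) • a := by
    rw [hsg, neg_smul]
    exact eq_neg_of_add_eq_zero_right hr2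
  -- the part of cardinality m
  let b2 : F.ι → Sr := fun i => if cc i = m then b () i else 0
  have hb2 : Matrix.vecMul b2 (kp F cc) = 0 := by
    funext j
    show ∑ i, b2 i * kp F cc i j = 0
    by_cases hj : cc j = m + 1
    · have h1 : ∑ i, b2 i * kp F cc i j = ∑ i, b () i * F.Φ i j := by
        refine Finset.sum_congr rfl fun i _ => ?_
        show (if cc i = m then b () i else 0) *
          (if cc i + 1 = cc j then F.Φ i j else 0) = _
        by_cases hi : cc i = m
        · rw [if_pos hi, if_pos (by lia)]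
        · rw [if_neg hi, zero_mul]
          by_cases hi2 : cc i ≤ m
          · have h2 : F.Φ i j = 0 := by
              by_contra h3
              have := hcd i j h3
              lia
            rw [h2, mul_zero]
          · rw [hb0 i hi2, zero_mul]
      rw [h1]
      have h2 : (b * F.Φ) () j = ∑ i, b () i * F.Φ i j := Matrix.mul_apply
      rw [← h2, hbΦ, Matrix.smul_apply, ha0 j (by lia), smul_zero]
    · refine Finset.sum_eq_zero fun i _ => ?_
      show (if cc i = m then b () i else 0) *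
          (if cc i + 1 = cc j then F.Φ i j else 0) = _
      by_cases hi : cc i = m
      · rw [if_neg (show ¬ cc i + 1 = cc j by lia), mul_zero]
      · rw [if_neg hi, zero_mul]
  obtain ⟨c, hc1, hc2, hc3⟩ := hK b2
    (fun i => by
      show Hmg (if cc i = m then b () i else 0) _
      split_ifs
      · exact hbdeg i
      · exact Hmg.zero _)
    (fun i hi => by
      by_contra h
      exact hi (if_neg h))
    hb2
  let cm : Matrix Unit F.ι Sr := Matrix.of fun _ i => c i
  have hcΦ : ∀ j, (cm * F.Φ) () j = ∑ i, c i * F.Φ i j := fun j => Matrix.mul_apply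
  refine ⟨sg (n + 1) • (b - cm * F.Φ), cm, fun j hj => ?_, fun j hj => ?_, fun j => ?_,
    fun j => hc1 j, ?_⟩
  · show sg (n + 1) • (b () j - (cm * F.Φ) () j) = 0
    rw [hcΦ]
    by_cases hj2 : cc j = m
    · have h1 : ∑ i, c i * F.Φ i j = b () j := by
        have h2 : b2 j = b () j := if_pos hj2
        rw [← h2, ← hc3]
        show _ = ∑ i, c i * kp F cc i j
        refine Finset.sum_congr rfl fun i _ => ?_
        show _ = c i * (if cc i + 1 = cc j then F.Φ i j else 0)
        by_cases hi : c i = 0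
        · rw [hi, zero_mul, zero_mul]
        · rw [if_pos (by have := hc2 i hi; lia)]
      rw [h1, sub_self, smul_zero]
    · have h1 : ∑ i, c i * F.Φ i j = 0 := by
        refine Finset.sum_eq_zero fun i _ => ?_
        by_cases hi : c i = 0
        · rw [hi, zero_mul]
        · have h2 : F.Φ i j = 0 := by
            by_contra h3
            have := hcd i j h3
            have := hc2 i hi
            lia
          rw [h2, mul_zero]
      rw [h1, hb0 j (by lia), sub_zero, smul_zero]
  · by_contra h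
    have := hc2 j h
    lia
  · show Hmg (sg (n + 1) • (b () j - (cm * F.Φ) () j)) _
    refine ((hbdeg j).sub ?_).zsmul _
    rw [hcΦ]
    refine Hmg.sum fun i _ => ?_
    exact ((hc1 i).mul (F.hom i j)).congr (by ring)
  · have hsq := F.sq
    unfold dmat
    rw [rm_mul, rm_inj]
    constructor
    · rw [Matrix.smul_mul, Matrix.sub_mul, hbΦ, Matrix.mul_assoc, hsq, Matrix.mul_neg,
        Matrix.mul_smul, Matrix.mul_one, Matrix.mul_smul, Matrix.mul_one, smul_sub, sg_sq,
        smul_neg, sub_neg_eq_add, smul_comm f, add_sub_cancel_right]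
    · rw [Matrix.mul_smul, Matrix.mul_one, sg_sq, sub_add_cancel]

variable [H6 f]

lemma mat_PK_d (D : KA f) (t n : ℤ) (i : ((PK D t).X (n + 1)).ι) (j : ((PK D t).X n).ι) :
    mat ((PK D t).d n (n + 1)) i j = dmat (tw t 1 (kk D)) n i.1 j.1 := by
  unfold PK
  rw [resC_d]
  show mat ((CF (tw t 1 (kk D))).d n (n + 1)) i.1 j.1 = _
  rw [mat_CF_d]

omit [H6 f] in
lemma phi_eq (D : KA f) (t : ℤ) : (tw t 1 (kk D)).Φ = (kk D).Φ := by
  show ((1 : ℤˣ) : ℤ) • (kk D).Φ = (kk D).Φ
  rw [Units.val_one, one_smul]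

end COP_

open COP_ in
theorem p_COP (h_KRX : T_KRX) : T_COP := by
  classical
  intro f _ D t n e he x hx
  obtain ⟨n', rfl⟩ : ∃ n', n = n' + 1 := ⟨n - 1, by ring⟩
  have hn' : n' + 1 - 1 = n' := by ring
  rw [hn'] at hx
  have hcd : ∀ i j, (tw t 1 (kk D)).Φ i j ≠ 0 → cd D i = cd D j + 1 ∨ cd D i + 1 = cd D j :=
    fun i j h => cd_prop D t j i h
  -- the row, extended by zero
  let X : Matrix Unit (tw t 1 (kk D)).ι (RR f) := Matrix.of fun _ i =>
    if h : cd D i ≤ -(n' + 1) then mat x () ⟨i, h⟩ else 0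
  have hX1 : ∀ i (h : cd D i ≤ -(n' + 1)), X () i = mat x () ⟨i, h⟩ := fun i h => dif_pos h
  have hX0 : ∀ i, ¬ cd D i ≤ -(n' + 1) → X () i = 0 := fun i h => dif_neg h
  have hbdeg : ∀ i, Hmg (imM X () i)
      ((tw t 1 (kk D)).deg i - (e + 3 * (n' + 1) + 3)) := fun i => by
    by_cases h : cd D i ≤ -(n' + 1)
    · have h1 := (mat_mem x () (⟨i, h⟩ : {i // cd D i ≤ -(n' + 1)})).2
      show Hmg (X () i).im _
      rw [hX1 i h]
      refine h1.congr ?_
      show (kk D).deg i - t - 3 * (n' + 1) - -(-e) - 3 = (kk D).deg i - t - _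
      ring
    · show Hmg (X () i).im _
      rw [hX0 i h]
      exact Hmg.zero _
  -- it is a cycle of the whole periodic complex
  have hcyc : rm f (reM X) (imM X) * dmat (tw t 1 (kk D)) n' = 0 := by
    rw [rm_eta]
    refine Matrix.ext fun _ j => ?_
    rw [Matrix.mul_apply]
    by_cases hj : cd D j ≤ -n'
    · have h1 : mat ((PK D t).d n' (n' + 1) ≫ x) () (⟨j, hj⟩ : {i // cd D i ≤ -n'}) = 0 := by
        rw [hx]
        rfl
      rw [← sum_sub (fun i => cd D i ≤ -(n' + 1))
        (fun i => X () i * dmat (tw t 1 (kk D)) n' i j)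
        (fun i h => by rw [hX0 i h, zero_mul])]
      refine Eq.trans ?_ h1
      refine Eq.trans ?_ (Matrix.mul_apply (M := mat x) (N := mat ((PK D t).d n' (n' + 1)))
        (i := ()) (k := (⟨j, hj⟩ : {i // cd D i ≤ -n'}))).symm
      refine Finset.sum_congr
        (Finset.ext fun a => ⟨fun _ => @Finset.mem_univ _ (_) a,
          fun _ => @Finset.mem_univ _ (_) a⟩) fun i _ => ?_
      exact congrArg₂ (· * ·) (hX1 i.1 i.2) (mat_PK_d D t n' i ⟨j, hj⟩).symm
    · refine Finset.sum_eq_zero fun i _ => ?_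
      by_cases h : cd D i ≤ -(n' + 1)
      · have h1 : dmat (tw t 1 (kk D)) n' i j = 0 := by
          refine dmat_eq_zero _ _ _ _ ?_ ?_
          · by_contra h2
            have := hcd i j h2
            lia
          · intro h2
            rw [h2] at h
            lia
        rw [h1, mul_zero]
      · rw [hX0 i h, zero_mul]
  have hkp : kp (tw t 1 (kk D)) (cd D) = kap D := by
    unfold kp kap
    rw [phi_eq]
  obtain ⟨A, c, hA0, hc0, hAd, hcd', hfin⟩ := core (tw t 1 (kk D)) (cd D) hcd n' (-(n' + 1))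
    (e + 3 * (n' + 1) + 3) (by
      intro u hu1 hu2 hu3
      obtain ⟨v, hv1, hv2, hv3⟩ := h_KRX f D (-(n' + 1)) u (t + (e + 3 * (n' + 1) + 3))
        (fun i => (hu1 i).congr (by
          show (kk D).deg i - t - _ = _
          ring)) hu2 (by rw [← hkp]; exact hu3) (fun h4 h5 => he (by lia))
      refine ⟨v, fun i => (hv1 i).congr ?_, hv2, by rw [hkp]; exact hv3⟩
      show _ = (kk D).deg i - t - 3 - _
      ring) (reM X) (imM X) hbdeg (fun i h => by
        show (X () i).re = 0
        rw [hX0 i h]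
        rfl) (fun i h => by
        show (X () i).im = 0
        rw [hX0 i h]
        rfl) hcyc
  have hY0 : ∀ j, ¬ cd D j ≤ -(n' + 1 + 1) → rm f A c () j = 0 := fun j hj =>
    QuadraticAlgebra.ext (hA0 j (by lia)) (hc0 j (by lia))
  refine ⟨ofm (fun _ i => rm f A c () i.1) fun _ j => ⟨?_, ?_⟩, ?_⟩
  · refine (hAd j.1).congr ?_
    show (kk D).deg j.1 - t - _ = (kk D).deg j.1 - t - 3 * (n' + 1 + 1) - -(-e)
    ring
  · refine (hcd' j.1).congr ?_
    show (kk D).deg j.1 - t - 3 - _ = (kk D).deg j.1 - t - 3 * (n' + 1 + 1) - -(-e) - 3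
    ring
  · refine gf_ext (Matrix.ext fun _ j => ?_)
    have h2 : (rm f A c * dmat (tw t 1 (kk D)) (n' + 1)) () j.1 =
      ∑ i, rm f A c () i * dmat (tw t 1 (kk D)) (n' + 1) i j.1 := Matrix.mul_apply
    rw [hfin] at h2
    refine Eq.trans ?_ (h2.symm.trans (hX1 j.1 j.2))
    rw [← sum_sub (fun i => cd D i ≤ -(n' + 1 + 1))
      (fun i => rm f A c () i * dmat (tw t 1 (kk D)) (n' + 1) i j.1)
      (fun i h => by rw [hY0 i h, zero_mul])]
    refine Eq.trans (Matrix.mul_apply (M := fun (_ : Unit) (i : ((PK D t).X (n' + 1 + 1)).ι) =>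
      rm f A c () i.1) (N := mat ((PK D t).d (n' + 1) (n' + 1 + 1))) (i := ()) (k := j)) ?_
    refine Finset.sum_congr
      (Finset.ext fun a => ⟨fun _ => @Finset.mem_univ _ (_) a,
        fun _ => @Finset.mem_univ _ (_) a⟩) fun i _ => ?_
    exact congrArg (rm f A c () i.1 * ·) (mat_PK_d D t (n' + 1) i j)

end Pool.Agent.VDK
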