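import Pool.Agent.VDK.T2

/-!
# VDK-DEC: decomposition of complexes with finite-dimensional cohomology
-/

set_option autoImplicit false
set_option linter.unusedVariables false

open CategoryTheory CategoryTheory.Limits Pretriangulated MvPolynomial Pool.Agent.VDC

noncomputable section

namespace Pool.Agent.VDK

section

variable {C : Type*} [Category C] [HasZeroObject C] [HasShift C ℤ] [Preadditive C]
  [∀ n : ℤ, (shiftFunctor C n).Additive] [Pretriangulated C]

lemma DEC_exact (T : Triangle C) (hT : T ∈ distTriang C) (m : ℤ) {X : C}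
    (x : X ⟶ (shiftFunctor C m).obj T.obj₃) (hx : x ≫ (shiftFunctor C m).map T.mor₃ = 0) :
    ∃ g : X ⟶ (shiftFunctor C m).obj T.obj₂, x = g ≫ (shiftFunctor C m).map T.mor₂ := by
  obtain ⟨g, hg⟩ : ∃ g : X ⟶ (shiftFunctor C m).obj T.obj₂,
      x = g ≫ (m.negOnePow • (shiftFunctor C m).map T.mor₂) :=
    Triangle.coyoneda_exact₃ _ (Triangle.shift_distinguished _ hT m) x (by
      show x ≫ (m.negOnePow • ((shiftFunctor C m).map T.mor₃ ≫
        (shiftFunctorComm C 1 m).hom.app T.obj₁)) = 0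
      rw [Linear.comp_units_smul, reassoc_of% hx, zero_comp, smul_zero])
  refine ⟨m.negOnePow • g, ?_⟩
  rw [hg, Linear.comp_units_smul, Linear.units_smul_comp]

lemma DEC_surj (T : Triangle C) (hT : T ∈ distTriang C) (m : ℤ) {X : C}
    (hi : ∀ y : X ⟶ (shiftFunctor C (m + 1)).obj T.obj₁,
      y ≫ (shiftFunctor C (m + 1)).map T.mor₁ = 0 → y = 0)
    (x : X ⟶ (shiftFunctor C m).obj T.obj₃) :
    ∃ g : X ⟶ (shiftFunctor C m).obj T.obj₂, g ≫ (shiftFunctor C m).map T.mor₂ = x := by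
  obtain ⟨g, hg⟩ := DEC_exact T hT m x (by
    have h1 := hi (x ≫ (shiftFunctor C m).map T.mor₃ ≫
      (shiftFunctorAdd' C 1 m (m + 1) (by ring)).inv.app T.obj₁) (by
        have h2 := (shiftFunctorAdd' C 1 m (m + 1) (by ring)).inv.naturality T.mor₁
        rw [Category.assoc, Category.assoc, ← h2]
        show x ≫ (shiftFunctor C m).map T.mor₃ ≫
          (shiftFunctor C m).map ((shiftFunctor C (1 : ℤ)).map T.mor₁) ≫ _ = 0
        rw [← Functor.map_comp_assoc, comp_distTriang_mor_zero₃₁ T hT, Functor.map_zero,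
          zero_comp, comp_zero])
    rw [← Category.assoc] at h1
    rw [← cancel_mono ((shiftFunctorAdd' C 1 m (m + 1) (by ring)).inv.app T.obj₁), h1,
      zero_comp])
  exact ⟨g, hg.symm⟩

end

/-- the dimension of `H^n(W)_d` -/
def DEC_r (f : Sr) [H6 f] (W : KK (gZ f)) (p : ℤ × ℤ) : ℕ :=
  Module.finrank ℂ (OK (gZ f) (-p.2) ⟶ (shiftFunctor (KK (gZ f)) p.1).obj W)

lemma DEC_fr {V V' : Type*} [AddCommGroup V] [Module ℂ V] [AddCommGroup V'] [Module ℂ V']
    [Module.Finite ℂ V] (L : V →ₗ[ℂ] V') (hL : Function.Surjective L) :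
    Module.finrank ℂ V' ≤ Module.finrank ℂ V ∧
      ((∃ x, x ≠ 0 ∧ L x = 0) → Module.finrank ℂ V' < Module.finrank ℂ V) := by
  have h1 := L.finrank_range_add_finrank_ker
  have h2 : Module.finrank ℂ (LinearMap.range L) = Module.finrank ℂ V' := by
    rw [LinearMap.range_eq_top.2 hL, finrank_top]
  refine ⟨by omega, ?_⟩
  rintro ⟨x, hx, hx'⟩
  have h3 : 0 < Module.finrank ℂ (LinearMap.ker L) := by
    have : Nontrivial (LinearMap.ker L) :=
      ⟨⟨⟨x, hx'⟩, 0, fun h => hx (congrArg Subtype.val h)⟩⟩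
    exact Module.finrank_pos
  omega

theorem p_DEC (h_DES : T_DES) (h_TPK : T_TPK) (h_FIN : T_FIN) (h_GFN : T_GFN) : T_DEC := by
  intro f _ D G hG hGi hP
  have hfin : ∀ (W : KK (gZ f)) (n d : ℤ),
      Module.Finite ℂ (OK (gZ f) (-d) ⟶ (shiftFunctor (KK (gZ f)) n).obj W) :=
    h_FIN _ (gZ f) (h_GFN f)
  have key : ∀ (N : ℕ) (W : KK (gZ f)), Tors (gZ f) W → ∀ S : Finset (ℤ × ℤ),
      (∀ p : ℤ × ℤ, -1 ≤ p.2 → ¬ CohZero W p.1 p.2 → p ∈ S) →
      ∑ p ∈ S, DEC_r f W p < N → (Tors (gZ f) ⊓ G).extensionProduct (Low (gZ f)) W := by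
    intro N
    induction N with
    | zero => exact fun W _ S _ h => absurd h (Nat.not_lt_zero _)
    | succ N ih =>
      intro W hW S hS hN
      by_cases hL : Low (gZ f) W
      · exact ObjectProperty.le_extensionProduct_right _ _ hL
      obtain ⟨t, n, φ, ht, hinj, m₀, e₀, he₀, y₀, hy₀⟩ := h_DES f D W hW hL
      obtain ⟨W', ψ, δ, hT⟩ := distinguished_cocone_triangle φ
      have hP' : (Tors (gZ f) ⊓ G) ((shiftFunctor (KK (gZ f)) n).obj
          ((qK (gZ f)).obj (PK D t))) :=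
        ObjectProperty.le_shift _ n _ ⟨h_TPK f D t, hP t ht⟩
      have hW' : Tors (gZ f) W' :=
        (Tors (gZ f)).ext_of_isTriangulatedClosed₃ _ hT hP'.1 hW
      have hsur : ∀ (m e : ℤ) (x : OK (gZ f) (-e) ⟶ (shiftFunctor (KK (gZ f)) m).obj W'),
          ∃ g : OK (gZ f) (-e) ⟶ (shiftFunctor (KK (gZ f)) m).obj W,
            g ≫ (shiftFunctor (KK (gZ f)) m).map ψ = x := fun m e x =>
        DEC_surj _ hT m (hinj (m + 1) e) x
      have hle : ∀ p : ℤ × ℤ, DEC_r f W' p ≤ DEC_r f W p := fun p => by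
        have := hfin W p.1 p.2
        exact (DEC_fr (Linear.rightComp ℂ (OK (gZ f) (-p.2))
          ((shiftFunctor (KK (gZ f)) p.1).map ψ)) (hsur p.1 p.2)).1
      have hlt : DEC_r f W' (m₀, e₀) < DEC_r f W (m₀, e₀) := by
        have := hfin W m₀ e₀
        refine (DEC_fr (Linear.rightComp ℂ (OK (gZ f) (-e₀))
          ((shiftFunctor (KK (gZ f)) m₀).map ψ)) (hsur m₀ e₀)).2
            ⟨y₀ ≫ (shiftFunctor (KK (gZ f)) m₀).map φ, hy₀, ?_⟩
        show (y₀ ≫ (shiftFunctor (KK (gZ f)) m₀).map φ) ≫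
          (shiftFunctor (KK (gZ f)) m₀).map ψ = 0
        have h0 : φ ≫ ψ = 0 := comp_distTriang_mor_zero₁₂ _ hT
        rw [Category.assoc, ← Functor.map_comp, h0, Functor.map_zero, comp_zero]
      have hmem : (m₀, e₀) ∈ S := hS (m₀, e₀) he₀ fun h => hy₀ (h _)
      have hsum : ∑ p ∈ S, DEC_r f W' p < ∑ p ∈ S, DEC_r f W p :=
        Finset.sum_lt_sum (fun p _ => hle p) ⟨_, hmem, hlt⟩
      have hS' : ∀ p : ℤ × ℤ, -1 ≤ p.2 → ¬ CohZero W' p.1 p.2 → p ∈ S := fun p hp h =>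
        hS p hp fun h' => h fun x => by
          obtain ⟨g, rfl⟩ := hsur p.1 p.2 x
          rw [h' g, zero_comp]
      have hE := ih W' hW' S hS' (by omega)
      have h3 : (Tors (gZ f) ⊓ G).extensionProduct
          ((Tors (gZ f) ⊓ G).extensionProduct (Low (gZ f))) W :=
        ⟨_, _, _, _, _, hT, hP', hE⟩
      rw [← ObjectProperty.extensionProduct_assoc] at h3
      exact ObjectProperty.monotone_extensionProduct_left _
        (ObjectProperty.extensionProduct_le_of_isTriangulatedClosed₂ le_rfl le_rfl) _ h3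
  intro W hW
  classical
  refine key _ W hW hW.2.toFinset (fun p _ hp => ?_) (Nat.lt_succ_self _)
  rw [Set.Finite.mem_toFinset]
  exact hp

end Pool.Agent.VDK
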