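import Pool.Agent.VDK.T2

/-!
# VDK-DES: the first step of the decomposition
-/

set_option autoImplicit false
set_option linter.unusedVariables false

open CategoryTheory CategoryTheory.Limits Pretriangulated MvPolynomial Pool.Agent.VDC

noncomputable section

namespace Pool.Agent.VDK

namespace DES_

lemma exists_min (S : Set (ℤ × ℤ)) (hS : S.Finite) (hne : S.Nonempty) :
    ∃ n d : ℤ, (n, d) ∈ S ∧ (∀ n' d' : ℤ, n' < n → (n', d') ∉ S) ∧
      ∀ d' : ℤ, d < d' → (n, d') ∉ S := by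
  obtain ⟨⟨n, d⟩, hp, hmin⟩ := Set.exists_min_image S
    (fun p : ℤ × ℤ => (toLex (p.1, -p.2) : ℤ ×ₗ ℤ)) hS hne
  refine ⟨n, d, hp, fun n' d' hn h => ?_, fun d' hd h => ?_⟩
  · have h1 := hmin _ h
    rw [Prod.Lex.toLex_le_toLex] at h1
    simp only at h1
    lia
  · have h1 := hmin _ h
    rw [Prod.Lex.toLex_le_toLex] at h1
    simp only at h1
    lia

end DES_

open DES_ in
theorem p_DES (hPEX : T_PEX) (hHPK : T_HPK) (hACZ : T_ACZ) (hGPK : T_GPK) : T_DES := by
  intro f _ D W hW hL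
  obtain ⟨hb, hfin⟩ := hW
  -- choose `n` minimal and then `d` maximal
  obtain ⟨n, d, hnd, hn, hd⟩ := exists_min
    ({p : ℤ × ℤ | ¬ CohZero W p.1 p.2} ∩ {p | -1 ≤ p.2}) (hfin.inter_of_left _) (by
      unfold Low at hL
      push Not at hL
      obtain ⟨n, d, h1, h2⟩ := hL
      exact ⟨(n, d), h2, h1⟩)
  obtain ⟨hnz, hd1⟩ := hnd
  have hnz' : ¬ CohZero W n d := hnz
  have hd1' : -1 ≤ d := hd1
  have hlow : ∀ n' d' : ℤ, n' < n → -1 ≤ d' → CohZero W n' d' := by
    intro n' d' h1 h2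
    by_contra h
    exact hn n' d' h1 ⟨h, h2⟩
  have hhigh : ∀ d' : ℤ, d < d' → CohZero W n d' := by
    intro d' h1
    by_contra h
    exact hd d' h1 ⟨h, show -1 ≤ d' by lia⟩
  unfold CohZero at hnz'
  push Not at hnz'
  obtain ⟨x, hx⟩ := hnz'
  obtain ⟨g, φ', hg⟩ := hPEX f D (-d) ((shiftFunctor (KK (gZ f)) n).obj W)
    (fun n' hn' d' hd' => (hlow (n + n') d' (by lia) (by lia)).shift)
    (fun d' hd' => (show CohZero W (n + 0) d' by
      rw [add_zero]; exact hhigh d' (by lia)).shift) x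
  let P : KK (gZ f) := (qK (gZ f)).obj (PK D (-d))
  let S : ℤ → KK (gZ f) ⥤ KK (gZ f) := fun k => shiftFunctor (KK (gZ f)) k
  let αW : (S (-n)).obj ((S n).obj W) ⟶ W :=
    (shiftFunctorCompIsoId (KK (gZ f)) n (-n) (by lia)).hom.app W
  let β := shiftFunctorCompIsoId (KK (gZ f)) (-n) n (by lia)
  let φ : (S (-n)).obj P ⟶ W := (S (-n)).map φ' ≫ αW
  have hβ : (S n).map ((S (-n)).map φ') ≫ β.hom.app ((S n).obj W) = β.hom.app P ≫ φ' :=
    β.hom.naturality φ'
  have key : ∀ y : OK (gZ f) (-d) ⟶ (S n).obj ((S (-n)).obj P),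
      y ≫ (S n).map φ = 0 ↔ (y ≫ β.hom.app P) ≫ φ' = 0 := by
    intro y
    have e1 : (S n).map φ = (S n).map ((S (-n)).map φ') ≫ (S n).map αW := (S n).map_comp _ _
    have i1 : IsIso αW := inferInstance
    have i2 : IsIso ((S n).map αW) := inferInstance
    rw [e1, Category.assoc, ← hβ, ← Category.assoc, ← Category.assoc]
    constructor
    · intro h
      have h2 : y ≫ (S n).map ((S (-n)).map φ') = 0 := by
        rw [← cancel_mono ((S n).map αW), h, zero_comp]
      rw [h2, zero_comp]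
    · intro h
      have h2 : y ≫ (S n).map ((S (-n)).map φ') = 0 := by
        rw [← cancel_mono (β.hom.app ((S n).obj W)), h, zero_comp]
      rw [h2, zero_comp]
  obtain ⟨g₀, hg₀⟩ := hGPK f D (-d)
  have hg₀φ : g₀ ≫ φ' ≠ 0 := by
    intro h
    obtain ⟨c, hc⟩ := hg₀ g
    apply hx
    rw [← hg, hc, Linear.smul_comp, h, smul_zero]
  refine ⟨-d, -n, φ, by lia, ?_, ?_⟩
  · intro m e y hy
    by_cases hme : m = n ∧ e = d
    · obtain ⟨rfl, rfl⟩ := hme
      have h1 := (key y).1 hy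
      obtain ⟨c, hc⟩ := hg₀ (y ≫ β.hom.app P)
      rw [hc, Linear.smul_comp] at h1
      have hc0 : c = 0 := by
        by_contra hc0
        exact hg₀φ ((smul_eq_zero.1 h1).resolve_left hc0)
      rw [hc0, zero_smul] at hc
      rw [← cancel_mono (β.hom.app P), hc, zero_comp]
    · have h1 : CohZero P (-n + m) e := (hACZ _ _ _ _ _).2 (hHPK f D (-d) (-n + m) e (by lia))
      exact h1.shift y
  · refine ⟨n, d, hd1', g ≫ β.inv.app P, ?_⟩
    intro h
    have h1 := (key (g ≫ β.inv.app P)).1 h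
    have h2 : (g ≫ β.inv.app P) ≫ β.hom.app P = g := by
      refine (Category.assoc _ _ _).trans ?_
      refine (congrArg (fun z => g ≫ z) (β.inv_hom_id_app P)).trans ?_
      exact Category.comp_id g
    apply hx
    rw [← hg, ← h1]
    exact congrArg (fun z => z ≫ φ') h2.symm

end Pool.Agent.VDK
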