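import Pool.Agent.VDK.T1

/-!
# VDK-EQI: quasi-isomorphisms of bounded above complexes

A quasi-isomorphism of bounded above complexes of graded free modules is an isomorphism in the
homotopy category.
-/

set_option autoImplicit false
set_option linter.unusedVariables false

open CategoryTheory CategoryTheory.Limits Pretriangulated

noncomputable section

namespace Pool.Agent.VDK

namespace EQI_

open CochainComplex

variable {A : Type} [CommRing A] [Algebra ℂ A] {𝒜 : ℤ → Submodule ℂ A} [SetLike.GradedMonoid 𝒜]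
  {N W : CochainComplex (GF 𝒜) ℤ}

/-- the mapping cone of a quasi-isomorphism is acyclic -/
lemma cone_acy (φ : N ⟶ W)
    (h₁ : ∀ (n d : ℤ) (x : GF.tw 𝒜 (-d) ⟶ N.X n), x ≫ N.d n (n + 1) = 0 →
      (∃ y : GF.tw 𝒜 (-d) ⟶ W.X (n - 1), y ≫ W.d (n - 1) n = x ≫ φ.f n) →
      ∃ y : GF.tw 𝒜 (-d) ⟶ N.X (n - 1), y ≫ N.d (n - 1) n = x)
    (h₂ : ∀ (n d : ℤ) (y : GF.tw 𝒜 (-d) ⟶ W.X n), y ≫ W.d n (n + 1) = 0 →
      ∃ x : GF.tw 𝒜 (-d) ⟶ N.X n, x ≫ N.d n (n + 1) = 0 ∧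
        ∃ w : GF.tw 𝒜 (-d) ⟶ W.X (n - 1), w ≫ W.d (n - 1) n = y - x ≫ φ.f n)
    (n d : ℤ) : Acy (mappingCone φ) n d := by
  have h₁' : ∀ (m n : ℤ) (hm : n - 1 = m) (d : ℤ) (x : GF.tw 𝒜 (-d) ⟶ N.X n),
      x ≫ N.d n (n + 1) = 0 →
      (∃ y : GF.tw 𝒜 (-d) ⟶ W.X m, y ≫ W.d m n = x ≫ φ.f n) →
      ∃ y : GF.tw 𝒜 (-d) ⟶ N.X m, y ≫ N.d m n = x := by
    rintro m n rfl d x hx hy
    exact h₁ n d x hx hy
  intro z hz
  obtain ⟨a, ea⟩ : ∃ a, a = z ≫ (mappingCone.fst φ).1.v n (n + 1) rfl := ⟨_, rfl⟩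
  obtain ⟨b, eb⟩ : ∃ b, b = z ≫ (mappingCone.snd φ).v n n (add_zero n) := ⟨_, rfl⟩
  have ha : a ≫ N.d (n + 1) (n + 1 + 1) = 0 := by
    have h := mappingCone.d_fst_v φ n (n + 1) (n + 1 + 1) rfl rfl
    have h' : z ≫ (mappingCone φ).d n (n + 1) ≫
        (mappingCone.fst φ).1.v (n + 1) (n + 1 + 1) rfl = 0 := by
      rw [← Category.assoc, hz, zero_comp]
    rw [h, Preadditive.comp_neg, neg_eq_zero, ← Category.assoc, ← ea] at h'
    exact h'
  have hb : a ≫ φ.f (n + 1) + b ≫ W.d n (n + 1) = 0 := by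
    have h := mappingCone.d_snd_v φ n (n + 1) rfl
    have h' : z ≫ (mappingCone φ).d n (n + 1) ≫
        (mappingCone.snd φ).v (n + 1) (n + 1) (add_zero _) = 0 := by
      rw [← Category.assoc, hz, zero_comp]
    rw [h, Preadditive.comp_add, ← Category.assoc, ← Category.assoc, ← ea, ← eb] at h'
    exact h'
  obtain ⟨a', ha'⟩ := h₁' n (n + 1) (by lia) d a ha ⟨-b, by
    rw [Preadditive.neg_comp, neg_eq_iff_add_eq_zero, add_comm (b ≫ _)]
    exact hb⟩
  obtain ⟨x, hx, w, hw⟩ := h₂ n d (b + a' ≫ φ.f n) (by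
    rw [Preadditive.add_comp, Category.assoc, φ.comm, ← Category.assoc, ha',
      add_comm (b ≫ _)]
    exact hb)
  refine ⟨-((a' - x) ≫ (mappingCone.inl φ).v n (n - 1) (by lia)) +
    w ≫ (mappingCone.inr φ).f (n - 1), ?_⟩
  rw [Preadditive.add_comp, Preadditive.neg_comp, Category.assoc, Category.assoc,
    mappingCone.inl_v_d φ n (n - 1) (n + 1) (by lia) (by lia), mappingCone.inr_f_d,
    ← Category.assoc w, hw, Preadditive.comp_sub, ← Category.assoc (a' - x),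
    ← Category.assoc (a' - x), Preadditive.sub_comp a' x (N.d n (n + 1)), ha', hx, sub_zero]
  have hid := mappingCone.id_X φ n (n + 1) rfl
  have hz' : z = a ≫ (mappingCone.inl φ).v (n + 1) n (by lia) +
      b ≫ (mappingCone.inr φ).f n := by
    rw [ea, eb, Category.assoc, Category.assoc, ← Preadditive.comp_add]
    rw [hid, Category.comp_id]
  rw [hz']
  simp only [Preadditive.sub_comp, Preadditive.add_comp, Category.assoc]
  abel

end EQI_

open EQI_ in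
/-- `T_EQI` -/
theorem p_EQI (hA : T_ACZ) (hH : T_HTD) : T_EQI := by
  intro A _ _ 𝒜 _ N W n₀ hN hW φ h₁ h₂
  have hK : (CochainComplex.mappingCone φ).IsStrictlyLE n₀ :=
    isStrictlyLE_mappingCone φ n₀ n₀ n₀ le_rfl le_rfl
  have h0 : IsZero ((qK 𝒜).obj (CochainComplex.mappingCone φ)) := by
    rw [IsZero.iff_id_eq_zero]
    exact hH A 𝒜 _ n₀ _ hK (fun n i => (hA A 𝒜 _ n _).2 (cone_acy φ h₁ h₂ n _)) _
  exact (Triangle.isZero₃_iff_isIso₁ _
    (HomotopyCategory.mappingCone_triangleh_distinguished φ)).1 h0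

end Pool.Agent.VDK
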