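import Pool.Agent.VDK.T2

/-!
# VDK, job ESS
-/

set_option autoImplicit false
set_option linter.unusedVariables false

open CategoryTheory CategoryTheory.Limits Pretriangulated MvPolynomial Pool.Agent.VDC
open scoped ZeroObject

universe v v' u u'

noncomputable section

namespace Pool.Agent.VDK

lemma ESS_.inv {C : Type u} [Category.{v} C] [HasZeroObject C] [HasShift C ℤ] [Preadditive C]
    [∀ n : ℤ, (shiftFunctor C n).Additive] [Pretriangulated C]
    {D : Type u'} [Category.{v'} D] [HasZeroObject D] [HasShift D ℤ] [Preadditive D]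
    [∀ n : ℤ, (shiftFunctor D n).Additive] [Pretriangulated D]
    (P : ObjectProperty C) [P.IsTriangulated] [P.IsClosedUnderIsomorphisms]
    (F : D ⥤ C) [F.CommShift ℤ] [F.IsTriangulated] : (P.inverseImage F).IsTriangulated :=
  inferInstance

lemma ESS_.psi_additive (f : Sr) [H6 f] : (Psi f).Additive :=
  inferInstanceAs (Cper f ⋙ Tge (gZ f) 1).Additive

lemma ESS_.psiD_additive (f : Sr) [H6 f] (h : ∀ F : CM f, Dgr (gZ f) ((Psi f).obj F)) :
    (PsiD f h).Additive where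
  map_add := by
    intro X Y a b
    have := ESS_.psi_additive f
    apply (Dgr (gZ f)).ι.map_injective
    exact ((Psi f).map_add (f := a) (g := b)).trans
      ((Dgr (gZ f)).ι.map_add (f := (PsiD f h).map a) (g := (PsiD f h).map b)).symm

lemma ESS_.theta_additive (f : Sr) [H6 f] (h : ∀ F : CM f, Dgr (gZ f) ((Psi f).obj F)) :
    (Theta f h).Additive := by
  have := ESS_.psiD_additive f h
  exact inferInstanceAs (PsiD f h ⋙ (TorsGr (gZ f)).trW.Q).Additive

lemma ESS_.theta_std (h1 : T_TRC) (h2 : T_STG.{0, 0}) (h2' : T_STG.{0, 1}) (h3 : T_STL.{0})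
    (f : Sr) [H6 f] (h : ∀ F : CM f, Dgr (gZ f) ((Psi f).obj F)) : Std (Theta f h) := by
  have a : Std (Psi f) := h2 f (KK (gZ f)) (KK (gZ f)) (Cper f) (Tge (gZ f) 1) (h1 f)
  have b : Std (PsiD f h) := h3 f (KK (gZ f)) (Dgr (gZ f)) (Psi f) h a
  exact h2' f (DbGr (gZ f)) (DbCoh (gZ f)) (PsiD f h) (TorsGr (gZ f)).trW.Q b

theorem p_ESS (h1 : T_TRC) (h2 : T_STG.{0, 0}) (h2' : T_STG.{0, 1}) (h3 : T_STL.{0})
    (h4 : T_SOD) (h5 : T_IMG) (h6 : T_LFF) (h7 : T_LOR) (h8 : T_HUL) : T_ESS := by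
  intro f _ D h E hE
  have hadd := ESS_.theta_additive f h
  have hfull : ∀ X Y : CM f, Function.Surjective ((Theta f h).map : (X ⟶ Y) → _) :=
    fun X Y => (h6 f D h X Y).2
  have htri : (Theta f h).essImage.IsTriangulated :=
    h5 f (DbCoh (gZ f)) (Theta f h) (ESS_.theta_std h1 h2 h2' h3 f h) hadd hfull
  have hle : (Theta f h).essImage ≤ Orth (OY (gZ f) 0) ⊓ Orth (OY (gZ f) 1) := by
    rintro X ⟨F, ⟨e⟩⟩
    exact (Orth (OY (gZ f) 0) ⊓ Orth (OY (gZ f) 1)).prop_of_iso e (h7 f D h F)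
  have key := h4 (DbCoh (gZ f)) (Theta f h).essImage (OY (gZ f) 0) (OY (gZ f) 1) hle ?_
  · obtain ⟨F, ⟨e⟩⟩ := key E hE
    exact ⟨F, ⟨e⟩⟩
  · intro G hG hGi hS hG0 hG1 X
    have hes : (TorsGr (gZ f)).trW.Q.EssSurj :=
      Localization.essSurj (TorsGr (gZ f)).trW.Q (TorsGr (gZ f)).trW
    obtain ⟨C, ⟨e⟩⟩ := hes.mem_essImage X
    refine G.prop_of_iso e ?_
    have hQ : (G.inverseImage (TorsGr (gZ f)).trW.Q).IsTriangulated :=
      ESS_.inv G (TorsGr (gZ f)).trW.Q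
    refine h8 f D h (G.inverseImage (TorsGr (gZ f)).trW.Q) hQ inferInstance ?_ ?_ hG0 hG1 C
    · intro T hT
      have hw : (TorsGr (gZ f)).trW (0 : (0 : DbGr (gZ f)) ⟶ T) :=
        ObjectProperty.trW.mk _ (contractible_distinguished₁ T) hT
      have hiso : IsIso ((TorsGr (gZ f)).trW.Q.map (0 : (0 : DbGr (gZ f)) ⟶ T)) :=
        Localization.inverts (TorsGr (gZ f)).trW.Q (TorsGr (gZ f)).trW _ hw
      have hz : IsZero ((TorsGr (gZ f)).trW.Q.obj (0 : DbGr (gZ f))) :=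
        Functor.map_isZero _ (isZero_zero _)
      exact G.prop_of_iso (asIso ((TorsGr (gZ f)).trW.Q.map (0 : (0 : DbGr (gZ f)) ⟶ T)))
        (G.prop_of_isZero hz)
    · intro F
      exact hS _ ⟨F, ⟨Iso.refl _⟩⟩

end Pool.Agent.VDK
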