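import Pool.Agent.VDK.T1

/-!
# VDK, target `T_EX0`: acyclicity in terms of matrices over `S`
-/

set_option autoImplicit false
set_option linter.unusedVariables false

open CategoryTheory CategoryTheory.Limits Pretriangulated MvPolynomial Pool.Agent.VDC

noncomputable section

namespace Pool.Agent.VDK

namespace EX0_

lemma um_mul {f : Sr} {ι κ μ : Type} [Fintype κ] (M : Matrix ι κ (RR f))
    (X₁ X₂ : Matrix κ μ Sr) :
    um M * Matrix.fromRows X₁ X₂ =
      Matrix.fromRows (reM (M * rm f X₁ X₂)) (imM (M * rm f X₁ X₂)) := by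
  have h : M * rm f X₁ X₂ =
      rm f (reM M * X₁ - f • (imM M * X₂)) (reM M * X₂ + imM M * X₁) := by
    rw [← rm_mul, rm_eta]
  rw [h, reM_rm, imM_rm, um, Matrix.fromBlocks_mul_fromRows]
  congr 1
  · rw [Matrix.neg_mul, Matrix.smul_mul, sub_eq_add_neg]
  · rw [add_comm]

lemma acy {f : Sr} [H6 f] (C : CochainComplex (GF (gZ f)) ℤ) (k d : ℤ) (h : Acy C (k + 1) d)
    (x : GF.tw (gZ f) (-d) ⟶ C.X (k + 1)) (hx : x ≫ C.d (k + 1) (k + 1 + 1) = 0) :
    ∃ y : GF.tw (gZ f) (-d) ⟶ C.X k, y ≫ C.d k (k + 1) = x := by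
  have h1 := h x hx
  have h2 : ∀ m : ℤ, m = k → (∃ y : GF.tw (gZ f) (-d) ⟶ C.X m, y ≫ C.d m (k + 1) = x) →
      ∃ y : GF.tw (gZ f) (-d) ⟶ C.X k, y ≫ C.d k (k + 1) = x := by
    rintro m rfl hm
    exact hm
  exact h2 _ (by ring) h1

end EX0_

open EX0_ in
theorem p_EX0 : T_EX0 := by
  intro f _ C k hC P ρ x hx hx0
  -- the column `j` as a map
  have hcol : ∀ j : P.ι, ∃ y : GF.tw (gZ f) (-(P.deg j + ρ)) ⟶ C.X k,
      ∀ i, mat (y ≫ C.d k (k + 1)) i () = ⟨x (Sum.inl i) j, x (Sum.inr i) j⟩ := by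
    intro j
    let c : GF.tw (gZ f) (-(P.deg j + ρ)) ⟶ C.X (k + 1) :=
      ofm (rm f (Matrix.of fun i _ => x (Sum.inl i) j) (Matrix.of fun i _ => x (Sum.inr i) j)) (by
        intro i u
        constructor
        · refine (hx (Sum.inl i) j).congr ?_
          show P.deg j + ρ - (C.X (k + 1)).deg i = - -(P.deg j + ρ) - (C.X (k + 1)).deg i
          ring
        · refine (hx (Sum.inr i) j).congr ?_
          show P.deg j + ρ - ((C.X (k + 1)).deg i + 3) =
            - -(P.deg j + ρ) - (C.X (k + 1)).deg i - 3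
          ring)
    have hc : c ≫ C.d (k + 1) (k + 1 + 1) = 0 := by
      apply gf_ext
      rw [mat_comp, mat_zero]
      have h1 := um_mul (mat (C.d (k + 1) (k + 1 + 1)))
        (Matrix.of fun i (_ : Unit) => x (Sum.inl i) j)
        (Matrix.of fun i (_ : Unit) => x (Sum.inr i) j)
      have h2 : ∀ i u, (um (mat (C.d (k + 1) (k + 1 + 1))) *
          Matrix.fromRows (Matrix.of fun i (_ : Unit) => x (Sum.inl i) j)
            (Matrix.of fun i (_ : Unit) => x (Sum.inr i) j)) i u = 0 := by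
        intro i u
        have h3 := hx0 i j
        rw [Ideal.mem_bot, Matrix.mul_apply] at h3
        rw [Matrix.mul_apply]
        refine Eq.trans (Finset.sum_congr rfl fun l _ => ?_) h3
        rcases l with l | l <;> rfl
      rw [h1] at h2
      refine Matrix.ext fun i u => QuadraticAlgebra.ext ?_ ?_
      · exact h2 (Sum.inl i) u
      · exact h2 (Sum.inr i) u
    obtain ⟨y, hy⟩ := acy C k _ (hC _) c hc
    exact ⟨y, fun i => by rw [hy]; rfl⟩
  choose y hy using hcol
  let Y : Matrix (C.X k).ι P.ι (RR f) := Matrix.of fun i j => mat (y j) i ()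
  refine ⟨Matrix.fromRows (reM Y) (imM Y), ?_, ?_⟩
  · rintro (i | i) j
    · have := (mat_mem (y j) i ()).1
      refine this.congr ?_
      show - -(P.deg j + ρ) - (C.X k).deg i = P.deg j + ρ - (C.X k).deg i
      ring
    · have := (mat_mem (y j) i ()).2
      refine this.congr ?_
      show - -(P.deg j + ρ) - (C.X k).deg i - 3 = P.deg j + ρ - ((C.X k).deg i + 3)
      ring
  · have h1 : um (mat (C.d k (k + 1))) * Matrix.fromRows (reM Y) (imM Y) = x := by
      rw [um_mul, rm_eta]
      have h2 : ∀ i j, (mat (C.d k (k + 1)) * Y) i j = ⟨x (Sum.inl i) j, x (Sum.inr i) j⟩ := by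
        intro i j
        rw [← hy j i, mat_comp, Matrix.mul_apply, Matrix.mul_apply]
        rfl
      refine Matrix.ext fun i j => ?_
      rcases i with i | i
      · show ((mat (C.d k (k + 1)) * Y) i j).re = _
        rw [h2]
      · show ((mat (C.d k (k + 1)) * Y) i j).im = _
        rw [h2]
    intro i j
    rw [h1, sub_self]
    exact Ideal.zero_mem _

end Pool.Agent.VDK
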