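import Pool.Agent.VDK.T1
import Pool.Agent.VDC.P_DIV
import Pool.Agent.VDC.P_CMP

/-! EXS: exactness modulo one more regular element. -/

set_option autoImplicit false

open MvPolynomial Pool.Agent.VDC

noncomputable section

namespace Pool.Agent.VDK

namespace EXS_

lemma im_mul {I : Ideal Sr} {ι κ μ : Type} [Fintype ι] (t : Matrix μ ι Sr) {g : Matrix ι κ Sr}
    (h : g ∈ IM I ι κ) : t * g ∈ IM I μ κ := by
  intro i j
  rw [Matrix.mul_apply]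
  exact Ideal.sum_mem _ fun k _ => I.mul_mem_left _ (h k j)

lemma im_lsmul {I : Ideal Sr} {ι κ : Type} (l : Sr) {g : Matrix ι κ Sr}
    (h : g ∈ IM I ι κ) : l • g ∈ IM I ι κ := by
  intro i j
  rw [Matrix.smul_apply, smul_eq_mul]
  exact I.mul_mem_left _ (h i j)

lemma hm_mul {X Y Z : PO} {a b c : ℤ} {g : Matrix Y.ι X.ι Sr} {h : Matrix Z.ι Y.ι Sr}
    (hg : g ∈ HM X Y a) (hh : h ∈ HM Y Z b) (hc : b + a = c) : h * g ∈ HM X Z c := by
  intro i j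
  rw [Matrix.mul_apply]
  exact Hmg.sum fun k _ => ((hh i k).mul (hg k j)).congr (by lia)

lemma hm_lsmul {X Y : PO} {a m c : ℤ} {g : Matrix Y.ι X.ι Sr} {p : Sr} (hp : Hmg p m)
    (hg : g ∈ HM X Y a) (hc : m + a = c) : p • g ∈ HM X Y c := by
  intro i j
  rw [Matrix.smul_apply, smul_eq_mul]
  exact (hp.mul (hg i j)).congr (by lia)

end EXS_

open EXS_ in
theorem p_EXS : T_EXS := by
  intro I l e hI hl hnz K₁ K₂ K₃ K₄ δ₁ δ₂ δ₃ h₁ h₂ h₃ h32 ex₁ ex₂ P ρ x hx hxI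
  obtain ⟨u, hu, hu2⟩ := p_DIV p_CMP P K₃ I l e ρ hI hl (δ₂ * x)
    (hm_mul hx h₂ (by ring)) hxI
  have hlu : l • (δ₃ * u) ∈ IM I K₄.ι P.ι := by
    have h := im_mul δ₃ hu2
    rw [Matrix.mul_sub, ← Matrix.mul_assoc, h32, Matrix.zero_mul, zero_sub, Matrix.mul_smul] at h
    have h' := Submodule.neg_mem _ h
    rwa [neg_neg] at h'
  have h3u : δ₃ * u ∈ IM I K₄.ι P.ι := fun i j => hnz _ (hlu i j)
  obtain ⟨v, hv, hv2⟩ := ex₂ P (ρ - e) u hu h3u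
  have hx' : x - l • v ∈ HM P K₂ ρ := sub_mem hx (hm_lsmul hl hv (by ring))
  have hx'I : δ₂ * (x - l • v) ∈ IM I K₃.ι P.ι := by
    have h : δ₂ * (x - l • v) = (δ₂ * x - l • u) + l • (u - δ₂ * v) := by
      rw [Matrix.mul_sub, Matrix.mul_smul, smul_sub]
      abel
    rw [h]
    exact add_mem hu2 (im_lsmul l hv2)
  obtain ⟨y, hy, hy2⟩ := ex₁ P ρ (x - l • v) hx' hx'I
  refine ⟨y, hy, ?_⟩
  have h : x - δ₁ * y = (x - l • v - δ₁ * y) + l • v := by abel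
  rw [h]
  refine add_mem ?_ ?_
  · intro i j
    exact Ideal.mem_sup_left (hy2 i j)
  · intro i j
    rw [Matrix.smul_apply, smul_eq_mul]
    exact Ideal.mem_sup_right (Ideal.mem_span_singleton.2 ⟨v i j, rfl⟩)

end Pool.Agent.VDK
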