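import Pool.Agent.VDK.T1
import Pool.Agent.VDC.P_MINS
import Pool.Agent.VDC.P_MNZ
import Pool.Agent.VDC.P_MMEM
import Pool.Agent.VDC.P_CMP
import Pool.Agent.VDC.P_HSPAN

/-! EXV: exactness modulo all the variables. -/

set_option autoImplicit false

open MvPolynomial Pool.Agent.VDC

noncomputable section

namespace Pool.Agent.VDK

namespace EXV_

lemma hid (J : Finset (Fin 4)) : HId (mI J 1) := by
  refine (p_HSPAN p_CMP).1 _ ?_
  rintro p ⟨j, -, rfl⟩
  refine ⟨wt j, ?_⟩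
  show Hmg ((X j : Sr) ^ (1 : ℕ)) (wt j)
  rw [pow_one]
  exact Hmg.X j

lemma main (h1 : T_EXS) (K : ℤ → PO) (δ : ∀ n, Matrix (K (n + 1)).ι (K n).ι Sr)
    (hδ : ∀ n, δ n ∈ HM (K n) (K (n + 1)) 0) (hc : ∀ n, δ (n + 1) * δ n = 0)
    (J : Finset (Fin 4)) : ∀ n : ℤ,
    (∀ k, n ≤ k → k ≤ n + (J.card : ℤ) →
      ExI ⊥ (K k) (K (k + 1)) (K (k + 1 + 1)) (δ k) (δ (k + 1))) →
    ExI (mI J 1) (K n) (K (n + 1)) (K (n + 1 + 1)) (δ n) (δ (n + 1)) := by
  classical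
  induction J using Finset.induction_on with
  | empty =>
    intro n h
    rw [p_MINS.1]
    exact h n le_rfl (by simp)
  | insert r J hr ih =>
    intro n h
    rw [Finset.card_insert_of_notMem hr] at h
    rw [p_MINS.2]
    have hX : Hmg ((X r : Sr) ^ (1 : Fin 4 → ℕ) r) (wt r) := by
      show Hmg ((X r : Sr) ^ (1 : ℕ)) (wt r)
      rw [pow_one]
      exact Hmg.X r
    refine h1 (mI J 1) _ (wt r) (hid J) hX (p_MNZ p_MMEM J 1 r hr) (K n) (K (n + 1))
      (K (n + 1 + 1)) (K (n + 1 + 1 + 1)) (δ n) (δ (n + 1)) (δ (n + 1 + 1)) (hδ _) (hδ _)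
      (hδ _) (hc _) (ih n fun k hk hk' => h k hk ?_) (ih (n + 1) fun k hk hk' => h k ?_ ?_)
    · push_cast
      lia
    · lia
    · push_cast
      lia

end EXV_

theorem p_EXV (h1 : T_EXS) : T_EXV := by
  intro K δ hδ hc n h
  exact EXV_.main h1 K δ hδ hc Finset.univ n (fun k hk hk' => h k hk (by simpa using hk'))

end Pool.Agent.VDK
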