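import Pool.Agent.VDK.T1

/-!
# `Cper` is fully faithful
-/

set_option autoImplicit false
set_option linter.unusedVariables false

open CategoryTheory CategoryTheory.Limits Pretriangulated MvPolynomial Pool.Agent.VDC

noncomputable section

namespace Pool.Agent.VDK

namespace FFC_

/-- the sequence with `h 0 = 0` and `h (n + 1) = h n + c n` -/
def hs {G : Type} [AddCommGroup G] (c : ℤ → G) : ℤ → G
  | Int.ofNat n => ∑ i ∈ Finset.range n, c (Int.ofNat i)
  | Int.negSucc n => - ∑ i ∈ Finset.range (n + 1), c (Int.negSucc i)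

lemma hs_succ {G : Type} [AddCommGroup G] (c : ℤ → G) (n : ℤ) : hs c (n + 1) = hs c n + c n := by
  rcases n with n | n
  · show hs c (Int.ofNat (n + 1)) = _
    exact Finset.sum_range_succ _ _
  · rcases n with _ | n
    · show hs c (Int.ofNat 0) = hs c (Int.negSucc 0) + _
      show ∑ i ∈ Finset.range 0, c (Int.ofNat i) =
        - ∑ i ∈ Finset.range (0 + 1), c (Int.negSucc i) + c (Int.negSucc 0)
      simp
    · show hs c (Int.negSucc n) = hs c (Int.negSucc (n + 1)) + _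
      show - ∑ i ∈ Finset.range (n + 1), c (Int.negSucc i) =
        - ∑ i ∈ Finset.range (n + 1 + 1), c (Int.negSucc i) + c (Int.negSucc (n + 1))
      rw [Finset.sum_range_succ _ (n + 1), neg_add, neg_add_cancel_right]

lemma hs_ind {G : Type} [AddCommGroup G] (c : ℤ → G) (P : G → Prop) (h0 : P 0)
    (ha : ∀ a b, P a → P b → P (a + b)) (hn : ∀ a, P a → P (-a)) (hc : ∀ n, P (c n)) (n : ℤ) :
    P (hs c n) := by
  have h1 : ∀ (s : Finset ℕ) (d : ℕ → G), (∀ i, P (d i)) → P (∑ i ∈ s, d i) := fun s d hd =>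
    Finset.sum_induction d P ha h0 fun i _ => hd i
  rcases n with n | n
  · exact h1 _ _ fun i => hc _
  · exact hn _ (h1 _ _ fun i => hc _)

variable {f : Sr} [H6 f] {X Y : CM f}

/-- the matrix of a map between terms of periodic complexes -/
def mt {n k : ℤ} (s : (CF X).X n ⟶ (CF Y).X k) : Matrix Y.ι X.ι (RR f) := mat s

lemma mt_re {n k : ℤ} (s : (CF X).X n ⟶ (CF Y).X k) (i : Y.ι) (j : X.ι) :
    Hmg (reM (mt s) i j) (X.deg j - 3 * n - (Y.deg i - 3 * k)) := (mat_mem s i j).1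

lemma mt_im {n k : ℤ} (s : (CF X).X n ⟶ (CF Y).X k) (i : Y.ι) (j : X.ι) :
    Hmg (imM (mt s) i j) (X.deg j - 3 * n - (Y.deg i - 3 * k) - 3) := (mat_mem s i j).2

lemma mt_comp_d {n k m : ℤ} (s : (CF X).X n ⟶ (CF Y).X k) (h : k + 1 = m) :
    mt (s ≫ (CF Y).d k m) = dmat Y k * mt s := by
  subst h
  rw [CF_d]
  rfl

lemma mt_d_comp {n k m : ℤ} (s : (CF X).X n ⟶ (CF Y).X k) (h : m + 1 = n) :
    mt ((CF X).d m n ≫ s) = mt s * dmat X m := by
  subst h
  rw [CF_d]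
  rfl

lemma mt_add {n k : ℤ} (s t : (CF X).X n ⟶ (CF Y).X k) : mt (s + t) = mt s + mt t := rfl

lemma mt_sub {n k : ℤ} (s t : (CF X).X n ⟶ (CF Y).X k) : mt (s - t) = mt s - mt t := rfl

/-- a family of maps of degree `-3`, as a homotopy between periodic complexes -/
def ht (h : ℤ → Matrix Y.ι X.ι Sr) (hh : ∀ n i j, Hmg (h n i j) (X.deg j - 3 - Y.deg i)) (n k : ℤ)
    (hk : (ComplexShape.up ℤ).Rel k n) : (CF X).X n ⟶ (CF Y).X k :=
  ofm (X := perX X n) (Y := perX Y k) (rm f (h n) 0) fun i j =>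
    ⟨(hh n i j).congr (by
      have h1 : k + 1 = n := hk
      show _ = X.deg j - 3 * n - (Y.deg i - 3 * k)
      lia), Hmg.zero _⟩

lemma mt_ht (h : ℤ → Matrix Y.ι X.ι Sr) (hh : ∀ n i j, Hmg (h n i j) (X.deg j - 3 - Y.deg i))
    (n k : ℤ) (hk : (ComplexShape.up ℤ).Rel k n) : mt (ht h hh n k hk) = rm f (h n) 0 := rfl

/-- the homotopic map -/
lemma null_mat (h : ℤ → Matrix Y.ι X.ι Sr) (hh : ∀ n i j, Hmg (h n i j) (X.deg j - 3 - Y.deg i))
    (n : ℤ) :
    mt ((Homotopy.nullHomotopicMap' (c := ComplexShape.up ℤ) (ht h hh)).f n) =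
      rm f (h (n + 1) * X.Φ + Y.Φ * h n) (sg n • (h (n + 1) - h n)) := by
  obtain ⟨k, rfl⟩ : ∃ k, n = k + 1 := ⟨n - 1, by ring⟩
  rw [Homotopy.nullHomotopicMap'_f (c := ComplexShape.up ℤ) (k₂ := k)
      (k₁ := k + 1) (k₀ := k + 1 + 1) rfl rfl (ht h hh), mt_add, mt_d_comp _ rfl,
      mt_comp_d _ rfl, mt_ht, mt_ht]
  unfold dmat
  rw [rm_mul, rm_mul, rm_add, rm_inj, sg_succ]
  constructor
  · rw [Matrix.zero_mul, smul_zero, sub_zero, Matrix.mul_zero, smul_zero, sub_zero]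
  · rw [Matrix.zero_mul, Matrix.mul_zero, add_zero, zero_add, Matrix.mul_smul, Matrix.smul_mul,
      Matrix.mul_one, Matrix.one_mul, neg_smul, neg_smul, smul_sub]
    abel

/-- a chain map without `z`-part comes from a map of matrix factorisations -/
lemma strict (φ : CF X ⟶ CF Y) (h : ∀ n, imM (mt (φ.f n)) = 0) : ∃ g : mor X Y, φ = CFm g := by
  have h0 : ∀ n, mt (φ.f n) = rm f (reM (mt (φ.f n))) 0 := fun n => by
    conv_lhs => rw [← rm_eta (mt (φ.f n)), h n]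
  have h1 : ∀ n, Y.Φ * reM (mt (φ.f n)) = reM (mt (φ.f (n + 1))) * X.Φ ∧
      reM (mt (φ.f n)) = reM (mt (φ.f (n + 1))) := by
    intro n
    have h3 := congrArg mt (φ.comm n (n + 1))
    rw [mt_comp_d _ rfl, mt_d_comp _ rfl, h0 n, h0 (n + 1)] at h3
    unfold dmat at h3
    rw [rm_mul, rm_mul, rm_inj] at h3
    obtain ⟨h4, h5⟩ := h3
    rw [Matrix.mul_zero, smul_zero, sub_zero, Matrix.zero_mul, smul_zero, sub_zero] at h4
    rw [Matrix.mul_zero, zero_add, Matrix.zero_mul, add_zero, Matrix.mul_smul, Matrix.smul_mul,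
      Matrix.mul_one, Matrix.one_mul] at h5
    refine ⟨h4, ?_⟩
    have h6 := congrArg (fun M => sg n • M) h5
    simp only [sg_sq] at h6
    exact h6
  have h2 : ∀ n, reM (mt (φ.f n)) = reM (mt (φ.f 0)) := by
    intro n
    induction n using Int.induction_on with
    | zero => rfl
    | succ n ih => rw [← (h1 n).2, ih]
    | pred n ih =>
      rw [(h1 (-(n : ℤ) - 1)).2, sub_add_cancel, ih]
  refine ⟨⟨reM (mt (φ.f 0)), fun i j => ?_, ?_⟩, ?_⟩
  · exact (mt_re (φ.f 0) i j).congr (by ring)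
  · have h3 := (h1 0).1
    rwa [← (h1 0).2] at h3
  · refine cf_ext fun n => ?_
    show mt (φ.f n) = rm f (reM (mt (φ.f 0))) 0
    rw [h0 n, h2 n]

lemma surj (φ : CF X ⟶ CF Y) : ∃ g : mor X Y, (qK (gZ f)).map (CFm g) = (qK (gZ f)).map φ := by
  let c : ℤ → Matrix Y.ι X.ι Sr := fun n => sg n • imM (mt (φ.f n))
  have hh : ∀ n i j, Hmg (hs c n i j) (X.deg j - 3 - Y.deg i) := fun n =>
    hs_ind c (fun M => ∀ i j, Hmg (M i j) (X.deg j - 3 - Y.deg i)) (fun i j => Hmg.zero _)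
      (fun a b ha hb i j => (ha i j).add (hb i j)) (fun a ha i j => (ha i j).neg)
      (fun n i j => ((mt_im (φ.f n) i j).zsmul (sg n)).congr (by ring)) n
  let ψ : CF X ⟶ CF Y := Homotopy.nullHomotopicMap' (c := ComplexShape.up ℤ) (ht (hs c) hh)
  have hψ : ∀ n, imM (mt (ψ.f n)) = imM (mt (φ.f n)) := fun n => by
    rw [null_mat, imM_rm, hs_succ, add_sub_cancel_left]
    exact sg_sq n _
  obtain ⟨g, hg⟩ := strict (φ - ψ) (fun n => by
    have h1 : imM (mt ((φ - ψ).f n)) = imM (mt (φ.f n)) - imM (mt (ψ.f n)) := rfl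
    rw [h1, hψ, sub_self])
  refine ⟨g, ?_⟩
  rw [← hg, Functor.map_sub]
  have h3 : (qK (gZ f)).map ψ = 0 :=
    (HomotopyCategory.eq_of_homotopy _ _
      (Homotopy.nullHomotopy' (c := ComplexShape.up ℤ) (ht (hs c) hh))).trans
      (Functor.map_zero _ _ _)
  rw [h3, sub_zero]

lemma inj (g : mor X Y) (h : (qK (gZ f)).map (CFm g) = 0) : g ∈ nul X Y := by
  have H : Homotopy (CFm g) 0 := HomotopyCategory.homotopyOfEq _ _
    (h.trans (Functor.map_zero _ _ _).symm)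
  have h1 := congrArg mt (H.comm 0)
  rw [dNext_eq H.hom (show (ComplexShape.up ℤ).Rel 0 1 from rfl),
    prevD_eq H.hom (show (ComplexShape.up ℤ).Rel (-1) 0 from rfl), mt_add, mt_add,
    mt_d_comp _ (show (0 : ℤ) + 1 = 1 from rfl),
    mt_comp_d _ (show (-1 : ℤ) + 1 = 0 from rfl)] at h1
  have h2 : rm f g.1 0 = mt (H.hom 1 0) * dmat X 0 + dmat Y (-1) * mt (H.hom 0 (-1)) :=
    h1.trans (add_zero _)
  have h3 : dmat X 0 = rm f X.Φ 1 := by
    unfold dmat
    rw [show sg 0 = 1 from rfl, one_smul]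
  have h4 : dmat Y (-1) = rm f Y.Φ (-1) := by
    unfold dmat
    rw [show sg (-1) = -1 from rfl, neg_smul, one_smul]
  rw [h3, h4, ← rm_eta (mt (H.hom 1 0)), ← rm_eta (mt (H.hom 0 (-1))), rm_mul,
    rm_mul, rm_add, rm_inj] at h2
  generalize reM (mt (H.hom 1 0)) = h₁ at h2
  generalize imM (mt (H.hom 1 0)) = k₁ at h2
  have hre : ∀ i j, Hmg (reM (mt (H.hom 0 (-1))) i j) (X.deg j - 3 - Y.deg i) := fun i j =>
    (mt_re (H.hom 0 (-1)) i j).congr (by ring)
  have him : ∀ i j, Hmg (imM (mt (H.hom 0 (-1))) i j) (X.deg j - 6 - Y.deg i) := fun i j =>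
    (mt_im (H.hom 0 (-1)) i j).congr (by ring)
  generalize reM (mt (H.hom 0 (-1))) = h₀ at h2 hre
  generalize imM (mt (H.hom 0 (-1))) = k₀ at h2 him
  obtain ⟨h5, h6⟩ := h2
  rw [Matrix.mul_one, Matrix.neg_mul, Matrix.one_mul] at h5 h6
  refine ⟨h₀ - Y.Φ * k₀, fun i j => ?_, ?_⟩
  · refine (hre i j).sub ?_
    rw [Matrix.mul_apply]
    exact Hmg.sum fun l _ => ((Y.hom i l).mul (him l j)).congr (by ring)
  · have h7 : h₁ = h₀ - k₁ * X.Φ - Y.Φ * k₀ := by
      have h8 : h₁ = h₁ + k₁ * X.Φ + (Y.Φ * k₀ + -h₀) - k₁ * X.Φ - (Y.Φ * k₀ + -h₀) := by abel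
      rw [h8, ← h6]
      abel
    rw [h5, h7, Matrix.sub_mul, Matrix.sub_mul, Matrix.mul_assoc k₁, X.sq, Matrix.mul_sub,
      Matrix.sub_mul, ← Matrix.mul_assoc Y.Φ Y.Φ, Y.sq, Matrix.neg_mul, Matrix.mul_neg,
      Matrix.smul_mul, Matrix.mul_smul, Matrix.one_mul, Matrix.mul_one, smul_neg]
    abel

end FFC_

/-- `Cper` is fully faithful -/
theorem p_FFC : T_FFC := by
  intro f _ X Y
  constructor
  · refine (injective_iff_map_eq_zero
      (Functor.mapAddHom (Cper f) : (X ⟶ Y) →+ ((Cper f).obj X ⟶ (Cper f).obj Y))).2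
      fun a ha => ?_
    obtain ⟨g, rfl⟩ := Submodule.mkQ_surjective (nul X Y) a
    exact (Submodule.Quotient.mk_eq_zero _).2 (FFC_.inj g ha)
  · intro φ
    obtain ⟨φ, rfl⟩ := (qK (gZ f)).map_surjective φ
    obtain ⟨g, hg⟩ := FFC_.surj φ
    exact ⟨cls g, hg⟩

end Pool.Agent.VDK
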