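import Pool.Agent.VDK.T1

/-!
# VDK-FFP: the functor `Psi` is fully faithful
-/

set_option autoImplicit false
set_option linter.unusedVariables false

open CategoryTheory CategoryTheory.Limits Pretriangulated MvPolynomial Pool.Agent.VDC

noncomputable section

namespace Pool.Agent.VDK

namespace FFP_

/-- a module without generators is zero -/
lemma isZero_of_isEmpty {A : Type} [CommRing A] [Algebra ℂ A] {𝒜 : ℤ → Submodule ℂ A}
    [SetLike.GradedMonoid 𝒜] (X : GF 𝒜) (h : IsEmpty X.ι) : IsZero X :=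
  ⟨fun Y => ⟨⟨⟨0⟩, fun a => gf_ext (Matrix.ext fun i j => h.elim j)⟩⟩,
    fun Y => ⟨⟨⟨0⟩, fun a => gf_ext (Matrix.ext fun i j => h.elim i)⟩⟩⟩

variable {f : Sr} [H6 f]

/-- the complex of the generators of degree `≤ 0` of the periodic complex -/
abbrev LT (Y : CM f) : CochainComplex (GF (gZ f)) ℤ :=
  ((tlt (gZ f) 1).mapHomologicalComplex (ComplexShape.up ℤ)).obj (CF Y)

/-- it is bounded below -/
lemma exists_ge (Y : CM f) : ∃ n₁ : ℤ, (LT Y).IsStrictlyGE n₁ := by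
  refine ⟨-(∑ i, |Y.deg i|), ?_⟩
  rw [CochainComplex.isStrictlyGE_iff]
  intro n hn
  refine isZero_of_isEmpty _ ⟨?_⟩
  rintro ⟨i, hi⟩
  have h1 : (Y.deg i - 3 * n) < 1 := hi
  have h2 : |Y.deg i| ≤ ∑ i, |Y.deg i| :=
    Finset.single_le_sum (f := fun i => |Y.deg i|) (fun _ _ => abs_nonneg _) (Finset.mem_univ i)
  have h3 := neg_abs_le (Y.deg i)
  have h4 := abs_nonneg (Y.deg i)
  lia

/-- there are no maps from the periodic complex to `Tlt` -/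
lemma hom_zero (hHTU : T_HTU) (hCCF : T_CCF) (X Y : CM f)
    (ψ : (Cper f).obj X ⟶ (Tlt (gZ f) 1).obj ((Cper f).obj Y)) : ψ = 0 := by
  obtain ⟨n₁, h⟩ := exists_ge Y
  let ψ' : (qK (gZ f)).obj (CF X) ⟶ (qK (gZ f)).obj (LT Y) := ψ
  obtain ⟨φ, hφ⟩ := (qK (gZ f)).map_surjective ψ'
  have h1 := hHTU _ (gZ f) (CF X) (LT Y) n₁ h (fun n j => hCCF f X n _) φ
  exact hφ.symm.trans h1

/-- there are no maps from the periodic complex to `Tlt[1]` -/
lemma hom_zero' (hHTU : T_HTU) (hCCF : T_CCF) (X Y : CM f)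
    (ψ : (Cper f).obj X ⟶
      (shiftFunctor (KK (gZ f)) (1 : ℤ)).obj ((Tlt (gZ f) 1).obj ((Cper f).obj Y))) : ψ = 0 := by
  obtain ⟨n₁, h⟩ := exists_ge Y
  let Q := qK (gZ f)
  let e := (Q.commShiftIso (1 : ℤ)).app (LT Y)
  let ψ' : Q.obj (CF X) ⟶ Q.obj ((shiftFunctor (CochainComplex (GF (gZ f)) ℤ) (1 : ℤ)).obj (LT Y)) :=
    ψ ≫ e.inv
  obtain ⟨φ, hφ⟩ := Q.map_surjective ψ'
  have h1 := hHTU _ (gZ f) (CF X) _ (n₁ - 1) ((LT Y).isStrictlyGE_shift n₁ 1 (n₁ - 1) (by lia))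
    (fun n j => hCCF f X n _) φ
  have h2 : ψ ≫ e.inv = 0 := hφ.symm.trans h1
  exact (cancel_mono e.inv).1 (h2.trans zero_comp.symm)

end FFP_

open FFP_ in
theorem p_FFP (hTTR : T_TTR) (hHTU : T_HTU) (hCCF : T_CCF) (hHLG : T_HLG) (hFFC : T_FFC) :
    T_FFP := by
  intro f _ X Y
  obtain ⟨π, hπ⟩ := hTTR _ (gZ f) 1
  obtain ⟨aX, cX, hX⟩ := hπ ((Cper f).obj X)
  obtain ⟨aY, cY, hY⟩ := hπ ((Cper f).obj Y)
  have hnat : ∀ φ : (Cper f).obj X ⟶ (Cper f).obj Y,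
      φ ≫ π.app ((Cper f).obj Y) = π.app ((Cper f).obj X) ≫ (Tge (gZ f) 1).map φ :=
    fun φ => π.naturality φ
  have hbij : Function.Bijective ((Tge (gZ f) 1).map :
      ((Cper f).obj X ⟶ (Cper f).obj Y) → _) := by
    constructor
    · intro φ φ' h
      have h1 : (φ - φ') ≫ π.app ((Cper f).obj Y) = 0 := by
        rw [Preadditive.sub_comp, hnat, hnat, h, sub_self]
      obtain ⟨ψ, hψ⟩ := Triangle.coyoneda_exact₂ _ hY (φ - φ') h1
      have h2 : ψ = 0 := hom_zero hHTU hCCF X Y ψ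
      rw [h2] at hψ
      exact sub_eq_zero.1 (hψ.trans zero_comp)
    · intro χ
      obtain ⟨φ, hφ'⟩ : ∃ φ : (Cper f).obj X ⟶ (Cper f).obj Y,
          π.app ((Cper f).obj X) ≫ χ = φ ≫ π.app ((Cper f).obj Y) :=
        Triangle.coyoneda_exact₃ _ hY (π.app ((Cper f).obj X) ≫ χ) (hom_zero' hHTU hCCF X Y _)
      refine ⟨φ, ?_⟩
      have h1 : π.app ((Cper f).obj X) ≫ ((Tge (gZ f) 1).map φ - χ) = 0 := by
        rw [Preadditive.comp_sub, ← hnat, hφ', sub_self]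
      obtain ⟨ω, hω⟩ := Triangle.yoneda_exact₃ _ hX ((Tge (gZ f) 1).map φ - χ) h1
      have h2 : ω = 0 := hHLG _ (gZ f) 1 _ _ 1 ω
      rw [h2] at hω
      exact sub_eq_zero.1 (hω.trans comp_zero)
  exact hbij.comp (hFFC f X Y)

end Pool.Agent.VDK
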