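import Pool.Agent.VDK.T1

set_option autoImplicit false
set_option linter.unusedVariables false

open CategoryTheory CategoryTheory.Limits Pretriangulated

noncomputable section

namespace Pool.Agent.VDK

variable {A : Type} [CommRing A] [Algebra ℂ A] {𝒜 : ℤ → Submodule ℂ A} [SetLike.GradedMonoid 𝒜]

/-- the entries of a map -/
def FIN_ent (X Y : GF 𝒜) :
    (X ⟶ Y) →ₗ[ℂ] (∀ p : Y.ι × X.ι, 𝒜 (X.deg p.2 - Y.deg p.1)) where
  toFun g p := ⟨mat g p.1 p.2, mat_mem g p.1 p.2⟩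
  map_add' a b := rfl
  map_smul' c a := rfl

lemma FIN_gf (hfin : ∀ m, Module.Finite ℂ (𝒜 m)) (X Y : GF 𝒜) : Module.Finite ℂ (X ⟶ Y) := by
  refine Module.Finite.of_injective (FIN_ent X Y) ?_
  intro a b h
  refine gf_ext (Matrix.ext fun i j => ?_)
  have h1 := congrFun h (i, j)
  exact congrArg Subtype.val h1

/-- the component in position `0` of a map from a single complex -/
def FIN_f0 (X : GF 𝒜) (L : CochainComplex (GF 𝒜) ℤ) :
    ((CochainComplex.singleFunctor (GF 𝒜) 0).obj X ⟶ L) →ₗ[ℂ]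
      (((CochainComplex.singleFunctor (GF 𝒜) 0).obj X).X 0 ⟶ L.X 0) where
  toFun g := g.f 0
  map_add' a b := rfl
  map_smul' c a := rfl

lemma FIN_cx (hfin : ∀ m, Module.Finite ℂ (𝒜 m)) (X : GF 𝒜) (L : CochainComplex (GF 𝒜) ℤ) :
    Module.Finite ℂ ((CochainComplex.singleFunctor (GF 𝒜) 0).obj X ⟶ L) := by
  have := FIN_gf hfin (((CochainComplex.singleFunctor (GF 𝒜) 0).obj X).X 0) (L.X 0)
  refine Module.Finite.of_injective (FIN_f0 X L) ?_
  intro a b h
  exact HomologicalComplex.from_single_hom_ext h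

theorem p_FIN : T_FIN := by
  intro A _ _ 𝒜 _ hfin C n d
  let Q := HomotopyCategory.quotient (GF 𝒜) (ComplexShape.up ℤ)
  let K : CochainComplex (GF 𝒜) ℤ := C.as
  have hC : C = Q.obj K := rfl
  let P : CochainComplex (GF 𝒜) ℤ := (CochainComplex.singleFunctor (GF 𝒜) 0).obj (GF.tw 𝒜 (-d))
  let L : CochainComplex (GF 𝒜) ℤ := (shiftFunctor (CochainComplex (GF 𝒜) ℤ) n).obj K
  have h1 : Module.Finite ℂ (P ⟶ L) := FIN_cx hfin _ _
  let φ : (P ⟶ L) →ₗ[ℂ] (Q.obj P ⟶ Q.obj L) := Q.mapLinearMap ℂ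
  have hφ : Function.Surjective φ := fun x => Q.map_surjective x
  have h2 : Module.Finite ℂ (Q.obj P ⟶ Q.obj L) := Module.Finite.of_surjective φ hφ
  let ψ : (Q.obj P ⟶ Q.obj L) →ₗ[ℂ] (Q.obj P ⟶ (shiftFunctor (KK 𝒜) n).obj (Q.obj K)) :=
    Linear.rightComp ℂ (Q.obj P) ((Q.commShiftIso n).app K).hom
  have hψ : Function.Surjective ψ := by
    intro x
    refine ⟨x ≫ ((Q.commShiftIso n).app K).inv, ?_⟩
    show (x ≫ ((Q.commShiftIso n).app K).inv) ≫ ((Q.commShiftIso n).app K).hom = x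
    rw [Category.assoc, Iso.inv_hom_id, Category.comp_id]
  exact Module.Finite.of_surjective ψ hψ

end Pool.Agent.VDK
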