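import Pool.Agent.VDK.T1

/-!
# VDK: the modules `R(m)` are generated
-/

set_option autoImplicit false
set_option linter.unusedVariables false

open CategoryTheory CategoryTheory.Limits Pretriangulated MvPolynomial Pool.Agent.VDC

noncomputable section

namespace Pool.Agent.VDK

namespace GE1_

section

variable {f : Sr} (D : KA f)

/-- the generator of cardinality `0` -/
def i0 : (kk D).ι := Sum.inr (Sum.inr (Sum.inr (Sum.inr ())))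

/-- the generator of cardinality `4` -/
def i1 : (kk D).ι := Sum.inl (Sum.inl (Sum.inl (Sum.inl ())))

lemma deg_eq (i : (kk D).ι) : (kk D).deg i = Sum.elim (Sum.elim (Sum.elim (Sum.elim
    (fun _ => (-7 : ℤ)) (fun i => -7 + 3 - 1)) (fun i => Sum.elim
    (fun _ => (-7 : ℤ)) (fun i => -7 + 3 - 1) i + 3 - 1))
    (fun i => Sum.elim (Sum.elim
    (fun _ => (-7 : ℤ)) (fun i => -7 + 3 - 1)) (fun i => Sum.elim
    (fun _ => (-7 : ℤ)) (fun i => -7 + 3 - 1) i + 3 - 1) i + 3 - 2))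
    (fun i => Sum.elim (Sum.elim (Sum.elim
    (fun _ => (-7 : ℤ)) (fun i => -7 + 3 - 1)) (fun i => Sum.elim
    (fun _ => (-7 : ℤ)) (fun i => -7 + 3 - 1) i + 3 - 1))
    (fun i => Sum.elim (Sum.elim
    (fun _ => (-7 : ℤ)) (fun i => -7 + 3 - 1)) (fun i => Sum.elim
    (fun _ => (-7 : ℤ)) (fun i => -7 + 3 - 1) i + 3 - 1) i + 3 - 2) i + 3 - 1) i := rfl

lemma gens (i : (kk D).ι) : 0 ≤ cd D i ∧ cd D i ≤ 4 ∧ cd D i ≤ (kk D).deg i + 3 * cd D i ∧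
    (kk D).deg i + 3 * cd D i ≤ cd D i + 1 ∧ (cd D i = 0 → i = i0 D) ∧
    (cd D i = 4 → i = i1 D) := by
  rw [deg_eq]
  unfold cd cdS i0 i1
  rcases i with (((i | i) | (i | i)) | ((i | i) | (i | i))) |
    (((i | i) | (i | i)) | ((i | i) | (i | i))) <;>
  rcases i with i | i <;> simp

lemma cd0 : cd D (i0 D) = 0 := rfl

lemma cd1 : cd D (i1 D) = 4 := rfl

lemma dg0 : (kk D).deg (i0 D) = 0 := by
  have h := gens D (i0 D)
  have h1 := cd0 D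
  have h2 := deg_eq D (i0 D)
  rw [h2]
  unfold i0
  simp

lemma dg1 : (kk D).deg (i1 D) = -7 := rfl

end

section

variable {A : Type} [CommRing A] [Algebra ℂ A] {𝒜 : ℤ → Submodule ℂ A} [SetLike.GradedMonoid 𝒜]

lemma isZero_of_isEmpty (X : GF 𝒜) (h : X.ι → False) : IsZero X :=
  ⟨fun Y => ⟨⟨⟨0⟩, fun a => gf_ext (Matrix.ext fun i j => (h j).elim)⟩⟩,
    fun Y => ⟨⟨⟨0⟩, fun a => gf_ext (Matrix.ext fun i j => (h i).elim)⟩⟩⟩

/-- the third term of the triangle of two subsets -/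
lemma tri (hR : T_RTR) (G : ObjectProperty (KK 𝒜)) [G.IsTriangulated]
    [G.IsClosedUnderIsomorphisms] (C : CochainComplex (GF 𝒜) ℤ)
    (U V : ∀ n, (C.X n).ι → Prop) (hU : QC C U) (hV : QC C V) (hVU : ∀ n i, V n i → U n i) :
    (G ((qK 𝒜).obj (resC C (fun n i => U n i ∧ ¬ V n i) (hU.lc_diff hV))) →
      G ((qK 𝒜).obj (resC C V hV.lc)) → G ((qK 𝒜).obj (resC C U hU.lc))) ∧
    (G ((qK 𝒜).obj (resC C (fun n i => U n i ∧ ¬ V n i) (hU.lc_diff hV))) →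
      G ((qK 𝒜).obj (resC C U hU.lc)) → G ((qK 𝒜).obj (resC C V hV.lc))) ∧
    (G ((qK 𝒜).obj (resC C U hU.lc)) → G ((qK 𝒜).obj (resC C V hV.lc)) →
      G ((qK 𝒜).obj (resC C (fun n i => U n i ∧ ¬ V n i) (hU.lc_diff hV)))) := by
  obtain ⟨a, b, c, hT⟩ := hR A 𝒜 C U V hU hV hVU
  exact ⟨fun h1 h3 => G.ext_of_isTriangulatedClosed₂ _ hT h1 h3,
    fun h1 h2 => G.ext_of_isTriangulatedClosed₃ _ hT h1 h2,
    fun h2 h3 => G.ext_of_isTriangulatedClosed₁ _ hT h2 h3⟩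

/-- a bounded difference -/
lemma bdd (hB : T_BDC) (G : ObjectProperty (KK 𝒜)) [G.IsTriangulated]
    [G.IsClosedUnderIsomorphisms] (C : CochainComplex (GF 𝒜) ℤ)
    (U : ∀ n, (C.X n).ι → Prop) (hU : LC C U) (a b : ℤ) (ha : ∀ n i, U n i → a ≤ n)
    (hb : ∀ n i, U n i → n ≤ b) (h : ∀ n i, U n i → G (OK 𝒜 (-((C.X n).deg i)))) :
    G ((qK 𝒜).obj (resC C U hU)) := by
  refine hB A 𝒜 G inferInstance inferInstance (resC C U hU) a b ?_ ?_ ?_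
  · rw [CochainComplex.isStrictlyGE_iff]
    intro n hn
    exact isZero_of_isEmpty _ fun i => absurd (ha n i.1 i.2) (not_le.2 hn)
  · rw [CochainComplex.isStrictlyLE_iff]
    intro n hn
    exact isZero_of_isEmpty _ fun i => absurd (hb n i.1 i.2) (not_le.2 hn)
  · intro n i
    exact h n i.1 i.2

/-- a difference consisting of one generator -/
lemma sgl (hS : T_SGL) (G : ObjectProperty (KK 𝒜)) [G.IsTriangulated]
    [G.IsClosedUnderIsomorphisms] (C : CochainComplex (GF 𝒜) ℤ)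
    (U : ∀ n, (C.X n).ι → Prop) (hU : LC C U) (n₀ : ℤ) (i₀ : (C.X n₀).ι)
    (h1 : ∀ n i, U n i → n = n₀) (h2 : ∀ i, U n₀ i ↔ i = i₀)
    (h : G ((qK 𝒜).obj (resC C U hU))) : G (OK 𝒜 (-((C.X n₀).deg i₀))) := by
  obtain ⟨e⟩ := hS A 𝒜 C U hU n₀ i₀ h1 h2
  have h3 : G ((shiftFunctor (KK 𝒜) (-n₀)).obj (OK 𝒜 (-((C.X n₀).deg i₀)))) :=
    G.prop_of_iso e h
  have h4 := G.le_shift n₀ _ h3
  exact G.prop_of_iso ((shiftFunctorCompIsoId (KK 𝒜) (-n₀) n₀ (by lia)).app _) h4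

end

section

variable {c d t n : ℤ}

lemma a1 (ht : 2 ≤ t) (g1 : 0 ≤ c) (g2 : c ≤ 4) (g3 : c ≤ d + 3 * c) (g4 : d + 3 * c ≤ c + 1)
    (h : 1 ≤ d - t - 3 * n) : c ≤ -n ∧ 1 - t ≤ d - t - 3 * n := by lia

lemma a2 (ht : 2 ≤ t) (g1 : 0 ≤ c) (g2 : c ≤ 4) (g3 : c ≤ d + 3 * c) (g4 : d + 3 * c ≤ c + 1)
    (h4 : 1 - t ≤ d - t - 3 * n) (h5 : ¬ 1 ≤ d - t - 3 * n) :
    -8 - t ≤ n ∧ n ≤ 0 ∧ 0 ≤ -(d - t - 3 * n) ∧ -(d - t - 3 * n) < t := by lia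

lemma a3 (ht : 2 ≤ t) (g1 : 0 ≤ c) (g2 : c ≤ 4) (g3 : c ≤ d + 3 * c) (g4 : d + 3 * c ≤ c + 1)
    (h3 : c ≤ -n) (h4 : ¬ 1 - t ≤ d - t - 3 * n) : n = 0 ∧ c = 0 := by lia

lemma b1 (ht : t ≤ 1) (g1 : 0 ≤ c) (g2 : c ≤ 4) (g3 : c ≤ d + 3 * c) (g4 : d + 3 * c ≤ c + 1)
    (h3 : c ≤ -n) (h4 : ¬ 1 ≤ d - t - 3 * n) :
    -9 - t ^ 2 ≤ n ∧ n ≤ 0 ∧ (-(d - t - 3 * n) = 0 ∨ -(d - t - 3 * n) = 1) := by
  have h6 : t ≤ t ^ 2 := by nlinarith
  have h7 : 0 ≤ t ^ 2 := sq_nonneg t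
  generalize t ^ 2 = r at h6 h7 ⊢
  lia

lemma b2 (ht : t ≤ 1) (g1 : 0 ≤ c) (g2 : c ≤ 4) (g3 : c ≤ d + 3 * c) (g4 : d + 3 * c ≤ c + 1)
    (h3 : 1 ≤ d - t - 3 * n) (h4 : ¬ 2 - t ≤ d - t - 3 * n) :
    -9 ≤ n ∧ n ≤ 9 - t ∧ t - 1 ≤ -(d - t - 3 * n) ∧ -(d - t - 3 * n) ≤ 1 := by lia

lemma b3 (ht : t ≤ 1) (g1 : 0 ≤ c) (g2 : c ≤ 4) (g3 : c ≤ d + 3 * c) (g4 : d + 3 * c ≤ c + 1)
    (h6 : ¬ c ≤ -n) (h7 : 2 - t ≤ d - t - 3 * n) : n = -3 ∧ c = 4 := by lia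

end

section

variable {f : Sr} [H6 f] (D : KA f)

/-- the periodic complex of the stabilised residue field -/
abbrev CD (t : ℤ) : CochainComplex (GF (gZ f)) ℤ := CF (tw t 1 (kk D))

lemma cdeg (t n : ℤ) (i : ((CD D t).X n).ι) :
    ((CD D t).X n).deg i = (kk D).deg i - t - 3 * n := rfl

lemma ge2 {G : ObjectProperty (KK (gZ f))} [G.IsClosedUnderIsomorphisms] (hP : T_PSR)
    (h : ∀ F : CM f, G ((Psi f).obj F)) (t : ℤ) :
    G ((qK (gZ f)).obj (resC (CD D t) (Uge 1 (CD D t)) (Uge_qc (CD D t) 1).lc)) := by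
  obtain ⟨e⟩ := hP f (tw t 1 (kk D))
  exact G.prop_of_iso e (h _)

/-- the step up -/
lemma up (hR : T_RTR) (hB : T_BDC) (hS : T_SGL) (hP : T_PSR) (G : ObjectProperty (KK (gZ f)))
    [G.IsTriangulated] [G.IsClosedUnderIsomorphisms] (h1 : ∀ t, G ((qK (gZ f)).obj (PK D t)))
    (h2 : ∀ F : CM f, G ((Psi f).obj F)) (t : ℤ) (ht : 2 ≤ t)
    (h : ∀ s, 0 ≤ s → s < t → G (OK (gZ f) s)) : G (OK (gZ f) t) := by
  have hU : QC (CD D t) (UK D t) := UK_qc D t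
  have hV : QC (CD D t) (Uge 1 (CD D t)) := Uge_qc (CD D t) 1
  have hW : QC (CD D t) (fun n i => UK D t n i ∧ Uge (1 - t) (CD D t) n i) :=
    QC.inf hU (Uge_qc (CD D t) (1 - t))
  have hVW : ∀ n i, Uge 1 (CD D t) n i → UK D t n i ∧ Uge (1 - t) (CD D t) n i := by
    intro n i hi
    obtain ⟨g1, g2, g3, g4, -, -⟩ := gens D i
    exact a1 ht g1 g2 g3 g4 hi
  have e1 : G ((qK (gZ f)).obj (resC (CD D t)
      (fun n i => UK D t n i ∧ Uge (1 - t) (CD D t) n i) hW.lc)) := by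
    refine (tri hR G (CD D t) _ _ hW hV hVW).1 ?_ (ge2 D hP h2 t)
    have h3 : ∀ n i, ((UK D t n i ∧ Uge (1 - t) (CD D t) n i) ∧ ¬ Uge 1 (CD D t) n i) →
        -8 - t ≤ n ∧ n ≤ 0 ∧ 0 ≤ -(((CD D t).X n).deg i) ∧ -(((CD D t).X n).deg i) < t := by
      rintro n i ⟨⟨h3, h4⟩, h5⟩
      obtain ⟨g1, g2, g3, g4, -, -⟩ := gens D i
      exact a2 ht g1 g2 g3 g4 h4 h5
    exact bdd hB G (CD D t) _ (hW.lc_diff hV) (-8 - t) 0 (fun n i hi => (h3 n i hi).1)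
      (fun n i hi => (h3 n i hi).2.1) fun n i hi => h _ (h3 n i hi).2.2.1 (h3 n i hi).2.2.2
  have hUW : ∀ n i, UK D t n i ∧ Uge (1 - t) (CD D t) n i → UK D t n i := fun n i h3 => h3.1
  have e2 := (tri hR G (CD D t) _ _ hU hW hUW).2.2 (h1 t) e1
  have key : ∀ n i, (UK D t n i ∧ ¬ (UK D t n i ∧ Uge (1 - t) (CD D t) n i)) →
      n = 0 ∧ cd D i = 0 := by
    rintro n i ⟨h3, h4⟩
    obtain ⟨g1, g2, g3, g4, -, -⟩ := gens D i
    exact a3 ht g1 g2 g3 g4 h3 fun h5 => h4 ⟨h3, h5⟩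
  have e3 := sgl hS G (CD D t) _ (hU.lc_diff hW) 0 (i0 D) (fun n i h3 => (key n i h3).1)
    (fun i => ⟨fun h3 => (gens D i).2.2.2.2.1 (key 0 i h3).2, fun h3 => ?_⟩) e2
  · have h5 : ((CD D t).X 0).deg (i0 D) = -t :=
      (cdeg D t 0 (i0 D)).trans (by rw [dg0]; ring)
    have h6 : -(((CD D t).X 0).deg (i0 D)) = t := by rw [h5, neg_neg]
    exact h6 ▸ e3
  · subst h3
    refine ⟨?_, fun h4 => ?_⟩
    · show cd D (i0 D) ≤ -0
      rw [cd0, neg_zero]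
    · have h5 : 1 - t ≤ (kk D).deg (i0 D) - t - 3 * 0 := h4.2
      rw [dg0] at h5
      linarith

/-- the step down -/
lemma down (hR : T_RTR) (hB : T_BDC) (hS : T_SGL) (hP : T_PSR) (G : ObjectProperty (KK (gZ f)))
    [G.IsTriangulated] [G.IsClosedUnderIsomorphisms] (h1 : ∀ t, G ((qK (gZ f)).obj (PK D t)))
    (h2 : ∀ F : CM f, G ((Psi f).obj F)) (h0 : G (OK (gZ f) 0)) (h0' : G (OK (gZ f) 1)) (t : ℤ)
    (ht : t ≤ 1) (h : ∀ s, t - 1 ≤ s → s ≤ 1 → G (OK (gZ f) s)) : G (OK (gZ f) (t - 2)) := by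
  have hU : QC (CD D t) (UK D t) := UK_qc D t
  have hV : QC (CD D t) (Uge 1 (CD D t)) := Uge_qc (CD D t) 1
  have hI : QC (CD D t) (fun n i => UK D t n i ∧ Uge 1 (CD D t) n i) := QC.inf hU hV
  have hW : QC (CD D t) (fun n i => Uge 1 (CD D t) n i ∧
      (UK D t n i ∨ Uge (2 - t) (CD D t) n i)) :=
    QC.inf hV (QC.sup hU (Uge_qc (CD D t) (2 - t)))
  have e1 : G ((qK (gZ f)).obj (resC (CD D t)
      (fun n i => UK D t n i ∧ Uge 1 (CD D t) n i) hI.lc)) := by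
    refine (tri hR G (CD D t) _ _ hU hI (fun n i h3 => h3.1)).2.1 ?_ (h1 t)
    have h3 : ∀ n i, (UK D t n i ∧ ¬ (UK D t n i ∧ Uge 1 (CD D t) n i)) →
        -9 - t ^ 2 ≤ n ∧ n ≤ 0 ∧ (-(((CD D t).X n).deg i) = 0 ∨
          -(((CD D t).X n).deg i) = 1) := by
      rintro n i ⟨h3, h4⟩
      obtain ⟨g1, g2, g3, g4, -, -⟩ := gens D i
      exact b1 ht g1 g2 g3 g4 h3 fun h5 => h4 ⟨h3, h5⟩
    refine bdd hB G (CD D t) _ (hU.lc_diff hI) (-9 - t ^ 2) 0 (fun n i hi => (h3 n i hi).1)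
      (fun n i hi => (h3 n i hi).2.1) fun n i hi => ?_
    rcases (h3 n i hi).2.2 with h6 | h6
    · rw [h6]
      exact h0
    · rw [h6]
      exact h0'
  have e2 : G ((qK (gZ f)).obj (resC (CD D t) (fun n i => Uge 1 (CD D t) n i ∧
      (UK D t n i ∨ Uge (2 - t) (CD D t) n i)) hW.lc)) := by
    refine (tri hR G (CD D t) _ _ hV hW (fun n i h3 => h3.1)).2.1 ?_ (ge2 D hP h2 t)
    have h3 : ∀ n i, (Uge 1 (CD D t) n i ∧ ¬ (Uge 1 (CD D t) n i ∧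
        (UK D t n i ∨ Uge (2 - t) (CD D t) n i))) →
        -9 ≤ n ∧ n ≤ 9 - t ∧ t - 1 ≤ -(((CD D t).X n).deg i) ∧
          -(((CD D t).X n).deg i) ≤ 1 := by
      rintro n i ⟨h3, h4⟩
      obtain ⟨g1, g2, g3, g4, -, -⟩ := gens D i
      exact b2 ht g1 g2 g3 g4 h3 fun h5 => h4 ⟨h3, Or.inr h5⟩
    exact bdd hB G (CD D t) _ (hV.lc_diff hW) (-9) (9 - t) (fun n i hi => (h3 n i hi).1)
      (fun n i hi => (h3 n i hi).2.1) fun n i hi => h _ (h3 n i hi).2.2.1 (h3 n i hi).2.2.2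
  have hIW : ∀ n i, UK D t n i ∧ Uge 1 (CD D t) n i →
      Uge 1 (CD D t) n i ∧ (UK D t n i ∨ Uge (2 - t) (CD D t) n i) :=
    fun n i h3 => ⟨h3.2, Or.inl h3.1⟩
  have e3 := (tri hR G (CD D t) _ _ hW hI hIW).2.2 e2 e1
  have key : ∀ n i, ((Uge 1 (CD D t) n i ∧ (UK D t n i ∨ Uge (2 - t) (CD D t) n i)) ∧
      ¬ (UK D t n i ∧ Uge 1 (CD D t) n i)) → n = -3 ∧ cd D i = 4 := by
    rintro n i ⟨⟨h3, h4⟩, h5⟩
    have h6 : ¬ UK D t n i := fun h7 => h5 ⟨h7, h3⟩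
    obtain ⟨g1, g2, g3, g4, -, -⟩ := gens D i
    exact b3 ht g1 g2 g3 g4 h6 (h4.resolve_left h6)
  have e4 := sgl hS G (CD D t) _ (hW.lc_diff hI) (-3) (i1 D) (fun n i h3 => (key n i h3).1)
    (fun i => ⟨fun h3 => (gens D i).2.2.2.2.2 (key (-3) i h3).2, fun h3 => ?_⟩) e3
  · have h5 : ((CD D t).X (-3)).deg (i1 D) = 2 - t :=
      (cdeg D t (-3) (i1 D)).trans (by rw [dg1]; ring)
    have h6 : -(((CD D t).X (-3)).deg (i1 D)) = t - 2 := by rw [h5, neg_sub]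
    exact h6 ▸ e4
  · subst h3
    have h4 : ((CD D t).X (-3)).deg (i1 D) = 2 - t :=
      (cdeg D t (-3) (i1 D)).trans (by rw [dg1]; ring)
    refine ⟨⟨?_, Or.inr ?_⟩, fun h5 => ?_⟩
    · show 1 ≤ ((CD D t).X (-3)).deg (i1 D)
      rw [h4]
      linarith
    · show 2 - t ≤ ((CD D t).X (-3)).deg (i1 D)
      rw [h4]
    · have h6 : cd D (i1 D) ≤ -(-3) := h5.1
      rw [cd1] at h6
      norm_num at h6

end

end GE1_

open GE1_ in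
/-- GE1 -/
theorem p_GE1 (hR : T_RTR) (hB : T_BDC) (hS : T_SGL) (hP : T_PSR) : T_GE1 := by
  intro f _ D G _ _ h1 h2 h3 h4
  have hup : ∀ n : ℕ, ∀ s : ℤ, 0 ≤ s → s ≤ n → G (OK (gZ f) s) := by
    intro n
    induction n with
    | zero =>
      intro s hs hs'
      have h5 : s = 0 := by lia
      rw [h5]
      exact h3
    | succ n ih =>
      intro s hs hs'
      by_cases h5 : s ≤ n
      · exact ih s hs h5
      by_cases h6 : s = 1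
      · rw [h6]
        exact h4
      refine up D hR hB hS hP G h1 h2 s (by lia) fun r hr hr' => ih r hr (by lia)
  have hdown : ∀ n : ℕ, ∀ s : ℤ, -(n : ℤ) ≤ s → s ≤ 1 → G (OK (gZ f) s) := by
    intro n
    induction n with
    | zero =>
      intro s hs hs'
      exact hup 1 s (by simpa using hs) (by simpa using hs')
    | succ n ih =>
      intro s hs hs'
      by_cases h5 : -(n : ℤ) ≤ s
      · exact ih s h5 hs'
      have h6 := down D hR hB hS hP G h1 h2 h3 h4 (s + 2) (by lia)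
        fun r hr hr' => ih r (by lia) hr'
      rwa [show s + 2 - 2 = s by ring] at h6
  intro m
  rcases le_total 0 m with hm | hm
  · exact hup m.toNat m hm (by lia)
  · exact hdown m.natAbs m (by lia) (by lia)

end Pool.Agent.VDK
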