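import Pool.Agent.VDK.T1

/-!
# VDK: target GE2, generation of `D^b(gr R)`
-/

set_option autoImplicit false
set_option linter.unusedVariables false

open CategoryTheory CategoryTheory.Limits Pretriangulated MvPolynomial Pool.Agent.VDC

noncomputable section

namespace Pool.Agent.VDK

namespace GE2_

variable {A : Type} [CommRing A] [Algebra ℂ A] {𝒜 : ℤ → Submodule ℂ A} [SetLike.GradedMonoid 𝒜]

lemma isZero_iff (X : GF 𝒜) : IsZero X ↔ (1 : Matrix X.ι X.ι A) = 0 := by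
  rw [IsZero.iff_id_eq_zero]
  constructor
  · intro h
    exact congrArg mat h
  · intro h
    exact gf_ext h

lemma isZero_resX_of_isZero {X : GF 𝒜} (hX : IsZero X) (u : X.ι → Prop) :
    IsZero (resX X u) := by
  rw [isZero_iff] at hX ⊢
  refine Matrix.ext fun i j => ?_
  have h1 := congrFun (congrFun hX i.1) j.1
  rw [Matrix.zero_apply] at h1 ⊢
  rw [← h1, Matrix.one_apply, Matrix.one_apply]
  exact if_congr Subtype.ext_iff rfl rfl

lemma isZero_resX_of_empty {X : GF 𝒜} (u : X.ι → Prop) (h : ∀ i, ¬ u i) :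
    IsZero (resX X u) := by
  rw [isZero_iff]
  exact Matrix.ext fun i j => absurd i.2 (h i.1)

/-- a subquotient with bounded support belongs to `G` -/
lemma mem_bdd (hB : T_BDC) (G : ObjectProperty (KK 𝒜)) (hG : G.IsTriangulated)
    (hG' : G.IsClosedUnderIsomorphisms) (hO : ∀ m, G (OK 𝒜 m)) (C : CochainComplex (GF 𝒜) ℤ)
    (U : ∀ n, (C.X n).ι → Prop) (hU : LC C U) (a b : ℤ)
    (ha : ∀ n i, U n i → a ≤ n) (hb : ∀ n i, U n i → b < n → IsZero (C.X n)) :
    G ((qK 𝒜).obj (resC C U hU)) := by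
  refine hB A 𝒜 G hG hG' (resC C U hU) a b ?_ ?_ fun n i => hO _
  · rw [CochainComplex.isStrictlyGE_iff]
    intro n hn
    rw [resC_X]
    exact isZero_resX_of_empty _ fun i hi => absurd (ha n i hi) (not_le.2 hn)
  · rw [CochainComplex.isStrictlyLE_iff]
    intro n hn
    rw [resC_X]
    by_cases h : IsZero (C.X n)
    · exact isZero_resX_of_isZero h _
    · exact isZero_resX_of_empty _ fun i hi => h (hb n i hi hn)

/-- a bounded difference does not matter -/
lemma res_iff (hR : T_RTR) (hB : T_BDC) (G : ObjectProperty (KK 𝒜)) (hG : G.IsTriangulated)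
    (hG' : G.IsClosedUnderIsomorphisms) (hO : ∀ m, G (OK 𝒜 m)) (C : CochainComplex (GF 𝒜) ℤ)
    (U V : ∀ n, (C.X n).ι → Prop) (hU : QC C U) (hV : QC C V) (hUV : ∀ n i, V n i → U n i)
    (a b : ℤ) (ha : ∀ n i, U n i → ¬ V n i → a ≤ n)
    (hb : ∀ n i, U n i → ¬ V n i → b < n → IsZero (C.X n)) :
    G ((qK 𝒜).obj (resC C U hU.lc)) ↔ G ((qK 𝒜).obj (resC C V hV.lc)) := by
  have h1 := mem_bdd hB G hG hG' hO C (fun n i => U n i ∧ ¬ V n i) (hU.lc_diff hV) a b
    (fun n i h => ha n i h.1 h.2) (fun n i h => hb n i h.1 h.2)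
  obtain ⟨x, y, z, hT⟩ := hR A 𝒜 C U V hU hV hUV
  constructor
  · intro h2
    exact G.ext_of_isTriangulatedClosed₃ _ hT h1 h2
  · intro h3
    exact G.ext_of_isTriangulatedClosed₂ _ hT h1 h3

end GE2_

open GE2_ in
theorem p_GE2 (hLIF : T_LIF) (hMCM : T_MCM) (hTAI : T_TAI) (hRTR : T_RTR) (hRTI : T_RTI)
    (hBDC : T_BDC) (hPSR : T_PSR) : T_GE2 := by
  intro f _ G hG hG' hPsi hO C hC
  obtain ⟨K, a, b, hb, ha, ⟨e⟩⟩ := (hLIF (RR f) (gZ f) C).1 hC
  refine G.prop_of_iso e.symm ?_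
  suffices H : ∀ (M : ℤ) (F : CM f),
      Nonempty ((qK (gZ f)).obj (resC K (Ule M K) (Ule_qc K M).lc) ≅
        (qK (gZ f)).obj (resC (CF F) (Ule M (CF F)) (Ule_qc (CF F) M).lc)) →
      G ((qK (gZ f)).obj K) by
    obtain ⟨F₀, π, σ, hcok⟩ := hMCM f K a (a - 7) ha (by lia)
    exact H _ _ (hTAI f K (a - 7) (fun n hn d => ha n (by lia) d) F₀ π σ hcok)
  rintro M F ⟨e₁⟩
  -- the periodic complex
  have hfin : ∃ N : ℤ, ∀ i, -N ≤ F.deg i ∧ F.deg i ≤ N := by
    refine ⟨∑ i, |F.deg i|, fun i => ?_⟩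
    have h1 : |F.deg i| ≤ ∑ i, |F.deg i| :=
      Finset.single_le_sum (f := fun i => |F.deg i|) (fun j _ => abs_nonneg _) (Finset.mem_univ i)
    exact abs_le.1 h1
  obtain ⟨N, hN⟩ := hfin
  have hdeg : ∀ n (i : ((CF F).X n).ι), -N ≤ ((CF F).X n).deg i + 3 * n ∧
      ((CF F).X n).deg i + 3 * n ≤ N := by
    intro n i
    have h1 : ((CF F).X n).deg i = F.deg i - 3 * n := rfl
    rw [h1]
    have h2 := hN i
    constructor <;> lia
  have g1 : G ((qK (gZ f)).obj (resC (CF F) (Uge 1 (CF F)) (Uge_qc (CF F) 1).lc)) := by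
    obtain ⟨e₂⟩ := hPSR f F
    exact G.prop_of_iso e₂ (hPsi F)
  have g2 := (res_iff hRTR hBDC G hG hG' hO (CF F) (Uge 1 (CF F))
    (fun n i => Ule M (CF F) n i ∧ Uge 1 (CF F) n i) (Uge_qc (CF F) 1)
    ((Ule_qc (CF F) M).inf (Uge_qc (CF F) 1)) (fun n i h => h.2) M (|N| + |M| + 1)
    (fun n i h h' => by
      by_contra h2
      refine h' ⟨?_, h⟩
      show n ≤ M
      lia)
    (fun n i h h' h2 => by
      exfalso
      have h3 := hdeg n i
      have h4 : 1 ≤ ((CF F).X n).deg i := h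
      have h5 := le_abs_self N
      have h6 := abs_nonneg M
      have h7 := abs_nonneg N
      lia)).1 g1
  have g3 := (res_iff hRTR hBDC G hG hG' hO (CF F) (Ule M (CF F))
    (fun n i => Ule M (CF F) n i ∧ Uge 1 (CF F) n i) (Ule_qc (CF F) M)
    ((Ule_qc (CF F) M).inf (Uge_qc (CF F) 1)) (fun n i h => h.1) (-(|N| + 1)) M
    (fun n i h h' => by
      have h3 := hdeg n i
      have h4 : ¬ 1 ≤ ((CF F).X n).deg i := fun h5 => h' ⟨h, h5⟩
      have h5 := le_abs_self N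
      have h7 := abs_nonneg N
      lia)
    (fun n i h h' h2 => by
      exfalso
      have h3 : n ≤ M := h
      lia)).2 g2
  -- the complex `K`
  have g4 := G.prop_of_iso e₁.symm g3
  have hT : QC K (fun _ _ => True) := fun n i j h _ => absurd trivial h
  have g5 := (res_iff hRTR hBDC G hG hG' hO K (fun _ _ => True) (Ule M K) hT (Ule_qc K M)
    (fun n i h => trivial) M b
    (fun n i h h' => by
      have h1 : ¬ n ≤ M := h'
      lia)
    (fun n i h h' h2 => (K.isStrictlyLE_iff b).1 hb n h2)).2 g4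
  obtain ⟨e₃⟩ := (hRTI (RR f) (gZ f) K).1 (fun _ _ => True) hT.lc (fun _ _ => trivial)
  exact G.prop_of_iso ((qK (gZ f)).mapIso e₃) g5

end Pool.Agent.VDK
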