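import Pool.Agent.VDK.T1

/-!
# VDK, target GFN: the graded pieces of `R` are finite dimensional (helper80)
-/

set_option autoImplicit false

open MvPolynomial Pool.Agent.VDC

noncomputable section

namespace Pool.Agent.VDK

namespace GFN_

lemma fin_wd (m : ℤ) : {a : Fin 4 →₀ ℕ | wd a = m}.Finite := by
  refine Set.Finite.subset
    (Set.finite_Iic (Finsupp.equivFunOnFinite.symm fun _ : Fin 4 => m.toNat)) ?_
  intro a ha
  have ha' : wd a = m := ha
  rw [Set.mem_Iic, Finsupp.le_def]
  intro i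
  rw [Finsupp.equivFunOnFinite_symm_apply_apply]
  have h : (a i : ℤ) ≤ m := by
    rw [← ha', wd, Fin.sum_univ_four]
    have h0 : (0 : ℤ) ≤ a 0 := Int.natCast_nonneg _
    have h1 : (0 : ℤ) ≤ a 1 := Int.natCast_nonneg _
    have h2 : (0 : ℤ) ≤ a 2 := Int.natCast_nonneg _
    have h3 : (0 : ℤ) ≤ a 3 := Int.natCast_nonneg _
    have w0 : wt 0 = 1 := rfl
    have w1 : wt 1 = 1 := rfl
    have w2 : wt 2 = 1 := rfl
    have w3 : wt 3 = 2 := rfl
    rw [w0, w1, w2, w3]
    fin_cases i <;> simp only [] <;> lia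
  lia

/-- the coefficients of an element of degree `m` -/
def cf (f : Sr) (m : ℤ) : gZ f m →ₗ[ℂ]
    ({a : Fin 4 →₀ ℕ | wd a = m} → ℂ) × ({a : Fin 4 →₀ ℕ | wd a = m - 3} → ℂ) where
  toFun r := (fun a => coeff a.1 r.1.re, fun a => coeff a.1 r.1.im)
  map_add' r s := by
    refine Prod.ext (funext fun a => ?_) (funext fun a => ?_)
    · show coeff a.1 (r.1 + s.1).re = _
      rw [QuadraticAlgebra.re_add, coeff_add]
      rfl
    · show coeff a.1 (r.1 + s.1).im = _
      rw [QuadraticAlgebra.im_add, coeff_add]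
      rfl
  map_smul' c r := by
    refine Prod.ext (funext fun a => ?_) (funext fun a => ?_)
    · show coeff a.1 (c • r.1).re = _
      rw [QuadraticAlgebra.re_smul, coeff_smul]
      rfl
    · show coeff a.1 (c • r.1).im = _
      rw [QuadraticAlgebra.im_smul, coeff_smul]
      rfl

lemma cf_inj (f : Sr) (m : ℤ) : Function.Injective (cf f m) := by
  rw [injective_iff_map_eq_zero]
  intro r hr
  obtain ⟨h1, h2⟩ := r.2
  have e1 := congrArg Prod.fst hr
  have e2 := congrArg Prod.snd hr
  refine Subtype.ext (QuadraticAlgebra.ext ?_ ?_)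
  · refine MvPolynomial.ext _ _ fun a => ?_
    show coeff a r.1.re = coeff a 0
    rw [coeff_zero]
    by_contra h
    exact h (congrFun e1 ⟨a, h1 a h⟩)
  · refine MvPolynomial.ext _ _ fun a => ?_
    show coeff a r.1.im = coeff a 0
    rw [coeff_zero]
    by_contra h
    exact h (congrFun e2 ⟨a, h2 a h⟩)

end GFN_

open GFN_ in
theorem p_GFN : T_GFN := by
  intro f m
  have := (fin_wd m).to_subtype
  have := (fin_wd (m - 3)).to_subtype
  exact Module.Finite.of_injective (cf f m) (cf_inj f m)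

end Pool.Agent.VDK
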