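import Pool.Agent.VDK.T1

/-!
# VDK-GPK: the cohomology of `P_k(t)` in position `0`, degree `- t` (helper49)
-/

set_option autoImplicit false
set_option linter.unusedVariables false

open CategoryTheory CategoryTheory.Limits Pretriangulated MvPolynomial Pool.Agent.VDC

noncomputable section

namespace Pool.Agent.VDK

namespace GPK_

lemma eq_zero_of_wd (a : Fin 4 →₀ ℕ) (h : wd a = 0) : a = 0 := by
  have h1 : ∀ i ∈ (Finset.univ : Finset (Fin 4)), 0 ≤ wt i * (a i : ℤ) := fun i _ => by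
    refine mul_nonneg ?_ (Int.natCast_nonneg _)
    fin_cases i <;> simp [wt]
  have h2 := (Finset.sum_eq_zero_iff_of_nonneg h1).1 h
  ext i
  have h3 := h2 i (Finset.mem_univ i)
  have h4 : wt i ≠ 0 := by fin_cases i <;> simp [wt]
  have h5 := (mul_eq_zero.1 h3).resolve_left h4
  exact_mod_cast h5

lemma hmg_zero {p : Sr} (h : Hmg p 0) : p = C (coeff 0 p) := by
  classical
  ext a
  rw [coeff_C]
  split_ifs with h1
  · rw [h1]
  · by_contra h2
    exact h1 (eq_zero_of_wd a (h a h2)).symm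

variable {f : Sr}

lemma mem_gZ_zero {r : RR f} (h : r ∈ gZ f 0) : ∃ c : ℂ, r = c • (1 : RR f) := by
  refine ⟨coeff 0 r.re, QuadraticAlgebra.ext ?_ ?_⟩
  · have h1 := hmg_zero h.1
    show r.re = coeff 0 r.re • (1 : RR f).re
    rw [QuadraticAlgebra.re_one, MvPolynomial.smul_eq_C_mul, mul_one]
    exact h1
  · have h1 : r.im = 0 := Hmg.eq_zero h.2 (by norm_num)
    show r.im = coeff 0 r.re • (1 : RR f).im
    rw [QuadraticAlgebra.im_one, smul_zero, h1]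

lemma cdS_nonneg {ι : Type} (c : ι → ℤ) (h : ∀ i, 0 ≤ c i) : ∀ i, 0 ≤ cdS c i := by
  rintro (i | i)
  · show 0 ≤ c i + 1
    have := h i
    lia
  · exact h i

lemma cdS_le {ι : Type} (c : ι → ℤ) (h : ∀ i, 0 ≤ c i) (i₀ : ι) (h0 : ∀ i, c i ≤ 0 → i = i₀) :
    ∀ i, cdS c i ≤ 0 → i = Sum.inr i₀ := by
  rintro (i | i) hi
  · have h1 : c i + 1 ≤ 0 := hi
    have := h i
    lia
  · have h1 : c i ≤ 0 := hi
    rw [h0 i h1]

/-- the generator -/
def i0 (D : KA f) : (kk D).ι := Sum.inr (Sum.inr (Sum.inr (Sum.inr ())))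

lemma eq_i0 (D : KA f) (i : (kk D).ι) (h : cd D i ≤ 0) : i = i0 D := by
  have h1 : ∀ i : Unit, 0 ≤ (fun _ : Unit => (0 : ℤ)) i := fun _ => le_refl _
  have h2 := cdS_nonneg _ h1
  have h3 := cdS_nonneg _ h2
  have h4 := cdS_nonneg _ h3
  exact cdS_le _ h4 _ (cdS_le _ h3 _ (cdS_le _ h2 _ (cdS_le _ h1 () fun _ _ => rfl))) i h

lemma deg_i0 (D : KA f) : (kk D).deg (i0 D) = 0 := by
  show (((-7 + 3 - wt 1) + 3 - wt 2) + 3 - wt 3) + 3 - wt 0 = 0
  simp [wt]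

variable [H6 f]

/-- the matrix of the component in position `0` -/
def mc {D : KA f} {t : ℤ}
    (φ : (CochainComplex.singleFunctor (GF (gZ f)) 0).obj (GF.tw (gZ f) t) ⟶ PK D t) :
    GF.tw (gZ f) t ⟶ (PK D t).X 0 :=
  (HomologicalComplex.singleObjXSelf (ComplexShape.up ℤ) (0 : ℤ) (GF.tw (gZ f) t)).inv ≫ φ.f 0

lemma mc_inj {D : KA f} {t : ℤ}
    {φ ψ : (CochainComplex.singleFunctor (GF (gZ f)) 0).obj (GF.tw (gZ f) t) ⟶ PK D t}
    (h : mc φ = mc ψ) : φ = ψ :=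
  HomologicalComplex.from_single_hom_ext ((cancel_epi _).1 h)

lemma mc_smul {D : KA f} {t : ℤ} (c : ℂ)
    (φ : (CochainComplex.singleFunctor (GF (gZ f)) 0).obj (GF.tw (gZ f) t) ⟶ PK D t) :
    mc (c • φ) = c • mc φ := by
  unfold mc
  rw [← Linear.comp_smul]
  rfl

lemma mc_coeff {D : KA f} {t : ℤ}
    (φ : (CochainComplex.singleFunctor (GF (gZ f)) 0).obj (GF.tw (gZ f) t) ⟶ PK D t) :
    ∃ c : ℂ, ∀ i j, mat (mc φ) i j = c • (1 : RR f) := by
  have key : ∀ (i : ((PK D t).X 0).ι), mat (mc φ) i () ∈ gZ f 0 := by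
    intro i
    have h1 := mat_mem (mc φ) i ()
    obtain ⟨i, hi⟩ := i
    have hi' : cd D i ≤ -0 := hi
    have e := eq_i0 D i (by lia)
    have e2 : (GF.tw (gZ f) t).deg () - ((PK D t).X 0).deg ⟨i, hi⟩ = 0 := by
      show -t - ((kk D).deg i - t - 3 * 0) = 0
      rw [e, deg_i0]
      ring
    rwa [e2] at h1
  have huniq : ∀ i i' : ((PK D t).X 0).ι, i = i' := by
    rintro ⟨i, hi⟩ ⟨i', hi'⟩
    have h1 : cd D i ≤ -0 := hi
    have h2 : cd D i' ≤ -0 := hi'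
    exact Subtype.ext ((eq_i0 D i (by lia)).trans (eq_i0 D i' (by lia)).symm)
  have hex : ∃ i : ((PK D t).X 0).ι, True := by
    refine ⟨⟨i0 D, ?_⟩, trivial⟩
    show (0 : ℤ) ≤ -0
    simp
  obtain ⟨i, -⟩ := hex
  obtain ⟨c, hc⟩ := mem_gZ_zero (key i)
  refine ⟨c, fun i' j => ?_⟩
  rw [huniq i' i]
  exact hc

end GPK_

open GPK_ in
/-- `T_GPK` -/
theorem p_GPK : T_GPK := by
  intro f _ D t
  by_cases h : ∃ (φ : (CochainComplex.singleFunctor (GF (gZ f)) 0).obj (GF.tw (gZ f) t) ⟶ PK D t)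
      (c : ℂ), c ≠ 0 ∧ ∀ i j, mat (mc φ) i j = c • (1 : RR f)
  · obtain ⟨φ, c, hc, hφ⟩ := h
    refine ⟨(qK (gZ f)).map φ, fun y => ?_⟩
    obtain ⟨ψ, hψ⟩ := (qK (gZ f)).map_surjective
      (show (qK (gZ f)).obj ((CochainComplex.singleFunctor (GF (gZ f)) 0).obj (GF.tw (gZ f) t)) ⟶
        (qK (gZ f)).obj (PK D t) from y)
    obtain ⟨e, he⟩ := mc_coeff ψ
    refine ⟨e / c, ?_⟩
    have h1 : ψ = (e / c) • φ := by
      refine mc_inj ?_
      rw [mc_smul]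
      refine gf_ext (Matrix.ext fun i j => ?_)
      rw [mat_smul, Matrix.smul_apply, hφ, he, smul_smul, div_mul_cancel₀ _ hc]
    rw [h1, Functor.map_smul] at hψ
    exact hψ.symm
  · refine ⟨0, fun y => ⟨0, ?_⟩⟩
    obtain ⟨ψ, hψ⟩ := (qK (gZ f)).map_surjective
      (show (qK (gZ f)).obj ((CochainComplex.singleFunctor (GF (gZ f)) 0).obj (GF.tw (gZ f) t)) ⟶
        (qK (gZ f)).obj (PK D t) from y)
    obtain ⟨e, he⟩ := mc_coeff ψ
    have he0 : e = 0 := by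
      by_contra h0
      exact h ⟨ψ, e, h0, he⟩
    have h1 : ψ = (0 : ℂ) • ψ := by
      refine mc_inj ?_
      rw [mc_smul]
      refine gf_ext (Matrix.ext fun i j => ?_)
      rw [mat_smul, Matrix.smul_apply, he, he0, zero_smul, zero_smul]
    rw [zero_smul] at h1
    rw [h1, Functor.map_zero] at hψ
    rw [zero_smul]
    exact hψ.symm

end Pool.Agent.VDK
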