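import Pool.Agent.VDK.T1

/-!
# VDK-HLG: no maps from complexes with generators of degrees `< c` to complexes with generators
of degrees `≥ c` (helper23)
-/

set_option autoImplicit false
set_option linter.unusedVariables false

open CategoryTheory CategoryTheory.Limits Pretriangulated

noncomputable section

namespace Pool.Agent.VDK

/-- a chain map from `tlt` to `tge` vanishes -/
lemma HLG_.chain (A : Type) [CommRing A] [Algebra ℂ A] (𝒜 : ℤ → Submodule ℂ A)
    [SetLike.GradedMonoid 𝒜] [NonNeg 𝒜] (c : ℤ) (K L : CochainComplex (GF 𝒜) ℤ) (k : ℤ)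
    (φ : (shiftFunctor (CochainComplex (GF 𝒜) ℤ) k).obj
      (((tlt 𝒜 c).mapHomologicalComplex (ComplexShape.up ℤ)).obj K) ⟶
      ((tge 𝒜 c).mapHomologicalComplex (ComplexShape.up ℤ)).obj L) : φ = 0 := by
  ext n : 1
  let g : (tlt 𝒜 c).obj (K.X (n + k)) ⟶ (tge 𝒜 c).obj (L.X n) := φ.f n
  have hg : g = 0 := by
    refine gf_ext (Matrix.ext fun i j => ?_)
    refine mat_eq_zero g i j ?_
    have h1 : (K.X (n + k)).deg j.1 < c := j.2
    have h2 : c ≤ (L.X n).deg i.1 := i.2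
    exact lt_of_lt_of_le h1 h2
  exact hg

/-- `T_HLG` -/
theorem p_HLG : T_HLG := by
  intro A _ _ 𝒜 _ _ c X Y k x
  obtain ⟨K, rfl⟩ := HomotopyCategory.quotient_obj_surjective X
  obtain ⟨L, rfl⟩ := HomotopyCategory.quotient_obj_surjective Y
  let K' : CochainComplex (GF 𝒜) ℤ :=
    ((tlt 𝒜 c).mapHomologicalComplex (ComplexShape.up ℤ)).obj K
  let L' : CochainComplex (GF 𝒜) ℤ :=
    ((tge 𝒜 c).mapHomologicalComplex (ComplexShape.up ℤ)).obj L
  let x' : (qK 𝒜).obj ((shiftFunctor (CochainComplex (GF 𝒜) ℤ) k).obj K') ⟶ (qK 𝒜).obj L' :=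
    (((qK 𝒜).commShiftIso k).app K').hom ≫ x
  obtain ⟨φ, hφ⟩ := (qK 𝒜).map_surjective x'
  have h0 : φ = 0 := HLG_.chain A 𝒜 c K L k φ
  have hx : x' = 0 := by rw [← hφ, h0, Functor.map_zero]
  exact (cancel_epi (((qK 𝒜).commShiftIso k).app K').hom).1 (hx.trans comp_zero.symm)

end Pool.Agent.VDK
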