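import Pool.Agent.VDK.T1

/-!
# VDK-HOP: `Psi F` has no elements of degree `≤ 0`
-/

set_option autoImplicit false
set_option linter.unusedVariables false

open CategoryTheory CategoryTheory.Limits Pretriangulated MvPolynomial Pool.Agent.VDC

noncomputable section

namespace Pool.Agent.VDK

theorem p_HOP (hACZ : T_ACZ) : T_HOP := by
  intro f _ F n d hd
  refine (hACZ (RR f) (gZ f)
    (((tge (gZ f) 1).mapHomologicalComplex (ComplexShape.up ℤ)).obj (CF F)) n d).2 ?_
  intro x hx
  have h0 : x = 0 := by
    refine gf_ext (Matrix.ext fun i j => ?_)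
    refine mat_eq_zero x i j ?_
    have h1 : 1 ≤ ((CF F).X n).deg i.1 := i.2
    have h2 : (GF.tw (gZ f) (-d)).deg j = d := by
      show - -d = d
      ring
    have h3 : ((((tge (gZ f) 1).mapHomologicalComplex (ComplexShape.up ℤ)).obj (CF F)).X n).deg i =
        ((CF F).X n).deg i.1 := rfl
    rw [h2, h3]
    lia
  exact ⟨0, by rw [h0, zero_comp]⟩

end Pool.Agent.VDK
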