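import Pool.Agent.VDK.T1

/-!
# VDK: `P_k(t)` is acyclic except in position `0`, degree `- t` (T_HPK) (helper15)
-/

set_option autoImplicit false
set_option linter.unusedVariables false

open CategoryTheory CategoryTheory.Limits Pretriangulated MvPolynomial Pool.Agent.VDC

noncomputable section

namespace Pool.Agent.VDK

namespace HPK_

variable {f : Sr}

lemma sub_sum {A : Type} [CommRing A] [Algebra ℂ A] {𝒜 : ℤ → Submodule ℂ A} (X : GF 𝒜)
    (v : X.ι → Prop) (g : X.ι → A) (hg : ∀ j, ¬ v j → g j = 0) :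
    ∑ j : (resX X v).ι, g j.1 = ∑ j, g j := by
  classical
  show ∑ j : {j // v j}, g j.1 = _
  have h1 : ∑ j : {j // v j}, g j.1 = ∑ j ∈ Finset.univ.filter v, g j := by
    rw [← Finset.sum_subtype_eq_sum_filter]
    exact Finset.sum_congr (by ext; simp) fun _ _ => rfl
  rw [h1, Finset.sum_filter]
  refine Finset.sum_congr rfl fun j _ => ?_
  split_ifs with hj
  · rfl
  · exact (hg j hj).symm

/-- the exactness statement used -/
def Ex (G : CM f) (cdf : G.ι → ℤ) (κ : Matrix G.ι G.ι Sr) (m δ : ℤ) : Prop :=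
  ∀ x : G.ι → Sr, (∀ i, Hmg (x i) (δ - G.deg i)) → (∀ i, x i ≠ 0 → cdf i = m) →
    κ.mulVec x = 0 → ∃ y : G.ι → Sr, (∀ i, Hmg (y i) (δ - 3 - G.deg i)) ∧
      (∀ i, y i ≠ 0 → cdf i = m + 1) ∧ κ.mulVec y = x

/-- the algebra -/
lemma alg (G : CM f) (cdf : G.ι → ℤ) (κ : Matrix G.ι G.ι Sr)
    (hκ : ∀ i j, κ i j = if cdf i + 1 = cdf j then G.Φ i j else 0)
    (hcd : ∀ i j, G.Φ i j ≠ 0 → cdf i = cdf j + 1 ∨ cdf i + 1 = cdf j)
    (s m δ : ℤ) (hK : Ex G cdf κ m δ) (hs : s * s = 1) (a b : Matrix G.ι Unit Sr)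
    (ha : ∀ i, Hmg (a i ()) (δ - G.deg i)) (hb : ∀ i, Hmg (b i ()) (δ - 3 - G.deg i))
    (hsa : ∀ i, ¬ cdf i ≤ m → a i () = 0) (hsb : ∀ i, ¬ cdf i ≤ m → b i () = 0)
    (h1 : ∀ i, cdf i ≤ m - 1 → (G.Φ * a) i () + s • f * b i () = 0)
    (h2 : ∀ i, cdf i ≤ m - 1 → (G.Φ * b) i () = s • a i ()) :
    ∃ c : Matrix G.ι Unit Sr, (∀ i, Hmg (c i ()) (δ - 3 - G.deg i)) ∧
      (∀ i, ¬ cdf i ≤ m + 1 → c i () = 0) ∧
      (∀ i, cdf i ≤ m → (G.Φ * c) i () = a i ()) ∧ ∀ i, cdf i ≤ m → s • c i () = b i () := by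
  classical
  have hss : ∀ p : Sr, s • s • p = p := fun p => by rw [smul_smul, hs, one_smul]
  have hsq := G.sq
  let w : G.ι → Sr := fun i => a i () - s • (G.Φ * b) i ()
  let a' : G.ι → Sr := fun i => if cdf i = m then w i else 0
  have hw : ∀ i, cdf i ≤ m → w i = a' i := by
    intro i hi
    by_cases h : cdf i = m
    · simp only [a', if_pos h]
    · simp only [a', if_neg h, w]
      rw [h2 i (by omega), hss, sub_self]
  have hΦw : ∀ i, cdf i ≤ m - 1 → ∑ j, G.Φ i j * w j = 0 := by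
    intro i hi
    have e1 : ∑ j, G.Φ i j * w j = (G.Φ * a) i () - s • (G.Φ * (G.Φ * b)) i () := by
      rw [Matrix.mul_apply, Matrix.mul_apply, Finset.smul_sum, ← Finset.sum_sub_distrib]
      refine Finset.sum_congr rfl fun j _ => ?_
      simp only [w]
      rw [mul_sub, mul_smul_comm]
    rw [e1, ← Matrix.mul_assoc, hsq, Matrix.neg_mul, Matrix.smul_mul, Matrix.one_mul,
      Matrix.neg_apply, Matrix.smul_apply, smul_neg, sub_neg_eq_add, smul_eq_mul]
    have h := h1 i hi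
    rwa [smul_mul_assoc] at h
  have hkap : κ.mulVec a' = 0 := by
    funext i
    show ∑ j, κ i j * a' j = 0
    by_cases hi : cdf i = m - 1
    · rw [← hΦw i (by omega)]
      refine Finset.sum_congr rfl fun j _ => ?_
      rw [hκ]
      by_cases hj : cdf i + 1 = cdf j
      · rw [if_pos hj, hw j (by omega)]
      · rw [if_neg hj, zero_mul]
        by_cases h3 : G.Φ i j = 0
        · rw [h3, zero_mul]
        · have h4 := hcd i j h3
          have h5 : cdf j ≤ m - 1 := by omega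
          have h6 : a' j = 0 := if_neg (by omega)
          rw [hw j (by omega), h6, mul_zero]
    · refine Finset.sum_eq_zero fun j _ => ?_
      rw [hκ]
      by_cases hj : cdf i + 1 = cdf j
      · have h6 : a' j = 0 := if_neg (by omega)
        rw [h6, mul_zero]
      · rw [if_neg hj, zero_mul]
  have hda : ∀ i, Hmg (a' i) (δ - G.deg i) := by
    intro i
    simp only [a']
    split_ifs
    · refine (ha i).sub (Hmg.zsmul s ?_)
      rw [Matrix.mul_apply]
      refine Hmg.sum fun j _ => ?_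
      exact ((G.hom i j).mul (hb j)).congr (by ring)
    · exact Hmg.zero _
  obtain ⟨y, hy1, hy2, hy3⟩ := hK a' hda (fun i hi => by
    by_contra h
    exact hi (if_neg h)) hkap
  have hy0 : ∀ i, cdf i ≠ m + 1 → y i = 0 := fun i hi => by
    by_contra h
    exact hi (hy2 i h)
  have hΦy : ∀ i, cdf i ≤ m → ∑ j, G.Φ i j * y j = a' i := by
    intro i hi
    rw [← hy3]
    show _ = ∑ j, κ i j * y j
    refine Finset.sum_congr rfl fun j _ => ?_
    rw [hκ]
    by_cases hj : cdf j = m + 1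
    · by_cases h3 : G.Φ i j = 0
      · rw [h3, ite_self]
      · have h4 := hcd i j h3
        rw [if_pos (by omega)]
    · rw [hy0 j hj, mul_zero, mul_zero]
  refine ⟨Matrix.of fun i _ => s • b i () + y i, fun i => ((hb i).zsmul s).add (hy1 i),
    fun i hi => ?_, fun i hi => ?_, fun i hi => ?_⟩
  · show s • b i () + y i = 0
    rw [hsb i (by omega), hy0 i (by omega), smul_zero, add_zero]
  · have e1 : (G.Φ * Matrix.of fun (i : G.ι) (_ : Unit) => s • b i () + y i) i () =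
        s • (G.Φ * b) i () + ∑ j, G.Φ i j * y j := by
      rw [Matrix.mul_apply, Matrix.mul_apply, Finset.smul_sum, ← Finset.sum_add_distrib]
      refine Finset.sum_congr rfl fun j _ => ?_
      show G.Φ i j * (s • b j () + y j) = _
      rw [mul_add, mul_smul_comm]
    rw [e1, hΦy i hi, ← hw i hi]
    simp only [w]
    ring
  · show s • (s • b i () + y i) = b i ()
    rw [hy0 i (by omega), add_zero, hss]

lemma aux [H6 f] (G : CM f) (cdf : G.ι → ℤ) (κ : Matrix G.ι G.ι Sr)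
    (hκ : ∀ i j, κ i j = if cdf i + 1 = cdf j then G.Φ i j else 0)
    (hcd : ∀ i j, G.Φ i j ≠ 0 → cdf i = cdf j + 1 ∨ cdf i + 1 = cdf j)
    (t k d : ℤ) (hK : Ex G cdf κ (-(k + 1)) (d + t + 3 * (k + 1)))
    (U : ∀ n, ((CF (tw t 1 G)).X n).ι → Prop) (hU : ∀ n (i : G.ι), U n i ↔ cdf i ≤ -n)
    (hlc : LC (CF (tw t 1 G)) U)
    (x : GF.tw (gZ f) (-d) ⟶ (resC (CF (tw t 1 G)) U hlc).X (k + 1))
    (hx : x ≫ (resC (CF (tw t 1 G)) U hlc).d (k + 1) (k + 1 + 1) = 0) :
    ∃ y : GF.tw (gZ f) (-d) ⟶ (resC (CF (tw t 1 G)) U hlc).X k,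
      y ≫ (resC (CF (tw t 1 G)) U hlc).d k (k + 1) = x := by
  classical
  have hFΦ : (tw t 1 G).Φ = G.Φ := by
    show ((1 : ℤ) • G.Φ) = G.Φ
    rw [one_smul]
  let N : Matrix {i // U (k + 1) i} Unit (RR f) := mat x
  let M : Matrix G.ι Unit (RR f) := Matrix.of fun i _ =>
    if h : U (k + 1) i then N ⟨i, h⟩ () else 0
  have hMx : ∀ (i : G.ι) (h : U (k + 1) i), M i () = N ⟨i, h⟩ () := fun i h => dif_pos h
  have hM0 : ∀ i : G.ι, ¬ U (k + 1) i → M i () = 0 := fun i h => dif_neg h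
  -- the equation
  have heq : ∀ i : G.ι, cdf i ≤ -(k + 1) - 1 → (dmat (tw t 1 G) (k + 1) * M) i () = 0 := by
    intro i hi
    have hi' : U (k + 1 + 1) i := (hU _ _).2 (by omega)
    have h := congrFun (congrFun (congrArg mat hx) ⟨i, hi'⟩) ()
    rw [mat_comp, resC_d] at h
    have e1 : ∑ j : (resX ((CF (tw t 1 G)).X (k + 1)) (U (k + 1))).ι,
        mat ((CF (tw t 1 G)).d (k + 1) (k + 1 + 1)) i j.1 * N j () = 0 := h
    rw [mat_CF_d] at e1
    rw [Matrix.mul_apply, ← e1]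
    have e2 := sub_sum ((CF (tw t 1 G)).X (k + 1)) (U (k + 1))
      (fun j => dmat (tw t 1 G) (k + 1) i j * M j ()) (fun j hj => by rw [hM0 j hj, mul_zero])
    refine Eq.trans e2.symm ?_
    refine Finset.sum_congr rfl fun j _ => ?_
    exact congrArg _ (hMx j.1 j.2)
  have hMe : M = rm f (reM M) (imM M) := (rm_eta M).symm
  have hdm : dmat (tw t 1 G) (k + 1) * M =
      rm f (G.Φ * reM M - f • ((sg (k + 1) • (1 : Matrix G.ι G.ι Sr)) * imM M))
      (G.Φ * imM M + (sg (k + 1) • (1 : Matrix G.ι G.ι Sr)) * reM M) := by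
    conv_lhs => rw [hMe]
    unfold dmat
    rw [hFΦ]
    exact rm_mul _ _ _ _
  have hdeg : ∀ i : G.ι, M i () ∈ gZ f (d + t + 3 * (k + 1) - G.deg i) := by
    intro i
    by_cases h : U (k + 1) i
    · rw [hMx i h]
      have h1 := mat_mem x ⟨i, h⟩ ()
      have e : (GF.tw (gZ f) (-d)).deg () - ((resC (CF (tw t 1 G)) U hlc).X (k + 1)).deg ⟨i, h⟩ =
          d + t + 3 * (k + 1) - G.deg i := by
        show - -d - (G.deg i - t - 3 * (k + 1)) = _
        ring
      rw [e] at h1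
      exact h1
    · rw [hM0 i h]
      exact Submodule.zero_mem _
  have hU0 : ∀ i : G.ι, ¬ cdf i ≤ -(k + 1) → M i () = 0 := fun i hi =>
    hM0 i fun h => hi ((hU _ _).1 h)
  obtain ⟨c, hc1, hc2, hc3, hc4⟩ := alg G cdf κ hκ hcd (sg k) (-(k + 1))
    (d + t + 3 * (k + 1)) hK (sg_mul_self k) (reM M) (imM M) (fun i => (hdeg i).1)
    (fun i => (hdeg i).2.congr (by ring))
    (fun i hi => by
      show (M i ()).re = 0
      rw [hU0 i hi]; rfl)
    (fun i hi => by
      show (M i ()).im = 0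
      rw [hU0 i hi]; rfl)
    (fun i hi => by
      have h := heq i hi
      rw [hdm] at h
      have h1 : (G.Φ * reM M) i () - f * ((sg (k + 1) • (1 : Matrix G.ι G.ι Sr)) *
          imM M) i () = 0 := congrArg QuadraticAlgebra.re h
      rw [sg_succ, Matrix.smul_mul, Matrix.one_mul, Matrix.smul_apply, neg_smul, mul_neg,
        sub_neg_eq_add, mul_smul_comm, ← smul_mul_assoc] at h1
      exact h1)
    (fun i hi => by
      have h := heq i hi
      rw [hdm] at h
      have h1 : (G.Φ * imM M) i () + ((sg (k + 1) • (1 : Matrix G.ι G.ι Sr)) *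
          reM M) i () = 0 := congrArg QuadraticAlgebra.im h
      rw [sg_succ, Matrix.smul_mul, Matrix.one_mul, Matrix.smul_apply, neg_smul,
        ← sub_eq_add_neg, sub_eq_zero] at h1
      exact h1)
  have hdc : dmat (tw t 1 G) k * rm f c 0 = rm f (G.Φ * c) (sg k • c) := by
    unfold dmat
    rw [hFΦ]
    refine (rm_mul _ _ _ _).trans ?_
    rw [Matrix.mul_zero, Matrix.mul_zero, smul_zero, sub_zero, zero_add, Matrix.smul_mul]
    exact congrArg (rm f (G.Φ * c)) (congrArg _ (Matrix.one_mul c))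
  refine ⟨ofm (X := GF.tw (gZ f) (-d)) (Y := (resC (CF (tw t 1 G)) U hlc).X k)
    (fun i j => rm f c 0 i.1 j) ?_, ?_⟩
  · rintro ⟨i, hi⟩ j
    refine ⟨(hc1 i).congr ?_, Hmg.zero _⟩
    show d + t + 3 * (k + 1) - 3 - G.deg i = - -d - (G.deg i - t - 3 * k)
    ring
  · refine gf_ext (Matrix.ext ?_)
    rintro ⟨i, hi⟩ ⟨⟩
    rw [mat_comp, resC_d]
    show ∑ j : (resX ((CF (tw t 1 G)).X k) (U k)).ι,
        mat ((CF (tw t 1 G)).d k (k + 1)) i j.1 * rm f c 0 j.1 () = N ⟨i, hi⟩ ()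
    rw [mat_CF_d]
    have e2 := sub_sum ((CF (tw t 1 G)).X k) (U k)
      (fun j => dmat (tw t 1 G) k i j * rm f c 0 j ())
      (fun j hj => by
        have h3 : c j () = 0 := hc2 j fun h => hj ((hU _ _).2 (by omega))
        have h4 : rm f c 0 j () = 0 := by
          show (⟨c j (), 0⟩ : RR f) = 0
          rw [h3]
          rfl
        rw [h4, mul_zero])
    refine Eq.trans e2 ?_
    have e3 : ∑ j, dmat (tw t 1 G) k i j * rm f c 0 j () =
      (dmat (tw t 1 G) k * rm f c 0) i () := rfl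
    refine Eq.trans e3 ?_
    rw [hdc]
    refine Eq.trans ?_ (hMx i hi)
    exact QuadraticAlgebra.ext (hc3 i ((hU _ _).1 hi)) (hc4 i ((hU _ _).1 hi))

end HPK_

theorem p_HPK (hK : T_KCX) : T_HPK := by
  intro f _ D t n d hnd x hx
  obtain ⟨k, rfl⟩ : ∃ k, n = k + 1 := ⟨n - 1, by ring⟩
  have key : ∀ m, m = k → ∃ y : GF.tw (gZ f) (-d) ⟶ (PK D t).X m,
      y ≫ (PK D t).d m (k + 1) = x := by
    rintro m rfl
    refine HPK_.aux (kk D) (cd D) (kap D) (fun i j => rfl) (fun i j h => ?_) t m d ?_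
      (UK D t) (fun n i => Iff.rfl) (UK_qc D t).lc x hx
    · refine cd_prop D 0 j i fun h1 => h ?_
      have h2 : ((1 : ℤ) • (kk D).Φ) i j = 0 := h1
      rwa [one_smul] at h2
    · intro z h1 h2 h3
      refine hK f D (-(m + 1)) z (d + t + 3 * (m + 1)) h1 h2 h3 fun h4 h5 => hnd ⟨by omega, ?_⟩
      omega
  exact key _ (by ring)

end Pool.Agent.VDK
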