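import Pool.Agent.VDK.T1

/-!
# VDK-HPS: maps from `P_k(t)`, `t ≤ 1`, to `Psi F`
-/

set_option autoImplicit false
set_option linter.unusedVariables false

open CategoryTheory CategoryTheory.Limits Pretriangulated MvPolynomial Pool.Agent.VDC

noncomputable section

namespace Pool.Agent.VDK

section

variable {A : Type} [CommRing A] [Algebra ℂ A] {𝒜 : ℤ → Submodule ℂ A} [SetLike.GradedMonoid 𝒜]

lemma HPS_isZero (X : GF 𝒜) (h : IsEmpty X.ι) : IsZero X :=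
  ⟨fun Y => ⟨⟨⟨0⟩, fun a => gf_ext (Matrix.ext fun i j => h.elim j)⟩⟩,
    fun Y => ⟨⟨⟨0⟩, fun a => gf_ext (Matrix.ext fun i j => h.elim i)⟩⟩⟩

/-- `Coac` with free indices -/
lemma HPS_coac {C : CochainComplex (GF 𝒜) ℤ} {n e : ℤ} (h : Coac C n e) (a c : ℤ) (ha : a + 1 = n)
    (hc : n + 1 = c) (x : C.X n ⟶ GF.tw 𝒜 (-e)) (hx : C.d a n ≫ x = 0) :
    ∃ y : C.X c ⟶ GF.tw 𝒜 (-e), C.d n c ≫ y = x := by
  subst hc
  have h1 : a = n - 1 := by lia
  subst h1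
  exact h x hx

/-- `Coac` for a complex with the same differentials up to a unit -/
lemma HPS_unit {C : CochainComplex (GF 𝒜) ℤ} {k n e : ℤ} (h : Coac C (n + k) e)
    (x : C.X (n + k) ⟶ GF.tw 𝒜 (-e))
    (hx : (k.negOnePow • C.d (n - 1 + k) (n + k)) ≫ x = 0) :
    ∃ y : C.X (n + 1 + k) ⟶ GF.tw 𝒜 (-e), (k.negOnePow • C.d (n + k) (n + 1 + k)) ≫ y = x := by
  rw [Linear.units_smul_comp] at hx
  have hx1 : C.d (n - 1 + k) (n + k) ≫ x = 0 := by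
    have h3 := congrArg (fun z => k.negOnePow • z) hx
    simp only [smul_zero] at h3
    rwa [smul_smul, Int.units_mul_self, one_smul] at h3
  obtain ⟨y, hy⟩ := HPS_coac h (n - 1 + k) (n + 1 + k) (by ring) (by ring) x hx1
  refine ⟨k.negOnePow • y, ?_⟩
  rw [Linear.comp_units_smul, Linear.units_smul_comp, smul_smul, Int.units_mul_self, one_smul]
  exact hy

lemma HPS_shift {C : CochainComplex (GF 𝒜) ℤ} {k n e : ℤ} (h : Coac C (n + k) e) :
    Coac ((shiftFunctor (CochainComplex (GF 𝒜) ℤ) k).obj C) n e := fun x hx => HPS_unit h x hx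

/-- a map between shifts vanishes in the homotopy category -/
lemma HPS_up (hU : T_HTU) (N W : CochainComplex (GF 𝒜) ℤ) (k l n₁ : ℤ) (hW : W.IsStrictlyGE n₁)
    (h : ∀ (n m : ℤ) (j : (W.X n).ι), Coac N m ((W.X n).deg j))
    (x : (shiftFunctor (KK 𝒜) k).obj ((qK 𝒜).obj N) ⟶
      (shiftFunctor (KK 𝒜) l).obj ((qK 𝒜).obj W)) : x = 0 := by
  let Q := HomotopyCategory.quotient (GF 𝒜) (ComplexShape.up ℤ)
  let x' : Q.obj ((shiftFunctor (CochainComplex (GF 𝒜) ℤ) k).obj N) ⟶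
      Q.obj ((shiftFunctor (CochainComplex (GF 𝒜) ℤ) l).obj W) :=
    ((Q.commShiftIso k).app N).hom ≫ x ≫ ((Q.commShiftIso l).app W).inv
  obtain ⟨φ, hφ⟩ := Q.map_surjective x'
  have hW' : ((shiftFunctor (CochainComplex (GF 𝒜) ℤ) l).obj W).IsStrictlyGE (n₁ - l) :=
    W.isStrictlyGE_shift n₁ l (n₁ - l) (by lia)
  have h0 : Q.map φ = 0 := hU A 𝒜 _ _ (n₁ - l) hW' (fun n j => HPS_shift (h (n + l) (n + k) j)) φ
  have hx : x' = 0 := by rw [← hφ, h0]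
  have h1 : x ≫ ((Q.commShiftIso l).app W).inv = 0 :=
    (cancel_epi ((Q.commShiftIso k).app N).hom).1 (hx.trans comp_zero.symm)
  exact (cancel_mono ((Q.commShiftIso l).app W).inv).1 (h1.trans zero_comp.symm)

/-- a map from a shift vanishes in the homotopy category -/
lemma HPS_down (hD : T_HTD) (N : CochainComplex (GF 𝒜) ℤ) (W : KK 𝒜) (k n₀ : ℤ)
    (hN : N.IsStrictlyLE n₀) (h : ∀ n d : ℤ, CohZero W n d)
    (x : (shiftFunctor (KK 𝒜) k).obj ((qK 𝒜).obj N) ⟶ W) : x = 0 := by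
  let Q := HomotopyCategory.quotient (GF 𝒜) (ComplexShape.up ℤ)
  have hN' : ((shiftFunctor (CochainComplex (GF 𝒜) ℤ) k).obj N).IsStrictlyLE (n₀ - k) :=
    N.isStrictlyLE_shift n₀ k (n₀ - k) (by lia)
  have h0 : ((Q.commShiftIso k).app N).hom ≫ x = 0 :=
    hD A 𝒜 _ (n₀ - k) W hN' (fun n i => h n _) _
  exact (cancel_epi ((Q.commShiftIso k).app N).hom).1 (h0.trans comp_zero.symm)

end

lemma HPS_cdS {ι : Type} {c : ι → ℤ} (h : ∀ i, 0 ≤ c i) : ∀ i, 0 ≤ cdS c i := by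
  rintro (i | i)
  · have := h i
    show 0 ≤ c i + 1
    lia
  · exact h i

lemma HPS_cd {f : Sr} (D : KA f) (i : (kk D).ι) : 0 ≤ cd D i := by
  revert i
  unfold cd
  refine HPS_cdS ?_
  refine HPS_cdS ?_
  refine HPS_cdS ?_
  refine HPS_cdS ?_
  intro i
  exact le_refl (0 : ℤ)

lemma HPS_PK {f : Sr} [H6 f] (D : KA f) (t : ℤ) : (PK D t).IsStrictlyLE 0 := by
  rw [CochainComplex.isStrictlyLE_iff]
  intro n hn
  refine HPS_isZero _ ⟨fun i => ?_⟩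
  have h1 : UK D t n i.1 := i.2
  have h3 : ∀ j : (kk D).ι, cd D j ≤ -n → False := fun j hj => by
    have h2 := HPS_cd D j
    lia
  exact h3 _ h1

lemma HPS_bdd {ι : Type} [Fintype ι] (g : ι → ℤ) : ∃ M : ℤ, ∀ i, M ≤ g i := by
  rcases isEmpty_or_nonempty ι with h | h
  · exact ⟨0, fun i => h.elim i⟩
  · obtain ⟨i, hi⟩ := Finite.exists_min g
    exact ⟨g i, hi⟩

lemma HPS_tlt {f : Sr} [H6 f] (F : CM f) : ∃ n₁ : ℤ,
    CochainComplex.IsStrictlyGE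
      (((tlt (gZ f) 1).mapHomologicalComplex (ComplexShape.up ℤ)).obj (CF F)) n₁ := by
  obtain ⟨M, hM⟩ := HPS_bdd F.deg
  refine ⟨min 0 M, ?_⟩
  rw [CochainComplex.isStrictlyGE_iff]
  intro n hn
  refine HPS_isZero _ ⟨fun i => ?_⟩
  have h1 : F.deg i.1 - 3 * n < 1 := i.2
  have h2 := hM i.1
  lia

theorem p_HPS (hT : T_TTR) (hD : T_HTD) (hF : T_ACF) (hZ : T_ACZ) (hU : T_HTU) (hC : T_COP) :
    T_HPS := by
  intro f _ D t ht F k x
  obtain ⟨π, hπ⟩ := hT (RR f) (gZ f) 1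
  obtain ⟨a, h, hd⟩ := hπ ((qK (gZ f)).obj (CF F))
  obtain ⟨n₁, hn₁⟩ := HPS_tlt F
  have h1 : x ≫ h = 0 := HPS_up hU (PK D t)
    (((tlt (gZ f) 1).mapHomologicalComplex (ComplexShape.up ℤ)).obj (CF F)) k 1 n₁ hn₁
    (fun n m j => hC f D t m _ (by
      have h2 : (CF F).X n = perX F n := rfl
      have h3 : F.deg j.1 - 3 * n < 1 := j.2
      show F.deg j.1 - 3 * n ≠ 2 - t
      lia)) (x ≫ h)
  obtain ⟨y, hy⟩ := Triangle.coyoneda_exact₃ _ hd x h1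
  have h2 : y = 0 := HPS_down hD (PK D t) ((qK (gZ f)).obj (CF F)) k 0 (HPS_PK D t)
    (fun n d => (hZ (RR f) (gZ f) (CF F) n d).2 (hF f F n d)) y
  rw [hy, h2]
  exact zero_comp

end Pool.Agent.VDK
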