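import Pool.Agent.VDK.T1

/-!
# VDK-HTD: vanishing of maps from a bounded above complex

A chain map from a bounded above complex `N` to a complex without cohomology in the degrees of the
generators of `N` is null-homotopic.
-/

set_option autoImplicit false
set_option linter.unusedVariables false

open CategoryTheory CategoryTheory.Limits Pretriangulated MvPolynomial Pool.Agent.VDC
open CochainComplex CochainComplex.HomComplex

noncomputable section

namespace Pool.Agent.VDK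

namespace HTD_

variable {A : Type} [CommRing A] [Algebra ℂ A] {𝒜 : ℤ → Submodule ℂ A} [SetLike.GradedMonoid 𝒜]

/-! ### lifting generator by generator -/

/-- the inclusion of the generator `i` -/
def gen (X : GF 𝒜) (i : X.ι) : GF.tw 𝒜 (-(X.deg i)) ⟶ X :=
  ofm ((1 : Matrix X.ι X.ι A).submatrix id fun _ => i) fun a _ => by
    have h := one_mem_GFHom X a i
    show (1 : Matrix X.ι X.ι A) a i ∈ 𝒜 (- -(X.deg i) - X.deg a)
    rwa [neg_neg]

/-- the map with given values on the generators -/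
def col (X Y : GF 𝒜) (y : ∀ i : X.ι, GF.tw 𝒜 (-(X.deg i)) ⟶ Y) : X ⟶ Y :=
  ofm (Matrix.of fun a i => mat (y i) a ()) fun a i => by
    have h : mat (y i) a () ∈ 𝒜 (- -(X.deg i) - Y.deg a) := mat_mem (y i) a ()
    rwa [neg_neg] at h

lemma gen_comp {X Y : GF 𝒜} (a : X ⟶ Y) (i : X.ι) (k : Y.ι) (u : Unit) :
    mat (gen X i ≫ a) k u = mat a k i := by
  show ∑ j, mat a k j * (1 : Matrix X.ι X.ι A) j i = mat a k i
  rw [Finset.sum_eq_single i]
  · rw [Matrix.one_apply_eq, mul_one]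
  · intro b _ hb
    rw [Matrix.one_apply_ne hb, mul_zero]
  · intro h
    exact absurd (Finset.mem_univ i) h

lemma col_comp {X Y Z : GF 𝒜} (y : ∀ i : X.ι, GF.tw 𝒜 (-(X.deg i)) ⟶ Y) (a : Y ⟶ Z) (ψ : X ⟶ Z)
    (h : ∀ i, y i ≫ a = gen X i ≫ ψ) : col X Y y ≫ a = ψ := by
  refine gf_ext (Matrix.ext fun k i => ?_)
  have h1 : mat (col X Y y ≫ a) k i = mat (y i ≫ a) k () := rfl
  rw [h1, h i, gen_comp]

/-! ### downward induction -/

variable {K L : CochainComplex (GF 𝒜) ℤ}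

/-- the boundary of `α` is `f` in positions `> m` -/
def Good (f : K ⟶ L) (m : ℤ) (α : Cochain K L (-1)) : Prop :=
  ∀ p, m < p → (δ (-1) 0 α).v p p (add_zero p) = f.f p

lemma dl (α : Cochain K L (-1)) (p : ℤ) : (δ (-1) 0 α).v p p (add_zero p) =
    α.v p (p - 1) (by lia) ≫ L.d (p - 1) p + K.d p (p + 1) ≫ α.v (p + 1) p (by lia) := by
  rw [δ_v (-1) 0 (neg_add_cancel 1) α p p (add_zero p) (p - 1) (p + 1) rfl rfl]
  simp

lemma step {f : K ⟶ L} {m : ℤ} {α : Cochain K L (-1)} (hα : Good f m α)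
    (hs : ∀ ψ : K.X m ⟶ L.X m, ψ ≫ L.d m (m + 1) = 0 →
      ∃ h : K.X m ⟶ L.X (m - 1), h ≫ L.d (m - 1) m = ψ) :
    ∃ β : Cochain K L (-1), Good f (m - 1) β ∧
      ∀ p q (hpq : p + (-1) = q), m < p → β.v p q hpq = α.v p q hpq := by
  have h1 := hα (m + 1) (by lia)
  rw [dl] at h1
  have h2 : α.v (m + 1) (m + 1 - 1) (by lia) ≫ L.d (m + 1 - 1) (m + 1) =
      α.v (m + 1) m (by lia) ≫ L.d m (m + 1) := by
    have : ∀ (n : ℤ) (hn : m + 1 + (-1) = n), α.v (m + 1) n hn ≫ L.d n (m + 1) =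
      α.v (m + 1) m (by lia) ≫ L.d m (m + 1) := by
      intro n hn
      obtain rfl : n = m := by lia
      rfl
    exact this _ _
  rw [h2] at h1
  obtain ⟨h, hh⟩ := hs (f.f m - α.v m (m - 1) (by lia) ≫ L.d (m - 1) m -
    K.d m (m + 1) ≫ α.v (m + 1) m (by lia)) (by
      rw [Preadditive.sub_comp, Preadditive.sub_comp, Category.assoc, L.d_comp_d,
        comp_zero, sub_zero, Category.assoc, f.comm, ← Preadditive.comp_sub, ← h1,
        add_sub_cancel_left, ← Category.assoc, K.d_comp_d, zero_comp])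
  refine ⟨α + Cochain.single h (-1), ?_, ?_⟩
  · intro p hp
    rw [dl, Cochain.add_v, Cochain.add_v]
    rcases eq_or_ne p m with rfl | hpm
    · rw [Cochain.single_v, Cochain.single_v_eq_zero _ _ _ _ _ (by lia), add_zero,
        Preadditive.add_comp, hh]
      abel
    · rw [Cochain.single_v_eq_zero _ _ _ _ _ hpm, Cochain.single_v_eq_zero _ _ _ _ _ (by lia),
        add_zero, add_zero, ← dl]
      exact hα p (by lia)
  · intro p q hpq hp
    rw [Cochain.add_v, Cochain.single_v_eq_zero _ _ _ _ _ (by lia), add_zero]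

lemma exists_seq {f : K ⟶ L} {n₀ : ℤ} (hK : K.IsStrictlyLE n₀)
    (hs : ∀ (m : ℤ) (ψ : K.X m ⟶ L.X m), ψ ≫ L.d m (m + 1) = 0 →
      ∃ h : K.X m ⟶ L.X (m - 1), h ≫ L.d (m - 1) m = ψ) :
    ∃ α : ℕ → Cochain K L (-1), ∀ k : ℕ, Good f (n₀ - k) (α k) ∧
      ∀ p q (hpq : p + (-1) = q), n₀ - k < p → (α (k + 1)).v p q hpq = (α k).v p q hpq := by
  classical
  have h0 : Good f n₀ (0 : Cochain K L (-1)) := fun p hp =>
    (K.isZero_of_isStrictlyLE n₀ p hp).eq_of_src _ _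
  have h1 : ∀ (m : ℤ) (α : {α : Cochain K L (-1) // Good f m α}),
      ∃ β : {β : Cochain K L (-1) // Good f (m - 1) β},
        ∀ p q (hpq : p + (-1) = q), m < p → β.1.v p q hpq = α.1.v p q hpq := by
    intro m α
    obtain ⟨β, hβ, hβ'⟩ := step α.2 (hs m)
    exact ⟨⟨β, hβ⟩, hβ'⟩
  choose F hF using h1
  let S : ∀ k : ℕ, {α : Cochain K L (-1) // Good f (n₀ - k) α} := fun k =>
    Nat.rec ⟨0, by simpa using h0⟩ (fun k a => ⟨(F _ a).1, by
      have := (F _ a).2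
      rwa [show n₀ - ((k + 1 : ℕ) : ℤ) = n₀ - (k : ℤ) - 1 by push_cast; ring]⟩) k
  exact ⟨fun k => (S k).1, fun k => ⟨(S k).2, fun p q hpq hp => hF _ (S k) p q hpq hp⟩⟩

lemma seq_eq {n₀ : ℤ} {α : ℕ → Cochain K L (-1)} (h : ∀ k : ℕ, ∀ p q (hpq : p + (-1) = q),
      n₀ - k < p → (α (k + 1)).v p q hpq = (α k).v p q hpq) (k j : ℕ) (p q : ℤ)
    (hpq : p + (-1) = q) (hp : n₀ - k < p) : (α (k + j)).v p q hpq = (α k).v p q hpq := by
  induction j with
  | zero => rfl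
  | succ j ih => rw [← ih, ← add_assoc, h (k + j) p q hpq (by push_cast; omega)]

lemma nullhtpy (f : K ⟶ L) (n₀ : ℤ) (hK : K.IsStrictlyLE n₀)
    (hs : ∀ (m : ℤ) (ψ : K.X m ⟶ L.X m), ψ ≫ L.d m (m + 1) = 0 →
      ∃ h : K.X m ⟶ L.X (m - 1), h ≫ L.d (m - 1) m = ψ) : Nonempty (Homotopy f 0) := by
  obtain ⟨α, hα⟩ := exists_seq (f := f) hK hs
  let β : Cochain K L (-1) := Cochain.mk fun p q hpq => (α (n₀ - p + 1).toNat).v p q hpq
  have hβ : ∀ (k : ℕ) (p q : ℤ) (hpq : p + (-1) = q), n₀ - k < p →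
      β.v p q hpq = (α k).v p q hpq := by
    intro k p q hpq hp
    show (α (n₀ - p + 1).toNat).v p q hpq = (α k).v p q hpq
    obtain ⟨j, hj⟩ : ∃ j, k = (n₀ - p + 1).toNat + j := ⟨k - (n₀ - p + 1).toNat, by omega⟩
    rw [hj]
    exact (seq_eq (fun k => (hα k).2) _ j p q hpq (by omega)).symm
  refine ⟨(Cochain.equivHomotopy f 0).symm ⟨β, ?_⟩⟩
  rw [Cochain.ofHom_zero, add_zero]
  ext p
  rw [Cochain.ofHom_v]
  have h1 := (hα (n₀ - p + 1).toNat).1 p (by omega)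
  rw [dl] at h1 ⊢
  rw [hβ (n₀ - p + 1).toNat p (p - 1) (by omega) (by omega),
    hβ (n₀ - p + 1).toNat (p + 1) p (by omega) (by omega)]
  exact h1.symm

end HTD_

open HTD_ in
theorem p_HTD (hA : T_ACZ) : T_HTD := by
  intro A _ _ 𝒜 _ N n₀ W hN hW x
  obtain ⟨W', rfl⟩ := HomotopyCategory.quotient_obj_surjective W
  obtain ⟨φ, rfl⟩ := (qK 𝒜).map_surjective x
  obtain ⟨h⟩ := nullhtpy φ n₀ hN (by
    intro m ψ hψ
    have h1 : ∀ i : (N.X m).ι, ∃ y : GF.tw 𝒜 (-((N.X m).deg i)) ⟶ W'.X (m - 1),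
        y ≫ W'.d (m - 1) m = gen (N.X m) i ≫ ψ := fun i =>
      (hA A 𝒜 W' m ((N.X m).deg i)).1 (hW m i) (gen (N.X m) i ≫ ψ) (by
        rw [Category.assoc, hψ, comp_zero])
    choose y hy using h1
    exact ⟨col _ _ y, col_comp y _ ψ hy⟩)
  rw [HomotopyCategory.eq_of_homotopy φ 0 h, Functor.map_zero]

end Pool.Agent.VDK
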