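import Pool.Agent.VDK.T1

/-!
# VDK-HTU: maps to a bounded below complex vanish if the dual of the source is exact
-/

set_option autoImplicit false
set_option linter.unusedVariables false

open CategoryTheory CategoryTheory.Limits Pretriangulated

noncomputable section

namespace Pool.Agent.VDK

variable {A : Type} [CommRing A] [Algebra ℂ A] {𝒜 : ℤ → Submodule ℂ A} [SetLike.GradedMonoid 𝒜]

/-- a map which vanishes on `c` factors through `d`, if this is so for all its components -/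
lemma HTU_lift {M X Y Z : GF 𝒜} (c : M ⟶ X) (d : X ⟶ Y) (ψ : X ⟶ Z) (h : c ≫ ψ = 0)
    (hc : ∀ j : Z.ι, ∀ x : X ⟶ GF.tw 𝒜 (-(Z.deg j)), c ≫ x = 0 →
      ∃ y : Y ⟶ GF.tw 𝒜 (-(Z.deg j)), d ≫ y = x) :
    ∃ s : Y ⟶ Z, d ≫ s = ψ := by
  have key : ∀ j : Z.ι, ∃ y : Y ⟶ GF.tw 𝒜 (-(Z.deg j)),
      ∀ k, mat (d ≫ y) () k = mat ψ j k := by
    intro j
    have hm : ∀ (u : (GF.tw 𝒜 (-(Z.deg j))).ι) (k : X.ι),
        (fun (_ : (GF.tw 𝒜 (-(Z.deg j))).ι) (k : X.ι) => mat ψ j k) u k ∈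
          𝒜 (X.deg k - (GF.tw 𝒜 (-(Z.deg j))).deg u) := by
      intro u k
      show mat ψ j k ∈ 𝒜 (X.deg k - - -(Z.deg j))
      rw [neg_neg]
      exact mat_mem ψ j k
    have hx : c ≫ (ofm (fun _ k => mat ψ j k) hm : X ⟶ GF.tw 𝒜 (-(Z.deg j))) = 0 := by
      refine gf_ext (Matrix.ext fun u k => ?_)
      have h1 : mat (c ≫ ψ) j k = 0 := by rw [h]; rfl
      exact h1
    obtain ⟨y, hy⟩ := hc j _ hx
    refine ⟨y, fun k => ?_⟩
    rw [hy]
    rfl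
  choose y hy using key
  refine ⟨ofm (fun j i => mat (y j) () i) (fun j i => ?_), ?_⟩
  · have h1 : mat (y j) () i ∈ 𝒜 (Y.deg i - - -(Z.deg j)) := mat_mem (y j) () i
    rw [neg_neg] at h1
    exact h1
  · exact gf_ext (Matrix.ext fun j k => hy j k)

/-- the equation of a homotopy to zero in position `j` -/
def HTU_Eq {N W : CochainComplex (GF 𝒜) ℤ} (φ : N ⟶ W) (t : ∀ i j : ℤ, N.X i ⟶ W.X j)
    (j : ℤ) : Prop :=
  ∀ i k, i + 1 = j → j + 1 = k → φ.f j = N.d j k ≫ t k j + t j i ≫ W.d i j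

lemma HTU_step {N W : CochainComplex (GF 𝒜) ℤ} (φ : N ⟶ W)
    (hco : ∀ (n : ℤ) (j : (W.X n).ι), Coac N n ((W.X n).deg j))
    (t : ∀ i j : ℤ, N.X i ⟶ W.X j) (m : ℤ) (h : HTU_Eq φ t (m - 1)) :
    ∃ s : N.X (m + 1) ⟶ W.X m, N.d m (m + 1) ≫ s = φ.f m - t m (m - 1) ≫ W.d (m - 1) m := by
  refine HTU_lift (N.d (m - 1) m) _ _ ?_ (fun j x hx => hco m j x hx)
  have h1 := h (m - 1 - 1) m (by ring) (by ring)
  have h2 : N.d (m - 1) m ≫ φ.f m = φ.f (m - 1) ≫ W.d (m - 1) m := (φ.comm (m - 1) m).symm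
  rw [Preadditive.comp_sub, h2, h1, Preadditive.add_comp, Category.assoc, Category.assoc,
    W.d_comp_d, comp_zero, add_zero, sub_self]

lemma HTU_next {N W : CochainComplex (GF 𝒜) ℤ} (φ : N ⟶ W)
    (hco : ∀ (n : ℤ) (j : (W.X n).ι), Coac N n ((W.X n).deg j))
    (t : ∀ i j : ℤ, N.X i ⟶ W.X j) (m : ℤ) (h : ∀ j < m, HTU_Eq φ t j) :
    ∃ t' : ∀ i j : ℤ, N.X i ⟶ W.X j, (∀ i j, j ≠ m → t' i j = t i j) ∧
      ∀ j < m + 1, HTU_Eq φ t' j := by
  classical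
  obtain ⟨s, hs⟩ := HTU_step φ hco t m (h (m - 1) (by omega))
  let t' : ∀ i j : ℤ, N.X i ⟶ W.X j := fun i j =>
    if e : i = m + 1 ∧ j = m then
      eqToHom (congrArg N.X e.1) ≫ s ≫ eqToHom (congrArg W.X e.2.symm)
    else t i j
  have h1 : ∀ i j, j ≠ m → t' i j = t i j := by
    intro i j hj
    exact dif_neg fun e => hj e.2
  have h2 : t' (m + 1) m = s := by
    have : t' (m + 1) m = eqToHom rfl ≫ s ≫ eqToHom rfl := dif_pos ⟨rfl, rfl⟩
    rw [this]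
    simp
  refine ⟨t', h1, fun j hj i k hi hk => ?_⟩
  by_cases hjm : j = m
  · subst hjm
    subst hk
    obtain rfl : i = j - 1 := by omega
    rw [h2, h1 _ _ (by omega), hs]
    abel
  · rw [h1 _ _ hjm, h1 _ _ (by omega)]
    exact h j (by omega) i k hi hk

/-- VDK-HTU -/
theorem p_HTU : T_HTU := by
  intro A _ _ 𝒜 _ N W n₁ hW hco φ
  classical
  -- the sequence of partial homotopies
  have h0 : ∀ j < n₁ + ((0 : ℕ) : ℤ), HTU_Eq φ (fun i j => (0 : N.X i ⟶ W.X j)) j := by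
    intro j hj i k hi hk
    exact (W.isZero_of_isStrictlyGE n₁ j (by simpa using hj)).eq_of_tgt _ _
  have hex : ∀ (n : ℕ) (t : {t : ∀ i j : ℤ, N.X i ⟶ W.X j // ∀ j < n₁ + (n : ℤ), HTU_Eq φ t j}),
      ∃ t' : {t : ∀ i j : ℤ, N.X i ⟶ W.X j // ∀ j < n₁ + ((n + 1 : ℕ) : ℤ), HTU_Eq φ t j},
        ∀ i j, j ≠ n₁ + (n : ℤ) → t'.1 i j = t.1 i j := by
    intro n t
    obtain ⟨t', h1, h2⟩ := HTU_next φ hco t.1 (n₁ + n) t.2
    exact ⟨⟨t', fun j hj => h2 j (by push_cast at hj; lia)⟩, h1⟩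
  choose nx hnx using hex
  let T : ∀ n : ℕ, {t : ∀ i j : ℤ, N.X i ⟶ W.X j // ∀ j < n₁ + (n : ℤ), HTU_Eq φ t j} :=
    fun n => Nat.rec ⟨fun i j => 0, h0⟩ (fun n t => nx n t) n
  have hT : ∀ (n : ℕ) (i j : ℤ), j ≠ n₁ + (n : ℤ) → (T (n + 1)).1 i j = (T n).1 i j :=
    fun n => hnx n (T n)
  -- stabilisation
  have hst : ∀ (n k : ℕ) (i j : ℤ), j < n₁ + (n : ℤ) → (T (n + k)).1 i j = (T n).1 i j := by
    intro n k i j hj
    induction k with
    | zero => rfl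
    | succ k ih =>
      rw [← ih]
      exact hT (n + k) i j (by push_cast; lia)
  let s : ∀ i j : ℤ, N.X i ⟶ W.X j := fun i j =>
    if j + 1 = i then (T ((j - n₁ + 1).toNat)).1 i j else 0
  have hs : ∀ (i j : ℤ) (n : ℕ), j + 1 = i → j < n₁ + (n : ℤ) → s i j = (T n).1 i j := by
    intro i j n hij hj
    have h1 : s i j = (T ((j - n₁ + 1).toNat)).1 i j := if_pos hij
    rw [h1]
    obtain ⟨k, hk⟩ : ∃ k, n = (j - n₁ + 1).toNat + k := Nat.exists_eq_add_of_le (by lia)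
    rw [hk]
    by_cases hj1 : j < n₁ + ((j - n₁ + 1).toNat : ℤ)
    · exact (hst _ k i j hj1).symm
    · exfalso
      lia
  have heq : ∀ j, HTU_Eq φ s j := by
    intro j i k hi hk
    rw [hs k j ((j - n₁ + 1).toNat) hk (by lia), hs j i ((j - n₁ + 1).toNat) hi (by lia)]
    exact (T ((j - n₁ + 1).toNat)).2 j (by lia) i k hi hk
  have hom : Homotopy φ 0 :=
    { hom := s
      zero := fun i j hij => if_neg hij
      comm := fun j => by
        rw [dNext_eq s (show (ComplexShape.up ℤ).Rel j (j + 1) from rfl),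
          prevD_eq s (show (ComplexShape.up ℤ).Rel (j - 1) j from by simp)]
        rw [heq j (j - 1) (j + 1) (by ring) rfl]
        simp }
  rw [HomotopyCategory.eq_of_homotopy _ _ hom]
  exact Functor.map_zero _ _ _

end Pool.Agent.VDK
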