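import Pool.Agent.VDK.T2

/-!
# VDK: the target HUL
-/

set_option autoImplicit false
set_option linter.unusedVariables false

open CategoryTheory CategoryTheory.Limits Pretriangulated Pool.Agent.VDC

noncomputable section

namespace Pool.Agent.VDK

namespace HUL_

lemma dgr_of_tors {f : Sr} [H6 f] {C : KK (gZ f)} (h : Tors (gZ f) C) : Dgr (gZ f) C := by
  obtain ⟨h1, h2⟩ := h
  refine ⟨h1, ?_⟩
  obtain ⟨N, hN⟩ := (h2.image Prod.fst).bddBelow
  refine ⟨N, fun n hn d => ?_⟩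
  by_contra hc
  have := hN ⟨(n, d), hc, rfl⟩
  lia

end HUL_

open HUL_ in
theorem p_HUL (hGE1 : T_GE1) (hGE2 : T_GE2) (hTPK : T_TPK) : T_HUL := by
  intro f _ D h G hG hG' hT hPsi h0 h1 C
  have hM : (G.map (Dgr (gZ f)).ι).IsTriangulated := inferInstance
  have hM' : (G.map (Dgr (gZ f)).ι).IsClosedUnderIsomorphisms := inferInstance
  have hof : ∀ (X : KK (gZ f)) (hX : Dgr (gZ f) X), G ⟨X, hX⟩ → G.map (Dgr (gZ f)).ι X :=
    fun X hX hGX => G.prop_map_obj (Dgr (gZ f)).ι hGX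
  have hPsi' : ∀ F : CM f, G.map (Dgr (gZ f)).ι ((Psi f).obj F) := fun F =>
    hof _ (h F) (hPsi F)
  have hO := hGE1 f D (G.map (Dgr (gZ f)).ι) hM hM'
    (fun t => hof _ (dgr_of_tors (hTPK f D t)) (hT _ (hTPK f D t))) hPsi' (hof _ _ h0) (hof _ _ h1)
  have hC := hGE2 f (G.map (Dgr (gZ f)).ι) hM hM' hPsi' hO C.obj C.property
  obtain ⟨X, hX, ⟨e⟩⟩ := (G.prop_map_iff _ _).1 hC
  exact G.prop_of_iso ((Dgr (gZ f)).ι.preimageIso e) hX

end Pool.Agent.VDK
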