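import Pool.Agent.VDK.T2

/-!
# VDK: the essential image of a full exact functor is triangulated (helper92)
-/

set_option autoImplicit false
set_option linter.unusedSectionVars false

open CategoryTheory CategoryTheory.Limits Pretriangulated MvPolynomial Pool.Agent.VDC

noncomputable section

namespace Pool.Agent.VDK

namespace IMG_

/-- the matrix factorisation without generators -/
def zer (f : Sr) : CM f where
  ι := Empty
  deg := Empty.elim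
  Φ := 0
  hom i := i.elim
  sq := by ext i; exact i.elim

lemma id_zer (f : Sr) : 𝟙 (zer f) = 0 := by
  show cls (idM (zer f)) = 0
  have : idM (zer f) = 0 := by
    apply Subtype.ext
    ext i
    exact i.elim
  rw [this]
  exact map_zero _

/-- every object is a shift -/
lemma sh_tw {f : Sr} (X : CM f) : (sh f).obj (tw (-3) (-1) X) = X := by
  show tw 3 (-1) (tw (-3) (-1) X) = X
  obtain ⟨⟨ι, deg, Φ, hom⟩, sq⟩ := X
  have h1 : (fun i => (fun i => deg i - (-3)) i - 3) = deg := by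
    funext i
    simp
  have h2 : ((-1 : ℤˣ) : ℤ) • (((-1 : ℤˣ) : ℤ) • Φ) = Φ := by
    rw [smul_smul]
    simp
  unfold tw
  congr 2

section

variable {f : Sr} {D : Type 1} [Category.{1} D] [HasZeroObject D] [HasShift D ℤ] [Preadditive D]
    [∀ n : ℤ, (shiftFunctor D n).Additive] [Pretriangulated D] (Θ : CM f ⥤ D)

lemma zero (hadd : Θ.Additive) : Θ.essImage.ContainsZero where
  exists_zero := by
    refine ⟨Θ.obj (zer f), ?_, Θ.obj_mem_essImage _⟩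
    rw [IsZero.iff_id_eq_zero, ← Θ.map_id, id_zer, Θ.map_zero]

lemma sh1 (c : sh f ⋙ Θ ≅ Θ ⋙ shiftFunctor D (1 : ℤ)) {E : D} (h : Θ.essImage E) :
    Θ.essImage (E⟦(1 : ℤ)⟧) := by
  obtain ⟨X, ⟨e⟩⟩ := h
  exact ⟨(sh f).obj X, ⟨c.app X ≪≫ (shiftFunctor D (1 : ℤ)).mapIso e⟩⟩

lemma shm (c : sh f ⋙ Θ ≅ Θ ⋙ shiftFunctor D (1 : ℤ)) {E : D} (h : Θ.essImage E) :
    Θ.essImage (E⟦(-1 : ℤ)⟧) := by
  obtain ⟨X, ⟨e⟩⟩ := h
  refine ⟨tw (-3) (-1) X, ⟨?_⟩⟩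
  refine (shiftShiftNeg (Θ.obj (tw (-3) (-1) X)) (1 : ℤ)).symm ≪≫
    (shiftFunctor D (-1 : ℤ)).mapIso ?_
  exact (c.app (tw (-3) (-1) X)).symm ≪≫ Θ.mapIso (eqToIso (sh_tw X)) ≪≫ e

lemma shn (c : sh f ⋙ Θ ≅ Θ ⋙ shiftFunctor D (1 : ℤ)) (n : ℤ) :
    Θ.essImage ≤ Θ.essImage.shift n := by
  induction n with
  | zero => rw [ObjectProperty.shift_zero]
  | succ n ih =>
    rw [← Θ.essImage.shift_shift (n : ℤ) 1 ((n : ℤ) + 1) rfl]
    intro E hE
    exact sh1 Θ c (ih E hE)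
  | pred n ih =>
    rw [← Θ.essImage.shift_shift (-(n : ℤ)) (-1) (-(n : ℤ) - 1) (by ring)]
    intro E hE
    exact shm Θ c (ih E hE)

end

end IMG_

theorem p_IMG : T_IMG := by
  intro f D _ _ _ _ _ _ Θ hstd hadd hfull
  obtain ⟨c, hc⟩ := hstd
  have h0 := IMG_.zero Θ hadd
  have hs : Θ.essImage.IsStableUnderShift ℤ := ⟨fun n => ⟨IMG_.shn Θ c n⟩⟩
  have h2 : Θ.essImage.IsTriangulatedClosed₂ := by
    refine ObjectProperty.IsTriangulatedClosed₂.mk' ?_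
    intro T hT h1 h3
    obtain ⟨X, ⟨e1⟩⟩ := h1
    obtain ⟨Y, ⟨e3⟩⟩ := h3
    let e1' : Θ.obj ((sh f).obj X) ≅ T.obj₁⟦(1 : ℤ)⟧ :=
      c.app X ≪≫ (shiftFunctor D (1 : ℤ)).mapIso e1
    obtain ⟨γ, hγ⟩ := hfull Y ((sh f).obj X) (e3.hom ≫ T.mor₃ ≫ e1'.inv)
    obtain ⟨g, rfl⟩ := Submodule.mkQ_surjective _ γ
    have hd := hc Y ((sh f).obj X) g
    have hr := rot_of_distTriang _ (rot_of_distTriang _ hT)
    let e := isoTriangleOfIso₁₂ _ _ hd hr e3 e1' (by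
      show Θ.map (cls g) ≫ e1'.hom = e3.hom ≫ T.mor₃
      have : Θ.map (cls g) = e3.hom ≫ T.mor₃ ≫ e1'.inv := hγ
      rw [this, Category.assoc, Category.assoc, Iso.inv_hom_id, Category.comp_id])
    have h4 : Θ.essImage (T.obj₂⟦(1 : ℤ)⟧) := ⟨cone g, ⟨Triangle.π₃.mapIso e⟩⟩
    have h5 := IMG_.shm Θ c h4
    exact Θ.essImage.prop_of_iso (shiftShiftNeg T.obj₂ (1 : ℤ)) h5
  exact { }

end Pool.Agent.VDK
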