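import Pool.Agent.VDK.T1
import Pool.Agent.VDC.P_CMP
import Pool.Agent.VDC.P_MNZ
import Pool.Agent.VDC.P_MMEM
import Pool.Agent.VDC.P_MINS

/-!
# VDK: the Koszul complex of the four variables is exact
-/

set_option autoImplicit false
set_option linter.unusedVariables false

open CategoryTheory CategoryTheory.Limits Pretriangulated MvPolynomial Pool.Agent.VDC

noncomputable section

namespace Pool.Agent.VDK

namespace KCX_

/-- the part of `Φ` which lowers the cardinality -/
def low (Y : PO) (c : Y.ι → ℤ) : Matrix Y.ι Y.ι Sr :=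
  Matrix.of fun i j => if c i + 1 = c j then Y.Φ i j else 0

lemma low_sup (Y : PO) (c : Y.ι → ℤ) (i j : Y.ι) (h : c i + 1 ≠ c j) : low Y c i j = 0 := by
  show (if c i + 1 = c j then Y.Φ i j else 0) = 0
  rw [if_neg h]

lemma low_TT (Y : PO) (c : Y.ι → ℤ) (l a : Sr) (e : ℤ) (hl : Hmg l e) (ha : Hmg a (6 - e)) :
    low (TT Y l a e hl ha) (cdS c) =
      Matrix.fromBlocks (low Y c) 0 (l • (1 : Matrix Y.ι Y.ι Sr)) (-low Y c) := by
  ext1 i j
  rcases i with i | i <;> rcases j with j | j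
  · show (if c i + 1 + 1 = c j + 1 then Y.Φ i j else 0) = (if c i + 1 = c j then Y.Φ i j else 0)
    by_cases h : c i + 1 = c j
    · rw [if_pos h, if_pos (by lia)]
    · rw [if_neg h, if_neg (by lia)]
  · show (if c i + 1 + 1 = c j then (a • (1 : Matrix Y.ι Y.ι Sr)) i j else 0) = 0
    by_cases h : i = j
    · subst h
      rw [if_neg (by lia)]
    · rw [Matrix.smul_apply, Matrix.one_apply_ne h, smul_zero, ite_self]
  · show (if c i + 1 = c j + 1 then (l • (1 : Matrix Y.ι Y.ι Sr)) i j else 0) =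
      (l • (1 : Matrix Y.ι Y.ι Sr)) i j
    by_cases h : i = j
    · subst h
      rw [if_pos rfl]
    · rw [Matrix.smul_apply, Matrix.one_apply_ne h, smul_zero, ite_self]
  · show (if c i + 1 = c j then (-Y.Φ) i j else 0) = (-low Y c) i j
    rw [Matrix.neg_apply, Matrix.neg_apply]
    show (if c i + 1 = c j then -Y.Φ i j else 0) = -(if c i + 1 = c j then Y.Φ i j else 0)
    by_cases h : c i + 1 = c j
    · rw [if_pos h, if_pos h]
    · rw [if_neg h, if_neg h, neg_zero]

/-- exactness of the lowering part in cardinality at least `1`; the image in cardinality `0` is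
given by the ideal `I` -/
structure KE (Y : PO) (c : Y.ι → ℤ) (I : Ideal Sr) : Prop where
  nn : ∀ i, 0 ≤ c i
  ex : ∀ m : ℤ, 1 ≤ m → ∀ x : Y.ι → Sr, (∀ i, x i ≠ 0 → c i = m) → (low Y c).mulVec x = 0 →
    ∃ y : Y.ι → Sr, (∀ i, y i ≠ 0 → c i = m + 1) ∧ (low Y c).mulVec y = x
  e0 : ∀ x : Y.ι → Sr, (∀ i, x i ≠ 0 → c i = 0) → (∀ i, x i ∈ I) →
    ∃ y : Y.ι → Sr, (∀ i, y i ≠ 0 → c i = 1) ∧ (low Y c).mulVec y = x
  e1 : ∀ y : Y.ι → Sr, (∀ i, y i ≠ 0 → c i = 1) → ∀ i, (low Y c).mulVec y i ∈ I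

lemma KE.base (m : ℤ) : KE (UU m) (fun _ => 0) ⊥ where
  nn i := le_refl 0
  ex m hm x hx _ := by
    refine ⟨0, fun i h => absurd rfl h, ?_⟩
    rw [Matrix.mulVec_zero]
    funext i
    by_contra h
    have h1 := hx i (fun h2 => h h2.symm)
    change (0 : ℤ) = m at h1
    lia
  e0 x _ hx := by
    refine ⟨0, fun i h => absurd rfl h, ?_⟩
    rw [Matrix.mulVec_zero]
    funext i
    exact (Ideal.mem_bot.1 (hx i)).symm
  e1 y hy i := by
    have h0 : y = 0 := by
      funext j
      by_contra h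
      have h1 := hy j h
      change (0 : ℤ) = 1 at h1
      lia
    rw [h0, Matrix.mulVec_zero]
    exact Ideal.zero_mem _

lemma KE.step {Y : PO} {c : Y.ι → ℤ} {I : Ideal Sr} (h : KE Y c I) (l a : Sr) (e : ℤ)
    (hl : Hmg l e) (ha : Hmg a (6 - e)) (hnz : NZ l I) :
    KE (TT Y l a e hl ha) (cdS c) (I ⊔ Ideal.span {l}) := by
  have hmv : ∀ x : Y.ι ⊕ Y.ι → Sr, (low (TT Y l a e hl ha) (cdS c)).mulVec x =
      Sum.elim ((low Y c).mulVec (x ∘ Sum.inl))
        (l • (x ∘ Sum.inl) - (low Y c).mulVec (x ∘ Sum.inr)) := by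
    intro x
    rw [low_TT]
    rw [Matrix.fromBlocks_mulVec]
    congr 1
    · rw [Matrix.zero_mulVec, add_zero]
    · rw [Matrix.smul_mulVec, Matrix.one_mulVec, Matrix.neg_mulVec, sub_eq_add_neg]
  refine ⟨?_, ?_, ?_, ?_⟩
  · rintro (i | i)
    · show 0 ≤ c i + 1
      have := h.nn i
      lia
    · exact h.nn i
  · intro m hm x hx hk
    rw [hmv] at hk
    have hp : (low Y c).mulVec (x ∘ Sum.inl) = 0 := by
      funext i
      exact congrFun hk (Sum.inl i)
    have hq : (low Y c).mulVec (x ∘ Sum.inr) = l • (x ∘ Sum.inl) := by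
      funext i
      have h1 := congrFun hk (Sum.inr i)
      change l * x (Sum.inl i) - (low Y c).mulVec (x ∘ Sum.inr) i = 0 at h1
      exact (sub_eq_zero.1 h1).symm
    have hsp : ∀ i, (x ∘ Sum.inl) i ≠ 0 → c i = m - 1 := by
      intro i hi
      have h1 : c i + 1 = m := hx (Sum.inl i) hi
      lia
    have hsq : ∀ i, (x ∘ Sum.inr) i ≠ 0 → c i = m := fun i hi => hx (Sum.inr i) hi
    obtain ⟨p', hp1, hp2⟩ : ∃ y : Y.ι → Sr, (∀ i, y i ≠ 0 → c i = m) ∧
        (low Y c).mulVec y = x ∘ Sum.inl := by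
      rcases eq_or_lt_of_le hm with h1 | h1
      · subst h1
        refine h.e0 _ (fun i hi => by rw [hsp i hi]; norm_num) fun i => hnz _ ?_
        have h2 := h.e1 _ hsq i
        rw [hq] at h2
        exact h2
      · obtain ⟨y, hy1, hy2⟩ := h.ex (m - 1) (by lia) _ hsp hp
        exact ⟨y, fun i hi => by rw [hy1 i hi]; ring, hy2⟩
    obtain ⟨q', hq1, hq2⟩ := h.ex m hm (x ∘ Sum.inr - l • p') (by
      intro i hi
      by_cases h1 : (x ∘ Sum.inr) i = 0
      · refine hp1 i fun h2 => hi ?_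
        rw [Pi.sub_apply, h1, Pi.smul_apply, h2, smul_zero, sub_zero]
      · exact hsq i h1) (by
      rw [Matrix.mulVec_sub, hq, Matrix.mulVec_smul, hp2, sub_self])
    refine ⟨Sum.elim p' (-q'), ?_, ?_⟩
    · rintro (i | i) hi
      · show c i + 1 = m + 1
        rw [hp1 i hi]
      · show c i = m + 1
        exact hq1 i fun h2 => hi (by
          show (-q') i = 0
          rw [Pi.neg_apply, h2, neg_zero])
    · rw [hmv]
      funext i
      rcases i with i | i
      · show (low Y c).mulVec (Sum.elim p' (-q') ∘ Sum.inl) i = x (Sum.inl i)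
        rw [Sum.elim_comp_inl, hp2]
        rfl
      · show (l • (Sum.elim p' (-q') ∘ Sum.inl) -
          (low Y c).mulVec (Sum.elim p' (-q') ∘ Sum.inr)) i = x (Sum.inr i)
        rw [Sum.elim_comp_inl, Sum.elim_comp_inr, Matrix.mulVec_neg, hq2, sub_neg_eq_add,
          Pi.add_apply, Pi.sub_apply, add_sub_cancel]
        rfl
  · intro x hx hI
    have hl0 : ∀ i, x (Sum.inl i) = 0 := by
      intro i
      by_contra h1
      have h2 : c i + 1 = 0 := hx (Sum.inl i) h1
      have := h.nn i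
      lia
    have hdec : ∀ i, ∃ u v : Sr, u ∈ I ∧ x (Sum.inr i) = u + l * v ∧
        (x (Sum.inr i) = 0 → u = 0 ∧ v = 0) := by
      intro i
      by_cases h0 : x (Sum.inr i) = 0
      · exact ⟨0, 0, I.zero_mem, by rw [h0]; ring, fun _ => ⟨rfl, rfl⟩⟩
      · obtain ⟨u, hu, w, hw, huw⟩ := Submodule.mem_sup.1 (hI (Sum.inr i))
        obtain ⟨v, rfl⟩ := Ideal.mem_span_singleton.1 hw
        exact ⟨u, v, hu, huw.symm, fun h2 => absurd h2 h0⟩
    choose u v hu huv h0 using hdec
    have hsu : ∀ i, u i ≠ 0 → c i = 0 := fun i hi =>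
      hx (Sum.inr i) fun h2 => hi (h0 i h2).1
    have hsv : ∀ i, v i ≠ 0 → c i = 0 := fun i hi =>
      hx (Sum.inr i) fun h2 => hi (h0 i h2).2
    obtain ⟨u', hu1, hu2⟩ := h.e0 u hsu hu
    have hv0 : (low Y c).mulVec v = 0 := by
      funext i
      rw [Matrix.mulVec, dotProduct]
      refine Finset.sum_eq_zero fun j _ => ?_
      by_cases h2 : v j = 0
      · rw [h2, mul_zero]
      · rw [low_sup, zero_mul]
        have h3 := hsv j h2
        have h4 := h.nn i
        lia
    refine ⟨Sum.elim v (-u'), ?_, ?_⟩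
    · rintro (i | i) hi
      · show c i + 1 = 1
        rw [hsv i hi, zero_add]
      · show c i = 1
        exact hu1 i fun h2 => hi (by
          show (-u') i = 0
          rw [Pi.neg_apply, h2, neg_zero])
    · rw [hmv]
      funext i
      rcases i with i | i
      · show (low Y c).mulVec (Sum.elim v (-u') ∘ Sum.inl) i = x (Sum.inl i)
        rw [Sum.elim_comp_inl, hv0, hl0]
        rfl
      · show (l • (Sum.elim v (-u') ∘ Sum.inl) -
          (low Y c).mulVec (Sum.elim v (-u') ∘ Sum.inr)) i = x (Sum.inr i)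
        rw [Sum.elim_comp_inl, Sum.elim_comp_inr, Matrix.mulVec_neg, hu2, sub_neg_eq_add,
          Pi.add_apply, Pi.smul_apply, smul_eq_mul, huv i, add_comm]
  · intro y hy i
    rw [hmv]
    rcases i with i | i
    · show (low Y c).mulVec (y ∘ Sum.inl) i ∈ _
      have h1 : (low Y c).mulVec (y ∘ Sum.inl) i = 0 := by
        rw [Matrix.mulVec, dotProduct]
        refine Finset.sum_eq_zero fun j _ => ?_
        by_cases h2 : (y ∘ Sum.inl) j = 0
        · rw [h2, mul_zero]
        · rw [low_sup, zero_mul]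
          have h3 : c j + 1 = 1 := hy (Sum.inl j) h2
          have h4 := h.nn i
          lia
      rw [h1]
      exact Ideal.zero_mem _
    · show l * y (Sum.inl i) - (low Y c).mulVec (y ∘ Sum.inr) i ∈ _
      refine Ideal.sub_mem _ ?_ ?_
      · exact Ideal.mul_mem_right _ _
          (Ideal.mem_sup_right (Ideal.mem_span_singleton_self l))
      · exact Ideal.mem_sup_left (h.e1 (y ∘ Sum.inr) (fun j hj => hy (Sum.inr j) hj) i)

lemma mins (J : Finset (Fin 4)) (r : Fin 4) :
    mI (insert r J) (fun _ => 1) = mI J (fun _ => 1) ⊔ Ideal.span {(X r : Sr)} := by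
  have h := p_MINS.2 J (fun _ => 1) r
  rw [pow_one] at h
  exact h

lemma nz (J : Finset (Fin 4)) (r : Fin 4) (hr : r ∉ J) : NZ (X r : Sr) (mI J fun _ => 1) := by
  have h := p_MNZ p_MMEM J (fun _ => 1) r hr
  rw [pow_one] at h
  exact h

/-- exactness for the four variables -/
lemma KE_kk {f : Sr} (D : KA f) :
    KE (kk D).toPO (cd D) (mI {0, 3, 2, 1} fun _ => 1) := by
  have h0 : KE (UU (-7)) (fun _ => 0) (mI ∅ fun _ => 1) := by
    rw [p_MINS.1]
    exact KE.base (-7)
  have h1 := h0.step (D.kd.l 1) (D.kd.a 1) (D.kd.e 1) (D.kd.hl 1) (D.kd.ha 1)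
    (nz ∅ 1 (by decide))
  have e1 : mI ∅ (fun _ => 1) ⊔ Ideal.span {D.kd.l 1} = mI {1} (fun _ => 1) :=
    (mins ∅ 1).symm
  rw [e1] at h1
  have h2 := h1.step (D.kd.l 2) (D.kd.a 2) (D.kd.e 2) (D.kd.hl 2) (D.kd.ha 2)
    (nz {1} 2 (by decide))
  have e2 : mI {1} (fun _ => 1) ⊔ Ideal.span {D.kd.l 2} = mI {2, 1} (fun _ => 1) :=
    (mins {1} 2).symm
  rw [e2] at h2
  have h3 := h2.step (D.kd.l 3) (D.kd.a 3) (D.kd.e 3) (D.kd.hl 3) (D.kd.ha 3)
    (nz {2, 1} 3 (by decide))
  have e3 : mI {2, 1} (fun _ => 1) ⊔ Ideal.span {D.kd.l 3} = mI {3, 2, 1} (fun _ => 1) :=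
    (mins {2, 1} 3).symm
  rw [e3] at h3
  have h4 := h3.step (D.kd.l 0) (D.kd.a 0) (D.kd.e 0) (D.kd.hl 0) (D.kd.ha 0)
    (nz {3, 2, 1} 0 (by decide))
  have e4 : mI {3, 2, 1} (fun _ => 1) ⊔ Ideal.span {D.kd.l 0} = mI {0, 3, 2, 1} (fun _ => 1) :=
    (mins {3, 2, 1} 0).symm
  rw [e4] at h4
  exact h4

/-- the generator of cardinality `0` has degree `0` -/
lemma deg_cd {f : Sr} (D : KA f) (i : (kk D).ι) (h : cd D i = 0) : (kk D).deg i = 0 := by
  have e0 : D.kd.e 0 = 1 := rfl
  have e1 : D.kd.e 1 = 1 := rfl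
  have e2 : D.kd.e 2 = 1 := rfl
  have e3 : D.kd.e 3 = 2 := rfl
  rcases i with i | i
  · exfalso
    change cdS (cdS (cdS fun _ => 0)) i + 1 = 0 at h
    rcases i with i | i
    · change cdS (cdS fun _ => 0) i + 1 + 1 = 0 at h
      rcases i with i | i
      · change cdS (fun _ => 0) i + 1 + 1 + 1 = 0 at h
        rcases i with i | i
        · change (0 : ℤ) + 1 + 1 + 1 + 1 = 0 at h
          lia
        · change (0 : ℤ) + 1 + 1 + 1 = 0 at h
          lia
      · change cdS (fun _ => 0) i + 1 + 1 = 0 at h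
        rcases i with i | i
        · change (0 : ℤ) + 1 + 1 + 1 = 0 at h
          lia
        · change (0 : ℤ) + 1 + 1 = 0 at h
          lia
    · change cdS (cdS fun _ => 0) i + 1 = 0 at h
      rcases i with i | i
      · change cdS (fun _ => 0) i + 1 + 1 = 0 at h
        rcases i with i | i
        · change (0 : ℤ) + 1 + 1 + 1 = 0 at h
          lia
        · change (0 : ℤ) + 1 + 1 = 0 at h
          lia
      · change cdS (fun _ => 0) i + 1 = 0 at h
        rcases i with i | i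
        · change (0 : ℤ) + 1 + 1 = 0 at h
          lia
        · change (0 : ℤ) + 1 = 0 at h
          lia
  · change cdS (cdS (cdS fun _ => 0)) i = 0 at h
    rcases i with i | i
    · exfalso
      change cdS (cdS fun _ => 0) i + 1 = 0 at h
      rcases i with i | i
      · change cdS (fun _ => 0) i + 1 + 1 = 0 at h
        rcases i with i | i
        · change (0 : ℤ) + 1 + 1 + 1 = 0 at h
          lia
        · change (0 : ℤ) + 1 + 1 = 0 at h
          lia
      · change cdS (fun _ => 0) i + 1 = 0 at h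
        rcases i with i | i
        · change (0 : ℤ) + 1 + 1 = 0 at h
          lia
        · change (0 : ℤ) + 1 = 0 at h
          lia
    · change cdS (cdS fun _ => 0) i = 0 at h
      rcases i with i | i
      · exfalso
        change cdS (fun _ => 0) i + 1 = 0 at h
        rcases i with i | i
        · change (0 : ℤ) + 1 + 1 = 0 at h
          lia
        · change (0 : ℤ) + 1 = 0 at h
          lia
      · change cdS (fun _ => 0) i = 0 at h
        rcases i with i | i
        · exfalso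
          change (0 : ℤ) + 1 = 0 at h
          lia
        · show ((((-7 : ℤ) + 3 - D.kd.e 1) + 3 - D.kd.e 2) + 3 - D.kd.e 3) + 3 - D.kd.e 0 = 0
          rw [e0, e1, e2, e3]
          norm_num

lemma mem_top {p : Sr} {δ : ℤ} (hp : Hmg p δ) (hδ : δ ≠ 0) :
    p ∈ mI {0, 3, 2, 1} (fun _ => 1) := by
  rw [p_MMEM]
  intro a ha
  by_contra h1
  have h2 : ∀ j : Fin 4, a j = 0 := by
    intro j
    by_contra h3
    exact h1 ⟨j, by fin_cases j <;> decide, Nat.one_le_iff_ne_zero.2 h3⟩
  apply hδ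
  rw [← hp a ha, wd]
  exact Finset.sum_eq_zero fun j _ => by rw [h2 j]; simp

end KCX_

open KCX_ in
theorem p_KCX : T_KCX := by
  intro f D m x δ hx hs hk hm
  have hKE := KE_kk D
  have hkap : kap D = low (kk D).toPO (cd D) := rfl
  obtain ⟨y, hy1, hy2⟩ : ∃ y : (kk D).ι → Sr, (∀ i, y i ≠ 0 → cd D i = m + 1) ∧
      (kap D).mulVec y = x := by
    rw [hkap] at hk ⊢
    rcases lt_trichotomy m 0 with h | h | h
    · refine ⟨0, fun i hi => absurd rfl hi, ?_⟩
      rw [Matrix.mulVec_zero]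
      funext i
      by_contra h1
      have h2 := hs i fun h3 => h1 h3.symm
      have h4 := hKE.nn i
      lia
    · subst h
      refine hKE.e0 x hs fun i => ?_
      by_cases h1 : x i = 0
      · rw [h1]
        exact Ideal.zero_mem _
      · refine mem_top (hx i) ?_
        rw [deg_cd D i (hs i h1), sub_zero]
        exact hm rfl
    · exact hKE.ex m h x hs hk
  obtain ⟨c1, c2, c3, c4⟩ := p_CMP
  refine ⟨fun i => cmp (δ - 3 - (kk D).deg i) (y i), fun i => c1 _ _, fun i hi => ?_, ?_⟩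
  · refine hy1 i fun h => hi ?_
    show cmp _ (y i) = 0
    rw [h]
    exact map_zero _
  · funext i
    have h1 : ∀ j, kap D i j * cmp (δ - 3 - (kk D).deg j) (y j) =
        cmp (δ - (kk D).deg i) (kap D i j * y j) := by
      intro j
      have h2 : Hmg (kap D i j) ((kk D).deg j + 3 - (kk D).deg i) := by
        show Hmg (if cd D i + 1 = cd D j then (kk D).Φ i j else 0) _
        split_ifs
        · exact (kk D).hom i j
        · exact Hmg.zero _
      rw [c4 _ _ _ _ h2]
      congr 2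
      ring
    show ∑ j, kap D i j * cmp (δ - 3 - (kk D).deg j) (y j) = x i
    rw [Finset.sum_congr rfl fun j _ => h1 j]
    have h3 : (∑ j, cmp (δ - (kk D).deg i) (kap D i j * y j)) =
        cmp (δ - (kk D).deg i) (∑ j, kap D i j * y j) :=
      (map_sum (weightedHomogeneousComponent wt (δ - (kk D).deg i)) _ _).symm
    have h4 : ∑ j, kap D i j * y j = x i := congrFun hy2 i
    rw [h3, h4, c2 _ _ (hx i)]

end Pool.Agent.VDK
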