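import Pool.Agent.VDK.T1
import Pool.Agent.VDC.P_MNZ
import Pool.Agent.VDC.P_MMEM
import Pool.Agent.VDC.P_MINS
import Pool.Agent.VDC.P_CMP

/-!
# VDK, KRX: the dual Koszul complex is exact, except at the end (helper84)
-/

set_option autoImplicit false

open MvPolynomial Pool.Agent.VDC Matrix

noncomputable section

namespace Pool.Agent.VDK

namespace KRX_

/-- the part of `Φ` which lowers the cardinality, for arbitrary objects -/
def kp (Y : PO) (c : Y.ι → ℤ) : Matrix Y.ι Y.ι Sr :=
  Matrix.of fun i j => if c i + 1 = c j then Y.Φ i j else 0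

/-- exactness of the row complex of an object with cardinality function `c`, `N` variables and
ideal `I` -/
structure Ex (Y : PO) (c : Y.ι → ℤ) (N : ℤ) (I : Ideal Sr) : Prop where
  le : ∀ i, c i ≤ N
  ex : ∀ m < N, ∀ u : Y.ι → Sr, (∀ i, u i ≠ 0 → c i = m) → vecMul u (kp Y c) = 0 →
    ∃ v : Y.ι → Sr, (∀ i, v i ≠ 0 → c i = m - 1) ∧ vecMul v (kp Y c) = u
  top : ∀ u : Y.ι → Sr, (∀ i, u i ≠ 0 → c i = N) → (∀ i, u i ∈ I) →
    ∃ v : Y.ι → Sr, (∀ i, v i ≠ 0 → c i = N - 1) ∧ vecMul v (kp Y c) = u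
  cot : ∀ v : Y.ι → Sr, (∀ i, v i ≠ 0 → c i = N - 1) → ∀ i, vecMul v (kp Y c) i ∈ I

theorem supp {Y : PO} {c : Y.ι → ℤ} {m : ℤ} {v : Y.ι → Sr} (hv : ∀ i, v i ≠ 0 → c i = m)
    (j : Y.ι) (hj : vecMul v (kp Y c) j ≠ 0) : c j = m + 1 := by
  obtain ⟨i, _, hi⟩ := Finset.exists_ne_zero_of_sum_ne_zero hj
  have h1 := hv i (left_ne_zero_of_mul hi)
  have h2 : kp Y c i j ≠ 0 := right_ne_zero_of_mul hi
  have h3 : c i + 1 = c j := by
    by_contra h
    exact h2 (if_neg h)
  rw [← h3, h1]

theorem kp_TT (Y : PO) (c : Y.ι → ℤ) (l a : Sr) (e : ℤ) (hl : Hmg l e) (ha : Hmg a (6 - e)) :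
    kp (TT Y l a e hl ha) (cdS c) =
      Matrix.fromBlocks (kp Y c) 0 (l • (1 : Matrix Y.ι Y.ι Sr)) (-kp Y c) := by
  ext1 i j
  rcases i with i | i <;> rcases j with j | j
  · show (if c i + 1 + 1 = c j + 1 then Y.Φ i j else 0) = if c i + 1 = c j then Y.Φ i j else 0
    by_cases h : c i + 1 = c j
    · rw [if_pos h, if_pos (by rw [h])]
    · rw [if_neg h, if_neg (by lia)]
  · show (if c i + 1 + 1 = c j then (a • (1 : Matrix Y.ι Y.ι Sr)) i j else 0) = 0
    by_cases h : i = j
    · subst h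
      rw [if_neg (by lia)]
    · rw [Matrix.smul_apply, Matrix.one_apply_ne h, smul_zero, ite_self]
  · show (if c i + 1 = c j + 1 then (l • (1 : Matrix Y.ι Y.ι Sr)) i j else 0) =
      (l • (1 : Matrix Y.ι Y.ι Sr)) i j
    by_cases h : i = j
    · subst h
      rw [if_pos rfl]
    · rw [Matrix.smul_apply, Matrix.one_apply_ne h, smul_zero, ite_self]
  · show (if c i + 1 = c j then (-Y.Φ) i j else 0) = -(if c i + 1 = c j then Y.Φ i j else 0)
    by_cases h : c i + 1 = c j
    · rw [if_pos h, if_pos h]; rfl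
    · rw [if_neg h, if_neg h, neg_zero]

theorem vm (Y : PO) (c : Y.ι → ℤ) (l a : Sr) (e : ℤ) (hl : Hmg l e) (ha : Hmg a (6 - e))
    (s t : Y.ι → Sr) : vecMul (Sum.elim s t) (kp (TT Y l a e hl ha) (cdS c)) =
      Sum.elim (vecMul s (kp Y c) + l • t) (-vecMul t (kp Y c)) := by
  rw [kp_TT]
  refine (Matrix.vecMul_fromBlocks _ _ _ _ _).trans ?_
  have e1 : (Sum.elim s t) ∘ Sum.inl = s := rfl
  have e2 : (Sum.elim s t) ∘ Sum.inr = t := rfl
  rw [e1, e2, Matrix.vecMul_smul, Matrix.vecMul_one, Matrix.vecMul_zero, Matrix.vecMul_neg,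
    zero_add]

theorem step {Y : PO} {c : Y.ι → ℤ} {N : ℤ} {I : Ideal Sr} (h : Ex Y c N I) (l a : Sr) (e : ℤ)
    (hl : Hmg l e) (ha : Hmg a (6 - e)) (hNZ : NZ l I) :
    Ex (TT Y l a e hl ha) (cdS c) (N + 1) (I ⊔ Ideal.span {l}) where
  le := by
    rintro (i | i)
    · show c i + 1 ≤ N + 1
      have := h.le i
      lia
    · show c i ≤ N + 1
      have := h.le i
      lia
  ex := by
    intro m hm u hu h0
    obtain ⟨s, t, rfl⟩ : ∃ s t : Y.ι → Sr, u = Sum.elim s t :=
      ⟨u ∘ Sum.inl, u ∘ Sum.inr, (Sum.elim_comp_inl_inr u).symm⟩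
    have hs : ∀ i, s i ≠ 0 → c i = m - 1 := by
      intro i hi
      have h1 : c i + 1 = m := hu (Sum.inl i) hi
      lia
    have ht : ∀ i, t i ≠ 0 → c i = m := fun i hi => hu (Sum.inr i) hi
    rw [vm] at h0
    have h1 : vecMul s (kp Y c) + l • t = 0 := by
      ext1 i
      exact congrFun h0 (Sum.inl i)
    have h2 : vecMul t (kp Y c) = 0 := by
      have h3 : -vecMul t (kp Y c) = 0 := by
        ext1 i
        exact congrFun h0 (Sum.inr i)
      exact neg_eq_zero.1 h3
    obtain ⟨v, hv1, hv2⟩ : ∃ v : Y.ι → Sr, (∀ i, v i ≠ 0 → c i = m - 1) ∧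
        vecMul v (kp Y c) = t := by
      rcases lt_or_eq_of_le (show m ≤ N by lia) with hmN | hmN
      · exact h.ex m hmN t ht h2
      · subst hmN
        refine h.top t ht fun i => hNZ _ ?_
        have h4 := congrFun h1 i
        have h5 : l * t i = -(vecMul s (kp Y c) i) := by
          rw [eq_neg_iff_add_eq_zero, add_comm]
          exact h4
        rw [h5]
        exact I.neg_mem (h.cot s hs i)
    have h6 : vecMul (s + l • v) (kp Y c) = 0 := by
      rw [Matrix.add_vecMul, Matrix.smul_vecMul, hv2, h1]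
    obtain ⟨w, hw1, hw2⟩ := h.ex (m - 1) (by lia) (s + l • v) (by
      intro i hi
      by_contra hc
      apply hi
      have e1 : s i = 0 := by
        by_contra h7
        exact hc (hs i h7)
      have e2 : v i = 0 := by
        by_contra h7
        exact hc (hv1 i h7)
      show s i + l * v i = 0
      rw [e1, e2, mul_zero, add_zero]) h6
    refine ⟨Sum.elim w (-v), ?_, ?_⟩
    · rintro (i | i) hi
      · show c i + 1 = m - 1
        have := hw1 i hi
        lia
      · have h8 : v i ≠ 0 := fun h9 => hi (by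
          show -v i = 0
          rw [h9, neg_zero])
        exact hv1 i h8
    · rw [vm, Matrix.neg_vecMul, hv2, hw2, neg_neg, smul_neg, add_neg_cancel_right]
  top := by
    intro u hu hI
    obtain ⟨s, t, rfl⟩ : ∃ s t : Y.ι → Sr, u = Sum.elim s t :=
      ⟨u ∘ Sum.inl, u ∘ Sum.inr, (Sum.elim_comp_inl_inr u).symm⟩
    have hs : ∀ i, s i ≠ 0 → c i = N := by
      intro i hi
      have h1 : c i + 1 = N + 1 := hu (Sum.inl i) hi
      lia
    have ht : t = 0 := by
      ext1 i
      by_contra hi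
      have h1 : c i = N + 1 := hu (Sum.inr i) hi
      have := h.le i
      lia
    subst ht
    have h1 : ∀ i, ∃ b : Sr, s i - l * b ∈ I := by
      intro i
      have h2 : s i ∈ I ⊔ Ideal.span {l} := hI (Sum.inl i)
      obtain ⟨x, hx, y, hy, hxy⟩ := Submodule.mem_sup.1 h2
      obtain ⟨b, hb⟩ := Ideal.mem_span_singleton'.1 hy
      refine ⟨b, ?_⟩
      rw [← hxy, ← hb, mul_comm l b, add_sub_cancel_right]
      exact hx
    choose b hb using h1
    classical
    let v : Y.ι → Sr := fun i => if c i = N then b i else 0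
    have hv1 : ∀ i, v i ≠ 0 → c i = N := by
      intro i hi
      by_contra h2
      exact hi (if_neg h2)
    obtain ⟨w, hw1, hw2⟩ := h.top (s - l • v) (by
      intro i hi
      by_contra hc
      apply hi
      have e1 : s i = 0 := by
        by_contra h7
        exact hc (hs i h7)
      have e2 : v i = 0 := by
        by_contra h7
        exact hc (hv1 i h7)
      show s i - l * v i = 0
      rw [e1, e2, mul_zero, sub_zero]) (by
      intro i
      show s i - l * v i ∈ I
      by_cases hc : c i = N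
      · have : v i = b i := if_pos hc
        rw [this]
        exact hb i
      · have e1 : s i = 0 := by
          by_contra h7
          exact hc (hs i h7)
        have e2 : v i = 0 := if_neg hc
        rw [e1, e2, mul_zero, sub_zero]
        exact I.zero_mem)
    have h3 : vecMul v (kp Y c) = 0 := by
      ext1 j
      by_contra hj
      have h4 := supp hv1 j hj
      have := h.le j
      lia
    refine ⟨Sum.elim w v, ?_, ?_⟩
    · rintro (i | i) hi
      · show c i + 1 = N + 1 - 1
        have := hw1 i hi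
        lia
      · show c i = N + 1 - 1
        have := hv1 i hi
        lia
    · rw [vm, hw2, h3, neg_zero, sub_add_cancel]
  cot := by
    intro v hv i
    obtain ⟨s, t, rfl⟩ : ∃ s t : Y.ι → Sr, v = Sum.elim s t :=
      ⟨v ∘ Sum.inl, v ∘ Sum.inr, (Sum.elim_comp_inl_inr v).symm⟩
    have hs : ∀ i, s i ≠ 0 → c i = N - 1 := by
      intro i hi
      have h1 : c i + 1 = N + 1 - 1 := hv (Sum.inl i) hi
      lia
    have ht : ∀ i, t i ≠ 0 → c i = N := by
      intro i hi
      have h1 : c i = N + 1 - 1 := hv (Sum.inr i) hi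
      lia
    rw [vm]
    rcases i with i | i
    · show vecMul s (kp Y c) i + l * t i ∈ I ⊔ Ideal.span {l}
      refine Submodule.add_mem _ (Ideal.mem_sup_left (h.cot s hs i)) (Ideal.mem_sup_right ?_)
      exact Ideal.mul_mem_right _ _ (Ideal.mem_span_singleton_self l)
    · have h3 : vecMul t (kp Y c) i = 0 := by
        by_contra hj
        have h4 := supp ht i hj
        have := h.le i
        lia
      show -(vecMul t (kp Y c) i) ∈ _
      rw [h3, neg_zero]
      exact Ideal.zero_mem _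

theorem base (m : ℤ) : Ex (UU m) (fun _ => 0) 0 (mI ∅ fun _ => 1) where
  le := fun _ => le_rfl
  ex := by
    intro m hm u hu _
    refine ⟨0, fun i hi => absurd rfl hi, ?_⟩
    rw [Matrix.zero_vecMul]
    ext1 i
    by_contra h
    have := hu i (Ne.symm h)
    lia
  top := by
    intro u _ hI
    refine ⟨0, fun i hi => absurd rfl hi, ?_⟩
    rw [Matrix.zero_vecMul]
    ext1 i
    have := hI i
    rw [p_MINS.1, Ideal.mem_bot] at this
    exact this.symm
  cot := by
    intro v _ i
    have : kp (UU m) (fun _ => 0) = 0 := by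
      ext1 i j
      show (if (0 : ℤ) + 1 = 0 then (UU m).Φ i j else 0) = 0
      exact if_neg (by norm_num)
    rw [this, Matrix.vecMul_zero]
    exact Ideal.zero_mem _

theorem step' {Y : PO} {c : Y.ι → ℤ} {N : ℤ} {J : Finset (Fin 4)}
    (h : Ex Y c N (mI J fun _ => 1)) (r : Fin 4) (hr : r ∉ J) (a : Sr) (e : ℤ)
    (hl : Hmg (X r : Sr) e) (ha : Hmg a (6 - e)) :
    Ex (TT Y (X r) a e hl ha) (cdS c) (N + 1) (mI (insert r J) fun _ => 1) := by
  have h1 := p_MNZ p_MMEM J (fun _ => 1) r hr
  rw [pow_one] at h1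
  have h2 := step h (X r) a e hl ha h1
  have h3 := p_MINS.2 J (fun _ => 1) r
  rw [pow_one] at h3
  rw [h3]
  exact h2

theorem main {f : Sr} (D : KA f) :
    Ex (kk D).toPO (cd D) (0 + 1 + 1 + 1 + 1) (mI (insert 0 (insert 3 (insert 2 (insert 1 ∅))))
      fun _ => 1) :=
  step' (step' (step' (step' (base (-7)) 1 (by simp) (D.kd.a 1) (D.kd.e 1) (D.kd.hl 1)
    (D.kd.ha 1)) 2 (by decide) (D.kd.a 2) (D.kd.e 2) (D.kd.hl 2) (D.kd.ha 2)) 3 (by decide)
    (D.kd.a 3) (D.kd.e 3) (D.kd.hl 3) (D.kd.ha 3)) 0 (by decide) (D.kd.a 0) (D.kd.e 0)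
    (D.kd.hl 0) (D.kd.ha 0)

theorem cd_eq_four {f : Sr} (D : KA f) (i : (kk D).ι) (h : cd D i = 4) : (kk D).deg i = -7 := by
  rcases i with ((((i | i) | (i | i)) | ((i | i) | (i | i))) |
    (((i | i) | (i | i)) | ((i | i) | (i | i))))
  · rfl
  all_goals
    exfalso
    revert h
    simp [cd, cdS]

end KRX_

open KRX_ in
theorem p_KRX : T_KRX := by
  intro f D m u e hh hu h0 hm
  obtain ⟨c1, c2, c3, c4⟩ := p_CMP
  have hmain := main D
  have hk : kap D = kp (kk D).toPO (cd D) := rfl
  -- a preimage, not yet homogeneous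
  obtain ⟨v, hv1, hv2⟩ : ∃ v : (kk D).ι → Sr, (∀ i, v i ≠ 0 → cd D i = m - 1) ∧
      Matrix.vecMul v (kap D) = u := by
    rcases lt_trichotomy m 4 with h4 | h4 | h4
    · exact hmain.ex m (by lia) u hu h0
    · subst h4
      refine hmain.top u hu fun i => ?_
      by_cases hi : u i = 0
      · rw [hi]; exact Ideal.zero_mem _
      · have h5 := cd_eq_four D i (hu i hi)
        have h6 := hh i
        rw [h5] at h6
        rw [p_MMEM]
        intro a ha
        have h7 := h6 a ha
        by_contra hcon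
        push Not at hcon
        have h8 : a = 0 := by
          ext j
          have := hcon j (by fin_cases j <;> simp)
          simpa using this
        rw [h8] at h7
        have h9 : wd 0 = 0 := by simp [wd]
        rw [h9] at h7
        exact hm rfl (by lia)
    · refine ⟨0, fun i hi => absurd rfl hi, ?_⟩
      rw [Matrix.zero_vecMul]
      ext1 i
      by_contra hi
      have h5 := hu i (Ne.symm hi)
      have h6 := hmain.le i
      lia
  refine ⟨fun i => cmp ((kk D).deg i - 3 - e) (v i), fun i => c1 _ _, fun i hi => ?_, ?_⟩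
  · refine hv1 i fun h => hi ?_
    show cmp ((kk D).deg i - 3 - e) (v i) = 0
    rw [h]
    have := c4 0 0 0 ((kk D).deg i - 3 - e) (Hmg.zero _)
    rwa [zero_mul, zero_mul] at this
  · ext1 j
    have h5 := congrFun hv2 j
    rw [← c2 (u j) _ (hh j), ← h5]
    show ∑ i, cmp ((kk D).deg i - 3 - e) (v i) * kap D i j =
      cmp ((kk D).deg j - e) (∑ i, v i * kap D i j)
    have h6 : ∀ (g : (kk D).ι → Sr) (k : ℤ), cmp k (∑ i, g i) = ∑ i, cmp k (g i) := by
      intro g k
      unfold Pool.Agent.VDC.cmp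
      rw [map_sum]
    rw [h6]
    refine Finset.sum_congr rfl fun i _ => ?_
    have h7 : Hmg (kap D i j) ((kk D).deg j + 3 - (kk D).deg i) := by
      show Hmg (if cd D i + 1 = cd D j then (kk D).Φ i j else 0) _
      by_cases h : cd D i + 1 = cd D j
      · rw [if_pos h]; exact (kk D).hom i j
      · rw [if_neg h]; exact Hmg.zero _
    rw [mul_comm (v i), c4 _ _ _ _ h7, mul_comm]
    congr 2
    ring

end Pool.Agent.VDK
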