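import Pool.Agent.VDK.T2

/-!
# VDK: from the Kuznetsov components to matrix factorisations
-/

set_option autoImplicit false
set_option linter.unusedVariables false

open CategoryTheory CategoryTheory.Limits Pretriangulated MvPolynomial Pool.Agent.VDC

noncomputable section

namespace Pool.Agent.VDK

namespace KUE_

section

variable (f : Sr) [H6 f] (h : ∀ F : CM f, Dgr (gZ f) ((Psi f).obj F))
  (hk : ∀ F : CM f, KuProp (gZ f) ((Theta f h).obj F))

/-- the functor from matrix factorisations to the Kuznetsov component -/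
def Th : CM f ⥤ Ku (gZ f) := (KuProp (gZ f)).lift (Theta f h) hk

instance psi_add : (Psi f).Additive :=
  inferInstanceAs ((Cper f ⋙ Tge (gZ f) 1).Additive)

instance psi_lin : (Psi f).Linear ℂ :=
  inferInstanceAs ((Cper f ⋙ Tge (gZ f) 1).Linear ℂ)

instance psiD_add : (PsiD f h).Additive :=
  inferInstanceAs (((Dgr (gZ f)).lift (Psi f) h).Additive)

instance psiD_lin : (PsiD f h).Linear ℂ where
  map_smul a r := InducedCategory.hom_ext (Functor.map_smul (Psi f) r a)

instance theta_add : (Theta f h).Additive :=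
  inferInstanceAs ((PsiD f h ⋙ (TorsGr (gZ f)).trW.Q).Additive)

instance theta_lin : (Theta f h).Linear ℂ :=
  inferInstanceAs ((PsiD f h ⋙ (TorsGr (gZ f)).trW.Q).Linear ℂ)

instance th_add : (Th f h hk).Additive :=
  inferInstanceAs (((KuProp (gZ f)).lift (Theta f h) hk).Additive)

instance th_lin : (Th f h hk).Linear ℂ where
  map_smul a r := InducedCategory.hom_ext (Functor.map_smul (Theta f h) r a)

lemma std_th (h3 : T_TRC) (h4 : T_STG.{0, 0}) (h4' : T_STG.{0, 1}) (h5 : T_STL.{0})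
    (h5' : T_STL.{1}) : Std (Th f h hk) := by
  have s1 : Std (Psi f) := h4 f (KK (gZ f)) (KK (gZ f)) (Cper f) (Tge (gZ f) 1) (h3 f)
  have s2 : Std (PsiD f h) := h5 f (KK (gZ f)) (Dgr (gZ f)) (Psi f) h s1
  have s3 : Std (Theta f h) :=
    h4' f (DbGr (gZ f)) (DbCoh (gZ f)) (PsiD f h) (TorsGr (gZ f)).trW.Q s2
  exact h5' f (DbCoh (gZ f)) (KuProp (gZ f)) (Theta f h) hk s3

lemma equiv_th (hb : ∀ X Y : CM f, Function.Bijective ((Theta f h).map : (X ⟶ Y) → _))
    (he : ∀ E : DbCoh (gZ f), KuProp (gZ f) E → ∃ F : CM f, Nonempty ((Theta f h).obj F ≅ E)) :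
    (Th f h hk).IsEquivalence := by
  have hF : (Theta f h).Faithful := ⟨fun {X Y} a b hab => (hb X Y).1 hab⟩
  have hF' : (Theta f h).Full := ⟨fun {X Y} a => (hb X Y).2 a⟩
  have h1 : (Th f h hk).Faithful :=
    inferInstanceAs (((KuProp (gZ f)).lift (Theta f h) hk).Faithful)
  have h2 : (Th f h hk).Full :=
    inferInstanceAs (((KuProp (gZ f)).lift (Theta f h) hk).Full)
  have h3 : (Th f h hk).EssSurj := ⟨fun E => by
    obtain ⟨F, ⟨e⟩⟩ := he E.obj E.property
    exact ⟨F, ⟨(KuProp (gZ f)).isoMk e⟩⟩⟩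
  exact {}

end

end KUE_

open KUE_ in
theorem p_KUE (h1 : T_PBD) (h2 : T_LFF) (h2' : T_LOR) (h2'' : T_ESS) (h3 : T_TRC)
    (h4 : T_STG.{0, 0}) (h4' : T_STG.{0, 1}) (h5 : T_STL.{0}) (h5' : T_STL.{1}) (h6 : T_TRA) :
    T_KUE := by
  intro f f' _ _ hD hD' hE
  obtain ⟨D⟩ := hD
  obtain ⟨D'⟩ := hD'
  obtain ⟨E⟩ := hE
  have h := h1 f
  have h' := h1 f'
  have hk := h2' f D h
  have hk' := h2' f' D' h'
  have e1 := equiv_th f h hk (h2 f D h) (h2'' f D h)
  have e2 := equiv_th f' h' hk' (h2 f' D' h') (h2'' f' D' h')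
  have s1 := std_th f h hk h3 h4 h4' h5 h5'
  have s2 := std_th f' h' hk' h3 h4 h4' h5 h5'
  have i1 := E.isEquiv
  let i2 := E.comm
  have i3 := E.tri
  have i4 := E.lin
  exact h6 f f' (Ku (gZ f)) (Ku (gZ f')) (Th f h hk) (Th f' h' hk') E.F s1 s2

end Pool.Agent.VDK
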