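import Pool.Agent.VDK.T2

/-!
# VDK: `Theta` is fully faithful (target `T_LFF`)
-/

set_option autoImplicit false
set_option linter.unusedVariables false

open CategoryTheory CategoryTheory.Limits Pretriangulated MvPolynomial Pool.Agent.VDC

noncomputable section

namespace Pool.Agent.VDK

namespace LFF_

/-- bijectivity on maps is invariant under an isomorphism of the target -/
lemma bij_of_iso {C : Type*} [Category C] {D : Type*} [Category D] (F : C ⥤ D) {N Y Y' : C}
    (e : Y' ≅ Y) (h : Function.Bijective (F.map : (N ⟶ Y') → _)) :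
    Function.Bijective (F.map : (N ⟶ Y) → _) := by
  constructor
  · intro a b hab
    have h1 : F.map (a ≫ e.inv) = F.map (b ≫ e.inv) := by
      rw [F.map_comp, F.map_comp]
      exact congrArg (fun t => t ≫ F.map e.inv) hab
    have h2 := h.1 h1
    exact (cancel_mono e.inv).1 h2
  · intro y
    obtain ⟨x, hx⟩ := h.2 (y ≫ F.map e.inv)
    refine ⟨x ≫ e.hom, ?_⟩
    rw [F.map_comp, hx, Category.assoc, ← F.map_comp, e.inv_hom_id, F.map_id, Category.comp_id]

lemma bij_psiD (f : Sr) [H6 f] (h : ∀ F : CM f, Dgr (gZ f) ((Psi f).obj F)) (X Y : CM f)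
    (hb : Function.Bijective ((Psi f).map : (X ⟶ Y) → _)) :
    Function.Bijective ((PsiD f h).map : (X ⟶ Y) → _) := by
  constructor
  · intro a b hab
    apply hb.1
    have h1 := congrArg (fun t => (Dgr (gZ f)).ι.map t) hab
    exact h1
  · intro y
    obtain ⟨x, hx⟩ := hb.2 ((Dgr (gZ f)).ι.map y)
    refine ⟨x, ?_⟩
    apply (Dgr (gZ f)).ι.map_injective
    exact hx

end LFF_

open LFF_

theorem p_LFF (h1 : T_FFP) (h2 : T_LFQ) (h3 : T_VLN) : T_LFF := by
  intro f _ D h X Y
  have hP := bij_psiD f h X Y (h1 f X Y)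
  have hN : ∀ (B : KK (gZ f)) (x : ((PsiD f h).obj X).obj ⟶ B), Low (gZ f) B → x = 0 := by
    intro B x hB
    have h4 := (h3 f B hB).2 X 0 (((shiftFunctorZero (KK (gZ f)) ℤ).app ((Psi f).obj X)).hom ≫ x)
    exact (cancel_epi ((shiftFunctorZero (KK (gZ f)) ℤ).app ((Psi f).obj X)).hom).1
      (h4.trans comp_zero.symm)
  have hQ := bij_of_iso (TorsGr (gZ f)).trW.Q
    ((shiftFunctorZero (DbGr (gZ f)) ℤ).app ((PsiD f h).obj Y))
    (h2 f D h ((PsiD f h).obj X) Y 0 hN)
  exact hQ.comp hP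

end Pool.Agent.VDK
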