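import Pool.Agent.VDK.T2

/-!
# VDK: LFQ, morphisms to `Psi F [k]` in the quotient category
-/

set_option autoImplicit false
set_option linter.unusedVariables false

open CategoryTheory CategoryTheory.Limits Pretriangulated MvPolynomial Pool.Agent.VDC

noncomputable section

namespace Pool.Agent.VDK

section

variable {D : Type*} [Category D] [HasZeroObject D] [HasShift D ℤ] [Preadditive D]
  [∀ n : ℤ, (shiftFunctor D n).Additive] [Pretriangulated D]

/-- the objects `E` with `Hom(E[k], P) = 0` for all `k` -/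
def LFQ_LOrth (P : D) : ObjectProperty D :=
  fun E => ∀ (k : ℤ) (x : (shiftFunctor D k).obj E ⟶ P), x = 0

instance LFQ_LOrth_iso (P : D) : (LFQ_LOrth P).IsClosedUnderIsomorphisms where
  of_iso := by
    intro E E' e h k x
    have h1 := h k (((shiftFunctor D k).mapIso e).hom ≫ x)
    rw [← cancel_epi ((shiftFunctor D k).mapIso e).hom, h1, comp_zero]

instance LFQ_LOrth_tri (P : D) : (LFQ_LOrth P).IsTriangulated where
  exists_zero := by
    obtain ⟨Z, hZ⟩ := HasZeroObject.zero (C := D)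
    exact ⟨Z, hZ, fun k x => (Functor.map_isZero (shiftFunctor D k) hZ).eq_of_src _ _⟩
  isStableUnderShiftBy n :=
    { le_shift := by
        intro E h k x
        have h1 := h (n + k) (((shiftFunctorAdd D n k).app E).hom ≫ x)
        rw [← cancel_epi ((shiftFunctorAdd D n k).app E).hom, h1, comp_zero] }
  toIsTriangulatedClosed₂ := .mk' (by
    intro T hT h₁ h₃ k x
    obtain ⟨y, hy⟩ := Triangle.yoneda_exact₂ _ (Triangle.shift_distinguished _ hT k) x (h₁ k _)
    have h0 : y = 0 := h₃ k y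
    rw [hy, h0]
    exact comp_zero)

/-- maps `A[j] → P[k]` vanish too -/
lemma LFQ_LOrth.two {P A : D} (hA : LFQ_LOrth P A) (j k : ℤ)
    (y : (shiftFunctor D j).obj A ⟶ (shiftFunctor D k).obj P) : y = 0 := by
  have h1 : LFQ_LOrth P ((shiftFunctor D j).obj A) := (LFQ_LOrth P).le_shift j _ hA
  apply (shiftFunctor D (-k)).map_injective
  rw [Functor.map_zero, ← cancel_mono ((shiftFunctorCompIsoId D k (-k) (by lia)).hom.app P)]
  rw [zero_comp]
  exact h1 (-k) _

end

lemma LFQ_tors_le {A : Type} [CommRing A] [Algebra ℂ A] {𝒜 : ℤ → Submodule ℂ A}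
    [SetLike.GradedMonoid 𝒜] : Tors 𝒜 ≤ Dgr 𝒜 := by
  rintro C ⟨h, hf⟩
  refine ⟨h, ?_⟩
  obtain ⟨m, hm⟩ := (hf.image Prod.fst).bddBelow
  refine ⟨m, fun n hn d => ?_⟩
  by_contra hc
  have h1 : m ≤ n := hm ⟨(n, d), hc, rfl⟩
  lia

theorem p_LFQ (h1 : T_VLA) (h2 : T_DEC) (h3 : T_HPS) : T_LFQ := by
  intro f _ D h N F k hN
  refine h1 (DbGr (gZ f)) (TorsGr (gZ f)) N _ ?_
  intro T g hT
  obtain ⟨A, B, a, b, c, htri, ⟨hA, hA'⟩, hB⟩ := h2 f D (LFQ_LOrth ((Psi f).obj F))
    inferInstance inferInstance (fun t ht j x => h3 f D t ht F j x) T.obj hT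
  obtain ⟨u, hu⟩ := Triangle.coyoneda_exact₂ _ htri g.hom (hN B _ hB)
  refine ⟨⟨A, LFQ_tors_le _ hA⟩, ObjectProperty.homMk u, ObjectProperty.homMk a, hA, ?_, ?_⟩
  · apply (Dgr (gZ f)).ι.map_injective
    exact hu.symm
  · intro j y
    apply (Dgr (gZ f)).ι.map_injective
    rw [Functor.map_zero]
    rw [← cancel_epi (((Dgr (gZ f)).ι.commShiftIso j).inv.app ⟨A, LFQ_tors_le _ hA⟩),
      ← cancel_mono (((Dgr (gZ f)).ι.commShiftIso k).hom.app ((PsiD f h).obj F))]
    rw [comp_zero, zero_comp]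
    exact hA'.two j k _

end Pool.Agent.VDK
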