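import Pool.Agent.VDK.T1

/-!
# VDK: objects of `Dgr` in terms of complexes (job VDK-LIF)
-/

set_option autoImplicit false

open CategoryTheory CategoryTheory.Limits Pretriangulated MvPolynomial Pool.Agent.VDC

noncomputable section

namespace Pool.Agent.VDK

theorem p_LIF (h_ACZ : T_ACZ) : T_LIF := by
  intro A _ _ 𝒜 _ C
  constructor
  · rintro ⟨⟨K, b, hK, ⟨e⟩⟩, N, hN⟩
    exact ⟨K, N, b, hK, fun n hn d => (h_ACZ A 𝒜 K n d).1 ((hN n hn d).of_iso e), ⟨e⟩⟩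
  · rintro ⟨K, a, b, hK, hA, ⟨e⟩⟩
    exact ⟨⟨K, b, hK, ⟨e⟩⟩, a, fun n hn d => ((h_ACZ A 𝒜 K n d).2 (hA n hn d)).of_iso e.symm⟩

end Pool.Agent.VDK
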