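import Pool.Agent.VDK.T1

/-!
# VDK: high syzygies are matrix factorisations
-/

set_option autoImplicit false
set_option linter.unusedVariables false

open CategoryTheory CategoryTheory.Limits Pretriangulated MvPolynomial Pool.Agent.VDC

noncomputable section

namespace Pool.Agent.VDK

namespace MCM_

lemma hm_mul {X Y Z : PO} {r s : ℤ} {a : Matrix Y.ι X.ι Sr} {b : Matrix Z.ι Y.ι Sr}
    (ha : a ∈ HM X Y r) (hb : b ∈ HM Y Z s) : b * a ∈ HM X Z (r + s) := by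
  intro i j
  rw [Matrix.mul_apply]
  exact Hmg.sum fun k _ => ((hb i k).mul (ha k j)).congr (by ring)

lemma hm_mul0 {X Y Z : PO} {a : Matrix Y.ι X.ι Sr} {b : Matrix Z.ι Y.ι Sr}
    (ha : a ∈ HM X Y 0) (hb : b ∈ HM Y Z 0) : b * a ∈ HM X Z 0 := by
  have h := hm_mul ha hb
  rwa [add_zero] at h

/-- the matrix part -/
lemma split {f : Sr} {K₀ K₁ K₂ : CM f} (δ₀ : mor K₀ K₁) (δ₁ : mor K₁ K₂)
    (h0 : δ₁.1 * δ₀.1 = 0) (t : Matrix K₁.ι K₂.ι Sr) (ht : t ∈ HM K₂.toPO K₁.toPO 0)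
    (h1 : δ₁.1 * t * δ₁.1 = δ₁.1) (F : PO) (i : Matrix K₂.ι F.ι Sr) (b : Matrix F.ι K₂.ι Sr)
    (hi : i ∈ HM F K₂.toPO 0) (hb : b ∈ HM K₂.toPO F 0) (hib : i * b = δ₁.1 * t)
    (hbi : b * i = 1) :
    ∃ (G : CM f) (π : mor K₁ G) (σ : Matrix K₁.ι G.ι Sr) (c : Matrix K₂.ι G.ι Sr),
      σ ∈ HM G.toPO K₁.toPO 0 ∧ π.1 * σ = 1 ∧ π.1 * δ₀.1 = 0 ∧ c * π.1 = δ₁.1 := by
  obtain ⟨δ₁, hd, hd'⟩ := δ₁
  obtain ⟨δ₀, hc, hc'⟩ := δ₀
  simp only at h0 h1 hib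
  have hd1 : δ₁ ∈ HM K₁.toPO K₂.toPO 0 := fun x y => (hd x y).congr (by ring)
  have hei : (δ₁ * t) * i = i := by
    rw [← hib, Matrix.mul_assoc, hbi, Matrix.mul_one]
  have heZ : (δ₁ * t) * (K₂.Φ * i) = K₂.Φ * i := by
    have h2 : K₂.Φ * i = δ₁ * (K₁.Φ * (t * i)) := by
      calc K₂.Φ * i = K₂.Φ * ((δ₁ * t) * i) := by rw [hei]
        _ = (K₂.Φ * δ₁) * (t * i) := by simp only [Matrix.mul_assoc]
        _ = (δ₁ * K₁.Φ) * (t * i) := by rw [hd']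
        _ = _ := by simp only [Matrix.mul_assoc]
    calc (δ₁ * t) * (K₂.Φ * i) = (δ₁ * t) * (δ₁ * (K₁.Φ * (t * i))) := by rw [h2]
      _ = (δ₁ * t * δ₁) * (K₁.Φ * (t * i)) := by simp only [Matrix.mul_assoc]
      _ = δ₁ * (K₁.Φ * (t * i)) := by rw [h1]
      _ = K₂.Φ * i := h2.symm
  have hiP : i * (b * (K₂.Φ * i)) = K₂.Φ * i := by
    rw [← Matrix.mul_assoc, hib, heZ]
  have hipi : i * (b * δ₁) = δ₁ := by
    rw [← Matrix.mul_assoc, hib, h1]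
  refine ⟨⟨⟨F.ι, F.deg, b * (K₂.Φ * i), ?_⟩, ?_⟩, ⟨b * δ₁, ?_, ?_⟩, t * i, i, ?_, ?_, ?_, ?_⟩
  · intro x y
    have hZ : K₂.Φ ∈ HM K₂.toPO K₂.toPO 3 := fun x y => K₂.hom x y
    have h3 := hm_mul (hm_mul hi hZ) hb
    exact (h3 x y).congr (by ring)
  · show b * (K₂.Φ * i) * (b * (K₂.Φ * i)) = -(f • (1 : Matrix F.ι F.ι Sr))
    calc b * (K₂.Φ * i) * (b * (K₂.Φ * i)) = b * (K₂.Φ * (i * (b * (K₂.Φ * i)))) := by
          simp only [Matrix.mul_assoc]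
      _ = b * ((K₂.Φ * K₂.Φ) * i) := by rw [hiP, Matrix.mul_assoc]
      _ = _ := by
          rw [K₂.sq, Matrix.neg_mul, Matrix.smul_mul, Matrix.one_mul, Matrix.mul_neg,
            Matrix.mul_smul, hbi]
  · intro x y
    exact (hm_mul0 hd1 hb x y).congr (by ring)
  · show b * (K₂.Φ * i) * (b * δ₁) = b * δ₁ * K₁.Φ
    calc b * (K₂.Φ * i) * (b * δ₁) = b * (K₂.Φ * (i * (b * δ₁))) := by
          simp only [Matrix.mul_assoc]
      _ = b * δ₁ * K₁.Φ := by rw [hipi, hd', Matrix.mul_assoc]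
  · exact hm_mul0 hi ht
  · show b * δ₁ * (t * i) = 1
    calc b * δ₁ * (t * i) = b * ((δ₁ * t) * i) := by simp only [Matrix.mul_assoc]
      _ = 1 := by rw [hei, hbi]
  · show b * δ₁ * δ₀ = 0
    rw [Matrix.mul_assoc, h0, Matrix.mul_zero]
  · exact hipi

end MCM_

open MCM_

theorem p_MCM (h1 : T_EX0) (h2 : T_EXV) (h3 : T_GIV) (h4 : T_SPI) (h5 : T_UMM) : T_MCM := by
  intro f _ C a m hC hm
  obtain ⟨hmul, hadd, -, hmor⟩ := h5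
  have um0 : ∀ (ι κ : Type), um (0 : Matrix ι κ (RR f)) = 0 := by
    intro ι κ
    have h := hadd f ι κ 0 0
    rw [add_zero] at h
    exact (left_eq_add.1 h)
  let K : ℤ → PO := fun n => (und (C.X n)).toPO
  let δ : ∀ n, Matrix (K (n + 1)).ι (K n).ι Sr := fun n => um (mat (C.d n (n + 1)))
  have hδ : ∀ n, δ n ∈ HM (K n) (K (n + 1)) 0 := fun n i j =>
    ((hmor f _ _ (C.d n (n + 1))).1 i j).congr (by ring)
  have hδδ : ∀ n, δ (n + 1) * δ n = 0 := by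
    intro n
    show um (mat (C.d (n + 1) (n + 1 + 1))) * um (mat (C.d n (n + 1))) = 0
    rw [← hmul, ← mat_comp, C.d_comp_d, mat_zero, um0]
  have hex : ∀ k, k + 1 < a → ExI ⊥ (K k) (K (k + 1)) (K (k + 1 + 1)) (δ k) (δ (k + 1)) :=
    fun k hk => h1 f C k fun d => hC _ hk d
  have e0 := h2 K δ hδ hδδ m fun k hk hk' => hex k (by lia)
  have e1 := h2 K δ hδ hδδ (m + 1) fun k hk hk' => hex k (by lia)
  obtain ⟨t, ht, htt⟩ := h3 _ _ _ _ (δ m) (δ (m + 1)) (δ (m + 1 + 1)) (hδ _) (hδ _) (hδ _)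
    (hδδ m) (hδδ (m + 1)) e0 e1
  obtain ⟨F, i, b, hi, hb, hib, hbi⟩ := h4 (K (m + 1 + 1)) (δ (m + 1) * t)
    (hm_mul0 ht (hδ (m + 1))) (by
      rw [← Matrix.mul_assoc, htt])
  obtain ⟨G, π, σ, c, hσ, hπσ, hπ0, hcπ⟩ := split ⟨_, hmor f _ _ (C.d m (m + 1))⟩
    ⟨_, hmor f _ _ (C.d (m + 1) (m + 1 + 1))⟩ (hδδ m) t ht htt F i b hi hb hib hbi
  refine ⟨G, π, σ, hσ, hπσ, hπ0, fun P ρ x hx hx0 => ?_⟩
  have hdx : δ (m + 1) * x = 0 := by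
    have h6 : δ (m + 1) = c * π.1 := hcπ.symm
    rw [h6, Matrix.mul_assoc, hx0, Matrix.mul_zero]
  obtain ⟨y, hy, hxy⟩ := hex m (by lia) P ρ x hx (by
    rw [hdx]
    exact Submodule.zero_mem _)
  refine ⟨y, hy, ?_⟩
  refine Matrix.ext fun u v => ?_
  have h7 := hxy u v
  rw [Ideal.mem_bot, Matrix.sub_apply, sub_eq_zero] at h7
  exact h7.symm

end Pool.Agent.VDK
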