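import Pool.Agent.VDK.T3

/-!
# VDK N01: homogeneity in four variables is homogeneity of the image in five variables

The inclusion of the four variable ring in the five variable ring preserves and reflects weighted
homogeneity, since the weight of a monomial does not change under the inclusion.
-/

set_option autoImplicit false

open CategoryTheory CategoryTheory.Limits Pretriangulated MvPolynomial AlgebraicGeometry
  Pool.Agent.VDC

noncomputable section

namespace Pool.Agent.VDK

namespace N01_

lemma w5_castSucc (i : Fin 4) : w5 (Fin.castSucc i) = wt i := by
  fin_cases i <;> rfl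

lemma weight_map (a : Fin 4 →₀ ℕ) :
    Finsupp.weight w5 (a.mapDomain Fin.castSucc) = wd a := by
  rw [Finsupp.weight_apply, Finsupp.sum_mapDomain_index (fun _ => by simp)
    (fun _ _ _ => by rw [add_smul])]
  rw [Finsupp.sum_fintype _ _ (fun _ => by simp), wd]
  refine Finset.sum_congr rfl fun i _ => ?_
  rw [w5_castSucc, nsmul_eq_mul, mul_comm]

end N01_

theorem p_N01 : T_N01 := by
  intro p m
  constructor
  · intro h d hd
    obtain ⟨u, hu, hc⟩ := coeff_rename_ne_zero Fin.castSucc p d hd
    rw [← hu, N01_.weight_map]
    exact h u hc
  · intro h a ha
    have h1 : coeff (a.mapDomain Fin.castSucc) (i5 p) ≠ 0 := by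
      rw [i5, coeff_rename_mapDomain Fin.castSucc (Fin.castSucc_injective _)]
      exact ha
    have h2 := h h1
    rw [N01_.weight_map] at h2
    exact h2

end Pool.Agent.VDK
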