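import Pool.Agent.VDK.T3

/-!
# VDK, target N02: a form of degree `6` is `a z ^ 2 + z g + F` (helper80)
-/

set_option autoImplicit false

open CategoryTheory CategoryTheory.Limits Pretriangulated MvPolynomial AlgebraicGeometry
  Pool.Agent.VDC

noncomputable section

namespace Pool.Agent.VDK

namespace N02_

/-- the desired form -/
def Dc (w : P5) : Prop := ∃ (a : ℂ) (g F : Sr), Hmg g 3 ∧ Hmg F 6 ∧
  w = C a * X 4 ^ 2 + X 4 * i5 g + i5 F

lemma Dc.add {v w : P5} (hv : Dc v) (hw : Dc w) : Dc (v + w) := by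
  obtain ⟨a, g, F, hg, hF, rfl⟩ := hv
  obtain ⟨a', g', F', hg', hF', rfl⟩ := hw
  refine ⟨a + a', g + g', F + F', hg.add hg', hF.add hF', ?_⟩
  rw [map_add, map_add, map_add]
  ring

lemma Dc.zero : Dc 0 := ⟨0, 0, 0, Hmg.zero _, Hmg.zero _, by simp⟩

/-- the exponents of the first four variables -/
def lo (d : Fin 5 →₀ ℕ) : Fin 4 →₀ ℕ :=
  Finsupp.equivFunOnFinite.symm fun i : Fin 4 => d i.castSucc

lemma lo_apply (d : Fin 5 →₀ ℕ) (i : Fin 4) : lo d i = d i.castSucc := rfl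

lemma split (d : Fin 5 →₀ ℕ) :
    d = (lo d).mapDomain Fin.castSucc + Finsupp.single 4 (d 4) := by
  refine Finsupp.ext fun j => ?_
  rw [Finsupp.add_apply]
  rcases Fin.eq_castSucc_or_eq_last j with ⟨i, rfl⟩ | rfl
  · have hne : Fin.castSucc i ≠ (4 : Fin 5) := (Fin.castSucc_lt_last i).ne
    rw [Finsupp.mapDomain_apply (Fin.castSucc_injective 4), lo_apply,
      Finsupp.single_eq_of_ne hne, add_zero]
  · rw [Finsupp.mapDomain_of_notMem_range]
    · show d 4 = 0 + (Finsupp.single (4 : Fin 5) (d 4)) 4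
      rw [Finsupp.single_eq_same, zero_add]
    · rintro ⟨i, hi⟩
      exact (Fin.castSucc_lt_last i).ne hi

lemma mono (d : Fin 5 →₀ ℕ) (c : ℂ) :
    (monomial d c : P5) = i5 (monomial (lo d) c) * X 4 ^ (d 4) := by
  rw [i5, rename_monomial, X_pow_eq_monomial, monomial_mul, mul_one, ← split]

lemma wt_split (d : Fin 5 →₀ ℕ) : Finsupp.weight w5 d = wd (lo d) + 3 * (d 4 : ℤ) := by
  rw [Finsupp.weight_apply, Finsupp.sum_fintype _ _ (fun _ => by simp), Fin.sum_univ_castSucc, wd]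
  congr 1
  · refine Finset.sum_congr rfl fun i _ => ?_
    have : w5 (Fin.castSucc i) = wt i := by fin_cases i <;> rfl
    rw [this, nsmul_eq_mul, mul_comm, lo_apply]
  · show (d 4) • w5 4 = 3 * (d 4 : ℤ)
    have : w5 4 = 3 := rfl
    rw [this, nsmul_eq_mul, mul_comm]

lemma hmg_mono (e : Fin 4 →₀ ℕ) (c : ℂ) (m : ℤ) (h : wd e = m) : Hmg (monomial e c) m := by
  intro a ha
  rw [coeff_monomial] at ha
  by_cases h1 : e = a
  · rw [← h1]; exact h
  · rw [if_neg h1] at ha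
    exact absurd rfl ha

lemma wd_four (e : Fin 4 →₀ ℕ) : wd e = e 0 + e 1 + e 2 + 2 * (e 3 : ℤ) := by
  rw [wd, Fin.sum_univ_four]
  have w0 : wt 0 = 1 := rfl
  have w1 : wt 1 = 1 := rfl
  have w2 : wt 2 = 1 := rfl
  have w3 : wt 3 = 2 := rfl
  rw [w0, w1, w2, w3]
  ring

lemma dc_mono (d : Fin 5 →₀ ℕ) (c : ℂ) (h : Finsupp.weight w5 d = 6) : Dc (monomial d c) := by
  rw [wt_split] at h
  have h4 := wd_four (lo d)
  have hd : d 4 ≤ 2 := by lia
  rw [mono]
  rcases Nat.lt_or_ge (d 4) 1 with h0 | h0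
  · have h1 : d 4 = 0 := by lia
    refine ⟨0, 0, monomial (lo d) c, Hmg.zero _, hmg_mono _ _ _ (by lia), ?_⟩
    rw [h1]
    simp
  · rcases Nat.lt_or_ge (d 4) 2 with h2 | h2
    · have h1 : d 4 = 1 := by lia
      refine ⟨0, monomial (lo d) c, 0, hmg_mono _ _ _ (by lia), Hmg.zero _, ?_⟩
      rw [h1]
      simp [mul_comm]
    · have h1 : d 4 = 2 := by lia
      have h3 : lo d = 0 := by
        refine Finsupp.ext fun i => ?_
        rw [Finsupp.zero_apply]
        fin_cases i <;> simp only [Fin.zero_eta, Fin.mk_one, Fin.reduceFinMk] <;> lia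
      refine ⟨c, 0, 0, Hmg.zero _, Hmg.zero _, ?_⟩
      rw [h1, h3]
      simp only [map_zero, mul_zero, add_zero]
      congr 1
      rw [i5, rename_monomial, Finsupp.mapDomain_zero]
      rfl

end N02_

open N02_ in
theorem p_N02 : T_N02 := by
  intro w hw
  show Dc w
  rw [w.as_sum]
  refine Finset.sum_induction _ Dc (fun _ _ => Dc.add) Dc.zero fun d hd => ?_
  exact dc_mono d _ (hw (mem_support_iff.1 hd))

end Pool.Agent.VDK
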