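import Pool.Agent.VDK.T3

/-!
# VDK, target N03: a form of degree `6` is `b y ^ 3 + q₂ y ^ 2 + q₄ y + q₆` (helper14)
-/

set_option autoImplicit false

open CategoryTheory CategoryTheory.Limits Pretriangulated MvPolynomial AlgebraicGeometry
  Pool.Agent.VDC

noncomputable section

namespace Pool.Agent.VDK

namespace N03_

/-- the desired form -/
def Dc (F : Sr) : Prop := ∃ (b : ℂ) (q₂ q₄ q₆ : Sr), Hmg q₂ 2 ∧ Hmg q₄ 4 ∧ Hmg q₆ 6 ∧
    NoY q₂ ∧ NoY q₄ ∧ NoY q₆ ∧ F = C b * X 3 ^ 3 + q₂ * X 3 ^ 2 + q₄ * X 3 + q₆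

lemma noY_zero : NoY 0 := fun a ha => absurd (coeff_zero a) ha

lemma noY_add {p q : Sr} (hp : NoY p) (hq : NoY q) : NoY (p + q) := by
  intro a ha
  by_cases h : coeff a p = 0
  · refine hq a fun h' => ha ?_
    rw [coeff_add, h, h', add_zero]
  · exact hp a h

lemma noY_mono (e : Fin 4 →₀ ℕ) (c : ℂ) (h : e 3 = 0) : NoY (monomial e c) := by
  intro a ha
  rw [coeff_monomial] at ha
  by_cases h1 : e = a
  · rw [← h1]; exact h
  · rw [if_neg h1] at ha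
    exact absurd rfl ha

lemma hmg_mono (e : Fin 4 →₀ ℕ) (c : ℂ) (m : ℤ) (h : wd e = m) : Hmg (monomial e c) m := by
  intro a ha
  rw [coeff_monomial] at ha
  by_cases h1 : e = a
  · rw [← h1]; exact h
  · rw [if_neg h1] at ha
    exact absurd rfl ha

lemma Dc.add {v w : Sr} (hv : Dc v) (hw : Dc w) : Dc (v + w) := by
  obtain ⟨b, q₂, q₄, q₆, h2, h4, h6, n2, n4, n6, rfl⟩ := hv
  obtain ⟨b', q₂', q₄', q₆', h2', h4', h6', n2', n4', n6', rfl⟩ := hw
  refine ⟨b + b', q₂ + q₂', q₄ + q₄', q₆ + q₆', h2.add h2', h4.add h4', h6.add h6',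
    noY_add n2 n2', noY_add n4 n4', noY_add n6 n6', ?_⟩
  rw [map_add]
  ring

lemma Dc.zero : Dc 0 := ⟨0, 0, 0, 0, Hmg.zero _, Hmg.zero _, Hmg.zero _, noY_zero, noY_zero,
  noY_zero, by simp⟩

/-- the exponents of the first three variables -/
def lo (d : Fin 4 →₀ ℕ) : Fin 4 →₀ ℕ := d.erase 3

lemma lo_three (d : Fin 4 →₀ ℕ) : lo d 3 = 0 := Finsupp.erase_same

lemma lo_of_ne (d : Fin 4 →₀ ℕ) {i : Fin 4} (h : i ≠ 3) : lo d i = d i := Finsupp.erase_ne h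

lemma mono (d : Fin 4 →₀ ℕ) (c : ℂ) :
    (monomial d c : Sr) = monomial (lo d) c * X 3 ^ (d 3) := by
  have h : lo d + Finsupp.single 3 (d 3) = d := Finsupp.erase_add_single 3 d
  rw [X_pow_eq_monomial, monomial_mul, mul_one, h]

lemma wd_four (e : Fin 4 →₀ ℕ) : wd e = e 0 + e 1 + e 2 + 2 * (e 3 : ℤ) := by
  rw [wd, Fin.sum_univ_four]
  have w0 : wt 0 = 1 := rfl
  have w1 : wt 1 = 1 := rfl
  have w2 : wt 2 = 1 := rfl
  have w3 : wt 3 = 2 := rfl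
  rw [w0, w1, w2, w3]
  ring

lemma dc_mono (d : Fin 4 →₀ ℕ) (c : ℂ) (h : wd d = 6) : Dc (monomial d c) := by
  rw [wd_four] at h
  have e4 := wd_four (lo d)
  have e0 : lo d 0 = d 0 := lo_of_ne d (by decide)
  have e1 : lo d 1 = d 1 := lo_of_ne d (by decide)
  have e2 : lo d 2 = d 2 := lo_of_ne d (by decide)
  have e3 : lo d 3 = 0 := lo_three d
  rw [e0, e1, e2, e3] at e4
  have hd : d 3 ≤ 3 := by lia
  rw [mono]
  have hcase : d 3 = 0 ∨ d 3 = 1 ∨ d 3 = 2 ∨ d 3 = 3 := by lia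
  rcases hcase with h1 | h1 | h1 | h1
  · refine ⟨0, 0, 0, monomial (lo d) c, Hmg.zero _, Hmg.zero _, hmg_mono _ _ _ (by lia),
      noY_zero, noY_zero, noY_mono _ _ e3, ?_⟩
    rw [h1]
    simp
  · refine ⟨0, 0, monomial (lo d) c, 0, Hmg.zero _, hmg_mono _ _ _ (by lia), Hmg.zero _,
      noY_zero, noY_mono _ _ e3, noY_zero, ?_⟩
    rw [h1]
    simp
  · refine ⟨0, monomial (lo d) c, 0, 0, hmg_mono _ _ _ (by lia), Hmg.zero _, Hmg.zero _,
      noY_mono _ _ e3, noY_zero, noY_zero, ?_⟩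
    rw [h1]
    simp
  · have h3 : lo d = 0 := by
      refine Finsupp.ext fun i => ?_
      rw [Finsupp.zero_apply]
      fin_cases i <;> simp only [Fin.zero_eta, Fin.mk_one, Fin.reduceFinMk] <;> lia
    refine ⟨c, 0, 0, 0, Hmg.zero _, Hmg.zero _, Hmg.zero _, noY_zero, noY_zero, noY_zero, ?_⟩
    rw [h1, h3]
    simp only [zero_mul, add_zero]
    rfl

end N03_

open N03_ in
theorem p_N03 : T_N03 := by
  intro F hF
  show Dc F
  rw [F.as_sum]
  refine Finset.sum_induction _ Dc (fun _ _ => Dc.add) Dc.zero fun d hd => ?_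
  exact dc_mono d _ (hF d (mem_support_iff.1 hd))

end Pool.Agent.VDK
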