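import Pool.Agent.VDK.T3

/-!
# VDK-N04: the coefficient of `z ^ 2` is not zero (helper23)
-/

set_option autoImplicit false
set_option linter.unusedVariables false

open CategoryTheory CategoryTheory.Limits Pretriangulated MvPolynomial AlgebraicGeometry
  Pool.Agent.VDC

noncomputable section

namespace Pool.Agent.VDK

namespace N04_

/-- the point `(0, 0, 0, 0, 1)` -/
def pt : Fin 5 → ℂ := Pi.single 4 1

lemma eval_i5 (q : Sr) : eval pt (i5 q) = coeff 0 q := by
  show eval pt (rename Fin.castSucc q) = _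
  rw [eval_rename]
  have h : pt ∘ (Fin.castSucc : Fin 4 → Fin 5) = 0 := by
    funext i
    show (Pi.single 4 1 : Fin 5 → ℂ) (Fin.castSucc i) = 0
    rw [Pi.single_eq_of_ne]
    exact (Fin.castSucc_lt_last i).ne
  rw [h, eval_zero, constantCoeff_eq]

lemma coeff_zero {q : Sr} {m : ℤ} (hq : Hmg q m) (hm : m ≠ 0) : coeff 0 q = 0 := by
  by_contra h
  apply hm
  rw [← hq 0 h]
  simp [wd]

lemma coeff_one {q : Sr} {m : ℤ} (hq : Hmg q m) (hm : 2 < m) (i : Fin 4) :
    coeff 0 (pderiv i q) = 0 := by
  by_contra h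
  rw [coeff_pderiv] at h
  have h1 : coeff (0 + Finsupp.single i 1) q ≠ 0 := by
    intro h0
    apply h
    rw [h0]
    simp
  have h2 := hq _ h1
  rw [zero_add] at h2
  have h3 : wd (Finsupp.single i 1) = wt i := by
    rw [wd, Finset.sum_eq_single i]
    · simp
    · intro b _ hb
      simp [hb.symm]
    · simp
  rw [h3] at h2
  fin_cases i <;> simp [wt] at h2 <;> omega

lemma pd_i5 {q : Sr} {m : ℤ} (hq : Hmg q m) (hm : 2 < m) (i : Fin 5) :
    eval pt (pderiv i (i5 q)) = 0 := by
  refine Fin.lastCases ?_ (fun j => ?_) i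
  · have h : pderiv (Fin.last 4) (i5 q) = 0 := by
      apply pderiv_eq_zero_of_notMem_vars
      intro h
      have h1 := vars_rename (Fin.castSucc : Fin 4 → Fin 5) q h
      rw [Finset.mem_image] at h1
      obtain ⟨j, _, hj⟩ := h1
      exact (Fin.castSucc_lt_last j).ne hj
    rw [h, map_zero]
  · have h : pderiv (Fin.castSucc j) (i5 q) = i5 (pderiv j q) :=
      pderiv_rename (Fin.castSucc_injective 4) j q
    rw [h, eval_i5]
    exact coeff_one hq hm j

end N04_

open N04_ in
/-- `T_N04` -/
theorem p_N04 : T_N04 := by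
  intro a g F hg hF hw ha
  subst ha
  have h := hw.smooth pt (fun i => by
    rw [C_0, zero_mul, zero_add, map_add, map_add, Derivation.leibniz, map_add,
      pd_i5 hF (by norm_num) i, add_zero]
    simp only [smul_eq_mul, map_mul]
    rw [pd_i5 hg (by norm_num) i, eval_i5, coeff_zero hg (by norm_num)]
    simp)
  have h1 := congrFun h 4
  simp [pt] at h1

end Pool.Agent.VDK
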