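import Pool.Agent.VDK.T3

/-!
# VDK-N05: the coefficient of `y ^ 3` is not zero
-/

set_option autoImplicit false
set_option linter.unusedVariables false

open CategoryTheory CategoryTheory.Limits Pretriangulated MvPolynomial AlgebraicGeometry
  Pool.Agent.VDC

noncomputable section

namespace Pool.Agent.VDK

/-- the point `(0, 0, 0, 1)` -/
def N05_p : Fin 4 → ℂ := ![0, 0, 0, 1]

/-- the point `(0, 0, 0, 1, 0)` -/
def N05_q : Fin 5 → ℂ := ![0, 0, 0, 1, 0]

lemma N05_prod (s : Fin 4 →₀ ℕ) : (s.prod fun n e => N05_p n ^ e) =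
    (0 : ℂ) ^ s 0 * 0 ^ s 1 * 0 ^ s 2 := by
  rw [Finsupp.prod_fintype _ _ (fun i => pow_zero _), Fin.prod_univ_four]
  simp [N05_p]

lemma N05_mon (s : Fin 4 →₀ ℕ) (c : ℂ) (h : 1 ≤ s 0 + s 1 + s 2) :
    eval N05_p (monomial s c) = 0 := by
  rw [eval_monomial, N05_prod]
  rcases Nat.eq_zero_or_pos (s 0) with h0 | h0
  · rcases Nat.eq_zero_or_pos (s 1) with h1 | h1
    · have h2 : s 2 ≠ 0 := by omega
      rw [zero_pow h2]; ring
    · rw [zero_pow (by omega : s 1 ≠ 0)]; ring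
  · rw [zero_pow (by omega : s 0 ≠ 0)]; ring

lemma N05_der (s : Fin 4 →₀ ℕ) (c : ℂ) (h3 : s 3 = 0) (h : 2 ≤ s 0 + s 1 + s 2) (j : Fin 4) :
    eval N05_p (pderiv j (monomial s c)) = 0 := by
  rw [pderiv_monomial]
  rcases Nat.eq_zero_or_pos (s j) with hj | hj
  · rw [hj, Nat.cast_zero, mul_zero, monomial_zero, map_zero]
  · refine N05_mon _ _ ?_
    simp only [Finsupp.tsub_apply]
    have h0 : (Finsupp.single j 1 : Fin 4 →₀ ℕ) 0 + (Finsupp.single j 1 : Fin 4 →₀ ℕ) 1 +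
        (Finsupp.single j 1 : Fin 4 →₀ ℕ) 2 ≤ 1 := by
      fin_cases j <;> simp
    omega

lemma N05_van (q : Sr) (h : ∀ a, coeff a q ≠ 0 → a 3 = 0 ∧ 2 ≤ a 0 + a 1 + a 2) :
    eval N05_p q = 0 ∧ ∀ j, eval N05_p (pderiv j q) = 0 := by
  constructor
  · have h1 := congrArg (eval N05_p) q.as_sum
    rw [map_sum] at h1
    rw [h1]
    refine Finset.sum_eq_zero fun a ha => N05_mon _ _ ?_
    have := h a (mem_support_iff.1 ha)
    omega
  · intro j
    have h1 := congrArg (fun r => eval N05_p (pderiv j r)) q.as_sum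
    simp only [map_sum] at h1
    rw [h1]
    refine Finset.sum_eq_zero fun a ha => ?_
    have := h a (mem_support_iff.1 ha)
    exact N05_der _ _ this.1 this.2 j

lemma N05_hmg (q : Sr) (m : ℤ) (hm : 2 ≤ m) (hq : Hmg q m) (hy : NoY q) (a : Fin 4 →₀ ℕ)
    (ha : coeff a q ≠ 0) : a 3 = 0 ∧ 2 ≤ a 0 + a 1 + a 2 := by
  have h3 := hy a ha
  refine ⟨h3, ?_⟩
  have h1 := hq a ha
  unfold wd at h1
  rw [Fin.sum_univ_four, h3] at h1
  simp only [wt] at h1
  simp at h1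
  omega

lemma N05_i5 (q : Sr) (h : ∀ a, coeff a q ≠ 0 → a 3 = 0 ∧ 2 ≤ a 0 + a 1 + a 2) :
    eval N05_q (i5 q) = 0 ∧ ∀ i, eval N05_q (pderiv i (i5 q)) = 0 := by
  have hc : N05_q ∘ Fin.castSucc = N05_p := by
    funext j
    fin_cases j <;> rfl
  have he : ∀ r : Sr, eval N05_q (i5 r) = eval N05_p r := by
    intro r
    unfold i5
    rw [eval_rename, hc]
  obtain ⟨h1, h2⟩ := N05_van q h
  refine ⟨by rw [he, h1], fun i => ?_⟩
  refine Fin.lastCases ?_ (fun j => ?_) i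
  · have h3 : pderiv (Fin.last 4) (i5 q) = 0 := by
      refine pderiv_eq_zero_of_notMem_vars ?_
      intro h4
      have h5 := vars_rename (Fin.castSucc : Fin 4 → Fin 5) q h4
      rw [Finset.mem_image] at h5
      obtain ⟨j, _, hj⟩ := h5
      exact Fin.castSucc_ne_last j hj
    rw [h3, map_zero]
  · have h3 : pderiv (Fin.castSucc j) (i5 q) = i5 (pderiv j q) := by
      unfold i5
      exact pderiv_rename (Fin.castSucc_injective 4) j q
    rw [h3, he, h2 j]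

theorem p_N05 : T_N05 := by
  intro a b q₂ q₄ q₆ h₂ h₄ h₆ y₂ y₄ y₆ hw hb
  have e₂ := N05_i5 q₂ (N05_hmg q₂ 2 (by norm_num) h₂ y₂)
  have e₄ := N05_i5 q₄ (N05_hmg q₄ 4 (by norm_num) h₄ y₄)
  have e₆ := N05_i5 q₆ (N05_hmg q₆ 6 (by norm_num) h₆ y₆)
  have hx : i5 (X 3 : Sr) = X 3 := by
    unfold i5
    rw [rename_X]
    rfl
  have hp : N05_q = 0 := by
    refine hw.smooth N05_q fun i => ?_
    rw [hb]
    have h4 : N05_q 4 = 0 := rfl
    simp only [map_zero, zero_mul, zero_add, map_add, map_mul, map_pow, hx, Derivation.leibniz,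
      pderiv_C, add_zero, Derivation.leibniz_pow, smul_eq_mul, eval_X, e₂.1, e₂.2 i,
      e₄.1, e₄.2 i, e₆.2 i, mul_zero, h4, nsmul_eq_mul]
    simp
  have h3 := congrFun hp 3
  simp [N05_q] at h3

end Pool.Agent.VDK
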