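import Pool.Agent.VDK.T3

/-!
# VDK: N07, the graded automorphism `y ↦ t y + q`
-/

set_option autoImplicit false
set_option linter.unusedVariables false

open CategoryTheory CategoryTheory.Limits Pretriangulated MvPolynomial AlgebraicGeometry
  Pool.Agent.VDC

noncomputable section

namespace Pool.Agent.VDK

/-- substitution in a monomial -/
lemma N07_mono (φ : P5 →ₐ[ℂ] P5) (a : Fin 5 →₀ ℕ) (c : ℂ) :
    φ (monomial a c) = C c * ∏ i, φ (X i) ^ a i := by
  rw [monomial_eq, map_mul, Finsupp.prod_fintype _ _ (fun i => pow_zero _), map_prod]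
  congr 1
  · exact φ.commutes c
  · exact Finset.prod_congr rfl fun i _ => map_pow φ _ _

/-- a substitution by homogeneous elements of the right degrees preserves homogeneity -/
lemma N07_hom (φ : P5 →ₐ[ℂ] P5) (h : ∀ i, IsWeightedHomogeneous w5 (φ (X i)) (w5 i)) (p : P5)
    (m : ℤ) (hp : IsWeightedHomogeneous w5 p m) : IsWeightedHomogeneous w5 (φ p) m := by
  rw [← support_sum_monomial_coeff p, map_sum]
  refine (weightedHomogeneousSubmodule ℂ w5 m).sum_mem fun a ha => ?_
  show IsWeightedHomogeneous w5 _ m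
  rw [N07_mono]
  have hw : Finsupp.weight w5 a = m := hp (mem_support_iff.1 ha)
  have h1 : IsWeightedHomogeneous w5 (∏ i, φ (X i) ^ a i) (∑ i, a i • w5 i) := by
    refine IsWeightedHomogeneous.prod _ _ _ fun i _ => ?_
    exact (h i).pow (a i)
  have h2 : (∑ i, a i • w5 i) = m := by
    rw [← hw, Finsupp.weight_apply]
    exact (Finsupp.sum_fintype a (fun i c => c • w5 i) (fun i => zero_smul _ _)).symm
  rw [h2] at h1
  have h3 := (isWeightedHomogeneous_C w5 (coeff a p)).mul h1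
  rwa [zero_add] at h3

/-- a substitution fixing `x₀, x₁, x₂` fixes the polynomials in them -/
lemma N07_fix (φ : P5 →ₐ[ℂ] P5) (h0 : φ (X 0) = X 0) (h1 : φ (X 1) = X 1) (h2 : φ (X 2) = X 2)
    (p : Sr) (hp : NoY p) : φ (i5 p) = i5 p := by
  have e : ∀ ψ : P5 →ₐ[ℂ] P5, ψ (X 0) = X 0 → ψ (X 1) = X 1 → ψ (X 2) = X 2 →
      ψ (i5 p) = ∑ a ∈ p.support, C (coeff a p) * (X 0 ^ a 0 * X 1 ^ a 1 * X 2 ^ a 2) := by
    intro ψ g0 g1 g2
    conv_lhs => rw [← support_sum_monomial_coeff p, map_sum, map_sum]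
    refine Finset.sum_congr rfl fun a ha => ?_
    have h3 : a 3 = 0 := hp a (mem_support_iff.1 ha)
    have e1 : i5 (monomial a (coeff a p)) =
        C (coeff a p) * (X 0 ^ a 0 * X 1 ^ a 1 * X 2 ^ a 2) := by
      rw [monomial_eq, map_mul, Finsupp.prod_fintype _ _ (fun i => pow_zero _), map_prod,
        Fin.prod_univ_four, h3, pow_zero (X 3 : Sr), map_one i5, mul_one, map_pow, map_pow,
        map_pow]
      have c1 : i5 (C (coeff a p)) = C (coeff a p) := rename_C _ _
      have c2 : i5 (X 0) = X 0 := rename_X _ _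
      have c3 : i5 (X 1) = X 1 := rename_X _ _
      have c4 : i5 (X 2) = X 2 := rename_X _ _
      rw [c1, c2, c3, c4]
    rw [e1, map_mul, map_mul, map_mul, map_pow, map_pow, map_pow, g0, g1, g2]
    congr 1
    exact ψ.commutes _
  rw [e φ h0 h1 h2]
  exact (e (AlgHom.id ℂ P5) rfl rfl rfl).symm

/-- the substitution `y ↦ r` -/
def N07_sub (r : P5) : P5 →ₐ[ℂ] P5 := aeval fun i => if i = 3 then r else X i

lemma N07_sub3 (r : P5) : N07_sub r (X 3) = r := by
  rw [N07_sub, aeval_X, if_pos rfl]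

lemma N07_subX (r : P5) (i : Fin 5) (hi : i ≠ 3) : N07_sub r (X i) = X i := by
  rw [N07_sub, aeval_X, if_neg hi]

lemma N07_gr (r : P5) (h : IsWeightedHomogeneous w5 r 2) (i : Fin 5) :
    IsWeightedHomogeneous w5 (N07_sub r (X i)) (w5 i) := by
  by_cases hi : i = 3
  · subst hi
    rw [N07_sub3]
    exact h
  · rw [N07_subX r i hi]
    exact isWeightedHomogeneous_X ℂ w5 i

lemma N07_subfix (r : P5) (p : Sr) (hp : NoY p) : N07_sub r (i5 p) = i5 p :=
  N07_fix _ (N07_subX _ _ (by decide)) (N07_subX _ _ (by decide)) (N07_subX _ _ (by decide)) p hp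

theorem p_N07 (h1 : T_N01) : T_N07 := by
  intro t q ht hq hy
  set r : P5 := C t * X 3 + i5 q with hr
  set s : P5 := C t⁻¹ * (X 3 - i5 q) with hs
  have htt : (C t⁻¹ : P5) * C t = 1 := by
    rw [← C_mul, inv_mul_cancel₀ ht, C_1]
  have htt' : (C t : P5) * C t⁻¹ = 1 := by
    rw [← C_mul, mul_inv_cancel₀ ht, C_1]
  have hC : ∀ (u : P5) (c : ℂ), N07_sub u (C c) = C c := fun u c => (N07_sub u).commutes c
  have hsr : N07_sub s r = X 3 := by
    rw [hr, map_add, map_mul, hC, N07_sub3, N07_subfix _ _ hy, hs, ← mul_assoc, htt', one_mul,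
      sub_add_cancel]
  have hrs : N07_sub r s = X 3 := by
    rw [hs, map_mul, map_sub, hC, N07_sub3, N07_subfix _ _ hy, hr, add_sub_cancel_right,
      ← mul_assoc, htt, one_mul]
  have hc1 : (N07_sub r).comp (N07_sub s) = AlgHom.id ℂ P5 := by
    apply MvPolynomial.algHom_ext
    intro i
    show N07_sub r (N07_sub s (X i)) = X i
    by_cases hi : i = 3
    · subst hi
      rw [N07_sub3, hrs]
    · rw [N07_subX _ _ hi, N07_subX _ _ hi]
  have hc2 : (N07_sub s).comp (N07_sub r) = AlgHom.id ℂ P5 := by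
    apply MvPolynomial.algHom_ext
    intro i
    show N07_sub s (N07_sub r (X i)) = X i
    by_cases hi : i = 3
    · subst hi
      rw [N07_sub3, hsr]
    · rw [N07_subX _ _ hi, N07_subX _ _ hi]
  have hX3 : IsWeightedHomogeneous w5 (X 3 : P5) 2 := isWeightedHomogeneous_X ℂ w5 3
  have hq5 : IsWeightedHomogeneous w5 (i5 q) 2 := (h1 q 2).1 hq
  have hrh : IsWeightedHomogeneous w5 r 2 := by
    have h2 := (isWeightedHomogeneous_C w5 t).mul hX3
    rw [zero_add] at h2
    exact h2.add hq5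
  have hsh : IsWeightedHomogeneous w5 s 2 := by
    have h2 := (isWeightedHomogeneous_C w5 t⁻¹).mul
      ((weightedHomogeneousSubmodule ℂ w5 2).sub_mem hX3 hq5 :
        IsWeightedHomogeneous w5 (X 3 - i5 q) 2)
    rwa [zero_add] at h2
  refine ⟨AlgEquiv.ofAlgHom (N07_sub r) (N07_sub s) hc1 hc2, ?_, ?_, ?_, ?_⟩
  · intro m p
    refine ⟨fun h => N07_hom _ (N07_gr r hrh) p m h, fun h => ?_⟩
    have h2 := N07_hom _ (N07_gr s hsh) _ m h
    have h3 : N07_sub s (N07_sub r p) = p := DFunLike.congr_fun hc2 p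
    rwa [show N07_sub s ((AlgEquiv.ofAlgHom (N07_sub r) (N07_sub s) hc1 hc2) p) = p from h3] at h2
  · exact fun p hp => N07_subfix r p hp
  · exact N07_sub3 r
  · exact N07_subX r 4 (by decide)

end Pool.Agent.VDK
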