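import Pool.Agent.VDK.T3

/-!
# VDK: the chain rule
-/

set_option autoImplicit false
set_option linter.unusedVariables false

open CategoryTheory CategoryTheory.Limits Pretriangulated MvPolynomial AlgebraicGeometry
  Pool.Agent.VDC

noncomputable section

namespace Pool.Agent.VDK

theorem p_N08 : T_N08 := by
  intro s p i
  induction p using MvPolynomial.induction_on with
  | C a =>
    have h1 : s (C a) = C a := by
      have := s.commutes a
      simpa [MvPolynomial.algebraMap_eq] using this
    rw [h1, pderiv_C]
    refine (Finset.sum_eq_zero fun j _ => ?_).symm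
    rw [pderiv_C, map_zero, zero_mul]
  | add p q hp hq =>
    rw [map_add, map_add, hp, hq, ← Finset.sum_add_distrib]
    refine Finset.sum_congr rfl fun j _ => ?_
    rw [map_add, map_add, add_mul]
  | mul_X p n hp =>
    rw [map_mul, pderiv_mul, hp]
    have h1 : ∀ j : Fin 5, s (pderiv j (p * X n)) * pderiv i (s (X j)) =
        s (pderiv j p) * pderiv i (s (X j)) * s (X n) +
          s p * (if j = n then pderiv i (s (X j)) else 0) := by
      intro j
      rw [pderiv_mul, map_add, map_mul, map_mul, pderiv_X]
      by_cases h : j = n
      · subst h
        simp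
        ring
      · have h' : (Pi.single j (1 : P5) : Fin 5 → P5) n = 0 := by
          rw [Pi.single_apply, if_neg (fun h2 => h h2.symm)]
        rw [h', map_zero, mul_zero, add_zero, if_neg h, mul_zero, add_zero]
        ring
    rw [Finset.sum_congr rfl fun j _ => h1 j, Finset.sum_add_distrib, ← Finset.sum_mul,
      ← Finset.mul_sum, Finset.sum_ite_eq' Finset.univ n, if_pos (Finset.mem_univ n)]

end Pool.Agent.VDK
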