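import Pool.Agent.VDK.T3

set_option autoImplicit false
set_option linter.unusedVariables false

open CategoryTheory CategoryTheory.Limits Pretriangulated MvPolynomial AlgebraicGeometry
  Pool.Agent.VDC

noncomputable section

namespace Pool.Agent.VDK

/-- a form of positive degree vanishes at the origin -/
lemma N09_zero (p : P5) (m : ℤ) (hp : IsWeightedHomogeneous w5 p m) (hm : m ≠ 0) :
    eval (0 : Fin 5 → ℂ) p = 0 := by
  have h : eval (0 : Fin 5 → ℂ) p = coeff 0 p := by
    rw [← constantCoeff_eq, ← MvPolynomial.eval_zero]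
  rw [h]
  refine hp.coeff_eq_zero 0 ?_
  rw [map_zero]
  exact fun h => hm h.symm

theorem p_N09 (h08 : T_N08) : T_N09 := by
  intro w σ hσ hw
  refine ⟨(hσ 6 w).1 hw.hom, fun p hp => ?_⟩
  set q : Fin 5 → ℂ := fun j => eval p (σ (X j)) with hq
  have hev : ∀ r : P5, eval q r = eval p (σ r) := by
    have h1 : (aeval q : P5 →ₐ[ℂ] ℂ) = (aeval p : P5 →ₐ[ℂ] ℂ).comp σ.toAlgHom := by
      refine MvPolynomial.algHom_ext fun j => ?_
      rw [aeval_X]
      show q j = aeval p (σ (X j))
      rw [hq, aeval_eq_eval]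
    intro r
    have h2 := congrArg (fun f : P5 →ₐ[ℂ] ℂ => f r) h1
    simp only [aeval_eq_eval] at h2
    have h3 : (aeval p : P5 →ₐ[ℂ] ℂ).comp σ.toAlgHom r = aeval p (σ r) := rfl
    rw [h3, aeval_eq_eval] at h2
    exact h2
  have h0 : q = 0 := by
    refine hw.smooth q fun i => ?_
    have h1 := h08 σ.symm.toAlgHom (σ w) i
    have h2 : σ.symm.toAlgHom (σ w) = w := σ.symm_apply_apply w
    rw [h2] at h1
    rw [h1, map_sum]
    refine Finset.sum_eq_zero fun j _ => ?_
    rw [map_mul, hev]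
    have h3 : σ (σ.symm.toAlgHom (pderiv j (σ w))) = pderiv j (σ w) := σ.apply_symm_apply _
    rw [h3, hp j, zero_mul]
  funext j
  have h1 : p j = eval q (σ.symm (X j)) := by
    rw [hev, AlgEquiv.apply_symm_apply, eval_X]
  have h2 : IsWeightedHomogeneous w5 (σ.symm (X j)) (w5 j) := by
    refine (hσ _ _).2 ?_
    rw [AlgEquiv.apply_symm_apply]
    exact isWeightedHomogeneous_X ℂ w5 j
  have h3 : w5 j ≠ 0 := by
    fin_cases j <;> simp [w5]
  rw [h1, h0, N09_zero _ _ h2 h3]
  rfl

end Pool.Agent.VDK
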