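import Pool.Agent.VDK.T3

set_option autoImplicit false
set_option linter.unusedVariables false

open CategoryTheory CategoryTheory.Limits Pretriangulated MvPolynomial AlgebraicGeometry
  Pool.Agent.VDC

noncomputable section

namespace Pool.Agent.VDK

theorem p_N10 (h02 : T_N02) (h04 : T_N04) (h06 : T_N06) : T_N10 := by
  intro w hw
  obtain ⟨a, g, F, hg, hF, hwe⟩ := h02 w hw.hom
  have ha : a ≠ 0 := h04 a g F hg hF (hwe ▸ hw)
  set g' : Sr := (-(1 / (2 * a)) : ℂ) • g with hg'
  have hg'3 : Hmg g' 3 := hg.csmul _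
  obtain ⟨σ, hσ, hσp, hσz⟩ := h06 g' hg'3
  refine ⟨σ, a, F + a • (g' * g') + g' * g, hσ, ha, ?_, ?_⟩
  · exact (hF.add (((hg'3.mul hg'3).congr (by norm_num)).csmul a)).add
      ((hg'3.mul hg).congr (by norm_num))
  · have hC : ∀ b : ℂ, σ (C b) = C b := fun b => σ.commutes b
    have hi : ∀ (b : ℂ) (p : Sr), i5 (b • p) = C b * i5 p := by
      intro b p
      rw [map_smul, MvPolynomial.smul_eq_C_mul]
    have hig : i5 g' = C (-(1 / (2 * a))) * i5 g := by rw [hg', hi]
    rw [hwe, map_add, map_add, map_mul, map_mul, map_pow, hC, hσz, hσp, hσp, map_add, map_add,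
      hi a (g' * g'), map_mul, map_mul, hig]
    have h2 : (C a : P5) * C (-(1 / (2 * a))) = C (-(1 / 2)) := by
      rw [← C_mul]
      congr 1
      field_simp
    have h3 : (C (-(1 / 2)) : P5) * 2 = -1 := by
      have : (2 : P5) = C 2 := rfl
      rw [this, ← C_mul]
      norm_num
    linear_combination (2 * X 4 * i5 g) * h2 + (X 4 * i5 g) * h3

end Pool.Agent.VDK
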