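import Pool.Agent.VDK.T3

/-!
# VDK-N11: completing the cube (helper17)
-/

set_option autoImplicit false
set_option linter.unusedVariables false

open CategoryTheory CategoryTheory.Limits Pretriangulated MvPolynomial AlgebraicGeometry
  Pool.Agent.VDC

noncomputable section

namespace Pool.Agent.VDK

namespace N11_

lemma noY_iff (q : Sr) : NoY q ↔ q ∈ supported ℂ {i : Fin 4 | i ≠ 3} := by
  rw [mem_supported]
  constructor
  · intro h i hi
    rw [Finset.mem_coe, mem_vars] at hi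
    obtain ⟨d, hd, hdi⟩ := hi
    rintro rfl
    have h1 := h d (mem_support_iff.1 hd)
    exact (Finsupp.mem_support_iff.1 hdi) h1
  · intro h a ha
    by_contra h1
    have h2 : (3 : Fin 4) ∈ (q.vars : Set (Fin 4)) := by
      rw [Finset.mem_coe, mem_vars]
      exact ⟨a, mem_support_iff.2 ha, Finsupp.mem_support_iff.2 h1⟩
    exact h h2 rfl

lemma NoY.smul {q : Sr} (c : ℂ) (h : NoY q) : NoY (c • q) := by
  rw [noY_iff] at h ⊢
  exact Subalgebra.smul_mem _ h c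

lemma NoY.mul {p q : Sr} (hp : NoY p) (hq : NoY q) : NoY (p * q) := by
  rw [noY_iff] at hp hq ⊢
  exact mul_mem hp hq

lemma NoY.add {p q : Sr} (hp : NoY p) (hq : NoY q) : NoY (p + q) := by
  rw [noY_iff] at hp hq ⊢
  exact add_mem hp hq

lemma NoY.sub {p q : Sr} (hp : NoY p) (hq : NoY q) : NoY (p - q) := by
  rw [noY_iff] at hp hq ⊢
  exact sub_mem hp hq

lemma i5_X3 : i5 (X 3) = X 3 := by
  show rename Fin.castSucc (X (3 : Fin 4) : Sr) = _
  rw [rename_X]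
  rfl

lemma i5_C (c : ℂ) : i5 (C c) = C c := by
  show rename Fin.castSucc (C c : Sr) = _
  rw [rename_C]

lemma i5_smul (c : ℂ) (p : Sr) : i5 (c • p) = C c * i5 p := by
  rw [map_smul, smul_eq_C_mul]

lemma σ_C (σ : P5 ≃ₐ[ℂ] P5) (c : ℂ) : σ (C c) = C c := σ.commutes c

end N11_

open N11_

/-- `T_N11` -/
theorem p_N11 (h_N03 : T_N03) (h_N05 : T_N05) (h_N07 : T_N07) : T_N11 := by
  intro a F ha hF hw
  obtain ⟨b, q₂, q₄, q₆, h2, h4, h6, n2, n4, n6, rfl⟩ := h_N03 F hF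
  have hb : b ≠ 0 := h_N05 a b q₂ q₄ q₆ h2 h4 h6 n2 n4 n6 hw
  obtain ⟨t, ht⟩ := IsAlgClosed.exists_pow_nat_eq (a / b) (n := 3) (by norm_num)
  have ht0 : t ≠ 0 := by
    rintro rfl
    rw [zero_pow (by norm_num)] at ht
    exact div_ne_zero ha hb ht.symm
  set u : ℂ := (3 * b)⁻¹ with hu
  obtain ⟨σ, hσ, hσn, hσ3, hσ4⟩ := h_N07 t ((-u) • q₂) ht0 (h2.csmul _) (NoY.smul _ n2)
  refine ⟨σ, (t * a⁻¹) • ((3 * b * u ^ 2 - 2 * u) • (q₂ * q₂) + q₄),
    a⁻¹ • ((u ^ 2 - b * u ^ 3) • (q₂ * q₂ * q₂) - u • (q₂ * q₄) + q₆), hσ, ?_, ?_, ?_, ?_, ?_⟩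
  · exact Hmg.csmul _ (Hmg.add (Hmg.csmul _ ((h2.mul h2).congr (by norm_num))) h4)
  · exact Hmg.csmul _ (Hmg.add (Hmg.sub (Hmg.csmul _ (((h2.mul h2).mul h2).congr (by norm_num)))
      (Hmg.csmul _ ((h2.mul h4).congr (by norm_num)))) h6)
  · exact NoY.smul _ (NoY.add (NoY.smul _ (NoY.mul n2 n2)) n4)
  · exact NoY.smul _ (NoY.add (NoY.sub (NoY.smul _ (NoY.mul (NoY.mul n2 n2) n2))
      (NoY.smul _ (NoY.mul n2 n4))) n6)
  · have e1 : σ (i5 q₂) = i5 q₂ := hσn _ n2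
    have e2 : σ (i5 q₄) = i5 q₄ := hσn _ n4
    have e3 : σ (i5 q₆) = i5 q₆ := hσn _ n6
    simp only [map_add, map_mul, map_pow, map_sub, i5_smul, i5_C, i5_X3, σ_C, hσ3, hσ4, e1, e2, e3,
      map_neg, map_one, map_ofNat]
    have r1 : (C b : P5) * C t ^ 3 = C a := by
      rw [← map_pow, ← map_mul, ht]
      congr 1
      field_simp
    have r2 : (3 : P5) * C b * C u = 1 := by
      have : (3 : P5) = C 3 := (map_ofNat C 3).symm
      rw [this, ← map_mul, ← map_mul, hu, mul_inv_cancel₀ (by simpa using hb), map_one]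
    have r3 : (C a : P5) * C a⁻¹ = 1 := by
      rw [← map_mul, mul_inv_cancel₀ ha, map_one]
    linear_combination (X 3 : P5) ^ 3 * r1 - (C t : P5) ^ 2 * X 3 ^ 2 * i5 q₂ * r2 -
      ((C t : P5) * ((3 * C b * C u ^ 2 - 2 * C u) * (i5 q₂ * i5 q₂) + i5 q₄) * X 3 +
        ((C u ^ 2 - C b * C u ^ 3) * (i5 q₂ * i5 q₂ * i5 q₂) - C u * (i5 q₂ * i5 q₄) + i5 q₆)) * r3

end Pool.Agent.VDK
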