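import Pool.Agent.VDK.T3

/-!
# VDK N12: smoothness of `f` from smoothness of `z ^ 2 + f`

If all first derivatives of `f` vanish at `p`, then those of `c (z ^ 2 + f)` vanish at `(p, 0)`.
-/

set_option autoImplicit false

open CategoryTheory CategoryTheory.Limits Pretriangulated MvPolynomial AlgebraicGeometry
  Pool.Agent.VDC

noncomputable section

namespace Pool.Agent.VDK

namespace N12_

/-- the point `(p, 0)` -/
def ext5 (p : Fin 4 → ℂ) : Fin 5 → ℂ := Fin.snoc (α := fun _ => ℂ) p 0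

lemma ext5_castSucc (p : Fin 4 → ℂ) (i : Fin 4) : ext5 p (Fin.castSucc i) = p i := by
  unfold ext5
  exact Fin.snoc_castSucc (α := fun _ => ℂ) 0 p i

lemma ext5_last (p : Fin 4 → ℂ) : ext5 p 4 = 0 := by
  unfold ext5
  exact Fin.snoc_last (α := fun _ => ℂ) 0 p

lemma eval_i5 (p : Fin 4 → ℂ) (f : Sr) : eval (ext5 p) (i5 f) = eval p f := by
  rw [i5, eval_rename]
  have : ext5 p ∘ Fin.castSucc = p := funext fun i => ext5_castSucc p i
  rw [this]

lemma pderiv_i5_last (f : Sr) : pderiv (Fin.last 4) (i5 f) = 0 := by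
  rw [i5]
  apply pderiv_eq_zero_of_notMem_vars
  intro h
  classical
  have h2 := vars_rename Fin.castSucc f h
  rw [Finset.mem_image] at h2
  obtain ⟨j, _, hj⟩ := h2
  exact absurd hj (Fin.castSucc_lt_last j).ne

end N12_

open N12_

theorem p_N12 : T_N12 := by
  intro a f₄ f₆ ha h4 h6 hy4 hy6 h
  refine ⟨⟨f₄, f₆, h4, h6, hy4, hy6, rfl⟩, ?_⟩
  intro p hp
  set f : Sr := X 3 ^ 3 + f₄ * X 3 + f₆ with hf
  have key : ∀ i : Fin 5, eval (ext5 p) (pderiv i (C a * (X 4 ^ 2 + i5 f))) = 0 := by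
    intro i
    rw [pderiv_C_mul, map_add, map_mul, map_add, eval_C, pderiv_pow]
    have h1 : eval (ext5 p) (pderiv i (i5 f)) = 0 := by
      refine Fin.lastCases ?_ (fun j => ?_) i
      · rw [pderiv_i5_last, map_zero]
      · rw [i5, pderiv_rename (Fin.castSucc_injective _), ← i5, eval_i5, hp j]
    rw [h1]
    simp [ext5_last]
  have h2 := h.smooth (ext5 p) key
  funext i
  have h3 := congrFun h2 (Fin.castSucc i)
  rw [ext5_castSucc] at h3
  exact h3

end Pool.Agent.VDK
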