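import Pool.Agent.VDK.T3

set_option autoImplicit false
set_option linter.unusedVariables false

open CategoryTheory CategoryTheory.Limits Pretriangulated MvPolynomial AlgebraicGeometry
  Pool.Agent.VDC

noncomputable section

namespace Pool.Agent.VDK

theorem p_N13 : T_N13 := by
  intro w w' σ c hσ hc hw
  have hu : IsUnit (C c : P5) := (isUnit_iff_ne_zero.2 hc).map C
  have hI : Ideal.span {w'} = (Ideal.span {w}).map (σ : P5 →+* P5) := by
    rw [Ideal.map_span, Set.image_singleton]
    have h1 : (σ : P5 →+* P5) w = C c * w' := hw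
    rw [h1, Ideal.span_singleton_mul_left_unit hu]
  let e : CR w ≃ₐ[ℂ] CR w' := Ideal.quotientEquivAlg (Ideal.span {w}) (Ideal.span {w'}) σ hI
  have he : ∀ p : P5, e (clw w p) = clw w' (σ p) := fun p => rfl
  refine ⟨e, fun m r => ⟨?_, ?_⟩⟩
  · rintro ⟨p, hp, rfl⟩
    exact ⟨σ p, (hσ m p).1 hp, (he p).symm⟩
  · rintro ⟨q, hq, hqr⟩
    refine ⟨σ.symm q, ?_, ?_⟩
    · refine (hσ m _).2 ?_
      rw [AlgEquiv.apply_symm_apply]
      exact hq
    · apply e.injective
      show e (clw w (σ.symm q)) = e r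
      rw [he, AlgEquiv.apply_symm_apply]
      exact hqr

end Pool.Agent.VDK
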