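import Pool.Agent.VDK.T3

set_option autoImplicit false

open MvPolynomial Pool.Agent.VDC

noncomputable section

namespace Pool.Agent.VDK

namespace N14_

variable {f : Sr}

/-- the images of the variables -/
def gv (f : Sr) (k : Fin 5) : RR f :=
  Fin.lastCases (motive := fun _ => RR f) ⟨0, 1⟩ (fun i : Fin 4 => ⟨X i, 0⟩) k

lemma gv_last : gv f 4 = ⟨0, 1⟩ := Fin.lastCases_last

lemma gv_castSucc (i : Fin 4) : gv f i.castSucc = ⟨X i, 0⟩ := Fin.lastCases_castSucc i

/-- the map of polynomials -/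
def phi (f : Sr) : P5 →ₐ[ℂ] RR f := aeval (gv f)

/-- the inclusion of the polynomials without `z` -/
def inc (f : Sr) : Sr →ₐ[ℂ] RR f where
  toFun p := ⟨p, 0⟩
  map_one' := rfl
  map_mul' p q := by
    apply QuadraticAlgebra.ext <;> simp
  map_zero' := rfl
  map_add' p q := by
    apply QuadraticAlgebra.ext <;> simp
  commutes' r := rfl

lemma phi_i5 (p : Sr) : phi f (i5 p) = ⟨p, 0⟩ := by
  have h : (phi f).comp i5 = inc f := by
    apply MvPolynomial.algHom_ext
    intro i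
    rw [AlgHom.comp_apply, i5, rename_X, phi, aeval_X, gv_castSucc]
    rfl
  exact DFunLike.congr_fun h p

lemma phi_X4 : phi f (X 4) = ⟨0, 1⟩ := by
  rw [phi, aeval_X, gv_last]

lemma phi_ab (a b : Sr) : phi f (i5 a + i5 b * X 4) = ⟨a, b⟩ := by
  rw [map_add, map_mul, phi_i5, phi_i5, phi_X4]
  apply QuadraticAlgebra.ext <;> simp

lemma phi_w : phi f (X 4 ^ 2 + i5 f) = 0 := by
  rw [map_add, map_pow, phi_i5, phi_X4, sq]
  apply QuadraticAlgebra.ext <;> simp

lemma div (p : P5) : ∃ a b q, p = i5 a + i5 b * X 4 + (X 4 ^ 2 + i5 f) * q := by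
  induction p using MvPolynomial.induction_on with
  | C c =>
    refine ⟨C c, 0, 0, ?_⟩
    rw [map_zero, zero_mul, mul_zero, add_zero, add_zero, i5, rename_C]
  | add p q hp hq =>
    obtain ⟨a, b, q1, h1⟩ := hp
    obtain ⟨a', b', q2, h2⟩ := hq
    refine ⟨a + a', b + b', q1 + q2, ?_⟩
    rw [map_add, map_add]
    nth_rw 1 [h1]
    nth_rw 1 [h2]
    ring
  | mul_X p n hp =>
    obtain ⟨a, b, q1, h1⟩ := hp
    induction n using Fin.lastCases with
    | last =>
      refine ⟨-(f * b), a, q1 * X 4 + i5 b, ?_⟩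
      rw [map_neg, map_mul]
      nth_rw 1 [h1]
      show (i5 a + i5 b * X 4 + (X 4 ^ 2 + i5 f) * q1) * X 4 = _
      ring
    | cast i =>
      refine ⟨a * X i, b * X i, q1 * X i.castSucc, ?_⟩
      rw [map_mul, map_mul, show i5 (X i) = X i.castSucc from rename_X _ _]
      nth_rw 1 [h1]
      ring

lemma gv_mem [H6 f] (k : Fin 5) : gv f k ∈ gZ f (w5 k) := by
  induction k using Fin.lastCases with
  | last =>
    show gv f 4 ∈ _
    rw [gv_last]
    exact ⟨Hmg.zero _, Hmg.one.congr (by show (0 : ℤ) = w5 4 - 3; simp [w5])⟩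
  | cast i =>
    rw [gv_castSucc]
    refine ⟨(Hmg.X i).congr ?_, Hmg.zero _⟩
    fin_cases i <;> rfl

lemma phi_mem [H6 f] {m : ℤ} {p : P5} (hp : IsWeightedHomogeneous w5 p m) :
    phi f p ∈ gZ f m := by
  rw [p.as_sum, map_sum]
  refine Submodule.sum_mem _ fun a ha => ?_
  have h1 : Finsupp.weight w5 a = m := hp (mem_support_iff.1 ha)
  rw [phi, aeval_monomial, ← Algebra.smul_def]
  refine Submodule.smul_mem _ _ ?_
  rw [← h1, Finsupp.weight_apply, Finsupp.prod, Finsupp.sum]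
  exact SetLike.prod_pow_mem_graded (gZ f) _ _ _ fun k _ => gv_mem k

/-- the homomorphism -/
def ee (f : Sr) : CR (X 4 ^ 2 + i5 f) →ₐ[ℂ] RR f :=
  Ideal.Quotient.liftₐ (Ideal.span {X 4 ^ 2 + i5 f}) (phi f) (fun p hp => by
    obtain ⟨q, rfl⟩ := Ideal.mem_span_singleton.1 hp
    rw [map_mul, phi_w, zero_mul])

lemma ee_clw (p : P5) : ee f (clw _ p) = phi f p := rfl

lemma ee_bij : Function.Bijective (ee f) := by
  constructor
  · rw [injective_iff_map_eq_zero]
    intro r hr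
    obtain ⟨p, rfl⟩ := clw_surjective _ r
    rw [ee_clw] at hr
    obtain ⟨a, b, q, h⟩ := div (f := f) p
    rw [h, map_add, phi_ab, map_mul, phi_w, zero_mul, add_zero] at hr
    have ha : a = 0 := by simpa using congrArg QuadraticAlgebra.re hr
    have hb : b = 0 := by simpa using congrArg QuadraticAlgebra.im hr
    refine (clw_eq_zero _ p).2 ⟨q, ?_⟩
    rw [h, ha, hb, map_zero, zero_mul, zero_add, zero_add]
  · rintro ⟨a, b⟩
    exact ⟨clw _ (i5 a + i5 b * X 4), by rw [ee_clw, phi_ab]⟩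

end N14_

open N14_ in
/-- N14.  `ℂ[x, y, z] / (z ^ 2 + f) = S ⊕ S z`. -/
theorem p_N14 (h01 : T_N01) : T_N14 := by
  intro f hf
  have : H6 f := ⟨hf⟩
  refine ⟨AlgEquiv.ofBijective (ee f) ee_bij, fun m r => ?_⟩
  rw [AlgEquiv.ofBijective_apply]
  constructor
  · rintro ⟨p, hp, rfl⟩
    exact phi_mem hp
  · intro h
    obtain ⟨a, b, hab⟩ : ∃ a b : Sr, ee f r = ⟨a, b⟩ := ⟨_, _, rfl⟩
    rw [hab] at h
    have h1 : r = clw _ (i5 a + i5 b * X 4) := by
      apply ee_bij.1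
      rw [ee_clw, phi_ab, hab]
    rw [h1]
    refine ⟨_, ?_, rfl⟩
    refine IsWeightedHomogeneous.add ((h01 a m).1 h.1) ?_
    have h2 := ((h01 b (m - 3)).1 h.2).mul (isWeightedHomogeneous_X ℂ w5 4)
    have h3 : m - 3 + w5 4 = m := by simp [w5]
    rwa [h3] at h2

end Pool.Agent.VDK
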