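import Pool.Agent.VDK.T3

/-!
# VDK-N15: the normal form of a smooth sextic
-/

set_option autoImplicit false
set_option linter.unusedVariables false

open CategoryTheory CategoryTheory.Limits Pretriangulated MvPolynomial AlgebraicGeometry
  Pool.Agent.VDC

noncomputable section

namespace Pool.Agent.VDK

theorem p_N15 (h9 : T_N09) (h10 : T_N10) (h11 : T_N11) (h12 : T_N12) (h13 : T_N13)
    (h14 : T_N14) : T_N15 := by
  intro w hw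
  obtain ⟨σ, a, F, hσ, ha, hF, hσw⟩ := h10 w hw
  have hw1 : IsVDC5 (C a * X 4 ^ 2 + i5 F) := hσw ▸ h9 w σ hσ hw
  obtain ⟨τ, f₄, f₆, hτ, h4, h6, n4, n6, hτw⟩ := h11 a F ha hF hw1
  have hw2 : IsVDC5 (C a * (X 4 ^ 2 + i5 (X 3 ^ 3 + f₄ * X 3 + f₆))) := hτw ▸ h9 _ τ hτ hw1
  have hf : IsVDC (X 3 ^ 3 + f₄ * X 3 + f₆) := h12 a f₄ f₆ ha h4 h6 n4 n6 hw2
  have hx : Hmg (X 3 : Sr) 2 := Hmg.X 3
  have hf6 : Hmg (X 3 ^ 3 + f₄ * X 3 + f₆ : Sr) 6 := by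
    refine (Hmg.add ?_ (h4.mul hx)).add h6
    have h := (hx.mul hx).mul hx
    rwa [show (X 3 : Sr) * X 3 * X 3 = X 3 ^ 3 by ring] at h
  obtain ⟨e, he⟩ := h13 w (X 4 ^ 2 + i5 (X 3 ^ 3 + f₄ * X 3 + f₆)) (σ.trans τ) a
    (fun m p => (hσ m p).trans (hτ m (σ p))) ha (by
      rw [AlgEquiv.trans_apply, hσw, hτw])
  obtain ⟨e', he'⟩ := h14 _ hf6
  exact ⟨_, hf, e.trans e', fun m r => (he m r).trans (he' m (e r))⟩

end Pool.Agent.VDK
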