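import Pool.Agent.VDK.T3
import Pool.Agent.VDC.P_GRD

/-!
# VDK: the grading of the coordinate ring of a sextic (T_N16)
-/

set_option autoImplicit false
set_option linter.unusedVariables false

open CategoryTheory CategoryTheory.Limits Pretriangulated MvPolynomial AlgebraicGeometry
  Pool.Agent.VDC

noncomputable section

namespace Pool.Agent.VDK

namespace N16_

lemma graded (w : P5) : SetLike.GradedMonoid (gr5N w) where
  one_mem := SetLike.GradedOne.one_mem (A := gr5 w)
  mul_mem := by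
    intro i j x y hx hy
    have h : x * y ∈ gr5 w ((i : ℤ) + (j : ℤ)) := SetLike.GradedMul.mul_mem hx hy
    show x * y ∈ gr5 w ((i + j : ℕ) : ℤ)
    rw [Nat.cast_add]
    exact h

/-- transport of a direct sum decomposition along an isomorphism -/
lemma transport {C D : Type} [CommRing C] [Algebra ℂ C] [CommRing D] [Algebra ℂ D]
    (𝒞 : ℕ → Submodule ℂ C) (𝒟 : ℕ → Submodule ℂ D) (e : C ≃ₐ[ℂ] D)
    (he : ∀ n r, r ∈ 𝒞 n ↔ e r ∈ 𝒟 n) (h : DirectSum.IsInternal 𝒟) :
    DirectSum.IsInternal 𝒞 := by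
  have h1 := (DirectSum.isInternal_submodule_iff_iSupIndep_and_iSup_eq_top 𝒟).1 h
  have hg : 𝒞 = fun n => Submodule.orderIsoMapComap e.symm.toLinearEquiv (𝒟 n) := by
    funext n
    ext r
    show r ∈ 𝒞 n ↔ r ∈ (𝒟 n).map (e.symm.toLinearEquiv : D →ₗ[ℂ] C)
    rw [he, Submodule.mem_map_equiv]
    exact Iff.rfl
  refine (DirectSum.isInternal_submodule_iff_iSupIndep_and_iSup_eq_top 𝒞).2 ?_
  rw [hg]
  constructor
  · exact (iSupIndep_map_orderIso_iff (Submodule.orderIsoMapComap e.symm.toLinearEquiv)).2 h1.1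
  · rw [← OrderIso.map_iSup, h1.2, OrderIso.map_top]

end N16_

theorem p_N16 (h15 : T_N15) : T_N16 := by
  intro w hw
  obtain ⟨f, hf, e, he⟩ := h15 w hw
  have hi : DirectSum.IsInternal (gr5N w) :=
    N16_.transport (gr5N w) (grd f) e (fun n r => he n r) (GRD_.internal f)
  exact ⟨{ toGradedMonoid := N16_.graded w
           toDecomposition := hi.chooseDecomposition _ }⟩

end Pool.Agent.VDK
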