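import Pool.Agent.VDK.T3
import Pool.Agent.VDC.P_PRJ

/-! N17: isomorphic graded algebras have isomorphic `Proj` over `ℂ`. -/

set_option autoImplicit false

open CategoryTheory AlgebraicGeometry Pool.Agent.VDC

noncomputable section

namespace Pool.Agent.VDK

theorem p_N17 : T_N17 := by
  intro A B _ _ _ _ 𝒜 ℬ _ _ e h
  exact ⟨(Over.isoMk (PRJ_.isoP 𝒜 ℬ e h) (PRJ_.str 𝒜 ℬ e h) : ProjC ℬ ≅ ProjC 𝒜).symm⟩

end Pool.Agent.VDK
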