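import Pool.Agent.VDK.T1

/-!
# VDK-PBD: `Psi F` is bounded above with bounded cohomology (helper43)
-/

set_option autoImplicit false
set_option linter.unusedVariables false

open CategoryTheory CategoryTheory.Limits Pretriangulated MvPolynomial Pool.Agent.VDC

noncomputable section

namespace Pool.Agent.VDK

namespace PBD_

section

variable {A : Type} [CommRing A] [Algebra ℂ A] {𝒜 : ℤ → Submodule ℂ A} [SetLike.GradedMonoid 𝒜]

lemma resI_comp {X Y : GF 𝒜} (u : X.ι → Prop) (v : Y.ι → Prop) (hv : ∀ j, v j) (a : X ⟶ Y) :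
    resI X u ≫ a = resM u v a ≫ resI Y v := by
  classical
  refine gf_ext (Matrix.ext fun k i => ?_)
  show ∑ j, mat a k j * (1 : Matrix X.ι X.ι A) j i.1 =
    ∑ j : {j // v j}, (1 : Matrix Y.ι Y.ι A) k j.1 * mat a j.1 i.1
  rw [Finset.sum_eq_single i.1 (fun j _ hj => by rw [Matrix.one_apply_ne hj, mul_zero])
    (fun h => absurd (Finset.mem_univ _) h), Matrix.one_apply_eq, mul_one]
  rw [Finset.sum_eq_single (⟨k, hv k⟩ : {j // v j}) (fun j _ hj => by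
    rw [Matrix.one_apply_ne (fun h => hj (Subtype.ext h.symm)), zero_mul])
    (fun h => absurd (Finset.mem_univ _) h), Matrix.one_apply_eq, one_mul]

lemma resP_comp {X Y : GF 𝒜} (u : X.ι → Prop) (hu : ∀ j, u j) (v : Y.ι → Prop) (a : X ⟶ Y) :
    resP X u ≫ resM u v a = a ≫ resP Y v := by
  classical
  refine gf_ext (Matrix.ext fun k i => ?_)
  show ∑ j : {j // u j}, mat a k.1 j.1 * (1 : Matrix X.ι X.ι A) j.1 i =
    ∑ j, (1 : Matrix Y.ι Y.ι A) k.1 j * mat a j i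
  rw [Finset.sum_eq_single (⟨i, hu i⟩ : {j // u j}) (fun j _ hj => by
    rw [Matrix.one_apply_ne (fun h => hj (Subtype.ext h)), mul_zero])
    (fun h => absurd (Finset.mem_univ _) h), Matrix.one_apply_eq, mul_one]
  rw [Finset.sum_eq_single k.1 (fun j _ hj => by rw [Matrix.one_apply_ne (Ne.symm hj), zero_mul])
    (fun h => absurd (Finset.mem_univ _) h), Matrix.one_apply_eq, one_mul]

lemma resI_resP (X : GF 𝒜) (u : X.ι → Prop) : resI X u ≫ resP X u = 𝟙 (resX X u) := by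
  classical
  refine gf_ext (Matrix.ext fun k i => ?_)
  show ∑ j, (1 : Matrix X.ι X.ι A) k.1 j * (1 : Matrix X.ι X.ι A) j i.1 =
    (1 : Matrix (resX X u).ι (resX X u).ι A) k i
  rw [Finset.sum_eq_single k.1 (fun j _ hj => by rw [Matrix.one_apply_ne (Ne.symm hj), zero_mul])
    (fun h => absurd (Finset.mem_univ _) h), Matrix.one_apply_eq, one_mul, Matrix.one_apply,
    Matrix.one_apply]
  exact if_congr Subtype.ext_iff.symm rfl rfl

lemma acy0 (C : CochainComplex (GF 𝒜) ℤ) (c n d : ℤ)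
    (h0 : ∀ i : (C.X (n - 1)).ι, c ≤ (C.X (n - 1)).deg i)
    (h2 : ∀ i : (C.X (n + 1)).ι, c ≤ (C.X (n + 1)).deg i) (hC : Acy C n d)
    (x : GF.tw 𝒜 (-d) ⟶ resX (C.X n) fun i => c ≤ (C.X n).deg i)
    (hx : x ≫ resM (fun i => c ≤ (C.X n).deg i) (fun i => c ≤ (C.X (n + 1)).deg i)
      (C.d n (n + 1)) = 0) :
    ∃ y : GF.tw 𝒜 (-d) ⟶ resX (C.X (n - 1)) fun i => c ≤ (C.X (n - 1)).deg i,
      y ≫ resM (fun i => c ≤ (C.X (n - 1)).deg i) (fun i => c ≤ (C.X n).deg i)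
        (C.d (n - 1) n) = x := by
  obtain ⟨y, hy⟩ := hC (x ≫ resI (C.X n) fun i => c ≤ (C.X n).deg i) (by
    rw [Category.assoc, resI_comp _ (fun i => c ≤ (C.X (n + 1)).deg i) h2, ← Category.assoc, hx,
      zero_comp])
  refine ⟨y ≫ resP (C.X (n - 1)) fun i => c ≤ (C.X (n - 1)).deg i, ?_⟩
  rw [Category.assoc, resP_comp _ h0, ← Category.assoc, hy, Category.assoc, resI_resP,
    Category.comp_id]

lemma acy [NonNeg 𝒜] (C : CochainComplex (GF 𝒜) ℤ) (c n d : ℤ)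
    (h0 : ∀ i : (C.X (n - 1)).ι, c ≤ (C.X (n - 1)).deg i)
    (h2 : ∀ i : (C.X (n + 1)).ι, c ≤ (C.X (n + 1)).deg i) (hC : Acy C n d) :
    Acy (((tge 𝒜 c).mapHomologicalComplex (ComplexShape.up ℤ)).obj C) n d :=
  fun x hx => acy0 C c n d h0 h2 hC x hx

lemma zero_of_empty (X : GF 𝒜) (h : IsEmpty X.ι) : IsZero X :=
  ⟨fun Y => ⟨⟨⟨0⟩, fun a => gf_ext (Matrix.ext fun i j => h.elim j)⟩⟩,
    fun Y => ⟨⟨⟨0⟩, fun a => gf_ext (Matrix.ext fun i j => h.elim i)⟩⟩⟩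

end

end PBD_

theorem p_PBD (hACF : T_ACF) (hACZ : T_ACZ) : T_PBD := by
  intro f _ F
  obtain ⟨D, hD0, hD⟩ : ∃ D : ℤ, 0 ≤ D ∧ ∀ i, |F.deg i| ≤ D :=
    ⟨∑ i, |F.deg i|, Finset.sum_nonneg fun i _ => abs_nonneg _, fun i =>
      Finset.single_le_sum (f := fun i => |F.deg i|) (fun i _ => abs_nonneg _)
        (Finset.mem_univ i)⟩
  have hD1 : ∀ i, F.deg i ≤ D := fun i => (le_abs_self _).trans (hD i)
  have hD2 : ∀ i, -D ≤ F.deg i := fun i => neg_le_of_abs_le (hD i)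
  refine ⟨⟨((tge (gZ f) 1).mapHomologicalComplex (ComplexShape.up ℤ)).obj (CF F), D, ?_,
    ⟨Iso.refl _⟩⟩, -D - 1, fun n hn d => ?_⟩
  · rw [CochainComplex.isStrictlyLE_iff]
    intro n hn
    refine PBD_.zero_of_empty _ ⟨fun i => ?_⟩
    have h1 : 1 ≤ F.deg i.1 - 3 * n := i.2
    have h2 := hD1 i.1
    lia
  · refine (hACZ (RR f) (gZ f)
      (((tge (gZ f) 1).mapHomologicalComplex (ComplexShape.up ℤ)).obj (CF F)) n d).2 ?_
    refine PBD_.acy (CF F) 1 n d (fun i => ?_) (fun i => ?_) (hACF f F n d)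
    · show 1 ≤ F.deg i - 3 * (n - 1)
      have h2 := hD2 i
      lia
    · show 1 ≤ F.deg i - 3 * (n + 1)
      have h2 := hD2 i
      lia

end Pool.Agent.VDK
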