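import Pool.Agent.VDK.T1

/-!
# VDK-PSR: `Psi F` as a subquotient of the periodic complex
-/

set_option autoImplicit false
set_option linter.unusedVariables false

open CategoryTheory CategoryTheory.Limits Pretriangulated MvPolynomial Pool.Agent.VDC

noncomputable section

namespace Pool.Agent.VDK

namespace PSR_

/-- the truncation by the degree of the generators, as a subquotient -/
def isoTge {A : Type} [CommRing A] [Algebra ℂ A] {𝒜 : ℤ → Submodule ℂ A}
    [SetLike.GradedMonoid 𝒜] [NonNeg 𝒜] (C : CochainComplex (GF 𝒜) ℤ) (c : ℤ) :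
    ((tge 𝒜 c).mapHomologicalComplex (ComplexShape.up ℤ)).obj C ≅
      resC C (Uge c C) (Uge_qc C c).lc :=
  HomologicalComplex.Hom.isoOfComponents
    (fun n => (Iso.refl (resX (C.X n) fun i => c ≤ (C.X n).deg i) :
      (((tge 𝒜 c).mapHomologicalComplex (ComplexShape.up ℤ)).obj C).X n ≅
        (resC C (Uge c C) (Uge_qc C c).lc).X n))
    (by
      intro i j hij
      have h : i + 1 = j := hij
      subst h
      rw [resC_d]
      refine (Category.id_comp _).trans ?_
      exact (Category.comp_id (resM (Uge c C i) (Uge c C (i + 1)) (C.d i (i + 1)))).symm)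

end PSR_

/-- `Psi F` is the subquotient of the periodic complex spanned by the generators of degree `≥ 1` -/
theorem p_PSR : T_PSR := fun f _ F =>
  ⟨(qK (gZ f)).mapIso (PSR_.isoTge (CF F) 1)⟩

end Pool.Agent.VDK
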