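import Pool.Agent.VDK.P_RTR

set_option autoImplicit false
set_option linter.unusedVariables false

open CategoryTheory CategoryTheory.Limits Pretriangulated

noncomputable section

namespace Pool.Agent.VDK

variable {A : Type} [CommRing A] [Algebra ℂ A] {𝒜 : ℤ → Submodule ℂ A} [SetLike.GradedMonoid 𝒜]

/-- a sum over all the generators -/
lemma RTI_sum {X : GF 𝒜} (u : X.ι → Prop) (hu : ∀ i, u i) (k : X.ι) (h : X.ι → A) :
    ∑ j : (resX X u).ι, (1 : Matrix X.ι X.ι A) k j.1 * h j.1 = h k := by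
  refine Eq.trans (Finset.sum_eq_single (⟨k, hu k⟩ : (resX X u).ι) ?_ ?_) ?_
  · intro j _ hj
    have h2 : k ≠ j.1 := fun h => hj (Subtype.ext h.symm)
    rw [Matrix.one_apply_ne h2, zero_mul]
  · intro h0
    exact absurd (Finset.mem_univ (α := (resX X u).ι) _) h0
  · show (1 : Matrix X.ι X.ι A) k k * h k = h k
    rw [Matrix.one_apply_eq, one_mul]

lemma RTI_sum' {X : GF 𝒜} (k : X.ι) (h : X.ι → A) :
    ∑ j : X.ι, h j * (1 : Matrix X.ι X.ι A) j k = h k := by
  rw [Finset.sum_eq_single k]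
  · rw [Matrix.one_apply_eq, mul_one]
  · intro j _ hj
    rw [Matrix.one_apply_ne hj, mul_zero]
  · intro h0
    exact absurd (Finset.mem_univ _) h0

/-- all the generators -/
def RTI_iso {X : GF 𝒜} (u : X.ι → Prop) (hu : ∀ i, u i) : resX X u ≅ X where
  hom := resI X u
  inv := resP X u
  hom_inv_id := by
    refine gf_ext (Matrix.ext fun k i => ?_)
    show ∑ j : X.ι, (1 : Matrix X.ι X.ι A) k.1 j * (1 : Matrix X.ι X.ι A) j i.1 =
      (1 : Matrix (resX X u).ι (resX X u).ι A) k i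
    rw [RTI_sum', Matrix.one_apply, Matrix.one_apply]
    exact if_congr Subtype.ext_iff.symm rfl rfl
  inv_hom_id := by
    refine gf_ext (Matrix.ext fun k i => ?_)
    exact RTI_sum u hu k (fun j => (1 : Matrix X.ι X.ι A) j i)

theorem p_RTI : T_RTI := by
  intro A _ _ 𝒜 _ C
  constructor
  · intro U hU h
    refine ⟨HomologicalComplex.Hom.isoOfComponents (fun n => RTI_iso (U n) (h n)) ?_⟩
    rintro n _ rfl
    rw [resC_d]
    show resI (C.X n) (U n) ≫ C.d n (n + 1) =
      resM (U n) (U (n + 1)) (C.d n (n + 1)) ≫ resI (C.X (n + 1)) (U (n + 1))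
    refine gf_ext (Matrix.ext fun k i => ?_)
    have h1 : mat (resI (C.X n) (U n) ≫ C.d n (n + 1)) k i = mat (C.d n (n + 1)) k i.1 :=
      RTI_sum' i.1 (fun j => mat (C.d n (n + 1)) k j)
    have h2 : mat (resM (U n) (U (n + 1)) (C.d n (n + 1)) ≫ resI (C.X (n + 1)) (U (n + 1))) k i =
        mat (C.d n (n + 1)) k i.1 :=
      RTI_sum (U (n + 1)) (h (n + 1)) k (fun j => mat (C.d n (n + 1)) j i.1)
    exact h1.trans h2.symm
  · intro U V hU hV h
    refine ⟨⟨RTR_map C U V hU hV (fun n i k hi hj hk => absurd ((h n i).1 hi) hj)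
      (fun n i k hi hj hk => absurd ((h (n + 1) k).2 hk) hj),
      RTR_map C V U hV hU (fun n i k hi hj hk => absurd ((h n i).2 hi) hj)
      (fun n i k hi hj hk => absurd ((h (n + 1) k).1 hk) hj), ?_, ?_⟩⟩
    · ext n
      show RTR_blk (U n) (V n) ≫ RTR_blk (V n) (U n) = 𝟙 _
      rw [RTR_blk_comp _ _ _ (fun i hi hj => absurd ((h n i).1 hi) hj)]
      exact RTR_blk_self _
    · ext n
      show RTR_blk (V n) (U n) ≫ RTR_blk (U n) (V n) = 𝟙 _
      rw [RTR_blk_comp _ _ _ (fun i hi hj => absurd ((h n i).2 hi) hj)]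
      exact RTR_blk_self _

end Pool.Agent.VDK
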