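import Pool.Agent.VDK.T1

set_option autoImplicit false
set_option linter.unusedVariables false

open CategoryTheory CategoryTheory.Limits Pretriangulated

noncomputable section

namespace Pool.Agent.VDK

variable {A : Type} [CommRing A] [Algebra ℂ A] {𝒜 : ℤ → Submodule ℂ A} [SetLike.GradedMonoid 𝒜]

/-- the block of the identity -/
def RTR_blk {X : GF 𝒜} (u v : X.ι → Prop) : resX X u ⟶ resX X v := resM u v (𝟙 X)

lemma RTR_mat_id {X : GF 𝒜} {i j : X.ι} (h : i ≠ j) : mat (𝟙 X) i j = 0 := by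
  rw [mat_id]
  exact Matrix.one_apply_ne h

/-- the chain map given by the blocks of the identity -/
def RTR_map (C : CochainComplex (GF 𝒜) ℤ) (U V : ∀ n, (C.X n).ι → Prop) (hU : LC C U)
    (hV : LC C V)
    (h1 : ∀ n i k, U n i → ¬ V n i → V (n + 1) k → mat (C.d n (n + 1)) k i = 0)
    (h2 : ∀ n i k, U n i → ¬ U (n + 1) k → V (n + 1) k → mat (C.d n (n + 1)) k i = 0) :
    resC C U hU ⟶ resC C V hV where
  f n := RTR_blk (U n) (V n)
  comm' := by
    rintro n _ rfl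
    rw [resC_d, resC_d]
    show resM (U n) (V n) (𝟙 _) ≫ resM (V n) (V (n + 1)) (C.d n (n + 1)) =
      resM (U n) (U (n + 1)) (C.d n (n + 1)) ≫ resM (U (n + 1)) (V (n + 1)) (𝟙 _)
    rw [res_mul, res_mul, Category.id_comp, Category.comp_id]
    · intro i j k hi hj hk
      by_cases hkj : k = j
      · subst hkj
        rw [h2 n i k hi hj hk, mul_zero]
      · rw [RTR_mat_id hkj, zero_mul]
    · intro i j k hi hj hk
      by_cases hji : j = i
      · subst hji
        rw [h1 n j k hi hj hk, zero_mul]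
      · rw [RTR_mat_id hji, mul_zero]

lemma RTR_blk_comp {X : GF 𝒜} (u v w : X.ι → Prop) (h : ∀ i, u i → ¬ v i → ¬ w i) :
    RTR_blk u v ≫ RTR_blk v w = RTR_blk (X := X) u w := by
  unfold RTR_blk
  rw [res_mul, Category.comp_id]
  intro i j k hi hj hk
  by_cases hkj : k = j
  · subst hkj
    by_cases hki : k = i
    · subst hki
      exact absurd hk (h k hi hj)
    · rw [RTR_mat_id hki, mul_zero]
  · rw [RTR_mat_id hkj, zero_mul]

lemma RTR_blk_self {X : GF 𝒜} (u : X.ι → Prop) : RTR_blk u u = 𝟙 (resX X u) := by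
  classical
  refine gf_ext (Matrix.ext fun i j => ?_)
  show (1 : Matrix X.ι X.ι A) i.1 j.1 = (1 : Matrix (resX X u).ι (resX X u).ι A) i j
  rw [Matrix.one_apply, Matrix.one_apply]
  exact if_congr Subtype.ext_iff.symm rfl rfl

lemma RTR_blk_zero {X : GF 𝒜} (u v : X.ι → Prop) (h : ∀ i, u i → ¬ v i) :
    RTR_blk (X := X) u v = 0 := by
  refine gf_ext (Matrix.ext fun i j => ?_)
  show mat (𝟙 X) i.1 j.1 = 0
  refine RTR_mat_id fun hij => ?_
  have hi : v i.1 := i.2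
  rw [hij] at hi
  exact h j.1 j.2 hi

lemma RTR_mat_blk_comp {X : GF 𝒜} (u v w : X.ι → Prop) (k : (resX X w).ι)
    (i : (resX X u).ι) :
    mat (RTR_blk u v ≫ RTR_blk v w) k i =
      ∑ j : (resX X v).ι, mat (𝟙 X) k.1 j.1 * mat (𝟙 X) j.1 i.1 := rfl

lemma RTR_key {X : GF 𝒜} (p : X.ι → Prop) (k i : X.ι) :
    (p k → ∑ j : (resX X p).ι, mat (𝟙 X) k j.1 * mat (𝟙 X) j.1 i = mat (𝟙 X) k i) ∧
    (¬ p k → ∑ j : (resX X p).ι, mat (𝟙 X) k j.1 * mat (𝟙 X) j.1 i = 0) := by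
  constructor
  · intro hp
    refine Eq.trans (Finset.sum_eq_single (⟨k, hp⟩ : (resX X p).ι) ?_ ?_) ?_
    · intro j _ hj
      have h2 : k ≠ j.1 := fun h => hj (Subtype.ext h.symm)
      rw [RTR_mat_id h2, zero_mul]
    · intro h0
      exact absurd (Finset.mem_univ (α := (resX X p).ι) _) h0
    · have h1 : mat (𝟙 X) k k = 1 := by
        rw [mat_id]
        exact Matrix.one_apply_eq _
      show mat (𝟙 X) k k * mat (𝟙 X) k i = mat (𝟙 X) k i
      rw [h1, one_mul]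
  · intro hp
    refine Finset.sum_eq_zero fun j _ => ?_
    have h2 : k ≠ j.1 := fun h => hp (h ▸ j.2)
    rw [RTR_mat_id h2, zero_mul]

lemma RTR_split {X : GF 𝒜} (u v : X.ι → Prop) (h : ∀ i, v i → u i) :
    RTR_blk u (fun i => u i ∧ ¬ v i) ≫ RTR_blk (fun i => u i ∧ ¬ v i) u +
      RTR_blk u v ≫ RTR_blk v u = 𝟙 (resX X u) := by
  rw [← RTR_blk_self]
  refine gf_ext (Matrix.ext fun k i => ?_)
  rw [mat_add, Matrix.add_apply, RTR_mat_blk_comp, RTR_mat_blk_comp]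
  have hk : u k.1 := k.2
  show _ = mat (𝟙 X) k.1 i.1
  by_cases hv : v k.1
  · rw [(RTR_key v k.1 i.1).1 hv,
      (RTR_key (fun i => u i ∧ ¬ v i) k.1 i.1).2 (fun h0 => h0.2 hv), zero_add]
  · rw [(RTR_key v k.1 i.1).2 hv, (RTR_key (fun i => u i ∧ ¬ v i) k.1 i.1).1 ⟨hk, hv⟩, add_zero]

theorem p_RTR : T_RTR := by
  intro A _ _ 𝒜 _ C U V hU hV hVU
  let f : resC C (fun n i => U n i ∧ ¬ V n i) (hU.lc_diff hV) ⟶ resC C U hU.lc :=
    RTR_map C _ _ _ _ (fun n i k hi hj hk => absurd hi.1 hj) (fun n i k hi hj hk => by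
      have h2 : V (n + 1) k := by
        by_contra h3
        exact hj ⟨hk, h3⟩
      exact hV n i k hi.2 h2)
  let g : resC C U hU.lc ⟶ resC C V hV.lc :=
    RTR_map C _ _ _ _ (fun n i k hi hj hk => hV n i k hj hk)
      (fun n i k hi hj hk => absurd (hVU _ _ hk) hj)
  have hfg : f ≫ g = 0 := by
    ext n
    show RTR_blk (fun i => U n i ∧ ¬ V n i) (U n) ≫ RTR_blk (U n) (V n) = 0
    rw [RTR_blk_comp _ _ _ (fun i hi hj => absurd hi.1 hj)]
    exact RTR_blk_zero _ _ fun i hi => hi.2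
  let S : ShortComplex (CochainComplex (GF 𝒜) ℤ) := ShortComplex.mk f g hfg
  let σ : ∀ n, (S.map (HomologicalComplex.eval (GF 𝒜) (ComplexShape.up ℤ) n)).Splitting := fun n =>
    { r := RTR_blk (U n) (fun i => U n i ∧ ¬ V n i)
      s := RTR_blk (V n) (U n)
      f_r := by
        show RTR_blk (fun i => U n i ∧ ¬ V n i) (U n) ≫
          RTR_blk (U n) (fun i => U n i ∧ ¬ V n i) = 𝟙 _
        rw [RTR_blk_comp _ _ _ (fun i hi hj => absurd hi.1 hj)]
        exact RTR_blk_self _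
      s_g := by
        show RTR_blk (V n) (U n) ≫ RTR_blk (U n) (V n) = 𝟙 _
        rw [RTR_blk_comp _ _ _ (fun i hi hj => absurd (hVU n i hi) hj)]
        exact RTR_blk_self _
      id := RTR_split (U n) (V n) (hVU n) }
  refine ⟨(qK 𝒜).map f, (qK 𝒜).map g,
    (CochainComplex.trianglehOfDegreewiseSplit S σ).mor₃, ?_⟩
  rw [HomotopyCategory.distinguished_iff_iso_trianglehOfDegreewiseSplit]
  exact ⟨S, σ, ⟨Iso.refl _⟩⟩

end Pool.Agent.VDK
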