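import Pool.Agent.VDK.T1

/-!
# VDK: a subquotient with one generator is a shift of `OK`
-/

set_option autoImplicit false
set_option linter.unusedVariables false

open CategoryTheory CategoryTheory.Limits Pretriangulated

noncomputable section

namespace Pool.Agent.VDK.SGL_

variable {A : Type} [CommRing A] [Algebra ℂ A] {𝒜 : ℤ → Submodule ℂ A} [SetLike.GradedMonoid 𝒜]

/-- a free module without generators is zero -/
lemma isZero_of_isEmpty (X : GF 𝒜) (h : IsEmpty X.ι) : IsZero X :=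
  ⟨fun Y => ⟨⟨⟨0⟩, fun a => gf_ext (Matrix.ext fun i j => (h.false j).elim)⟩⟩,
    fun Y => ⟨⟨⟨0⟩, fun a => gf_ext (Matrix.ext fun i j => (h.false i).elim)⟩⟩⟩

/-- a free module with one generator -/
lemma iso_tw (X : GF 𝒜) (i₀ : X.ι) (h : ∀ i, i = i₀) : Nonempty (X ≅ GF.tw 𝒜 (-(X.deg i₀))) := by
  have hone : (1 : A) ∈ 𝒜 0 := SetLike.GradedOne.one_mem
  refine ⟨⟨ofm (Matrix.of fun _ _ => 1) fun i j => ?_, ofm (Matrix.of fun _ _ => 1) fun i j => ?_,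
    gf_ext (Matrix.ext fun i j => ?_), gf_ext (Matrix.ext fun i j => ?_)⟩⟩
  · rw [h j]
    show (1 : A) ∈ 𝒜 (X.deg i₀ - - -(X.deg i₀))
    rwa [show X.deg i₀ - - -(X.deg i₀) = 0 by ring]
  · rw [h i]
    show (1 : A) ∈ 𝒜 (- -(X.deg i₀) - X.deg i₀)
    rwa [show - -(X.deg i₀) - X.deg i₀ = 0 by ring]
  · rw [h i, h j]
    show ∑ _k : Unit, (1 : A) * 1 = (1 : Matrix X.ι X.ι A) i₀ i₀
    rw [Matrix.one_apply_eq]
    simp
  · obtain rfl : i = j := Subsingleton.elim (α := Unit) _ _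
    have h3 : (1 : Matrix (GF.tw 𝒜 (-(X.deg i₀))).ι (GF.tw 𝒜 (-(X.deg i₀))).ι A) i i = 1 :=
      Matrix.one_apply_eq i
    refine Eq.trans ?_ h3.symm
    show ∑ _k : X.ι, (1 : A) * 1 = 1
    rw [Finset.sum_eq_single i₀ (fun b _ hb => (hb (h b)).elim)
      (fun hb => (hb (Finset.mem_univ _)).elim), mul_one]

end Pool.Agent.VDK.SGL_

namespace Pool.Agent.VDK

open SGL_ in
theorem p_SGL : T_SGL := by
  intro A _ _ 𝒜 _ C U hU n₀ i₀ h1 h2
  have hz : ∀ n, n ≠ n₀ → IsZero ((resC C U hU).X n) := fun n hn =>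
    isZero_of_isEmpty _ ⟨fun i => hn (h1 n i.1 i.2)⟩
  have : (resC C U hU).IsStrictlyGE n₀ := by
    rw [CochainComplex.isStrictlyGE_iff]
    exact fun i hi => hz i (by lia)
  have : (resC C U hU).IsStrictlyLE n₀ := by
    rw [CochainComplex.isStrictlyLE_iff]
    exact fun i hi => hz i (by lia)
  obtain ⟨M, ⟨e⟩⟩ := CochainComplex.exists_iso_single (resC C U hU) n₀
  have e1 : M ≅ (resC C U hU).X n₀ :=
    (HomologicalComplex.singleObjXSelf (ComplexShape.up ℤ) n₀ M).symm ≪≫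
      ((HomologicalComplex.eval (GF 𝒜) (ComplexShape.up ℤ) n₀).mapIso e).symm
  obtain ⟨e2⟩ := iso_tw (resX (C.X n₀) (U n₀)) ⟨i₀, (h2 i₀).2 rfl⟩
    fun i => Subtype.ext ((h2 i.1).1 i.2)
  have e3 : M ≅ GF.tw 𝒜 (-((C.X n₀).deg i₀)) := e1 ≪≫ e2
  have e4 : (qK 𝒜).obj (resC C U hU) ≅
      (HomotopyCategory.singleFunctor (GF 𝒜) n₀).obj (GF.tw 𝒜 (-((C.X n₀).deg i₀))) :=
    (qK 𝒜).mapIso (e ≪≫ (HomologicalComplex.single (GF 𝒜) (ComplexShape.up ℤ) n₀).mapIso e3)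
  exact ⟨e4 ≪≫ (((HomotopyCategory.singleFunctors (GF 𝒜)).shiftIso (-n₀) n₀ 0
    (by lia)).app (GF.tw 𝒜 (-((C.X n₀).deg i₀)))).symm⟩

end Pool.Agent.VDK
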