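import Pool.Agent.VDK.P_RTI

set_option autoImplicit false
set_option linter.unusedVariables false

open CategoryTheory CategoryTheory.Limits Pretriangulated

noncomputable section

namespace Pool.Agent.VDK

variable {A : Type} [CommRing A] [Algebra ℂ A] {𝒜 : ℤ → Submodule ℂ A} [SetLike.GradedMonoid 𝒜]

/-- decomposition by a subset of the generators -/
def SNG_bic (X : GF 𝒜) (v : X.ι → Prop) :
    BinaryBicone (resX X v) (resX X (fun i => True ∧ ¬ v i)) where
  pt := resX X (fun _ => True)
  fst := RTR_blk (fun _ => True) v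
  snd := RTR_blk (fun _ => True) (fun i => True ∧ ¬ v i)
  inl := RTR_blk v (fun _ => True)
  inr := RTR_blk (fun i => True ∧ ¬ v i) (fun _ => True)
  inl_fst := by
    rw [RTR_blk_comp _ _ _ (fun i _ hj => absurd trivial hj)]
    exact RTR_blk_self _
  inl_snd := by
    rw [RTR_blk_comp _ _ _ (fun i _ hj => absurd trivial hj)]
    exact RTR_blk_zero _ _ fun i hi h => h.2 hi
  inr_fst := by
    rw [RTR_blk_comp _ _ _ (fun i _ hj => absurd trivial hj)]
    exact RTR_blk_zero _ _ fun i hi h => hi.2 h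
  inr_snd := by
    rw [RTR_blk_comp _ _ _ (fun i _ hj => absurd trivial hj)]
    exact RTR_blk_self _

lemma SNG_iso (X : GF 𝒜) (v : X.ι → Prop) :
    Nonempty (X ≅ resX X v ⊞ resX X (fun i => True ∧ ¬ v i)) := by
  have h : (SNG_bic X v).IsBilimit := isBinaryBilimitOfTotal _ (by
    have h1 := RTR_split (X := X) (fun _ => True) v (fun _ _ => trivial)
    rw [add_comm] at h1
    exact h1)
  exact ⟨(RTI_iso (fun _ => True) (fun _ => trivial)).symm ≪≫ biprod.uniqueUpToIso _ _ h⟩

/-- one generator -/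
def SNG_one (X : GF 𝒜) (i₀ : X.ι) : resX X (fun i => i = i₀) ≅ GF.tw 𝒜 (-(X.deg i₀)) where
  hom := ofm (fun _ _ => 1) (fun i j => by
    have h : (resX X (fun i => i = i₀)).deg j - (GF.tw 𝒜 (-(X.deg i₀))).deg i = 0 := by
      show X.deg j.1 - -(-(X.deg i₀)) = 0
      have hj : j.1 = i₀ := j.2
      rw [hj]
      ring
    rw [h]
    exact SetLike.GradedOne.one_mem)
  inv := ofm (fun _ _ => 1) (fun i j => by
    have h : (GF.tw 𝒜 (-(X.deg i₀))).deg j - (resX X (fun i => i = i₀)).deg i = 0 := by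
      show -(-(X.deg i₀)) - X.deg i.1 = 0
      have hj : i.1 = i₀ := i.2
      rw [hj]
      ring
    rw [h]
    exact SetLike.GradedOne.one_mem)
  hom_inv_id := by
    refine gf_ext (Matrix.ext fun k i => ?_)
    have hki : k = i := Subtype.ext ((k.2 : k.1 = i₀).trans (i.2 : i.1 = i₀).symm)
    subst hki
    show ∑ j : Unit, (1 : A) * 1 = (1 : Matrix (resX X (fun i => i = i₀)).ι _ A) k k
    rw [Matrix.one_apply_eq]
    simp
  inv_hom_id := by
    refine gf_ext (Matrix.ext fun k i => ?_)
    have h : ∑ j : (resX X (fun i => i = i₀)).ι, (1 : A) * 1 = 1 := by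
      refine Eq.trans (Finset.sum_eq_single (⟨i₀, rfl⟩ : (resX X (fun i => i = i₀)).ι) ?_ ?_) ?_
      · intro j _ hj
        exact absurd (Subtype.ext (j.2 : j.1 = i₀)) hj
      · intro h0
        exact absurd (Finset.mem_univ (α := (resX X (fun i => i = i₀)).ι) _) h0
      · exact one_mul _
    refine h.trans ?_
    exact (Matrix.one_apply_eq (n := Unit) (α := A) k).symm

lemma SNG_zero (G : ObjectProperty (KK 𝒜)) [G.IsTriangulated] [G.IsClosedUnderIsomorphisms] :
    ∀ (N : ℕ) (X : GF 𝒜), Nat.card X.ι = N → (∀ i, G (OK 𝒜 (-(X.deg i)))) →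
      G ((HomotopyCategory.singleFunctor (GF 𝒜) 0).obj X) := by
  intro N
  induction N using Nat.strong_induction_on with
  | _ N ih =>
    intro X hX h
    rcases isEmpty_or_nonempty X.ι with he | ⟨⟨i₀⟩⟩
    · have hz : IsZero X := by
        refine ⟨fun Y => ⟨⟨⟨0⟩, fun a => gf_ext (Matrix.ext fun i j => he.elim j)⟩⟩,
          fun Y => ⟨⟨⟨0⟩, fun a => gf_ext (Matrix.ext fun i j => he.elim i)⟩⟩⟩
      exact G.prop_of_isZero (Functor.map_isZero _ hz)
    · obtain ⟨e⟩ := SNG_iso X (fun i => i = i₀)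
      let F := HomotopyCategory.singleFunctor (GF 𝒜) 0
      have hF : F.Additive := inferInstanceAs (HomotopyCategory.singleFunctor (GF 𝒜) 0).Additive
      have hF2 : PreservesBinaryBiproducts F := preservesBinaryBiproducts_of_preservesBiproducts F
      have h1 : G (F.obj (resX X (fun i => i = i₀))) :=
        G.prop_of_iso (F.mapIso (SNG_one X i₀).symm) (h i₀)
      have hlt : Nat.card (resX X (fun i => True ∧ ¬ i = i₀)).ι < N := by
        rw [← hX]
        exact Finite.card_subtype_lt (p := fun i => True ∧ ¬ i = i₀) (x := i₀) (fun h => h.2 rfl)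
      have h2 : G (F.obj (resX X (fun i => True ∧ ¬ i = i₀))) :=
        ih _ hlt _ rfl (fun i => h i.1)
      have h3 : G (F.obj (resX X (fun i => i = i₀)) ⊞ F.obj (resX X (fun i => True ∧ ¬ i = i₀))) :=
        G.ext_of_isTriangulatedClosed₂ _ (binaryBiproductTriangle_distinguished _ _) h1 h2
      exact G.prop_of_iso (F.mapIso e ≪≫ F.mapBiprod _ _).symm h3

theorem p_SNG : T_SNG := by
  intro A _ _ 𝒜 _ G h1 h2 X h n
  have h3 := SNG_zero G _ X rfl h
  have h4 := G.le_shift (-n) _ h3
  exact G.prop_of_iso (((HomotopyCategory.singleFunctors (GF 𝒜)).shiftIso (-n) n 0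
    (by ring)).app X) h4

end Pool.Agent.VDK
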