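import Pool.Agent.VDK.T2

/-!
# VDK: the target SOD
-/

set_option autoImplicit false
set_option linter.unusedVariables false
set_option linter.unusedSectionVars false

open CategoryTheory CategoryTheory.Limits Pretriangulated

noncomputable section

namespace Pool.Agent.VDK

section

variable {D : Type 1} [Category.{1} D] [HasZeroObject D] [HasShift D ℤ] [Preadditive D]
    [∀ n : ℤ, (shiftFunctor D n).Additive] [Pretriangulated D]

theorem SOD_zero (P : ObjectProperty D) [P.ContainsZero] [P.IsClosedUnderIsomorphisms] (Z : D)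
    (hZ : IsZero Z) : P Z := by
  obtain ⟨Z', hZ', hP⟩ := P.exists_prop_of_containsZero
  exact P.prop_of_iso (hZ'.iso hZ) hP

theorem SOD_comm (A B : ObjectProperty D) (h : ∀ (X Y : D) (f : X ⟶ Y), B X → A Y → f = 0)
    (hA : A.IsStableUnderShift ℤ) :
    A.extensionProduct B ≤ B.extensionProduct A := by
  rintro X ⟨Y, Z, f, g, k, hT, hY, hZ⟩
  have hk : k = 0 := h _ _ k hZ (A.le_shift (1 : ℤ) _ hY)
  obtain ⟨e, -, -⟩ := exists_iso_binaryBiproduct_of_distTriang _ hT hk
  refine (B.extensionProduct A).prop_of_iso (e.trans (biprod.braiding Y Z)).symm ?_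
  exact ⟨Z, Y, _, _, _, binaryBiproductTriangle_distinguished Z Y, hZ, hY⟩

theorem SOD_mul [IsTriangulated D] (A B : ObjectProperty D)
    (hA : A.IsTriangulated) (hB : B.IsTriangulated)
    (hA' : A.IsClosedUnderIsomorphisms) (hB' : B.IsClosedUnderIsomorphisms)
    (h : B.extensionProduct A ≤ A.extensionProduct B) :
    (A.extensionProduct B).extensionProduct (A.extensionProduct B) ≤ A.extensionProduct B := by
  calc (A.extensionProduct B).extensionProduct (A.extensionProduct B)
      = A.extensionProduct ((B.extensionProduct A).extensionProduct B) := by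
        rw [ObjectProperty.extensionProduct_assoc, ObjectProperty.extensionProduct_assoc]
    _ ≤ A.extensionProduct ((A.extensionProduct B).extensionProduct B) :=
        ObjectProperty.monotone_extensionProduct_right _
          (ObjectProperty.monotone_extensionProduct_left _ h)
    _ = (A.extensionProduct A).extensionProduct (B.extensionProduct B) := by
        rw [ObjectProperty.extensionProduct_assoc, ObjectProperty.extensionProduct_assoc]
    _ ≤ A.extensionProduct B :=
        (ObjectProperty.monotone_extensionProduct_left _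
          (ObjectProperty.extensionProduct_le_of_isTriangulatedClosed₂ le_rfl le_rfl)).trans
        (ObjectProperty.monotone_extensionProduct_right _
          (ObjectProperty.extensionProduct_le_of_isTriangulatedClosed₂ le_rfl le_rfl))

theorem SOD_tri [IsTriangulated D] (A B : ObjectProperty D)
    (hA : A.IsTriangulated) (hB : B.IsTriangulated)
    (hA' : A.IsClosedUnderIsomorphisms) (hB' : B.IsClosedUnderIsomorphisms)
    (h : B.extensionProduct A ≤ A.extensionProduct B) :
    (A.extensionProduct B).IsTriangulated where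
  exists_zero := by
    obtain ⟨Z, hZ, hP⟩ := B.exists_prop_of_containsZero
    exact ⟨Z, hZ, ObjectProperty.le_extensionProduct_right A Z hP⟩
  toIsTriangulatedClosed₂ := by
    refine ObjectProperty.IsTriangulatedClosed₂.mk' ?_
    intro T hT h₁ h₃
    exact SOD_mul A B hA hB hA' hB' h _ ⟨_, _, _, _, _, hT, h₁, h₃⟩

theorem SOD_left (P : D) (O : ObjectProperty D) (h : O ≤ Orth P) : O.leftOrthogonal P := by
  intro Y f hY
  have h1 := h Y hY 0 (f ≫ (shiftFunctorZero D ℤ).inv.app Y)
  rw [← cancel_mono ((shiftFunctorZero D ℤ).inv.app Y), h1, zero_comp]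

theorem SOD_end (S O : ObjectProperty D) (hS : S.IsTriangulated)
    (hS' : S.IsClosedUnderIsomorphisms) (hO : O.IsStableUnderShift ℤ) (hSO : S ≤ O) (X : D)
    (hX : O X) (hG : (O.leftOrthogonal).extensionProduct S X) : S X := by
  obtain ⟨B, Y, f, g, k, hT, hB, hY⟩ := hG
  have hf : f = 0 := hB f hX
  obtain ⟨w, hw⟩ := Triangle.coyoneda_exact₁ _ hT (𝟙 (B⟦(1 : ℤ)⟧)) (by
    subst hf
    exact (congrArg _ (Functor.map_zero _ _ _)).trans comp_zero)
  have hB1 : O.leftOrthogonal (B⟦(1 : ℤ)⟧) := O.leftOrthogonal.le_shift (1 : ℤ) _ hB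
  have hw0 : w = 0 := hB1 w (hSO _ hY)
  have hz : IsZero (B⟦(1 : ℤ)⟧) := by
    rw [IsZero.iff_id_eq_zero]
    exact hw.trans (by rw [hw0]; exact zero_comp)
  exact ObjectProperty.ext_of_isTriangulatedClosed₁ S _ (rot_of_distTriang _ hT) hY
    (SOD_zero S _ hz)

end

/-- semiorthogonal decompositions -/
theorem p_SOD : T_SOD := by
  intro D _ _ _ _ _ _ _ S _ _ P₀ P₁ hSO hgen X hX
  have hcomm : S.extensionProduct (Orth P₀ ⊓ Orth P₁).leftOrthogonal ≤
      (Orth P₀ ⊓ Orth P₁).leftOrthogonal.extensionProduct S :=
    SOD_comm S _ (fun X Y f hX hY => hX f (hSO _ hY)) inferInstance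
  have htri := SOD_tri (Orth P₀ ⊓ Orth P₁).leftOrthogonal S inferInstance inferInstance
    inferInstance inferInstance hcomm
  refine SOD_end S (Orth P₀ ⊓ Orth P₁) inferInstance inferInstance inferInstance hSO X hX ?_
  refine hgen _ htri inferInstance (ObjectProperty.le_extensionProduct_right _) ?_ ?_ X
  · exact ObjectProperty.le_extensionProduct_left _ _ (SOD_left P₀ _ inf_le_left)
  · exact ObjectProperty.le_extensionProduct_left _ _ (SOD_left P₁ _ inf_le_right)

end Pool.Agent.VDK
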