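import Pool.Agent.VDK.T1

/-!
# VDK-SPI: homogeneous idempotent matrices over `S` split
-/

set_option autoImplicit false
set_option linter.unusedVariables false

open MvPolynomial Pool.Agent.VDC

noncomputable section

namespace Pool.Agent.VDK

namespace SPI_

lemma wd_pos {a : Fin 4 →₀ ℕ} (h : a ≠ 0) : 0 < wd a := by
  have h0 : ∀ i, 0 ≤ wt i * (a i : ℤ) := by
    intro i
    fin_cases i <;> simp [wt]
  obtain ⟨i, hi⟩ : ∃ i, a i ≠ 0 := by
    by_contra hc
    push Not at hc
    exact h (Finsupp.ext hc)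
  unfold wd
  refine Finset.sum_pos' (fun i _ => h0 i) ⟨i, Finset.mem_univ _, ?_⟩
  have : 0 < (a i : ℤ) := by exact_mod_cast Nat.pos_of_ne_zero hi
  fin_cases i <;> simp [wt] at * <;> omega

lemma wd_zero : wd 0 = 0 := by simp [wd]

/-- a homogeneous polynomial of degree `m` without constant coefficient is zero unless `0 < m` -/
lemma pos_of {p : Sr} {m : ℤ} (hp : Hmg p m) (h0 : coeff 0 p = 0) (hne : p ≠ 0) : 0 < m := by
  obtain ⟨a, ha⟩ := MvPolynomial.ne_zero_iff.mp hne
  have h1 : a ≠ 0 := by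
    rintro rfl
    exact ha h0
  rw [← hp a ha]
  exact wd_pos h1

lemma const_of {p : Sr} {m : ℤ} (hp : Hmg p m) (h0 : coeff 0 p ≠ 0) :
    m = 0 ∧ p = C (coeff 0 p) := by
  have hm : m = 0 := by rw [← hp 0 h0, wd_zero]
  refine ⟨hm, ?_⟩
  subst hm
  ext a
  rw [coeff_C]
  by_cases h : (0 : Fin 4 →₀ ℕ) = a
  · rw [if_pos h, h]
  · rw [if_neg h]
    by_contra hc
    have h1 := hp a hc
    have h2 := wd_pos (a := a) (fun h' => h h'.symm)
    omega

lemma zero_of (K : PO) (e : Matrix K.ι K.ι Sr) (he : e ∈ HM K K 0) (hid : e * e = e)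
    (h0 : ∀ i j, coeff 0 (e i j) = 0) : e = 0 := by
  have key : ∀ (k : ℕ) (i j : K.ι), e i j ≠ 0 → (k : ℤ) < K.deg j - K.deg i := by
    intro k
    induction k with
    | zero =>
      intro i j hij
      have := pos_of (he i j) (h0 i j) hij
      push_cast
      omega
    | succ k ih =>
      intro i j hij
      have h1 : ∑ l, e i l * e l j ≠ 0 := by
        rw [← Matrix.mul_apply, hid]; exact hij
      obtain ⟨l, _, hl⟩ := Finset.exists_ne_zero_of_sum_ne_zero h1
      have h2 := ih i l (left_ne_zero_of_mul hl)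
      have h3 := pos_of (he l j) (h0 l j) (right_ne_zero_of_mul hl)
      push_cast
      omega
  ext1 i j
  by_contra hc
  have := key (K.deg j - K.deg i).toNat i j hc
  have := Int.self_le_toNat (K.deg j - K.deg i)
  omega

/-- the matrix of constant coefficients -/
abbrev cc {ι κ : Type} (e : Matrix ι κ Sr) : Matrix ι κ ℂ := e.map constantCoeff

lemma cc_mul {ι κ μ : Type} [Fintype κ] (a : Matrix ι κ Sr) (b : Matrix κ μ Sr) :
    cc (a * b) = cc a * cc b := Matrix.map_mul

/-- the rank of the constant coefficients -/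
def rk (K : PO) (e : Matrix K.ι K.ι Sr) : ℕ :=
  Module.finrank ℂ (LinearMap.range (cc e).mulVecLin)

lemma rk_lt (K : PO) (e e' : Matrix K.ι K.ι Sr) (c : Matrix K.ι Unit Sr) (h1 : e * e' = e')
    (h2 : e * c = c) (h3 : e' * e' = e') (h4 : e' * c = 0) (h5 : cc c ≠ 0) :
    rk K e' < rk K e := by
  unfold rk
  refine Submodule.finrank_lt_finrank_of_lt (lt_of_le_of_ne ?_ ?_)
  · rintro v ⟨w, rfl⟩
    refine ⟨(cc e').mulVecLin w, ?_⟩
    rw [Matrix.mulVecLin_apply, Matrix.mulVecLin_apply, Matrix.mulVec_mulVec, ← cc_mul, h1]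
  · intro hc
    apply h5
    have hv : (fun k => cc c k ()) ∈ LinearMap.range (cc e).mulVecLin := by
      refine ⟨fun k => cc c k (), ?_⟩
      rw [Matrix.mulVecLin_apply]
      funext k
      have := congrFun (congrFun (congrArg cc h2) k) ()
      rw [cc_mul, Matrix.mul_apply] at this
      exact this
    rw [← hc] at hv
    obtain ⟨w, hw⟩ := hv
    rw [Matrix.mulVecLin_apply] at hw
    have h6 : (cc e').mulVec (fun k => cc c k ()) = fun k => cc c k () := by
      rw [← hw, Matrix.mulVec_mulVec, ← cc_mul, h3]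
    have h7 : (cc e').mulVec (fun k => cc c k ()) = 0 := by
      funext k
      have := congrFun (congrFun (congrArg cc h4) k) ()
      rw [cc_mul, Matrix.mul_apply] at this
      refine Eq.trans this ?_
      simp [cc]
    ext k u
    have := congrFun (h6.symm.trans h7) k
    exact this

lemma main (K : PO) : ∀ (n : ℕ) (e : Matrix K.ι K.ι Sr), rk K e = n → e ∈ HM K K 0 →
    e * e = e →
    ∃ (F : PO) (i : Matrix K.ι F.ι Sr) (b : Matrix F.ι K.ι Sr), i ∈ HM F K 0 ∧ b ∈ HM K F 0 ∧
      i * b = e ∧ b * i = 1 := by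
  intro n
  induction n using Nat.strong_induction_on with
  | _ n ih =>
  intro e hn he hid
  by_cases h0 : ∀ i j, coeff 0 (e i j) = 0
  · have h1 := zero_of K e he hid h0
    refine ⟨⟨Empty, fun _ => 0, 0, fun i => Empty.elim i⟩, 0, 0, fun i j => Empty.elim j,
      fun i => Empty.elim i, ?_, ?_⟩
    · rw [h1, Matrix.zero_mul]
    · ext1 i
      exact Empty.elim i
  · push Not at h0
    obtain ⟨i₀, j₀, hc⟩ := h0
    obtain ⟨hd, hC⟩ := const_of (he i₀ j₀) hc
    set c : ℂ := coeff 0 (e i₀ j₀) with hcdef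
    let Cm : Matrix K.ι Unit Sr := Matrix.of fun k _ => e k j₀
    let rm : Matrix Unit K.ι Sr := Matrix.of fun _ l => C c⁻¹ * e i₀ l
    have hCm : ∀ k u, Cm k u = e k j₀ := fun _ _ => rfl
    have hrm : ∀ u l, rm u l = C c⁻¹ * e i₀ l := fun _ _ => rfl
    have hrC : rm * Cm = 1 := by
      ext1 u u'
      rw [Matrix.mul_apply]
      simp only [hCm, hrm, mul_assoc]
      rw [← Finset.mul_sum, ← Matrix.mul_apply, hid, hC, ← C_mul, inv_mul_cancel₀ hc, C_1]
      exact (Matrix.one_apply_eq _).symm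
    have heC : e * Cm = Cm := by
      ext1 k u
      rw [Matrix.mul_apply]
      simp only [hCm]
      rw [← Matrix.mul_apply, hid]
    have hre : rm * e = rm := by
      ext1 u l
      rw [Matrix.mul_apply]
      simp only [hrm, mul_assoc]
      rw [← Finset.mul_sum, ← Matrix.mul_apply, hid]
    set e' : Matrix K.ι K.ι Sr := e - Cm * rm with he'
    have he'C : e' * Cm = 0 := by
      rw [he', Matrix.sub_mul, heC, Matrix.mul_assoc, hrC, Matrix.mul_one, sub_self]
    have hre' : rm * e' = 0 := by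
      rw [he', Matrix.mul_sub, hre, ← Matrix.mul_assoc, hrC, Matrix.one_mul, sub_self]
    have hee' : e * e' = e' := by
      rw [he', Matrix.mul_sub, hid, ← Matrix.mul_assoc, heC]
    have hid' : e' * e' = e' := by
      conv_lhs => rw [he', Matrix.sub_mul, Matrix.mul_assoc, hre', Matrix.mul_zero, sub_zero]
      rw [← he', hee']
    have hh' : e' ∈ HM K K 0 := by
      intro k l
      rw [he', Matrix.sub_apply, Matrix.mul_apply]
      refine (he k l).sub (Hmg.sum fun u _ => ?_)
      rw [hCm, hrm]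
      have h1 := (he k j₀).mul ((he i₀ l).csmul c⁻¹)
      rw [MvPolynomial.smul_eq_C_mul] at h1
      exact h1.congr (by omega)
    have hlt : rk K e' < n := by
      rw [← hn]
      refine rk_lt K e e' Cm hee' heC hid' he'C ?_
      intro h
      apply hc
      have := congrFun (congrFun h i₀) ()
      simpa [cc, hCm, constantCoeff_eq] using this
    obtain ⟨F, i', b', hi', hb', hib, hbi⟩ := ih _ hlt e' rfl hh' hid'
    have hbC : b' * Cm = 0 := by
      calc b' * Cm = (b' * i') * (b' * Cm) := by rw [hbi, Matrix.one_mul]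
        _ = b' * ((i' * b') * Cm) := by simp only [Matrix.mul_assoc]
        _ = 0 := by rw [hib, he'C, Matrix.mul_zero]
    have hri : rm * i' = 0 := by
      calc rm * i' = (rm * i') * (b' * i') := by rw [hbi, Matrix.mul_one]
        _ = (rm * (i' * b')) * i' := by simp only [Matrix.mul_assoc]
        _ = 0 := by rw [hib, hre', Matrix.zero_mul]
    refine ⟨⟨F.ι ⊕ Unit, Sum.elim F.deg (fun _ => K.deg j₀), 0, fun _ _ => Hmg.zero _⟩,
      Matrix.fromCols i' Cm, Matrix.fromRows b' rm, ?_, ?_, ?_, ?_⟩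
    · rintro k (l | l)
      · exact hi' k l
      · exact he k j₀
    · rintro (k | k) l
      · exact hb' k l
      · show Hmg (C c⁻¹ * e i₀ l) (K.deg l + 0 - K.deg j₀)
        have h1 := (he i₀ l).csmul c⁻¹
        rw [MvPolynomial.smul_eq_C_mul] at h1
        exact h1.congr (by omega)
    · rw [Matrix.fromCols_mul_fromRows, hib, he', sub_add_cancel]
    · show Matrix.fromRows b' rm * Matrix.fromCols i' Cm = 1
      rw [Matrix.fromRows_mul_fromCols, hbi, hbC, hri, hrC, Matrix.fromBlocks_one]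

end SPI_

theorem p_SPI : T_SPI := fun K e he hid => SPI_.main K _ e rfl he hid

end Pool.Agent.VDK
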