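import Pool.Agent.VDK.T1

set_option autoImplicit false

open CategoryTheory CategoryTheory.Limits Pretriangulated MvPolynomial Pool.Agent.VDC

noncomputable section

namespace Pool.Agent.VDK

namespace STG_

universe w w'

variable {f : Sr} {D : Type 1} [Category.{w} D] [HasZeroObject D] [HasShift D ℤ] [Preadditive D]
    [∀ n : ℤ, (shiftFunctor D n).Additive] [Pretriangulated D]
    {D' : Type 1} [Category.{w'} D'] [HasZeroObject D'] [HasShift D' ℤ] [Preadditive D']
    [∀ n : ℤ, (shiftFunctor D' n).Additive] [Pretriangulated D'] {Θ : CM f ⥤ D} (F : D ⥤ D')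
    [F.CommShift ℤ]

/-- the commutation isomorphism of the composition -/
def ci (c : sh f ⋙ Θ ≅ Θ ⋙ shiftFunctor D (1 : ℤ)) :
    sh f ⋙ (Θ ⋙ F) ≅ (Θ ⋙ F) ⋙ shiftFunctor D' (1 : ℤ) :=
  NatIso.ofComponents
    (fun X => F.mapIso (c.app X) ≪≫ (F.commShiftIso (1 : ℤ)).app (Θ.obj X))
    (fun {X Y} g => by
      have h1 := c.hom.naturality g
      have h2 := (F.commShiftIso (1 : ℤ)).hom.naturality (Θ.map g)
      simp only [Functor.comp_obj, Functor.comp_map, Iso.trans_hom, Functor.mapIso_hom,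
        Iso.app_hom, Category.assoc] at h1 h2 ⊢
      rw [← F.map_comp_assoc, h1, F.map_comp_assoc, h2])

set_option linter.unusedSectionVars false in
theorem mapT {X Y Z W : D} (a : X ⟶ Y) (b : Y ⟶ Z) (c : Z ⟶ W)
    (d : W ⟶ (shiftFunctor D (1 : ℤ)).obj X) :
    F.mapTriangle.obj (Triangle.mk a b (c ≫ d)) = Triangle.mk (F.map a) (F.map b)
      (F.map c ≫ F.map d ≫ (F.commShiftIso (1 : ℤ)).hom.app X) := by
  rw [← Category.assoc, ← F.map_comp]
  rfl

end STG_

/-- STG.  Composition with triangulated functors. -/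
theorem p_STG.{w, w'} : T_STG.{w, w'} := by
  intro f D _ _ _ _ _ _ D' _ _ _ _ _ _ Θ F _ _ h
  obtain ⟨c, hc⟩ := h
  refine ⟨STG_.ci F c, fun X Y g => ?_⟩
  have h1 := F.map_distinguished _ (hc X Y g)
  have h2 := STG_.mapT F (Θ.map (cls g)) (Θ.map (cls (inclM g))) (Θ.map (cls (projM g)))
    (c.hom.app X)
  exact h2 ▸ h1

end Pool.Agent.VDK
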