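import Pool.Agent.VDK.T1

/-!
# VDK-STL: lifts to full triangulated subcategories (helper12, for helper39)
-/

set_option autoImplicit false
set_option linter.unusedVariables false

open CategoryTheory CategoryTheory.Limits Pretriangulated MvPolynomial Pool.Agent.VDC

noncomputable section

namespace Pool.Agent.VDK

namespace STL_

universe w

variable {f : Sr} {D : Type 1} [Category.{w} D] [HasZeroObject D] [HasShift D ℤ] [Preadditive D]
  [∀ n : ℤ, (shiftFunctor D n).Additive] [Pretriangulated D] (P : ObjectProperty D)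
  [P.IsTriangulated] (Θ : CM f ⥤ D) (h : ∀ X, P (Θ.obj X))

/-- the comparison isomorphism after the inclusion of the subcategory -/
def cι (c : sh f ⋙ Θ ≅ Θ ⋙ shiftFunctor D (1 : ℤ)) :
    (sh f ⋙ P.lift Θ h) ⋙ P.ι ≅ (P.lift Θ h ⋙ shiftFunctor P.FullSubcategory (1 : ℤ)) ⋙ P.ι :=
  NatIso.ofComponents
    (fun X => c.app X ≪≫ ((P.ι.commShiftIso (1 : ℤ)).app ((P.lift Θ h).obj X)).symm)
    (by
      intro X Y g
      have h1 : Θ.map ((sh f).map g) ≫ c.hom.app Y = c.hom.app X ≫ (Θ.map g)⟦(1 : ℤ)⟧' :=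
        c.hom.naturality g
      have h2 : (Θ.map g)⟦(1 : ℤ)⟧' ≫ (P.ι.commShiftIso (1 : ℤ)).inv.app ((P.lift Θ h).obj Y) =
          (P.ι.commShiftIso (1 : ℤ)).inv.app ((P.lift Θ h).obj X) ≫
            P.ι.map (((P.lift Θ h).map g)⟦(1 : ℤ)⟧') :=
        (P.ι.commShiftIso (1 : ℤ)).inv.naturality ((P.lift Θ h).map g)
      show Θ.map ((sh f).map g) ≫ c.hom.app Y ≫
          (P.ι.commShiftIso (1 : ℤ)).inv.app ((P.lift Θ h).obj Y) =
        (c.hom.app X ≫ (P.ι.commShiftIso (1 : ℤ)).inv.app ((P.lift Θ h).obj X)) ≫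
          P.ι.map (((P.lift Θ h).map g)⟦(1 : ℤ)⟧')
      rw [← Category.assoc, h1, Category.assoc, h2, Category.assoc])

/-- the comparison isomorphism of the lift -/
def cl (c : sh f ⋙ Θ ≅ Θ ⋙ shiftFunctor D (1 : ℤ)) :
    sh f ⋙ P.lift Θ h ≅ P.lift Θ h ⋙ shiftFunctor P.FullSubcategory (1 : ℤ) :=
  (P.fullyFaithfulι.whiskeringRight (CM f)).preimageIso (cι P Θ h c)

lemma ι_map_cl (c : sh f ⋙ Θ ≅ Θ ⋙ shiftFunctor D (1 : ℤ)) (X : CM f) :
    P.ι.map ((cl P Θ h c).hom.app X) =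
      c.hom.app X ≫ (P.ι.commShiftIso (1 : ℤ)).inv.app ((P.lift Θ h).obj X) := by
  have h1 : P.ι.map ((cl P Θ h c).hom.app X) = (cι P Θ h c).hom.app X := by
    have h2 := congrArg (fun t => t.app X)
      ((P.fullyFaithfulι.whiskeringRight (CM f)).map_preimage (cι P Θ h c).hom)
    exact h2
  rw [h1]
  rfl

lemma cl_comm (c : sh f ⋙ Θ ≅ Θ ⋙ shiftFunctor D (1 : ℤ)) (X : CM f) :
    P.ι.map ((cl P Θ h c).hom.app X) ≫
      (P.ι.commShiftIso (1 : ℤ)).hom.app ((P.lift Θ h).obj X) = c.hom.app X := by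
  rw [ι_map_cl, Category.assoc, Iso.inv_hom_id_app]
  exact Category.comp_id _

lemma comp3 (c : sh f ⋙ Θ ≅ Θ ⋙ shiftFunctor D (1 : ℤ)) (X : CM f) {Z : P.FullSubcategory}
    (u : Z ⟶ (sh f ⋙ P.lift Θ h).obj X) :
    P.ι.map (u ≫ (cl P Θ h c).hom.app X) ≫
      (P.ι.commShiftIso (1 : ℤ)).hom.app ((P.lift Θ h).obj X) = P.ι.map u ≫ c.hom.app X := by
  calc P.ι.map (u ≫ (cl P Θ h c).hom.app X) ≫
        (P.ι.commShiftIso (1 : ℤ)).hom.app ((P.lift Θ h).obj X)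
      = (P.ι.map u ≫ P.ι.map ((cl P Θ h c).hom.app X)) ≫
        (P.ι.commShiftIso (1 : ℤ)).hom.app ((P.lift Θ h).obj X) := by rw [Functor.map_comp]
    _ = P.ι.map u ≫ P.ι.map ((cl P Θ h c).hom.app X) ≫
        (P.ι.commShiftIso (1 : ℤ)).hom.app ((P.lift Θ h).obj X) := Category.assoc _ _ _
    _ = P.ι.map u ≫ c.hom.app X := congrArg (fun t => P.ι.map u ≫ t) (cl_comm P Θ h c X)

end STL_

open STL_ in
theorem p_STL.{w} : T_STL.{w} := by
  intro f D _ _ _ _ _ _ P _ Θ h hΘ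
  obtain ⟨c, hc⟩ := hΘ
  refine ⟨cl P Θ h c, fun X Y g => ?_⟩
  refine isomorphic_distinguished _ (hc X Y g) _
    (Triangle.isoMk _ _ (Iso.refl _) (Iso.refl _) (Iso.refl _) ?_ ?_ ?_)
  · exact (Category.comp_id _).trans (Category.id_comp _).symm
  · exact (Category.comp_id _).trans (Category.id_comp _).symm
  · have h3 := comp3 P Θ h c X ((P.lift Θ h).map (cls (projM g)))
    have h4 : (shiftFunctor D (1 : ℤ)).map (𝟙 (Θ.obj X)) = 𝟙 ((shiftFunctor D (1 : ℤ)).obj (Θ.obj X)) :=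
      CategoryTheory.Functor.map_id _ _
    refine Eq.trans (congrArg (fun t => _ ≫ t) h4) ?_
    refine (Category.comp_id _).trans ?_
    refine h3.trans ?_
    exact (Category.id_comp _).symm

end Pool.Agent.VDK
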