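import Pool.Agent.VDK.T1

/-!
# VDK: the tail of a complex with cokernel `F` is the tail of the periodic complex (T_TAI)
-/

set_option autoImplicit false
set_option linter.unusedVariables false

open CategoryTheory CategoryTheory.Limits Pretriangulated MvPolynomial Pool.Agent.VDC

noncomputable section

namespace Pool.Agent.VDK

namespace TAI_

section gen

variable {A : Type} [CommRing A] [Algebra ℂ A] {𝒜 : ℤ → Submodule ℂ A} [SetLike.GradedMonoid 𝒜]

lemma resM_eq {X Y : GF 𝒜} (u : X.ι → Prop) (v : Y.ι → Prop) (g : X ⟶ Y) :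
    resM u v g = resI X u ≫ g ≫ resP Y v := by
  refine gf_ext (Matrix.ext fun k i => ?_)
  show mat g k.1 i.1 =
    (((1 : Matrix Y.ι Y.ι A) * mat g) * (1 : Matrix X.ι X.ι A)) k.1 i.1
  rw [Matrix.one_mul, Matrix.mul_one]

lemma resI_resP (X : GF 𝒜) (u : X.ι → Prop) : resI X u ≫ resP X u = 𝟙 (resX X u) := by
  refine gf_ext (Matrix.ext fun k i => ?_)
  show (1 * 1 : Matrix X.ι X.ι A) k.1 i.1 = (1 : Matrix _ _ A) k i
  rw [Matrix.one_mul, Matrix.one_apply, Matrix.one_apply]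
  exact if_congr Subtype.ext_iff.symm rfl rfl

lemma resP_resI (X : GF 𝒜) (u : X.ι → Prop) (h : ∀ i, u i) : resP X u ≫ resI X u = 𝟙 X := by
  refine gf_ext (Matrix.ext fun k i => ?_)
  have key : ∀ (_ : Fintype {i // u i}), (∑ l : {i // u i}, (1 : Matrix X.ι X.ι A) k l.1 *
      (1 : Matrix X.ι X.ι A) l.1 i) = (1 : Matrix X.ι X.ι A) k i := by
    intro _
    rw [Finset.sum_eq_single (⟨k, h k⟩ : {i // u i})]
    · rw [Matrix.one_apply_eq, one_mul]
    · intro b _ hb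
      rw [Matrix.one_apply_ne fun h1 => hb (Subtype.ext h1.symm), zero_mul]
    · intro h1
      exact absurd (Finset.mem_univ _) h1
  exact key (resX X u).fin

lemma eq_zero_of {Y X : GF 𝒜} (h : IsEmpty X.ι) (a : Y ⟶ X) : a = 0 :=
  gf_ext (Matrix.ext fun i j => isEmptyElim i)

lemma isZero_of {X : GF 𝒜} (h : IsEmpty X.ι) : IsZero X :=
  ⟨fun Y => ⟨⟨⟨0⟩, fun a => gf_ext (Matrix.ext fun i j => isEmptyElim j)⟩⟩,
    fun Y => ⟨⟨⟨0⟩, fun a => gf_ext (Matrix.ext fun i j => isEmptyElim i)⟩⟩⟩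

/-- the truncated complex -/
abbrev trn (C : CochainComplex (GF 𝒜) ℤ) (M : ℤ) : CochainComplex (GF 𝒜) ℤ :=
  resC C (Ule M C) (Ule_qc C M).lc

lemma trn_empty (C : CochainComplex (GF 𝒜) ℤ) (M n : ℤ) (h : M < n) :
    IsEmpty ((trn C M).X n).ι := ⟨fun i => by
  have h1 : n ≤ M := i.2
  lia⟩

lemma trn_le (C : CochainComplex (GF 𝒜) ℤ) (M : ℤ) : (trn C M).IsStrictlyLE M := by
  rw [CochainComplex.isStrictlyLE_iff]
  intro i hi
  exact isZero_of (trn_empty C M i hi)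

/-- inclusion of the term in position `n` -/
abbrev jI (C : CochainComplex (GF 𝒜) ℤ) (M n : ℤ) : (trn C M).X n ⟶ C.X n :=
  resI (C.X n) (Ule M C n)

/-- projection to the term in position `n` -/
abbrev jP (C : CochainComplex (GF 𝒜) ℤ) (M n : ℤ) : C.X n ⟶ (trn C M).X n :=
  resP (C.X n) (Ule M C n)

lemma jI_jP (C : CochainComplex (GF 𝒜) ℤ) (M n : ℤ) : jI C M n ≫ jP C M n = 𝟙 _ :=
  resI_resP _ _

lemma jP_jI (C : CochainComplex (GF 𝒜) ℤ) (M n : ℤ) (h : n ≤ M) : jP C M n ≫ jI C M n = 𝟙 _ :=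
  resP_resI _ _ fun _ => h

lemma trn_d (C : CochainComplex (GF 𝒜) ℤ) (M n : ℤ) :
    (trn C M).d n (n + 1) = jI C M n ≫ C.d n (n + 1) ≫ jP C M (n + 1) :=
  (resC_d C (Ule M C) (Ule_qc C M).lc n).trans (resM_eq _ _ _)

lemma acy_succ {C : CochainComplex (GF 𝒜) ℤ} {k d : ℤ} (h : Acy C (k + 1) d)
    (x : GF.tw 𝒜 (-d) ⟶ C.X (k + 1)) (hx : x ≫ C.d (k + 1) (k + 1 + 1) = 0) :
    ∃ y : GF.tw 𝒜 (-d) ⟶ C.X k, y ≫ C.d k (k + 1) = x := by
  obtain ⟨y, hy⟩ := h x hx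
  have key : ∀ l, l = k → ∀ y : GF.tw 𝒜 (-d) ⟶ C.X l, y ≫ C.d l (k + 1) = x →
      ∃ y : GF.tw 𝒜 (-d) ⟶ C.X k, y ≫ C.d k (k + 1) = x := by
    rintro l rfl y hy
    exact ⟨y, hy⟩
  exact key _ (by ring) y hy

/-- the truncated complex is acyclic in positions below `M` -/
lemma trn_acy {C : CochainComplex (GF 𝒜) ℤ} {M k d : ℤ} (hk : k + 1 < M)
    (h : Acy C (k + 1) d) (x : GF.tw 𝒜 (-d) ⟶ (trn C M).X (k + 1))
    (hx : x ≫ (trn C M).d (k + 1) (k + 1 + 1) = 0) :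
    ∃ y : GF.tw 𝒜 (-d) ⟶ (trn C M).X k, y ≫ (trn C M).d k (k + 1) = x := by
  have h1 : (x ≫ jI C M (k + 1)) ≫ C.d (k + 1) (k + 1 + 1) = 0 := by
    rw [trn_d] at hx
    have h2 := congrArg (fun t => t ≫ jI C M (k + 1 + 1)) hx
    simp only [Category.assoc, zero_comp] at h2
    rw [jP_jI C M (k + 1 + 1) (by lia), Category.comp_id] at h2
    rw [Category.assoc]
    exact h2
  obtain ⟨y, hy⟩ := acy_succ h _ h1
  refine ⟨y ≫ jP C M k, ?_⟩
  rw [trn_d, Category.assoc, ← Category.assoc (jP C M k), jP_jI C M k (by lia),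
    Category.id_comp, ← Category.assoc, hy, Category.assoc, jI_jP, Category.comp_id]

end gen

/-! ### matrices -/

lemma col {f : Sr} {κ : Type} (F : CM f) (k : ℤ) (M : Matrix F.ι κ (RR f))
    (h : dmat F (k + 1) * M = 0) :
    dmat F k * rm f (sg k • imM M) 0 = M := by
  have h1 : rm f F.Φ (sg (k + 1) • (1 : Matrix F.ι F.ι Sr)) * rm f (reM M) (imM M) =
      rm f 0 0 := by
    rw [rm_zero]
    exact h
  rw [rm_mul, rm_inj, sg_succ] at h1
  have h2 : F.Φ * imM M = sg k • reM M := by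
    have h3 := h1.2
    rw [neg_smul, Matrix.neg_mul, Matrix.smul_mul, Matrix.one_mul, add_neg_eq_zero] at h3
    exact h3
  unfold dmat
  rw [rm_mul, Matrix.mul_zero, Matrix.mul_zero, smul_zero, sub_zero, zero_add, Matrix.smul_mul,
    Matrix.one_mul, Matrix.mul_smul, h2, sg_sq, sg_sq]
  exact rm_eta M

/-- the recursively defined matrices -/
def ph {f : Sr} [H6 f] {C : CochainComplex (GF (gZ f)) ℤ} {ι : Type} (M : ℤ)
    (p : Matrix ι (C.X M).ι Sr) (n : ℤ) : Matrix ι (C.X n).ι Sr :=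
  if h : n < M then sg n • (ph M p (n + 1) * imM (mat (C.d n (n + 1))))
  else if h' : n = M then h' ▸ p else 0
termination_by (M - n).toNat
decreasing_by lia

section

variable {f : Sr} [H6 f] {C : CochainComplex (GF (gZ f)) ℤ} {ι : Type} (M : ℤ)
  (p : Matrix ι (C.X M).ι Sr)

lemma ph_lt (n : ℤ) (h : n < M) :
    ph M p n = sg n • (ph M p (n + 1) * imM (mat (C.d n (n + 1)))) := by
  rw [ph, dif_pos h]

lemma ph_eq : ph M p M = p := by
  rw [ph, dif_neg (lt_irrefl M), dif_pos rfl]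

lemma ph_gt (n : ℤ) (h : M < n) : ph M p n = 0 := by
  rw [ph, dif_neg (by lia), dif_neg (by lia)]

lemma imM_hmg {X Y : GF (gZ f)} (a : X ⟶ Y) (i : Y.ι) (j : X.ι) :
    Hmg (imM (mat a) i j) (X.deg j - Y.deg i - 3) := (mat_mem a i j).2

lemma reM_hmg {X Y : GF (gZ f)} (a : X ⟶ Y) (i : Y.ι) (j : X.ι) :
    Hmg (reM (mat a) i j) (X.deg j - Y.deg i) := (mat_mem a i j).1

lemma ph_hmg (δ : ι → ℤ) (hp : ∀ i j, Hmg (p i j) ((C.X M).deg j - δ i)) (k : ℕ) :
    ∀ n : ℤ, n + k = M → ∀ i j, Hmg (ph M p n i j) ((C.X n).deg j - (δ i + 3 * M - 3 * n)) := by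
  induction k with
  | zero =>
    intro n hn
    obtain rfl : n = M := by
      rw [← hn]
      simp
    intro i j
    rw [ph_eq]
    exact (hp i j).congr (by ring)
  | succ k ih =>
    intro n hn i j
    rw [ph_lt M p n (by push_cast at hn; lia)]
    refine Hmg.zsmul _ ?_
    rw [Matrix.mul_apply]
    refine Hmg.sum fun l _ => ?_
    have h1 := ih (n + 1) (by push_cast at hn; lia) i l
    exact (h1.mul (imM_hmg (C.d n (n + 1)) l j)).congr (by ring)

lemma ph_hmg' (δ : ι → ℤ) (hp : ∀ i j, Hmg (p i j) ((C.X M).deg j - δ i)) (n : ℤ) (i : ι)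
    (j : (C.X n).ι) : Hmg (ph M p n i j) ((C.X n).deg j - (δ i + 3 * M - 3 * n)) := by
  by_cases h : n ≤ M
  · exact ph_hmg M p δ hp (M - n).toNat n (by lia) i j
  · rw [ph_gt M p n (by lia)]
    exact Hmg.zero _

end

/-- the chain map condition below the top position -/
lemma ch_dmat {f : Sr} [H6 f] {C : CochainComplex (GF (gZ f)) ℤ} (F : CM f) (M : ℤ)
    (p : Matrix F.ι (C.X M).ι Sr)
    (h0 : ∀ n, n + 1 = M →
      dmat F n * rm f (ph M p n) 0 = rm f (ph M p (n + 1)) 0 * mat (C.d n (n + 1))) (k : ℕ) :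
    ∀ n : ℤ, n + 1 + k = M →
      dmat F n * rm f (ph M p n) 0 = rm f (ph M p (n + 1)) 0 * mat (C.d n (n + 1)) := by
  induction k with
  | zero =>
    intro n hn
    exact h0 n (by rw [← hn]; simp)
  | succ k ih =>
    intro n hn
    have h1 := ih (n + 1) (by push_cast at hn; lia)
    have h2 : dmat F (n + 1) * (rm f (ph M p (n + 1)) 0 * mat (C.d n (n + 1))) = 0 := by
      rw [← Matrix.mul_assoc, h1, Matrix.mul_assoc, ← mat_comp, C.d_comp_d, mat_zero,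
        Matrix.mul_zero]
    have h3 := col F n _ h2
    have h4 : sg n • imM (rm f (ph M p (n + 1)) 0 * mat (C.d n (n + 1))) = ph M p n := by
      rw [ph_lt M p n (by push_cast at hn; lia), ← rm_eta (mat (C.d n (n + 1))), rm_mul,
        imM_rm, Matrix.zero_mul, add_zero, imM_rm]
    rw [h4] at h3
    exact h3

section mat

set_option linter.unusedSectionVars false

variable {ι ι' κ μ : Type} [Fintype ι] [DecidableEq ι] [Fintype ι'] [DecidableEq ι'] [Fintype κ]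
  [DecidableEq κ]

lemma cols_aux (f : Sr) (Φ : Matrix κ κ Sr) (π : Matrix κ (ι ⊕ ι) Sr)
    (h : Φ * π = π * (Matrix.fromBlocks 0 (-(f • (1 : Matrix ι ι Sr))) 1 0 :
      Matrix (ι ⊕ ι) (ι ⊕ ι) Sr)) :
    π = Matrix.fromCols π.toCols₁ (Φ * π.toCols₁) := by
  obtain ⟨a, b, rfl⟩ : ∃ a b, π = Matrix.fromCols a b :=
    ⟨_, _, (Matrix.fromCols_toCols π).symm⟩
  rw [Matrix.mul_fromCols, Matrix.fromCols_mul_fromBlocks, Matrix.fromCols_ext_iff] at h
  have h2 := h.1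
  simp only [Matrix.mul_zero, Matrix.mul_one, zero_add] at h2
  rw [Matrix.toCols₁_fromCols, h2]

lemma zero_aux {f : Sr} (Φ : Matrix κ κ Sr) (p : Matrix κ ι Sr) (M : Matrix ι ι' (RR f))
    (h : Matrix.fromCols p (Φ * p) * um M = 0) :
    p * reM M = -(Φ * (p * imM M)) := by
  unfold um at h
  rw [Matrix.fromCols_mul_fromBlocks, ← Matrix.fromCols_zero, Matrix.fromCols_ext_iff] at h
  have h2 := h.1
  rw [Matrix.mul_assoc] at h2
  exact eq_neg_of_add_eq_zero_left h2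

lemma um_col {f : Sr} (M : Matrix ι ι' (RR f)) (a b : Matrix ι μ Sr) (y : Matrix (ι' ⊕ ι') μ Sr)
    (h : um M * y = Matrix.fromRows a b) :
    M * rm f y.toRows₁ y.toRows₂ = rm f a b := by
  obtain ⟨u, v, rfl⟩ : ∃ u v, y = Matrix.fromRows u v :=
    ⟨_, _, (Matrix.fromRows_toRows y).symm⟩
  unfold um at h
  rw [Matrix.fromBlocks_mul_fromRows, Matrix.fromRows_ext_iff] at h
  obtain ⟨h1, h2⟩ := h
  rw [Matrix.toRows₁_fromRows, Matrix.toRows₂_fromRows]
  conv_lhs => rw [← rm_eta M]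
  rw [rm_mul, rm_inj]
  constructor
  · rw [← h1, Matrix.neg_mul, Matrix.smul_mul, sub_eq_add_neg]
  · rw [← h2, add_comm]

lemma top_inj {f : Sr} (Φ Φ' : Matrix κ κ Sr) (hΦ : Φ * Φ = -(f • (1 : Matrix κ κ Sr))) (s : ℤ)
    (hs : s * s = 1) (hΦ' : Φ' = -(s • Φ)) (p : Matrix κ ι Sr) (X : Matrix ι μ (RR f))
    (Y : Matrix κ μ (RR f))
    (h : rm f Φ' (s • (1 : Matrix κ κ Sr)) * Y = rm f p 0 * X) :
    Matrix.fromCols p (Φ * p) * Matrix.fromRows (reM X) (imM X) = 0 := by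
  rw [← rm_eta X, ← rm_eta Y, rm_mul, rm_mul, rm_inj, Matrix.zero_mul, Matrix.zero_mul,
    smul_zero, sub_zero, add_zero, Matrix.smul_mul, Matrix.one_mul, Matrix.smul_mul,
    Matrix.one_mul] at h
  obtain ⟨h1, h2⟩ := h
  rw [Matrix.fromCols_mul_fromRows, ← h1, Matrix.mul_assoc, ← h2, hΦ', Matrix.mul_add,
    Matrix.neg_mul, Matrix.neg_mul, Matrix.mul_neg, Matrix.smul_mul, Matrix.smul_mul,
    Matrix.mul_smul, Matrix.mul_smul, ← Matrix.mul_assoc Φ Φ, hΦ, Matrix.neg_mul,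
    Matrix.smul_mul, Matrix.one_mul, smul_neg, neg_neg, smul_comm f s]
  abel

lemma top_surj {f : Sr} (Φ Φ' : Matrix κ κ Sr) (s : ℤ)
    (hs : s * s = 1) (hΦ' : Φ' = -(s • Φ)) (Y : Matrix κ μ (RR f))
    (h : reM Y + Φ * imM Y = 0) :
    rm f Φ' (s • (1 : Matrix κ κ Sr)) * rm f (s • imM Y) 0 = Y := by
  conv_rhs => rw [← rm_eta Y]
  rw [rm_mul, rm_inj, Matrix.mul_zero, smul_zero, sub_zero, Matrix.mul_zero, zero_add,
    Matrix.smul_mul, Matrix.one_mul, smul_smul, hs, one_smul, hΦ', Matrix.neg_mul,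
    Matrix.smul_mul, Matrix.mul_smul, smul_smul, hs, one_smul]
  exact ⟨(eq_neg_of_add_eq_zero_left h).symm, rfl⟩

end mat

section top

variable {f : Sr} [H6 f] {C : CochainComplex (GF (gZ f)) ℤ} {m : ℤ} {F : CM f}
  {π : mor (und (C.X (m + 1))) F} {σ : Matrix (und (C.X (m + 1))).ι F.ι Sr}

/-- the columns of `π` at the generators `inl i` -/
def p0 (π : mor (und (C.X (m + 1))) F) : Matrix F.ι (C.X (m + 1)).ι Sr :=
  Matrix.toCols₁ (n₁ := (C.X (m + 1)).ι) (n₂ := (C.X (m + 1)).ι) π.1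

lemma p0_cols (π : mor (und (C.X (m + 1))) F) :
    π.1 = Matrix.fromCols (p0 π) (F.Φ * p0 π) :=
  cols_aux f F.Φ π.1 π.2.2

lemma p0_hmg (π : mor (und (C.X (m + 1))) F) (i : F.ι) (j : (C.X (m + 1)).ι) :
    Hmg (p0 π i j) ((C.X (m + 1)).deg j - F.deg i) := π.2.1 i (Sum.inl j)

lemma p0_zero (h : CokP C m F π σ) :
    p0 π * reM (mat (C.d m (m + 1))) = -(F.Φ * (p0 π * imM (mat (C.d m (m + 1))))) := by
  have h1 := h.zero
  rw [p0_cols π] at h1
  exact zero_aux _ _ _ h1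

/-- the twisted module -/
abbrev Ft (m : ℤ) (F : CM f) : CM f := tw (-(3 * (m + 1))) (m + 1).negOnePow F

omit [H6 f] in
lemma Ft_Φ (m : ℤ) (F : CM f) : (Ft m F).Φ = -(sg m • F.Φ) := by
  show sg (m + 1) • F.Φ = _
  rw [sg_succ, neg_smul]

/-- `p0` with values in the twisted module -/
def p1 (π : mor (und (C.X (m + 1))) F) : Matrix (Ft m F).ι (C.X (m + 1)).ι Sr :=
  @p0 f _ C m F π

/-- the matrices `ph` with values in the twisted module -/
abbrev pp (π : mor (und (C.X (m + 1))) F) (n : ℤ) : Matrix (Ft m F).ι (C.X n).ι Sr :=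
  ph (m + 1) (p1 π) n

lemma p1_zero (h : CokP C m F π σ) :
    p1 π * reM (mat (C.d m (m + 1))) =
      (Ft m F).Φ * (sg m • (p1 π * imM (mat (C.d m (m + 1))))) := by
  refine Eq.trans (p0_zero h) ?_
  rw [Ft_Φ, Matrix.neg_mul, Matrix.smul_mul, Matrix.mul_smul, sg_sq]
  rfl

lemma base (h : CokP C m F π σ) (n : ℤ) (hn : n + 1 = m + 1) :
    dmat (Ft m F) n * rm f (pp π n) 0 = rm f (pp π (n + 1)) 0 * mat (C.d n (n + 1)) := by
  obtain rfl : n = m := by lia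
  have e2 : pp π (n + 1) = p1 π := ph_eq _ _
  have e1 : pp π n = sg n • (p1 π * imM (mat (C.d n (n + 1)))) :=
    (ph_lt _ _ n (by lia)).trans (by rw [ph_eq])
  rw [e1, e2, ← rm_eta (mat (C.d n (n + 1)))]
  unfold dmat
  rw [rm_mul, rm_mul, rm_inj, imM_rm, p1_zero h]
  constructor
  · simp only [Matrix.mul_zero, Matrix.zero_mul, smul_zero, sub_zero]
  · simp only [Matrix.mul_zero, Matrix.zero_mul, add_zero, zero_add, Matrix.smul_mul,
      Matrix.one_mul, sg_sq]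

lemma chain (h : CokP C m F π σ) (n : ℤ) (hn : n + 1 ≤ m + 1) :
    dmat (Ft m F) n * rm f (pp π n) 0 = rm f (pp π (n + 1)) 0 * mat (C.d n (n + 1)) :=
  ch_dmat (Ft m F) (m + 1) (p1 π) (base h) (m - n).toNat n (by lia)

lemma pp_hmg (π : mor (und (C.X (m + 1))) F) (n : ℤ) (i : (Ft m F).ι) (j : (C.X n).ι) :
    Hmg (pp π n i j) ((C.X n).deg j - (perX (Ft m F) n).deg i) :=
  (ph_hmg' (ι := (Ft m F).ι) (m + 1) (p1 π) F.deg (p0_hmg π) n i j).congr (by
    show _ = (C.X n).deg j - (F.deg i - (-(3 * (m + 1))) - 3 * n)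
    ring)

/-- the map in position `n` -/
def ph0 (π : mor (und (C.X (m + 1))) F) (n : ℤ) : C.X n ⟶ (CF (Ft m F)).X n :=
  ofm (X := C.X n) (Y := perX (Ft m F) n) (rm f (pp π n) 0)
    fun i j => ⟨pp_hmg π n i j, Hmg.zero _⟩

lemma mat_ph0 (π : mor (und (C.X (m + 1))) F) (n : ℤ) : mat (ph0 π n) = rm f (pp π n) 0 := rfl

lemma ph0_comm (h : CokP C m F π σ) (n : ℤ) (hn : n + 1 ≤ m + 1) :
    ph0 π n ≫ (CF (Ft m F)).d n (n + 1) = C.d n (n + 1) ≫ ph0 π (n + 1) := by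
  refine gf_ext ?_
  rw [mat_comp, mat_CF_d, mat_comp]
  exact chain h n hn

lemma inj_top (h : CokP C m F π σ) (d : ℤ) (x : GF.tw (gZ f) (-d) ⟶ C.X (m + 1))
    (y : GF.tw (gZ f) (-d) ⟶ (CF (Ft m F)).X m)
    (hy : y ≫ (CF (Ft m F)).d m (m + 1) = x ≫ ph0 π (m + 1)) :
    ∃ z : GF.tw (gZ f) (-d) ⟶ C.X m, z ≫ C.d m (m + 1) = x := by
  let X : Matrix (C.X (m + 1)).ι Unit (RR f) := mat x
  let Y : Matrix F.ι Unit (RR f) := mat y
  have e2 : pp π (m + 1) = p1 π := ph_eq _ _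
  have h1 : rm f (Ft m F).Φ (sg m • (1 : Matrix F.ι F.ι Sr)) * Y = rm f (p0 π) 0 * X := by
    have h2 := congrArg mat hy
    rw [mat_comp, mat_CF_d, mat_comp, mat_ph0, e2] at h2
    exact h2
  have h3 := top_inj F.Φ (Ft m F).Φ F.sq (sg m) (sg_mul_self m) (Ft_Φ m F) (p0 π) X Y h1
  have h4 : π.1 * Matrix.fromRows (reM X) (imM X) = 0 := by
    rw [p0_cols π]
    exact h3
  obtain ⟨z, hz, hz2⟩ := h.ex (UU d) 0 (Matrix.fromRows (reM X) (imM X)) (by
    rintro (i | i) j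
    · exact (reM_hmg x i j).congr (by
        show - -d - (C.X (m + 1)).deg i = d + 0 - (C.X (m + 1)).deg i
        ring)
    · exact (imM_hmg x i j).congr (by
        show - -d - (C.X (m + 1)).deg i - 3 = d + 0 - ((C.X (m + 1)).deg i + 3)
        ring)) h4
  have h5 := um_col (mat (C.d m (m + 1))) (reM X) (imM X) z hz2
  refine ⟨ofm (X := GF.tw (gZ f) (-d)) (Y := C.X m)
    (rm f (Matrix.toRows₁ (m₁ := (C.X m).ι) (m₂ := (C.X m).ι) z)
      (Matrix.toRows₂ (m₁ := (C.X m).ι) (m₂ := (C.X m).ι) z)) ?_, gf_ext ?_⟩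
  · intro i j
    exact ⟨(hz (Sum.inl i) j).congr (by
        show d + 0 - (C.X m).deg i = - -d - (C.X m).deg i
        ring), (hz (Sum.inr i) j).congr (by
        show d + 0 - ((C.X m).deg i + 3) = - -d - (C.X m).deg i - 3
        ring)⟩
  · exact h5

lemma surj_top (h : CokP C m F π σ) (d : ℤ)
    (y : GF.tw (gZ f) (-d) ⟶ (CF (Ft m F)).X (m + 1)) :
    ∃ (x : GF.tw (gZ f) (-d) ⟶ C.X (m + 1)) (w : GF.tw (gZ f) (-d) ⟶ (CF (Ft m F)).X m),
      w ≫ (CF (Ft m F)).d m (m + 1) = y - x ≫ ph0 π (m + 1) := by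
  let Y : Matrix F.ι Unit (RR f) := mat y
  let c : Matrix F.ι Unit Sr := reM Y + F.Φ * imM Y
  let s : Matrix ((C.X (m + 1)).ι ⊕ (C.X (m + 1)).ι) Unit Sr := σ * c
  have hc : ∀ i j, Hmg (c i j) (d - F.deg i) := by
    intro i j
    refine Hmg.add ?_ ?_
    · exact (reM_hmg y i j).congr (by
        show - -d - (F.deg i - (-(3 * (m + 1))) - 3 * (m + 1)) = d - F.deg i
        ring)
    · rw [Matrix.mul_apply]
      refine Hmg.sum fun l _ => ?_
      exact ((F.hom i l).mul (imM_hmg y l j)).congr (by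
        show F.deg l + 3 - F.deg i + (- -d - (F.deg l - (-(3 * (m + 1))) - 3 * (m + 1)) - 3) =
          d - F.deg i
        ring)
  have hs : ∀ i j, Hmg (s i j) (d - (und (C.X (m + 1))).deg i) := by
    intro i j
    show Hmg ((σ * c) i j) _
    rw [Matrix.mul_apply]
    refine Hmg.sum fun l _ => ?_
    exact ((h.sec i l).mul (hc l j)).congr (by ring)
  have e2 : pp π (m + 1) = p1 π := ph_eq _ _
  let x : GF.tw (gZ f) (-d) ⟶ C.X (m + 1) :=
    ofm (X := GF.tw (gZ f) (-d)) (Y := C.X (m + 1)) (rm f s.toRows₁ s.toRows₂)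
      fun i j => ⟨(hs (Sum.inl i) j).congr (by
        show d - (C.X (m + 1)).deg i = - -d - (C.X (m + 1)).deg i
        ring), (hs (Sum.inr i) j).congr (by
        show d - ((C.X (m + 1)).deg i + 3) = - -d - (C.X (m + 1)).deg i - 3
        ring)⟩
  let v := y - x ≫ ph0 π (m + 1)
  let V : Matrix F.ι Unit (RR f) := mat v
  have hV : V = Y - rm f (p0 π) 0 * rm f s.toRows₁ s.toRows₂ := by
    show mat (y - x ≫ ph0 π (m + 1)) = _
    rw [mat_sub, mat_comp, mat_ph0, e2]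
    rfl
  have hV0 : reM V + F.Φ * imM V = 0 := by
    have h1 : p0 π * s.toRows₁ + F.Φ * (p0 π * s.toRows₂) = c := by
      have h2 : π.1 * (σ * c) = c := by
        rw [← Matrix.mul_assoc, h.one, Matrix.one_mul]
      rw [p0_cols π] at h2
      have h3 : Matrix.fromCols (p0 π) (F.Φ * p0 π) * Matrix.fromRows s.toRows₁ s.toRows₂ =
          c := by
        rw [Matrix.fromRows_toRows]
        exact h2
      rw [Matrix.fromCols_mul_fromRows, Matrix.mul_assoc] at h3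
      exact h3
    have h4 : V = rm f (reM Y - p0 π * s.toRows₁) (imM Y - p0 π * s.toRows₂) := by
      rw [hV]
      conv_lhs => rw [← rm_eta Y]
      rw [rm_mul, rm_sub, Matrix.zero_mul, Matrix.zero_mul, smul_zero, sub_zero, add_zero]
    rw [h4, reM_rm, imM_rm, Matrix.mul_sub]
    have h5 : reM Y + F.Φ * imM Y = c := rfl
    rw [← h1] at h5
    rw [← sub_eq_zero] at h5
    rw [← h5]
    abel
  refine ⟨x, ofm (X := GF.tw (gZ f) (-d)) (Y := perX (Ft m F) m) (rm f (sg m • imM V) 0) ?_,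
    gf_ext ?_⟩
  · intro i j
    exact ⟨((imM_hmg v i j).zsmul (sg m)).congr (by
      show - -d - (F.deg i - (-(3 * (m + 1))) - 3 * (m + 1)) - 3 =
        - -d - (F.deg i - (-(3 * (m + 1))) - 3 * m)
      ring), Hmg.zero _⟩
  · rw [mat_comp, mat_CF_d]
    exact top_surj F.Φ (Ft m F).Φ (sg m) (sg_mul_self m) (Ft_Φ m F) V hV0

/-- the chain map -/
def phi (h : CokP C m F π σ) : trn C (m + 1) ⟶ trn (CF (Ft m F)) (m + 1) :=
  CochainComplex.ofHom (X := trn C (m + 1)) (Y := trn (CF (Ft m F)) (m + 1))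
    (fun n => jI C (m + 1) n ≫ ph0 π n ≫ jP (CF (Ft m F)) (m + 1) n) (fun n => by
      by_cases hn : n + 1 ≤ m + 1
      · rw [trn_d, trn_d]
        simp only [Category.assoc]
        rw [← Category.assoc (jP (CF (Ft m F)) (m + 1) n), jP_jI _ _ _ (by lia),
          Category.id_comp, ← Category.assoc (jP C (m + 1) (n + 1)), jP_jI _ _ _ hn,
          Category.id_comp, ← Category.assoc (ph0 π n), ph0_comm h n hn]
        simp only [Category.assoc]
      · exact (eq_zero_of (trn_empty _ _ _ (by lia)) _).trans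
          (eq_zero_of (trn_empty _ _ _ (by lia)) _).symm)

lemma phi_f (h : CokP C m F π σ) (n : ℤ) :
    (phi h).f n = jI C (m + 1) n ≫ ph0 π n ≫ jP (CF (Ft m F)) (m + 1) n := rfl

lemma cond1 (h : CokP C m F π σ) (hC : ∀ n < m + 1, ∀ d, Acy C n d) (k d : ℤ)
    (x : GF.tw (gZ f) (-d) ⟶ (trn C (m + 1)).X (k + 1))
    (hx : x ≫ (trn C (m + 1)).d (k + 1) (k + 1 + 1) = 0)
    (hy : ∃ y : GF.tw (gZ f) (-d) ⟶ (trn (CF (Ft m F)) (m + 1)).X k,
      y ≫ (trn (CF (Ft m F)) (m + 1)).d k (k + 1) = x ≫ (phi h).f (k + 1)) :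
    ∃ y : GF.tw (gZ f) (-d) ⟶ (trn C (m + 1)).X k, y ≫ (trn C (m + 1)).d k (k + 1) = x := by
  rcases lt_trichotomy (k + 1) (m + 1) with hk | hk | hk
  · exact trn_acy hk (hC _ hk d) x hx
  · obtain rfl : k = m := by lia
    obtain ⟨y, hy⟩ := hy
    have h1 : (y ≫ jI _ _ k) ≫ (CF (Ft k F)).d k (k + 1) = (x ≫ jI _ _ (k + 1)) ≫ ph0 π (k + 1) := by
      rw [trn_d, phi_f] at hy
      have h2 := congrArg (fun t => t ≫ jI (CF (Ft k F)) (k + 1) (k + 1)) hy
      simp only [Category.assoc] at h2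
      rw [jP_jI _ _ _ (le_refl (k + 1)), Category.comp_id, Category.comp_id] at h2
      simp only [Category.assoc]
      exact h2
    obtain ⟨z, hz⟩ := inj_top h d _ _ h1
    refine ⟨z ≫ jP C (k + 1) k, ?_⟩
    rw [trn_d, Category.assoc, ← Category.assoc (jP C (k + 1) k), jP_jI _ _ _ (by lia),
      Category.id_comp, ← Category.assoc, hz, Category.assoc, jI_jP, Category.comp_id]
  · refine ⟨0, ?_⟩
    rw [zero_comp]
    exact (eq_zero_of (trn_empty _ _ _ hk) x).symm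

lemma cond2 (h : CokP C m F π σ) (hF : ∀ n d, Acy (CF (Ft m F)) n d) (k d : ℤ)
    (y : GF.tw (gZ f) (-d) ⟶ (trn (CF (Ft m F)) (m + 1)).X (k + 1))
    (hy : y ≫ (trn (CF (Ft m F)) (m + 1)).d (k + 1) (k + 1 + 1) = 0) :
    ∃ x : GF.tw (gZ f) (-d) ⟶ (trn C (m + 1)).X (k + 1),
      x ≫ (trn C (m + 1)).d (k + 1) (k + 1 + 1) = 0 ∧
      ∃ w : GF.tw (gZ f) (-d) ⟶ (trn (CF (Ft m F)) (m + 1)).X k,
        w ≫ (trn (CF (Ft m F)) (m + 1)).d k (k + 1) = y - x ≫ (phi h).f (k + 1) := by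
  rcases lt_trichotomy (k + 1) (m + 1) with hk | hk | hk
  · obtain ⟨w, hw⟩ := trn_acy hk (hF _ d) y hy
    exact ⟨0, zero_comp, w, by rw [hw, zero_comp, sub_zero]⟩
  · obtain rfl : k = m := by lia
    obtain ⟨x, w, hw⟩ := surj_top h d (y ≫ jI (CF (Ft k F)) (k + 1) (k + 1))
    refine ⟨x ≫ jP C (k + 1) (k + 1), eq_zero_of (trn_empty _ _ _ (by lia)) _,
      w ≫ jP (CF (Ft k F)) (k + 1) k, ?_⟩
    rw [trn_d, phi_f]
    simp only [Category.assoc]
    rw [← Category.assoc (jP (CF (Ft k F)) (k + 1) k), jP_jI _ _ _ (by lia), Category.id_comp,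
      ← Category.assoc w, hw, ← Category.assoc (jP C (k + 1) (k + 1)),
      jP_jI _ _ _ (le_refl (k + 1)), Category.id_comp, Preadditive.sub_comp, Category.assoc,
      jI_jP, Category.comp_id, Category.assoc]
  · refine ⟨0, zero_comp, 0, ?_⟩
    rw [zero_comp, zero_comp, sub_zero]
    exact (eq_zero_of (trn_empty _ _ _ hk) y).symm

end top

end TAI_

open TAI_

theorem p_TAI (h1 : T_EQI) (h2 : T_ACF) : T_TAI := by
  intro f _ C m hC F π σ h
  have h3 : IsIso ((qK (gZ f)).map (phi h)) := by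
    refine h1 _ (gZ f) (trn C (m + 1)) (trn (CF (Ft m F)) (m + 1)) (m + 1) (trn_le _ _)
      (trn_le _ _) (phi h) ?_ ?_
    · intro n d x hx hy
      obtain ⟨k, rfl⟩ : ∃ k, n = k + 1 := ⟨n - 1, by ring⟩
      have key : ∀ l, l = k →
          (∃ y : GF.tw (gZ f) (-d) ⟶ (trn (CF (Ft m F)) (m + 1)).X l,
            y ≫ (trn (CF (Ft m F)) (m + 1)).d l (k + 1) = x ≫ (phi h).f (k + 1)) →
          ∃ y : GF.tw (gZ f) (-d) ⟶ (trn C (m + 1)).X l, y ≫ (trn C (m + 1)).d l (k + 1) = x := by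
        rintro l rfl hy
        exact cond1 h hC l d x hx hy
      exact key _ (by ring) hy
    · intro n d y hy
      obtain ⟨k, rfl⟩ : ∃ k, n = k + 1 := ⟨n - 1, by ring⟩
      obtain ⟨x, hx, hw⟩ := cond2 h (h2 f (Ft m F)) k d y hy
      refine ⟨x, hx, ?_⟩
      have key : ∀ l, l = k → ∃ w : GF.tw (gZ f) (-d) ⟶ (trn (CF (Ft m F)) (m + 1)).X l,
          w ≫ (trn (CF (Ft m F)) (m + 1)).d l (k + 1) = y - x ≫ (phi h).f (k + 1) := by
        rintro l rfl
        exact hw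
      exact key _ (by ring)
  exact ⟨asIso ((qK (gZ f)).map (phi h))⟩

end Pool.Agent.VDK
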