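import Pool.Agent.VDK.T1

/-!
# VDK-TPK: the complex `P_k(t)` has finite-dimensional cohomology (helper17)
-/

set_option autoImplicit false
set_option linter.unusedVariables false

open CategoryTheory CategoryTheory.Limits Pretriangulated MvPolynomial Pool.Agent.VDC

noncomputable section

namespace Pool.Agent.VDK

namespace TPK_

lemma cdS_nonneg {ι : Type} (c : ι → ℤ) (h : ∀ i, 0 ≤ c i) : ∀ i, 0 ≤ cdS c i := by
  rintro (i | i)
  · show 0 ≤ c i + 1
    have := h i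
    lia
  · exact h i

lemma cd_nonneg {f : Sr} (D : KA f) (i : (kk D).ι) : 0 ≤ cd D i :=
  cdS_nonneg _ (cdS_nonneg _ (cdS_nonneg _ (cdS_nonneg _ fun _ => le_refl _))) i

lemma isZero_empty {A : Type} [CommRing A] [Algebra ℂ A] {𝒜 : ℤ → Submodule ℂ A}
    [SetLike.GradedMonoid 𝒜] (X : GF 𝒜) (h : IsEmpty X.ι) : IsZero X := by
  rw [IsZero.iff_id_eq_zero]
  exact gf_ext (Matrix.ext fun i _ => (h.false i).elim)

lemma bdd (f : Sr) [H6 f] (D : KA f) (t : ℤ) : (PK D t).IsStrictlyLE 0 := by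
  rw [CochainComplex.isStrictlyLE_iff]
  intro n hn
  refine isZero_empty _ ⟨?_⟩
  rintro ⟨i, hi⟩
  have h1 : cd D i ≤ -n := hi
  have h2 := cd_nonneg D i
  lia

end TPK_

/-- `T_TPK` -/
theorem p_TPK (h_HPK : T_HPK) (h_ACZ : T_ACZ) : T_TPK := by
  intro f _ D t
  refine ⟨⟨PK D t, 0, TPK_.bdd f D t, ⟨Iso.refl _⟩⟩, ?_⟩
  refine (Set.finite_singleton ((0 : ℤ), -t)).subset ?_
  rintro ⟨n, d⟩ hp
  by_contra h
  refine hp ((h_ACZ _ _ _ n d).2 (h_HPK f D t n d ?_))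
  rintro ⟨h1, h2⟩
  exact h (by rw [h1, h2]; rfl)

end Pool.Agent.VDK
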