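import Pool.Agent.VDK.T2

/-!
# VDK: transfer of exact equivalences
-/

set_option autoImplicit false
set_option linter.unusedSectionVars false

open CategoryTheory CategoryTheory.Limits Pretriangulated Pool.Agent.VDC

noncomputable section

namespace Pool.Agent.VDK.TRA_

/-- the third object of a distinguished triangle, up to isomorphism, over a commutative square -/
lemma third {D : Type 1} [Category.{1} D] [HasZeroObject D] [HasShift D ℤ] [Preadditive D]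
    [∀ n : ℤ, (shiftFunctor D n).Additive] [Pretriangulated D] (T₁ T₂ : Triangle D)
    (h₁ : T₁ ∈ distTriang D) (h₂ : T₂ ∈ distTriang D) (e₁ : T₁.obj₁ ≅ T₂.obj₁)
    (e₂ : T₁.obj₂ ≅ T₂.obj₂) (comm : T₁.mor₁ ≫ e₂.hom = e₁.hom ≫ T₂.mor₁) :
    ∃ e₃ : T₁.obj₃ ≅ T₂.obj₃, T₁.mor₂ ≫ e₃.hom = e₂.hom ≫ T₂.mor₂ ∧
      T₁.mor₃ ≫ (shiftFunctor D (1 : ℤ)).map e₁.hom = e₃.hom ≫ T₂.mor₃ :=
  ⟨Triangle.π₃.mapIso (isoTriangleOfIso₁₂ T₁ T₂ h₁ h₂ e₁ e₂ comm),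
    (isoTriangleOfIso₁₂ T₁ T₂ h₁ h₂ e₁ e₂ comm).hom.comm₂,
    (isoTriangleOfIso₁₂ T₁ T₂ h₁ h₂ e₁ e₂ comm).hom.comm₃⟩

lemma eqn1 {C : Type 1} [Category.{1} C] {A B H Q G : C} (fi : A ⟶ B) (k : B ⟶ Q) (e : Q ⟶ G)
    (ki : A ⟶ H) (Ei : H ⟶ Q) (kv : H ⟶ A) (i' : A ⟶ G) (hk : fi ≫ k = ki ≫ Ei)
    (h1 : Ei ≫ e = kv ≫ i') (h0 : ki ≫ kv = 𝟙 A) : fi ≫ (k ≫ e) = i' := by
  rw [← Category.assoc, hk, Category.assoc, h1, ← Category.assoc, h0, Category.id_comp]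

lemma eqn2 {C : Type 1} [Category.{1} C] {P Q R S T U V W P' : C} (k : P ⟶ Q) (e : Q ⟶ R)
    (p' : R ⟶ S) (c' : S ⟶ T) (c'' : T ⟶ S) (h5 : c' ≫ c'' = 𝟙 S) (Ep : Q ⟶ U) (Ec : U ⟶ V)
    (Epc : Q ⟶ V) (s : V ⟶ W) (ki : W ⟶ T) (h2 : (Epc ≫ s) ≫ ki = e ≫ p' ≫ c')
    (hE : Epc = Ep ≫ Ec) (fp : P ⟶ P') (k' : P' ⟶ U) (hk : fp ≫ k' = k ≫ Ep) :
    (k ≫ e) ≫ p' = fp ≫ (k' ≫ Ec ≫ s ≫ ki ≫ c'') := by
  have h6 : e ≫ p' = (((Ep ≫ Ec) ≫ s) ≫ ki) ≫ c'' := by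
    rw [← hE, h2, Category.assoc, Category.assoc, h5, Category.comp_id]
  rw [Category.assoc, h6, ← Category.assoc fp, hk]
  simp only [Category.assoc]

section

variable {f f' : Sr} {D : Type 1} [Category.{1} D] [HasZeroObject D] [HasShift D ℤ]
  [Preadditive D] [∀ n : ℤ, (shiftFunctor D n).Additive] [Pretriangulated D]
  {D' : Type 1} [Category.{1} D'] [HasZeroObject D'] [HasShift D' ℤ] [Preadditive D']
  [∀ n : ℤ, (shiftFunctor D' n).Additive] [Pretriangulated D']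
  (Θ : CM f ⥤ D) (Θ' : CM f' ⥤ D') [Θ'.Full] [Θ'.Faithful]
  (E : D ⥤ D') [E.CommShift ℤ]
  (F : CM f ⥤ CM f') (κ : F ⋙ Θ' ≅ Θ ⋙ E)
  (c : sh f ⋙ Θ ≅ Θ ⋙ shiftFunctor D (1 : ℤ)) (c' : sh f' ⋙ Θ' ≅ Θ' ⋙ shiftFunctor D' (1 : ℤ))

/-- the isomorphism of `F` with the shifts, after `Θ'` -/
def cmA (X : CM f) : Θ'.obj (F.obj ((sh f).obj X)) ≅ Θ'.obj ((sh f').obj (F.obj X)) :=
  κ.app ((sh f).obj X) ≪≫ E.mapIso (c.app X) ≪≫ (E.commShiftIso (1 : ℤ)).app (Θ.obj X) ≪≫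
    (shiftFunctor D' (1 : ℤ)).mapIso (κ.symm.app X) ≪≫ c'.symm.app (F.obj X)

lemma cmA_hom (X : CM f) : (cmA Θ Θ' E F κ c c' X).hom =
    κ.hom.app ((sh f).obj X) ≫ E.map (c.hom.app X) ≫ (E.commShiftIso (1 : ℤ)).hom.app (Θ.obj X) ≫
    (shiftFunctor D' (1 : ℤ)).map (κ.inv.app X) ≫ c'.inv.app (F.obj X) := rfl

lemma cmA_nat {X Y : CM f} (g : X ⟶ Y) :
    Θ'.map (F.map ((sh f).map g)) ≫ (cmA Θ Θ' E F κ c c' Y).hom =
      (cmA Θ Θ' E F κ c c' X).hom ≫ Θ'.map ((sh f').map (F.map g)) := by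
  have h1 : Θ'.map (F.map ((sh f).map g)) ≫ κ.hom.app ((sh f).obj Y) =
      κ.hom.app ((sh f).obj X) ≫ E.map (Θ.map ((sh f).map g)) := κ.hom.naturality ((sh f).map g)
  have h2 : Θ.map ((sh f).map g) ≫ c.hom.app Y =
      c.hom.app X ≫ (shiftFunctor D (1 : ℤ)).map (Θ.map g) := c.hom.naturality g
  have h3 : E.map ((shiftFunctor D (1 : ℤ)).map (Θ.map g)) ≫
      (E.commShiftIso (1 : ℤ)).hom.app (Θ.obj Y) = (E.commShiftIso (1 : ℤ)).hom.app (Θ.obj X) ≫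
        (shiftFunctor D' (1 : ℤ)).map (E.map (Θ.map g)) :=
    (E.commShiftIso (1 : ℤ)).hom.naturality (Θ.map g)
  have h4 : E.map (Θ.map g) ≫ κ.inv.app Y = κ.inv.app X ≫ Θ'.map (F.map g) :=
    κ.inv.naturality g
  have h5 : (shiftFunctor D' (1 : ℤ)).map (Θ'.map (F.map g)) ≫ c'.inv.app (F.obj Y) =
      c'.inv.app (F.obj X) ≫ Θ'.map ((sh f').map (F.map g)) := c'.inv.naturality (F.map g)
  rw [cmA_hom, cmA_hom, ← Category.assoc, h1, Category.assoc, ← Category.assoc (E.map _),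
    ← Functor.map_comp, h2, Functor.map_comp]
  simp only [Category.assoc]
  rw [← Category.assoc (E.map ((shiftFunctor D (1 : ℤ)).map (Θ.map g))), h3]
  simp only [Category.assoc]
  rw [← Category.assoc ((shiftFunctor D' (1 : ℤ)).map (E.map (Θ.map g))), ← Functor.map_comp, h4,
    Functor.map_comp, Category.assoc, h5]

/-- the isomorphism of `F` with the shifts -/
def cm : sh f ⋙ F ≅ F ⋙ sh f' :=
  NatIso.ofComponents (fun X => Θ'.preimageIso (cmA Θ Θ' E F κ c c' X)) (by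
    intro X Y g
    apply Θ'.map_injective
    rw [Functor.map_comp, Functor.map_comp]
    show Θ'.map (F.map ((sh f).map g)) ≫ Θ'.map (Θ'.preimage (cmA Θ Θ' E F κ c c' Y).hom) =
      Θ'.map (Θ'.preimage (cmA Θ Θ' E F κ c c' X).hom) ≫ Θ'.map ((sh f').map (F.map g))
    rw [Functor.map_preimage, Functor.map_preimage]
    exact cmA_nat Θ Θ' E F κ c c' g)

lemma map_cm (X : CM f) : Θ'.map ((cm Θ Θ' E F κ c c').hom.app X) =
    (cmA Θ Θ' E F κ c c' X).hom := by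
  show Θ'.map (Θ'.preimage (cmA Θ Θ' E F κ c c' X).hom) = _
  rw [Functor.map_preimage]

lemma exact_cm [E.IsTriangulated]
    (hc : ∀ (X Y : CM f) (g : mor X Y),
      Triangle.mk (Θ.map (cls g)) (Θ.map (cls (inclM g))) (Θ.map (cls (projM g)) ≫ c.hom.app X) ∈
        distTriang D)
    (hc' : ∀ (X Y : CM f') (g : mor X Y),
      Triangle.mk (Θ'.map (cls g)) (Θ'.map (cls (inclM g)))
        (Θ'.map (cls (projM g)) ≫ c'.hom.app X) ∈ distTriang D')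
    {X Y : CM f} (g : mor X Y) : ∃ g' : mor (F.obj X) (F.obj Y), cls g' = F.map (cls g) ∧
    ∃ e : F.obj (cone g) ≅ cone g', F.map (cls (inclM g)) ≫ e.hom = cls (inclM g') ∧
      e.hom ≫ cls (projM g') = F.map (cls (projM g)) ≫ (cm Θ Θ' E F κ c c').hom.app X := by
  obtain ⟨g', hg'⟩ : ∃ g' : mor (F.obj X) (F.obj Y), cls g' = F.map (cls g) :=
    Submodule.mkQ_surjective _ (F.map (cls g))
  refine ⟨g', hg', ?_⟩
  have hk : ∀ {A B : CM f} (u : A ⟶ B), Θ'.map (F.map u) ≫ κ.hom.app B =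
      κ.hom.app A ≫ E.map (Θ.map u) := fun u => κ.hom.naturality u
  have hk' : ∀ {A B : CM f} (u : A ⟶ B), E.map (Θ.map u) ≫ κ.inv.app B =
      κ.inv.app A ≫ Θ'.map (F.map u) := fun u => κ.inv.naturality u
  obtain ⟨e₃, h1, h2⟩ := third (E.mapTriangle.obj (Triangle.mk (Θ.map (cls g))
      (Θ.map (cls (inclM g))) (Θ.map (cls (projM g)) ≫ c.hom.app X)))
    (Triangle.mk (Θ'.map (cls g')) (Θ'.map (cls (inclM g')))
        (Θ'.map (cls (projM g')) ≫ c'.hom.app (F.obj X)))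
    (E.map_distinguished _ (hc X Y g)) (hc' _ _ g') (κ.symm.app X) (κ.symm.app Y) (by
      show E.map (Θ.map (cls g)) ≫ κ.inv.app Y = κ.inv.app X ≫ Θ'.map (cls g')
      rw [hg']
      exact hk' (cls g))
  have h1' : E.map (Θ.map (cls (inclM g))) ≫ e₃.hom = κ.inv.app Y ≫ Θ'.map (cls (inclM g')) := h1
  have h2' : (E.map (Θ.map (cls (projM g)) ≫ c.hom.app X) ≫
      (E.commShiftIso (1 : ℤ)).hom.app (Θ.obj X)) ≫
      (shiftFunctor D' (1 : ℤ)).map (κ.inv.app X) =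
      e₃.hom ≫ Θ'.map (cls (projM g')) ≫ c'.hom.app (F.obj X) := h2
  refine ⟨Θ'.preimageIso (κ.app (cone g) ≪≫ e₃), ?_, ?_⟩
  · apply Θ'.map_injective
    refine (Θ'.map_comp _ _).trans ?_
    refine (congrArg (fun z => Θ'.map (F.map (cls (inclM g))) ≫ z)
      (Θ'.map_preimage (κ.hom.app (cone g) ≫ e₃.hom))).trans ?_
    exact eqn1 _ _ _ _ _ _ _ (hk (cls (inclM g))) h1' (κ.hom_inv_id_app Y)
  · apply Θ'.map_injective
    refine (Θ'.map_comp _ _).trans ?_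
    refine (congrArg (fun z => z ≫ Θ'.map (cls (projM g')))
      (Θ'.map_preimage (κ.hom.app (cone g) ≫ e₃.hom))).trans ?_
    refine Eq.trans ?_ (Θ'.map_comp _ _).symm
    refine Eq.trans ?_ (congrArg (fun z => Θ'.map (F.map (cls (projM g))) ≫ z)
      (map_cm Θ Θ' E F κ c c' X)).symm
    exact eqn2 _ _ _ _ _ (c'.hom_inv_id_app (F.obj X)) (E.map (Θ.map (cls (projM g)))) _ _ _ _ h2'
      (E.map_comp _ _) _ _ (hk (cls (projM g)))

end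

end Pool.Agent.VDK.TRA_

namespace Pool.Agent.VDK

open TRA_ in
theorem p_TRA : T_TRA := by
  intro f f' D _ _ _ _ _ _ _ D' _ _ _ _ _ _ _ Θ _ _ _ Θ' _ _ _ E _ _ _ _ hΘ hΘ'
  obtain ⟨c, hc⟩ := hΘ
  obtain ⟨c', hc'⟩ := hΘ'
  let F : CM f ⥤ CM f' := Θ ⋙ E ⋙ Θ'.asEquivalence.inverse
  let κ : F ⋙ Θ' ≅ Θ ⋙ E :=
    Functor.isoWhiskerLeft (Θ ⋙ E) Θ'.asEquivalence.counitIso ≪≫ (Θ ⋙ E).rightUnitor
  have : Θ'.asEquivalence.functor.Additive := inferInstanceAs Θ'.Additive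
  have : Θ'.asEquivalence.functor.Linear ℂ := inferInstanceAs (Θ'.Linear ℂ)
  have : Θ'.asEquivalence.inverse.Additive := inferInstance
  have : Θ'.asEquivalence.inverse.Linear ℂ := inferInstance
  refine ⟨{ F := F
            isEquiv := inferInstanceAs (Θ ⋙ E ⋙ Θ'.asEquivalence.inverse).IsEquivalence
            additive := inferInstanceAs (Θ ⋙ E ⋙ Θ'.asEquivalence.inverse).Additive
            linear := inferInstanceAs ((Θ ⋙ E ⋙ Θ'.asEquivalence.inverse).Linear ℂ)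
            comm := cm Θ Θ' E F κ c c'
            exact := fun g => exact_cm Θ Θ' E F κ c c' hc hc' g }⟩

end Pool.Agent.VDK
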