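import Pool.Agent.VDK.T1

/-!
# VDK, target TRC: the functor `Cper` is exact
-/

set_option autoImplicit false
set_option linter.unusedVariables false
set_option linter.unusedSectionVars false

open CategoryTheory CategoryTheory.Limits Pretriangulated MvPolynomial Pool.Agent.VDC

noncomputable section

namespace Pool.Agent.VDK

namespace TRC_

variable {f : Sr} [H6 f]

/-! ### the shift -/

def eHom (X : CM f) (n : ℤ) : perX (tw 3 (-1) X) n ⟶ perX X (n + 1) :=
  ofm (rm f 1 0) fun i j => ⟨(one_hmg X.deg i j).congr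
    (by show _ = X.deg j - 3 - 3 * n - (X.deg i - 3 * (n + 1)); ring), Hmg.zero _⟩

def eInv (X : CM f) (n : ℤ) : perX X (n + 1) ⟶ perX (tw 3 (-1) X) n :=
  ofm (rm f 1 0) fun i j => ⟨(one_hmg X.deg i j).congr
    (by show _ = X.deg j - 3 * (n + 1) - (X.deg i - 3 - 3 * n); ring), Hmg.zero _⟩

lemma mat_eHom (X : CM f) (n : ℤ) : mat (eHom X n) = (1 : Matrix X.ι X.ι (RR f)) := rm_one

def eIso (X : CM f) (n : ℤ) : perX (tw 3 (-1) X) n ≅ perX X (n + 1) where
  hom := eHom X n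
  inv := eInv X n
  hom_inv_id := gf_ext (by
    show rm f (1 : Matrix X.ι X.ι Sr) 0 * rm f (1 : Matrix X.ι X.ι Sr) 0 = 1
    rw [rm_one, Matrix.one_mul])
  inv_hom_id := gf_ext (by
    show rm f (1 : Matrix X.ι X.ι Sr) 0 * rm f (1 : Matrix X.ι X.ι Sr) 0 = 1
    rw [rm_one, Matrix.one_mul])

lemma mat_shift_d (X : CM f) (n : ℤ) :
    mat (((shiftFunctor (CochainComplex (GF (gZ f)) ℤ) (1 : ℤ)).obj (CF X)).d n (n + 1)) =
      - dmat X (n + 1) := by
  rw [CochainComplex.shiftFunctor_obj_d', Int.negOnePow_one, Units.neg_smul, one_smul]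
  exact congrArg Neg.neg (mat_CF_d X (n + 1))

lemma dmat_tw (X : CM f) (n : ℤ) : dmat (tw 3 (-1) X) n = - dmat X (n + 1) := by
  unfold dmat
  rw [rm_neg, sg_succ, rm_inj]
  constructor
  · show ((-1 : ℤˣ) : ℤ) • X.Φ = _
    rw [Units.val_neg, Units.val_one, neg_smul, one_smul]
  · rw [neg_smul, neg_neg]

/-- the shift isomorphism of complexes -/
def E (X : CM f) :
    CF (tw 3 (-1) X) ≅ (shiftFunctor (CochainComplex (GF (gZ f)) ℤ) (1 : ℤ)).obj (CF X) :=
  HomologicalComplex.Hom.isoOfComponents (fun n => eIso X n) (by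
    intro i j hij
    obtain rfl : i + 1 = j := hij
    refine gf_ext ?_
    rw [mat_comp, mat_comp, mat_shift_d, mat_CF_d, dmat_tw]
    show -dmat X (i + 1) * mat (eHom X i) = mat (eHom X (i + 1)) * -dmat X (i + 1)
    rw [mat_eHom, mat_eHom, Matrix.mul_one, Matrix.one_mul])

lemma mat_E (X : CM f) (n : ℤ) : mat ((E X).hom.f n) = (1 : Matrix X.ι X.ι (RR f)) :=
  mat_eHom X n

lemma E_nat {X Y : CM f} (g : mor X Y) :
    CFm (twM 3 (-1) g) ≫ (E Y).hom =
      (E X).hom ≫ (shiftFunctor (CochainComplex (GF (gZ f)) ℤ) (1 : ℤ)).map (CFm g) := by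
  refine HomologicalComplex.Hom.ext (funext fun n => gf_ext ?_)
  show mat (eHom Y n) * rm f g.1 0 = rm f g.1 0 * mat (eHom X n)
  rw [mat_eHom, mat_eHom, Matrix.mul_one, Matrix.one_mul]

/-- minus an isomorphism -/
def negIso {C : Type*} [Category C] [Preadditive C] {A B : C} (e : A ≅ B) : A ≅ B where
  hom := -e.hom
  inv := -e.inv

/-- the components of the shift isomorphism of the functor `Cper`, without the sign -/
def cX (X : CM f) : (qK (gZ f)).obj (CF (tw 3 (-1) X)) ≅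
    (shiftFunctor (KK (gZ f)) (1 : ℤ)).obj ((qK (gZ f)).obj (CF X)) :=
  (qK (gZ f)).mapIso (E X) ≪≫ ((qK (gZ f)).commShiftIso (1 : ℤ)).app (CF X)

lemma cX_nat {X Y : CM f} (g : mor X Y) :
    (qK (gZ f)).map (CFm (twM 3 (-1) g)) ≫ (cX Y).hom =
      (cX X).hom ≫ (shiftFunctor (KK (gZ f)) (1 : ℤ)).map ((qK (gZ f)).map (CFm g)) := by
  show (qK (gZ f)).map (CFm (twM 3 (-1) g)) ≫
      (qK (gZ f)).map (E Y).hom ≫ ((qK (gZ f)).commShiftIso (1 : ℤ)).hom.app (CF Y) =
    ((qK (gZ f)).map (E X).hom ≫ ((qK (gZ f)).commShiftIso (1 : ℤ)).hom.app (CF X)) ≫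
      (shiftFunctor (KK (gZ f)) (1 : ℤ)).map ((qK (gZ f)).map (CFm g))
  rw [← Functor.map_comp_assoc, E_nat, Functor.map_comp_assoc, Category.assoc]
  exact congrArg (fun z => (qK (gZ f)).map (E X).hom ≫ z)
    (((qK (gZ f)).commShiftIso (1 : ℤ)).hom.naturality (CFm g))

/-- the shift isomorphism of the functor `Cper` (with the sign) -/
def cI (f : Sr) [H6 f] : sh f ⋙ Cper f ≅ Cper f ⋙ shiftFunctor (KK (gZ f)) (1 : ℤ) :=
  NatIso.ofComponents (fun X => negIso (cX X)) (by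
    intro X Y a
    obtain ⟨a, rfl⟩ := Submodule.mkQ_surjective _ a
    show (qK (gZ f)).map (CFm (twM 3 (-1) a)) ≫ (-(cX Y).hom) =
      (-(cX X).hom) ≫ (shiftFunctor (KK (gZ f)) (1 : ℤ)).map ((qK (gZ f)).map (CFm a))
    rw [Preadditive.comp_neg, Preadditive.neg_comp, cX_nat])

/-! ### the cone -/

section

variable (X Y : CM f)

abbrev PXm : Matrix X.ι (Y.ι ⊕ X.ι) (RR f) := rm f (Matrix.fromCols 0 1) 0
abbrev PYm : Matrix Y.ι (Y.ι ⊕ X.ι) (RR f) := rm f (Matrix.fromCols 1 0) 0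
abbrev IXm : Matrix (Y.ι ⊕ X.ι) X.ι (RR f) := rm f (Matrix.fromRows 0 1) 0
abbrev IYm : Matrix (Y.ι ⊕ X.ι) Y.ι (RR f) := rm f (Matrix.fromRows 1 0) 0

lemma m1 : PXm X Y * IXm X Y = 1 := by
  rw [rm_mul, Matrix.fromCols_mul_fromRows]
  simp [rm_one]

lemma m2 : PYm X Y * IXm X Y = 0 := by
  rw [rm_mul, Matrix.fromCols_mul_fromRows]
  simp [rm_zero]

lemma m3 : PXm X Y * IYm X Y = 0 := by
  rw [rm_mul, Matrix.fromCols_mul_fromRows]
  simp [rm_zero]

lemma m4 : PYm X Y * IYm X Y = 1 := by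
  rw [rm_mul, Matrix.fromCols_mul_fromRows]
  simp [rm_one]

lemma m5 : IXm X Y * PXm X Y + IYm X Y * PYm X Y = 1 := by
  rw [rm_mul, rm_mul, rm_add, ← rm_one, rm_inj]
  constructor
  · rw [Matrix.fromRows_mul_fromCols, Matrix.fromRows_mul_fromCols]
    simp only [Matrix.mul_zero, smul_zero, sub_zero, Matrix.mul_one,
      Matrix.fromBlocks_add, add_zero, zero_add]
    exact Matrix.fromBlocks_one
  · simp

lemma m8 : rm f (1 : Matrix X.ι X.ι Sr) 0 * PXm X Y = (1 : Matrix X.ι X.ι (RR f)) * PXm X Y := by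
  rw [rm_one]

variable {X Y} (g : mor X Y)

lemma m6 (n : ℤ) : PXm X Y * dmat (cone g) n = -(dmat X (n + 1) * PXm X Y) := by
  unfold dmat
  rw [rm_mul, rm_mul, rm_neg, rm_inj, sg_succ]
  constructor
  · rw [Matrix.fromCols_mul_fromBlocks, Matrix.mul_fromCols]
    simp only [Matrix.mul_zero, Matrix.zero_mul, Matrix.mul_one, Matrix.one_mul, smul_zero,
      sub_zero, add_zero, zero_add]
    ext i (j | j) <;> simp
  · simp only [Matrix.mul_smul, Matrix.mul_one, Matrix.zero_mul, Matrix.smul_mul, Matrix.one_mul,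
      Matrix.mul_zero, add_zero, zero_add, neg_smul, Matrix.neg_mul, neg_neg]

lemma m7 (n : ℤ) : PYm X Y * dmat (cone g) n = rm f g.1 0 * PXm X Y + dmat Y n * PYm X Y := by
  unfold dmat
  rw [rm_mul, rm_mul, rm_mul, rm_add, rm_inj]
  constructor
  · rw [Matrix.fromCols_mul_fromBlocks, Matrix.mul_fromCols, Matrix.mul_fromCols]
    simp only [Matrix.mul_zero, Matrix.zero_mul, Matrix.mul_one, Matrix.one_mul, smul_zero,
      sub_zero, add_zero]
    ext i (j | j) <;> simp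
  · simp only [Matrix.mul_smul, Matrix.mul_one, Matrix.zero_mul, Matrix.smul_mul, Matrix.one_mul,
      Matrix.mul_zero, add_zero, zero_add]

def pX (n : ℤ) : (CF (cone g)).X n ⟶ (CF X).X (n + 1) :=
  ofm (X := perX (cone g) n) (Y := perX X (n + 1)) (PXm X Y) (by
    rintro i (j | j)
    · exact ⟨Hmg.zero _, Hmg.zero _⟩
    · exact ⟨(one_hmg X.deg i j).congr
        (by show _ = X.deg j - 3 - 3 * n - (X.deg i - 3 * (n + 1)); ring), Hmg.zero _⟩)

def pY (n : ℤ) : (CF (cone g)).X n ⟶ (CF Y).X n :=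
  ofm (X := perX (cone g) n) (Y := perX Y n) (PYm X Y) (by
    rintro i (j | j)
    · exact ⟨(one_hmg Y.deg i j).congr
        (by show _ = Y.deg j - 3 * n - (Y.deg i - 3 * n); ring), Hmg.zero _⟩
    · exact ⟨Hmg.zero _, Hmg.zero _⟩)

def iX (n : ℤ) : (CF X).X (n + 1) ⟶ (CF (cone g)).X n :=
  ofm (X := perX X (n + 1)) (Y := perX (cone g) n) (IXm X Y) (by
    rintro (i | i) j
    · exact ⟨Hmg.zero _, Hmg.zero _⟩
    · exact ⟨(one_hmg X.deg i j).congr
        (by show _ = X.deg j - 3 * (n + 1) - (X.deg i - 3 - 3 * n); ring), Hmg.zero _⟩)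

def iY (n : ℤ) : (CF Y).X n ⟶ (CF (cone g)).X n :=
  ofm (X := perX Y n) (Y := perX (cone g) n) (IYm X Y) (by
    rintro (i | i) j
    · exact ⟨(one_hmg Y.deg i j).congr
        (by show _ = Y.deg j - 3 * n - (Y.deg i - 3 * n); ring), Hmg.zero _⟩
    · exact ⟨Hmg.zero _, Hmg.zero _⟩)

lemma iX_pX (n : ℤ) : iX g n ≫ pX g n = 𝟙 _ := gf_ext (m1 X Y)

lemma iX_pY (n : ℤ) : iX g n ≫ pY g n = 0 := gf_ext (m2 X Y)

lemma iY_pX (n : ℤ) : iY g n ≫ pX g n = 0 := gf_ext (m3 X Y)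

lemma iY_pY (n : ℤ) : iY g n ≫ pY g n = 𝟙 _ := gf_ext (m4 X Y)

lemma tot (n : ℤ) : pX g n ≫ iX g n + pY g n ≫ iY g n = 𝟙 _ := gf_ext (m5 X Y)

lemma d_pX (n : ℤ) : (CF (cone g)).d n (n + 1) ≫ pX g (n + 1) =
    -(pX g n ≫ (CF X).d (n + 1) (n + 1 + 1)) := by
  rw [CF_d, CF_d]
  exact gf_ext (m6 g n)

lemma d_pY (n : ℤ) : (CF (cone g)).d n (n + 1) ≫ pY g (n + 1) =
    pX g n ≫ (CFm g).f (n + 1) + pY g n ≫ (CF Y).d n (n + 1) := by
  rw [CF_d, CF_d]
  exact gf_ext (m7 g n)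

/-- the periodic complex of the cone is the mapping cone -/
def M : CF (cone g) ≅ CochainComplex.mappingCone (CFm g) :=
  HomologicalComplex.Hom.isoOfComponents (fun n =>
    { hom := pX g n ≫ (CochainComplex.mappingCone.inl (CFm g)).v (n + 1) n (by lia) +
        pY g n ≫ (CochainComplex.mappingCone.inr (CFm g)).f n
      inv := (CochainComplex.mappingCone.fst (CFm g)).1.v n (n + 1) rfl ≫ iX g n +
        (CochainComplex.mappingCone.snd (CFm g)).v n n (add_zero n) ≫ iY g n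
      hom_inv_id := by
        rw [← tot g n]
        simp
      inv_hom_id := by
        rw [← CochainComplex.mappingCone.id_X (CFm g) n (n + 1) rfl]
        simp only [Preadditive.add_comp, Preadditive.comp_add, Category.assoc]
        rw [← Category.assoc (iX g n) (pX g n), ← Category.assoc (iX g n) (pY g n),
          ← Category.assoc (iY g n) (pX g n), ← Category.assoc (iY g n) (pY g n),
          iX_pX, iX_pY, iY_pX, iY_pY]
        simp }) (by
    intro n j hij
    obtain rfl : n + 1 = j := hij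
    show (pX g n ≫ (CochainComplex.mappingCone.inl (CFm g)).v (n + 1) n (by lia) +
        pY g n ≫ (CochainComplex.mappingCone.inr (CFm g)).f n) ≫
        (CochainComplex.mappingCone (CFm g)).d n (n + 1) =
      (CF (cone g)).d n (n + 1) ≫
        (pX g (n + 1) ≫ (CochainComplex.mappingCone.inl (CFm g)).v (n + 1 + 1) (n + 1) (by lia) +
        pY g (n + 1) ≫ (CochainComplex.mappingCone.inr (CFm g)).f (n + 1))
    have e1 : (CF (cone g)).d n (n + 1) ≫ pX g (n + 1) ≫
        (CochainComplex.mappingCone.inl (CFm g)).v (n + 1 + 1) (n + 1) (by lia) =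
        (-(pX g n ≫ (CF X).d (n + 1) (n + 1 + 1))) ≫
          (CochainComplex.mappingCone.inl (CFm g)).v (n + 1 + 1) (n + 1) (by lia) := by
      rw [← Category.assoc, d_pX]
    have e2 : (CF (cone g)).d n (n + 1) ≫ pY g (n + 1) ≫
        (CochainComplex.mappingCone.inr (CFm g)).f (n + 1) =
        (pX g n ≫ (CFm g).f (n + 1) + pY g n ≫ (CF Y).d n (n + 1)) ≫
          (CochainComplex.mappingCone.inr (CFm g)).f (n + 1) := by
      rw [← Category.assoc, d_pY]
    rw [Preadditive.add_comp, Preadditive.comp_add, Category.assoc, Category.assoc,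
      CochainComplex.mappingCone.inl_v_d (CFm g) (n + 1) n (n + 1 + 1) (by lia) (by lia),
      CochainComplex.mappingCone.inr_f_d, e1, e2]
    simp only [Preadditive.add_comp, Preadditive.comp_sub, Preadditive.neg_comp, Category.assoc]
    abel)

lemma M_f (n : ℤ) : (M g).hom.f n =
    pX g n ≫ (CochainComplex.mappingCone.inl (CFm g)).v (n + 1) n (by lia) +
      pY g n ≫ (CochainComplex.mappingCone.inr (CFm g)).f n := rfl

lemma comm2 : CFm (inclM g) ≫ (M g).hom = CochainComplex.mappingCone.inr (CFm g) := by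
  refine HomologicalComplex.Hom.ext (funext fun n => ?_)
  show iY g n ≫ (M g).hom.f n = _
  rw [M_f, Preadditive.comp_add, ← Category.assoc, ← Category.assoc, iY_pX, iY_pY, zero_comp,
    zero_add, Category.id_comp]

/-- the third map of the triangle of the mapping cone -/
def dl : CochainComplex.mappingCone (CFm g) ⟶
    (shiftFunctor (CochainComplex (GF (gZ f)) ℤ) (1 : ℤ)).obj (CF X) :=
  (CochainComplex.mappingCone.triangle (CFm g)).mor₃

variable (X) in
/-- the identity -/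
def sX (n : ℤ) : (CF X).X (n + 1) ⟶
    ((shiftFunctor (CochainComplex (GF (gZ f)) ℤ) (1 : ℤ)).obj (CF X)).X n :=
  𝟙 ((CF X).X (n + 1))

lemma inl_dl (n : ℤ) : (CochainComplex.mappingCone.inl (CFm g)).v (n + 1) n (by lia) ≫
    (dl g).f n = -(sX X n) :=
  (CochainComplex.mappingCone.inl_v_triangle_mor₃_f (CFm g) (n + 1) n (by lia)).trans rfl

lemma inr_dl (n : ℤ) : (CochainComplex.mappingCone.inr (CFm g)).f n ≫ (dl g).f n = 0 :=
  CochainComplex.mappingCone.inr_f_triangle_mor₃_f (CFm g) n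

lemma comm3 : CFm (projM g) ≫ (E X).hom = -((M g).hom ≫ dl g) := by
  refine HomologicalComplex.Hom.ext (funext fun n => ?_)
  have h1 : (CFm (projM g) ≫ (E X).hom).f n = pX g n ≫ sX X n := gf_ext (m8 X Y)
  have h2 : ((M g).hom ≫ dl g).f n = -(pX g n ≫ sX X n) := by
    rw [HomologicalComplex.comp_f, M_f, Preadditive.add_comp, Category.assoc, Category.assoc,
      inl_dl, inr_dl, comp_zero, add_zero, Preadditive.comp_neg]
  rw [HomologicalComplex.neg_f_apply, h2, neg_neg, h1]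

end

/-- the third square -/
lemma sq3 {C : Type*} [Category C] [Preadditive C] {A A' B B' D : C} {p : A ⟶ B} {e : B ⟶ B'}
    {cm : B' ⟶ D} {i : D ⟶ D} {m : A ⟶ A'} {d : A' ⟶ B'} (hi : i = 𝟙 D)
    (h : p ≫ e = -(m ≫ d)) : (p ≫ (-(e ≫ cm))) ≫ i = m ≫ d ≫ cm := by
  rw [hi, Category.comp_id, Preadditive.comp_neg, ← Category.assoc, h, Preadditive.neg_comp,
    neg_neg, Category.assoc]

end TRC_

theorem p_TRC : T_TRC := by
  intro f _
  refine ⟨TRC_.cI f, fun X Y g => ?_⟩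
  refine isomorphic_distinguished _
    (HomotopyCategory.mappingCone_triangleh_distinguished (CFm g)) _ ?_
  refine Triangle.isoMk _ _ (Iso.refl _) (Iso.refl _) ((qK (gZ f)).mapIso (TRC_.M g)) ?_ ?_ ?_
  · show (qK (gZ f)).map (CFm g) ≫ 𝟙 _ = 𝟙 _ ≫ (qK (gZ f)).map (CFm g)
    rw [Category.comp_id, Category.id_comp]
  · show (qK (gZ f)).map (CFm (inclM g)) ≫ (qK (gZ f)).map (TRC_.M g).hom =
      𝟙 _ ≫ (qK (gZ f)).map (CochainComplex.mappingCone.inr (CFm g))
    rw [Category.id_comp, ← Functor.map_comp, TRC_.comm2]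
  · have h : (qK (gZ f)).map (CFm (projM g)) ≫ (qK (gZ f)).map (TRC_.E X).hom =
        -((qK (gZ f)).map (TRC_.M g).hom ≫ (qK (gZ f)).map (TRC_.dl g)) := by
      rw [← Functor.map_comp, TRC_.comm3, Functor.map_neg, Functor.map_comp]
    exact TRC_.sq3 (cm := ((qK (gZ f)).commShiftIso (1 : ℤ)).hom.app (CF X))
      ((shiftFunctor (KK (gZ f)) (1 : ℤ)).map_id ((qK (gZ f)).obj (CF X))) h

end Pool.Agent.VDK
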