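import Pool.Agent.VDK.T1

/-!
# VDK: the natural triangle `Tlt X → X → Tge X`
-/

set_option autoImplicit false
set_option linter.unusedVariables false

open CategoryTheory CategoryTheory.Limits Pretriangulated

noncomputable section

namespace Pool.Agent.VDK

namespace TTR_

variable {A : Type} [CommRing A] [Algebra ℂ A] {𝒜 : ℤ → Submodule ℂ A}
  [SetLike.GradedMonoid 𝒜]

lemma mat_comp_resP {X Y : GF 𝒜} (u : Y.ι → Prop) (a : X ⟶ Y) (i : {i // u i}) (j : X.ι) :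
    mat (a ≫ resP Y u) i j = mat a i.1 j := by
  show ∑ k, (1 : Matrix Y.ι Y.ι A) i.1 k * mat a k j = mat a i.1 j
  rw [Finset.sum_eq_single i.1]
  · rw [Matrix.one_apply_eq, one_mul]
  · intro k _ hk
    rw [Matrix.one_apply_ne (Ne.symm hk), zero_mul]
  · intro h
    exact absurd (Finset.mem_univ _) h

lemma mat_resI_comp {X Y : GF 𝒜} (u : X.ι → Prop) (a : X ⟶ Y) (i : Y.ι) (j : {j // u j}) :
    mat (resI X u ≫ a) i j = mat a i j.1 := by
  show ∑ k, mat a i k * (1 : Matrix X.ι X.ι A) k j.1 = mat a i j.1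
  rw [Finset.sum_eq_single j.1]
  · rw [Matrix.one_apply_eq, mul_one]
  · intro k _ hk
    rw [Matrix.one_apply_ne hk, mul_zero]
  · intro h
    exact absurd (Finset.mem_univ _) h

lemma mat_resP_comp {X Y : GF 𝒜} (u : X.ι → Prop) (a : resX X u ⟶ Y) (i : Y.ι) (j : X.ι)
    (h : u j) : mat (resP X u ≫ a) i j = mat a i ⟨j, h⟩ := by
  classical
  show ∑ k : {k // u k}, mat a i k * (1 : Matrix X.ι X.ι A) k.1 j = mat a i ⟨j, h⟩
  rw [Finset.sum_eq_single (⟨j, h⟩ : {k // u k})]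
  · rw [Matrix.one_apply_eq, mul_one]
  · intro k _ hk
    rw [Matrix.one_apply_ne (fun h' => hk (Subtype.ext h')), mul_zero]
  · intro h
    exact absurd (Finset.mem_univ _) h

lemma mat_resP_comp' {X Y : GF 𝒜} (u : X.ι → Prop) (a : resX X u ⟶ Y) (i : Y.ι) (j : X.ι)
    (h : ¬ u j) : mat (resP X u ≫ a) i j = 0 := by
  classical
  show ∑ k : {k // u k}, mat a i k * (1 : Matrix X.ι X.ι A) k.1 j = 0
  refine Finset.sum_eq_zero fun k _ => ?_
  rw [Matrix.one_apply_ne (fun h' => h (by rw [← h']; exact k.2)), mul_zero]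

lemma mat_comp_resI {X Y : GF 𝒜} (u : Y.ι → Prop) (a : X ⟶ resX Y u) (i : Y.ι) (j : X.ι)
    (h : u i) : mat (a ≫ resI Y u) i j = mat a ⟨i, h⟩ j := by
  classical
  show ∑ k : {k // u k}, (1 : Matrix Y.ι Y.ι A) i k.1 * mat a k j = mat a ⟨i, h⟩ j
  rw [Finset.sum_eq_single (⟨i, h⟩ : {k // u k})]
  · rw [Matrix.one_apply_eq, one_mul]
  · intro k _ hk
    rw [Matrix.one_apply_ne (fun h' => hk (Subtype.ext h'.symm)), zero_mul]
  · intro h
    exact absurd (Finset.mem_univ _) h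

lemma mat_comp_resI' {X Y : GF 𝒜} (u : Y.ι → Prop) (a : X ⟶ resX Y u) (i : Y.ι) (j : X.ι)
    (h : ¬ u i) : mat (a ≫ resI Y u) i j = 0 := by
  classical
  show ∑ k : {k // u k}, (1 : Matrix Y.ι Y.ι A) i k.1 * mat a k j = 0
  refine Finset.sum_eq_zero fun k _ => ?_
  rw [Matrix.one_apply_ne (fun h' => h (by rw [h']; exact k.2)), zero_mul]

lemma resI_resP (X : GF 𝒜) (u : X.ι → Prop) : resI X u ≫ resP X u = 𝟙 (resX X u) := by
  refine gf_ext (Matrix.ext fun i j => ?_)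
  refine (mat_comp_resP u (resI X u) i j).trans ?_
  show (1 : Matrix X.ι X.ι A) i.1 j.1 = (1 : Matrix _ _ A) i j
  rw [Matrix.one_apply, Matrix.one_apply]
  exact if_congr Subtype.ext_iff.symm rfl rfl

lemma resI_resP_zero (X : GF 𝒜) (u v : X.ι → Prop) (h : ∀ i, u i → ¬ v i) :
    resI X u ≫ resP X v = 0 := by
  refine gf_ext (Matrix.ext fun i j => ?_)
  refine (mat_comp_resP v (resI X u) i j).trans ?_
  show (1 : Matrix X.ι X.ι A) i.1 j.1 = 0
  exact Matrix.one_apply_ne fun h' => h j.1 j.2 (by rw [← h']; exact i.2)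

lemma resP_resI_add (X : GF 𝒜) (u v : X.ι → Prop) (h : ∀ i, u i ↔ ¬ v i) :
    resP X u ≫ resI X u + resP X v ≫ resI X v = 𝟙 X := by
  refine gf_ext (Matrix.ext fun i j => ?_)
  show mat (resP X u ≫ resI X u) i j + mat (resP X v ≫ resI X v) i j =
    (1 : Matrix X.ι X.ι A) i j
  by_cases hu : u j
  · rw [mat_resP_comp u _ i j hu, mat_resP_comp' v _ i j ((h j).1 hu), add_zero]
    rfl
  · have hv : v j := by
      by_contra hv
      exact hu ((h j).2 hv)
    rw [mat_resP_comp' u _ i j hu, mat_resP_comp v _ i j hv, zero_add]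
    rfl

variable [NonNeg 𝒜] (c : ℤ)

lemma nat_P {X Y : GF 𝒜} (a : X ⟶ Y) :
    a ≫ resP Y (fun i => c ≤ Y.deg i) = resP X (fun i => c ≤ X.deg i) ≫ (tge 𝒜 c).map a := by
  refine gf_ext (Matrix.ext fun i j => ?_)
  refine (mat_comp_resP (fun i => c ≤ Y.deg i) a i j).trans ?_
  by_cases h : c ≤ X.deg j
  · exact (mat_resP_comp (fun i => c ≤ X.deg i) ((tge 𝒜 c).map a) i j h).symm
  · refine Eq.trans ?_ (mat_resP_comp' (fun i => c ≤ X.deg i) ((tge 𝒜 c).map a) i j h).symm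
    exact mat_eq_zero a _ _ (lt_of_lt_of_le (not_le.1 h) i.2)

lemma nat_I {X Y : GF 𝒜} (a : X ⟶ Y) :
    resI X (fun i => X.deg i < c) ≫ a = (tlt 𝒜 c).map a ≫ resI Y (fun i => Y.deg i < c) := by
  refine gf_ext (Matrix.ext fun i j => ?_)
  refine (mat_resI_comp (fun i => X.deg i < c) a i j).trans ?_
  by_cases h : Y.deg i < c
  · exact (mat_comp_resI (fun i => Y.deg i < c) ((tlt 𝒜 c).map a) i j h).symm
  · refine Eq.trans ?_ (mat_comp_resI' (fun i => Y.deg i < c) ((tlt 𝒜 c).map a) i j h).symm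
    exact mat_eq_zero a _ _ (lt_of_lt_of_le j.2 (not_lt.1 h))

/-- the projection `C → tge C` -/
def pC (C : CochainComplex (GF 𝒜) ℤ) :
    C ⟶ ((tge 𝒜 c).mapHomologicalComplex (ComplexShape.up ℤ)).obj C where
  f n := resP (C.X n) (fun i => c ≤ (C.X n).deg i)
  comm' i j _ := (nat_P c (C.d i j)).symm

/-- the inclusion `tlt C → C` -/
def iC (C : CochainComplex (GF 𝒜) ℤ) :
    ((tlt 𝒜 c).mapHomologicalComplex (ComplexShape.up ℤ)).obj C ⟶ C where
  f n := resI (C.X n) (fun i => (C.X n).deg i < c)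
  comm' i j _ := nat_I c (C.d i j)

lemma pC_nat {C D : CochainComplex (GF 𝒜) ℤ} (f : C ⟶ D) :
    f ≫ pC c D = pC c C ≫ ((tge 𝒜 c).mapHomologicalComplex (ComplexShape.up ℤ)).map f := by
  ext n : 1
  exact nat_P c (f.f n)

/-- the short exact sequence -/
def SC (C : CochainComplex (GF 𝒜) ℤ) : ShortComplex (CochainComplex (GF 𝒜) ℤ) where
  X₁ := ((tlt 𝒜 c).mapHomologicalComplex (ComplexShape.up ℤ)).obj C
  X₂ := C
  X₃ := ((tge 𝒜 c).mapHomologicalComplex (ComplexShape.up ℤ)).obj C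
  f := iC c C
  g := pC c C
  zero := by
    ext n : 1
    exact resI_resP_zero (C.X n) _ _ fun i hi => not_le.2 hi

/-- its degreewise splitting -/
def spl (C : CochainComplex (GF 𝒜) ℤ) (n : ℤ) :
    ((SC c C).map (HomologicalComplex.eval (GF 𝒜) (ComplexShape.up ℤ) n)).Splitting where
  r := resP (C.X n) (fun i => (C.X n).deg i < c)
  s := resI (C.X n) (fun i => c ≤ (C.X n).deg i)
  f_r := resI_resP (C.X n) _
  s_g := resI_resP (C.X n) _
  id := resP_resI_add (C.X n) (fun i => (C.X n).deg i < c) (fun i => c ≤ (C.X n).deg i)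
    fun i => not_le.symm

/-- the natural transformation -/
def pN : 𝟭 (KK 𝒜) ⟶ Tge 𝒜 c where
  app X := (qK 𝒜).map (pC c X.as)
  naturality X Y f := by
    obtain ⟨f, rfl⟩ := (qK 𝒜).map_surjective f
    show (qK 𝒜).map f ≫ (qK 𝒜).map (pC c Y.as) = (qK 𝒜).map (pC c X.as) ≫
      (qK 𝒜).map (((tge 𝒜 c).mapHomologicalComplex (ComplexShape.up ℤ)).map f)
    rw [← Functor.map_comp, ← Functor.map_comp, pC_nat]

end TTR_

open TTR_ in
theorem p_TTR : T_TTR := by
  intro A _ _ 𝒜 _ _ c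
  refine ⟨pN c, fun X => ?_⟩
  refine ⟨(qK 𝒜).map (iC c X.as),
    (CochainComplex.trianglehOfDegreewiseSplit (SC c X.as) (spl c X.as)).mor₃, ?_⟩
  exact (HomotopyCategory.distinguished_iff_iso_trianglehOfDegreewiseSplit _).2
    ⟨SC c X.as, spl c X.as, ⟨Iso.refl _⟩⟩

end Pool.Agent.VDK
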