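import Pool.Agent.VDK.T3

/-!
# VDK-U01: a graded isomorphism of rings gives an equivalence of the homotopy categories
-/

set_option autoImplicit false
set_option linter.unusedVariables false

open CategoryTheory CategoryTheory.Limits Pretriangulated

noncomputable section

namespace Pool.Agent.VDK

section

variable {A B : Type} [CommRing A] [CommRing B] [Algebra ℂ A] [Algebra ℂ B]
  {𝒜 : ℤ → Submodule ℂ A} {ℬ : ℤ → Submodule ℂ B} [SetLike.GradedMonoid 𝒜]
  [SetLike.GradedMonoid ℬ] (e : A ≃ₐ[ℂ] B) (h : ∀ m r, r ∈ 𝒜 m ↔ e r ∈ ℬ m)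

/-- The functor applying `e` to the entries of the matrices. -/
def U01_F : GF 𝒜 ⥤ GF ℬ where
  obj X := ⟨X.ι, X.deg⟩
  map {X Y} a := ofm (X := (⟨X.ι, X.deg⟩ : GF ℬ)) (Y := (⟨Y.ι, Y.deg⟩ : GF ℬ)) ((mat a).map e)
    fun i j => (h _ _).1 (mat_mem a i j)
  map_id X := gf_ext (by
    show ((1 : Matrix X.ι X.ι A).map e) = (1 : Matrix X.ι X.ι B)
    exact Matrix.map_one e (map_zero e) (map_one e))
  map_comp {X Y Z} a b := gf_ext (by
    show ((mat b * mat a).map e) = (mat b).map e * (mat a).map e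
    exact Matrix.map_mul)

instance : (U01_F e h).Additive where
  map_add {X Y} {a b} := gf_ext (by
    show ((mat a + mat b).map e) = (mat a).map e + (mat b).map e
    exact Matrix.map_add e (map_add e) _ _)

instance : (U01_F e h).Linear ℂ where
  map_smul {X Y} a c := gf_ext (by
    show ((c • mat a).map e) = c • (mat a).map e
    exact Matrix.ext fun i j => map_smul e c (mat a i j))

instance : (U01_F e h).Faithful where
  map_injective {X Y} a b hab := gf_ext (by
    have h1 : (mat a).map e = (mat b).map e := congrArg (fun t => mat t) hab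
    exact Matrix.ext fun i j => e.injective (congrFun (congrFun h1 i) j))

instance : (U01_F e h).Full where
  map_surjective {X Y} a := ⟨ofm (X := X) (Y := Y) ((mat a).map e.symm) (fun i j => by
      rw [h]
      show e (e.symm (mat a i j)) ∈ _
      rw [AlgEquiv.apply_symm_apply]
      exact mat_mem a i j), gf_ext (by
      refine Matrix.ext fun i j => ?_
      show e (e.symm (mat a i j)) = mat a i j
      exact AlgEquiv.apply_symm_apply e _)⟩

instance : (U01_F e h).EssSurj where
  mem_essImage Y := ⟨⟨Y.ι, Y.deg⟩, ⟨Iso.refl _⟩⟩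

instance : (U01_F e h).IsEquivalence where

/-- the functor between the homotopy categories -/
def U01_Phi : KK 𝒜 ⥤ KK ℬ := (U01_F e h).mapHomotopyCategory (ComplexShape.up ℤ)

instance : (U01_Phi e h).CommShift ℤ :=
  inferInstanceAs (((U01_F e h).mapHomotopyCategory (ComplexShape.up ℤ)).CommShift ℤ)

instance : (U01_Phi e h).IsTriangulated :=
  inferInstanceAs (((U01_F e h).mapHomotopyCategory (ComplexShape.up ℤ)).IsTriangulated)

instance : (U01_Phi e h).Linear ℂ :=
  inferInstanceAs (((U01_F e h).mapHomotopyCategory (ComplexShape.up ℤ)).Linear ℂ)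

instance : (U01_Phi e h).Full :=
  inferInstanceAs (((U01_F e h).mapHomotopyCategory (ComplexShape.up ℤ)).Full)

instance : (U01_Phi e h).Faithful :=
  inferInstanceAs (((U01_F e h).mapHomotopyCategory (ComplexShape.up ℤ)).Faithful)

instance : (U01_F e h).asEquivalence.functor.PreservesZeroMorphisms :=
  inferInstanceAs (U01_F e h).PreservesZeroMorphisms

/-- the complex of the inverse -/
def U01_inv (K : CochainComplex (GF ℬ) ℤ) : CochainComplex (GF 𝒜) ℤ :=
  ((U01_F e h).asEquivalence.mapHomologicalComplex (ComplexShape.up ℤ)).inverse.obj K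

/-- the counit -/
def U01_counit (K : CochainComplex (GF ℬ) ℤ) :
    (U01_Phi e h).obj ((qK 𝒜).obj (U01_inv e h K)) ≅ (qK ℬ).obj K :=
  (qK ℬ).mapIso
    (((U01_F e h).asEquivalence.mapHomologicalComplex (ComplexShape.up ℤ)).counitIso.app K)

instance : (U01_Phi e h).EssSurj where
  mem_essImage := by
    rintro ⟨K⟩
    exact ⟨(qK 𝒜).obj (U01_inv e h K), ⟨U01_counit e h K⟩⟩

instance : (U01_Phi e h).IsEquivalence where

lemma U01_OK (m : ℤ) : Nonempty ((U01_Phi e h).obj (OK 𝒜 m) ≅ OK ℬ m) :=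
  ⟨(qK ℬ).mapIso ((HomologicalComplex.singleMapHomologicalComplex (U01_F e h)
    (ComplexShape.up ℤ) 0).app (GF.tw 𝒜 m))⟩

lemma U01_le (K : CochainComplex (GF 𝒜) ℤ) (n : ℤ) (hK : K.IsStrictlyLE n) :
    CochainComplex.IsStrictlyLE (((U01_F e h).mapHomologicalComplex (ComplexShape.up ℤ)).obj K) n := by
  rw [CochainComplex.isStrictlyLE_iff]
  intro i hi
  exact (U01_F e h).map_isZero (K.isZero_of_isStrictlyLE n i hi)

lemma U01_le' (K : CochainComplex (GF ℬ) ℤ) (n : ℤ) (hK : K.IsStrictlyLE n) :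
    (U01_inv e h K).IsStrictlyLE n := by
  rw [CochainComplex.isStrictlyLE_iff]
  intro i hi
  exact (U01_F e h).asEquivalence.inverse.map_isZero (K.isZero_of_isStrictlyLE n i hi)

lemma U01_bdd (C : KK 𝒜) : BddAbove 𝒜 C ↔ BddAbove ℬ ((U01_Phi e h).obj C) := by
  constructor
  · rintro ⟨K, n, hK, ⟨i⟩⟩
    exact ⟨((U01_F e h).mapHomologicalComplex (ComplexShape.up ℤ)).obj K, n, U01_le e h K n hK,
      ⟨(U01_Phi e h).mapIso i⟩⟩
  · rintro ⟨K, n, hK, ⟨i⟩⟩
    exact ⟨U01_inv e h K, n, U01_le' e h K n hK,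
      ⟨(U01_Phi e h).preimageIso (i ≪≫ (U01_counit e h K).symm)⟩⟩

end

/-- `T_U01` -/
theorem p_U01 : T_U01 := by
  intro A B _ _ _ _ 𝒜 ℬ _ _ e h
  exact ⟨U01_Phi e h, inferInstance, inferInstance, inferInstance, inferInstance, U01_OK e h,
    U01_bdd e h⟩

end Pool.Agent.VDK

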