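import Pool.Agent.VDK.T3

/-!
# VDK: U02, equivalences preserve the cohomology
-/

set_option autoImplicit false
set_option linter.unusedVariables false

open CategoryTheory CategoryTheory.Limits Pretriangulated

noncomputable section

namespace Pool.Agent.VDK

namespace U02_

lemma coh {A B : Type} [CommRing A] [CommRing B] [Algebra ℂ A] [Algebra ℂ B]
    (𝒜 : ℤ → Submodule ℂ A) (ℬ : ℤ → Submodule ℂ B) [SetLike.GradedMonoid 𝒜]
    [SetLike.GradedMonoid ℬ] (Φ : KK 𝒜 ⥤ KK ℬ) [Φ.CommShift ℤ] (hE : Φ.IsEquivalence)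
    (n d : ℤ) (e : Φ.obj (OK 𝒜 (-d)) ≅ OK ℬ (-d)) (C : KK 𝒜) :
    CohZero C n d ↔ CohZero (Φ.obj C) n d := by
  have hz : ∀ {X Y : KK 𝒜}, Φ.map (0 : X ⟶ Y) = 0 := fun {X Y} =>
    Functor.map_zero Φ X Y
  constructor
  · intro h x
    obtain ⟨z, hz'⟩ := Φ.map_surjective (e.hom ≫ x ≫ (Φ.commShiftIso n).inv.app C)
    have h0 : z = 0 := h z
    rw [h0, hz] at hz'
    have h1 : x ≫ (Φ.commShiftIso n).inv.app C = 0 := by
      rw [← cancel_epi e.hom, ← hz', comp_zero]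
    rw [← cancel_mono ((Φ.commShiftIso n).inv.app C), h1, zero_comp]
  · intro h x
    have h1 := h (e.inv ≫ Φ.map x ≫ (Φ.commShiftIso n).hom.app C)
    have h2 : Φ.map x ≫ (Φ.commShiftIso n).hom.app C = 0 := by
      rw [← cancel_epi e.inv, h1, comp_zero]
    have h3 : Φ.map x = 0 := by
      rw [← cancel_mono ((Φ.commShiftIso n).hom.app C), h2, zero_comp]
    exact Φ.map_injective (h3.trans hz.symm)

end U02_

theorem p_U02 : T_U02 := by
  intro A B _ _ _ _ 𝒜 ℬ _ _ Φ _ hE hT hO hB C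
  have hc : ∀ n d, CohZero C n d ↔ CohZero (Φ.obj C) n d := fun n d =>
    U02_.coh 𝒜 ℬ Φ hE n d (hO (-d)).some C
  refine ⟨hc, and_congr (hB C) (exists_congr fun N => forall_congr' fun n => ?_),
    and_congr (hB C) ?_⟩
  · exact imp_congr_right fun _ => forall_congr' fun d => hc n d
  · have h : {p : ℤ × ℤ | ¬ CohZero C p.1 p.2} = {p : ℤ × ℤ | ¬ CohZero (Φ.obj C) p.1 p.2} :=
      Set.ext fun p => not_congr (hc p.1 p.2)
    rw [h]

end Pool.Agent.VDK
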