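import Pool.Agent.VDK.T3

/-!
# VDK-U03: equivalences of full triangulated subcategories
-/

set_option autoImplicit false
set_option linter.unusedVariables false

open CategoryTheory CategoryTheory.Limits Pretriangulated

noncomputable section

namespace Pool.Agent.VDK

/-- VDK-U03 -/
theorem p_U03.{w} : T_U03.{w} := by
  intro D _ _ _ _ _ _ _ D' _ _ _ _ _ _ _ P _ _ P' _ _ E _ hE hT hL hP
  let G : P.FullSubcategory ⥤ P'.FullSubcategory :=
    P'.lift (P.ι ⋙ E) (fun X => (hP _).1 X.2)
  have hes : G.EssSurj := by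
    refine ⟨fun Y => ?_⟩
    let X : D := E.objPreimage Y.obj
    let e : E.obj X ≅ Y.obj := E.objObjPreimageIso Y.obj
    have hX : P X := (hP X).2 (P'.prop_of_iso e.symm Y.2)
    exact ⟨⟨X, hX⟩, ⟨P'.isoMk e⟩⟩
  have hful : G.Full := inferInstance
  have hfai : G.Faithful := inferInstance
  refine ⟨G, inferInstance, { }, inferInstance, ?_, ⟨Iso.refl _⟩⟩
  refine ⟨fun f r => ?_⟩
  apply P'.ι.map_injective
  show E.map (P.ι.map (r • f)) = P'.ι.map (r • G.map f)
  rw [Functor.map_smul, Functor.map_smul, Functor.map_smul]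
  rfl

end Pool.Agent.VDK
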