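import Pool.Agent.VDK.T3

/-!
# VDK: target U04, equivalences of Verdier quotients
-/

set_option autoImplicit false
set_option linter.unusedVariables false

open CategoryTheory CategoryTheory.Limits Pretriangulated MvPolynomial AlgebraicGeometry
  Pool.Agent.VDC

noncomputable section

namespace Pool.Agent.VDK

namespace U04_

variable {D : Type 1} [Category.{0} D] [HasZeroObject D] [HasShift D ℤ] [Preadditive D]
    [∀ n : ℤ, (shiftFunctor D n).Additive] [Pretriangulated D]
    {D' : Type 1} [Category.{0} D'] [HasZeroObject D'] [HasShift D' ℤ] [Preadditive D']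
    [∀ n : ℤ, (shiftFunctor D' n).Additive] [Pretriangulated D']

/-- `E` as a morphism of localizers -/
def loc (S : ObjectProperty D) (S' : ObjectProperty D')
    [S'.IsClosedUnderIsomorphisms] (E : D ⥤ D') [E.CommShift ℤ] [E.IsTriangulated]
    (h : S = S'.inverseImage E) : LocalizerMorphism S.trW S'.trW where
  functor := E
  map X Y f hf := by
    subst h
    exact (S'.inverseImage_trW_iff E f).1 hf

lemma le_map (S : ObjectProperty D) (S' : ObjectProperty D')
    [S'.IsClosedUnderIsomorphisms] (E : D ⥤ D') [E.CommShift ℤ] [E.IsTriangulated]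
    [E.IsEquivalence] (h : S = S'.inverseImage E) : S'.trW ≤ S.trW.map E := by
  subst h
  intro X Y f hf
  have e := E.mapArrow.objObjPreimageIso (Arrow.mk f)
  refine ⟨_, _, (E.mapArrow.objPreimage (Arrow.mk f)).hom, ?_, ⟨e⟩⟩
  rw [S'.inverseImage_trW_iff E]
  exact (S'.trW.arrow_mk_iso_iff e).2 hf

end U04_

open U04_ in
theorem p_U04 : T_U04 := by
  intro D _ _ _ _ _ _ _ _ D' _ _ _ _ _ _ _ _ S _ _ S' _ _ E iE hE hT hL hS
  have h : S = S'.inverseImage E := by
    ext X
    exact hS X
  let Φ : LocalizerMorphism S.trW S'.trW := loc S S' E h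
  have : Φ.functor.IsEquivalence := hE
  let iΦ : Φ.functor.CommShift ℤ := iE
  have : Φ.functor.IsTriangulated := hT
  have : Φ.functor.Linear ℂ := hL
  have : Φ.IsLocalizedEquivalence :=
    LocalizerMorphism.IsLocalizedEquivalence.of_equivalence Φ (le_map S S' E h)
  let G : S.trW.Localization ⥤ S'.trW.Localization := Φ.localizedFunctor S.trW.Q S'.trW.Q
  let e : Φ.functor ⋙ S'.trW.Q ≅ S.trW.Q ⋙ G := CatCommSq.iso Φ.functor S.trW.Q S'.trW.Q G
  have : NatTrans.CommShift e.symm.hom ℤ := inferInstanceAs (NatTrans.CommShift e.inv ℤ)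
  have := Localization.essSurj_mapArrow S.trW.Q S.trW
  refine ⟨G, inferInstance, inferInstance, ?_, ?_, ⟨e.symm⟩⟩
  · exact Functor.isTriangulated_of_precomp_iso e.symm
  · exact (Localization.functor_linear_iff S.trW.Q S.trW ℂ (Φ.functor ⋙ S'.trW.Q) G).1
      inferInstance

end Pool.Agent.VDK
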