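import Pool.Agent.VDK.T3

/-!
# VDK-U06: composition of equivalences of Kuznetsov components
-/

set_option autoImplicit false
set_option linter.unusedVariables false

open CategoryTheory CategoryTheory.Limits Pretriangulated MvPolynomial Pool.Agent.VDC

noncomputable section

namespace Pool.Agent.VDK

namespace U06_

universe v₁ v₂ v₃ u₁ u₂ u₃

variable {C : Type u₁} [Category.{v₁} C] [HasZeroObject C] [HasShift C ℤ] [Preadditive C]
  [∀ n : ℤ, (shiftFunctor C n).Additive] [Pretriangulated C] [Linear ℂ C]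
  {D : Type u₂} [Category.{v₂} D] [HasZeroObject D] [HasShift D ℤ] [Preadditive D]
  [∀ n : ℤ, (shiftFunctor D n).Additive] [Pretriangulated D] [Linear ℂ D]
  {E : Type u₃} [Category.{v₃} E] [HasZeroObject E] [HasShift E ℤ] [Preadditive E]
  [∀ n : ℤ, (shiftFunctor E n).Additive] [Pretriangulated E] [Linear ℂ E]

lemma exists_comp (F : C ⥤ D) (G : D ⥤ E) (h1 : F.IsEquivalence) (h2 : G.IsEquivalence)
    (c1 : F.CommShift ℤ) (c2 : G.CommShift ℤ) (t1 : F.IsTriangulated) (t2 : G.IsTriangulated)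
    (l1 : F.Linear ℂ) (l2 : G.Linear ℂ) :
    ∃ (H : C ⥤ E) (_ : H.CommShift ℤ), H.IsEquivalence ∧ H.IsTriangulated ∧ H.Linear ℂ :=
  ⟨F ⋙ G, inferInstance, inferInstance, inferInstance, inferInstance⟩

end U06_

theorem p_U06 : T_U06 := by
  intro A B C _ _ _ _ _ _ 𝒜 ℬ 𝒞 _ _ _ ⟨e₁⟩ ⟨e₂⟩
  obtain ⟨H, h1, h2, h3, h4⟩ := U06_.exists_comp e₁.F e₂.F e₁.isEquiv e₂.isEquiv e₁.comm e₂.comm
    e₁.tri e₂.tri e₁.lin e₂.lin
  exact ⟨{ F := H, isEquiv := h2, comm := h1, tri := h3, lin := h4 }⟩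

end Pool.Agent.VDK
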