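import Pool.Agent.VDK.T1
set_option autoImplicit false
open CategoryTheory MvPolynomial Pool.Agent.VDC
namespace Pool.Agent.VDK
theorem p_UMM : T_UMM := by
  refine ⟨?_, ?_, ?_, ?_⟩
  · intro f ι κ μ _ M M'
    obtain ⟨P, Q, rfl⟩ : ∃ P Q, M = rm f P Q := ⟨reM M, imM M, rfl⟩
    obtain ⟨P', Q', rfl⟩ : ∃ P Q, M' = rm f P Q := ⟨reM M', imM M', rfl⟩
    rw [rm_mul]
    unfold um
    rw [reM_rm, imM_rm, reM_rm, imM_rm, reM_rm, imM_rm, Matrix.fromBlocks_multiply]
    congr 1
    · rw [Matrix.neg_mul, Matrix.smul_mul, sub_eq_add_neg]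
    · rw [Matrix.mul_neg, Matrix.mul_smul, Matrix.neg_mul, Matrix.smul_mul, smul_add, neg_add]
    · rw [add_comm]
    · rw [Matrix.mul_neg, Matrix.mul_smul, sub_eq_add_neg, add_comm]
  · intro f ι κ M M'
    unfold um
    rw [Matrix.fromBlocks_add]
    congr 1
    show -(f • (imM M + imM M')) = _
    rw [smul_add, neg_add]
  · intro f ι κ M h
    have h1 := congrArg Matrix.toBlocks₁₁ h
    have h2 := congrArg Matrix.toBlocks₂₁ h
    unfold um at h1 h2
    rw [Matrix.toBlocks_fromBlocks₁₁] at h1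
    rw [Matrix.toBlocks_fromBlocks₂₁] at h2
    rw [← rm_eta M, h1, h2]
    rfl
  · intro f _ X Y a
    have hm := fun i j => mat_mem a i j
    refine ⟨?_, ?_⟩
    · rintro (i | i) (j | j)
      · exact (hm i j).1
      · exact (((H6.out (f := f)).mul (hm i j).2).neg).congr (by
          show (6 : ℤ) + (X.deg j - Y.deg i - 3) = X.deg j + 3 - Y.deg i
          ring)
      · exact (hm i j).2.congr (by
          show X.deg j - Y.deg i - 3 = X.deg j - (Y.deg i + 3)
          ring)
      · exact (hm i j).1.congr (by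
          show X.deg j - Y.deg i = X.deg j + 3 - (Y.deg i + 3)
          ring)
    · show Matrix.fromBlocks 0 (-(f • (1 : Matrix Y.ι Y.ι Sr))) 1 0 * um (mat a) =
        um (mat a) * Matrix.fromBlocks 0 (-(f • (1 : Matrix X.ι X.ι Sr))) 1 0
      unfold um
      rw [Matrix.fromBlocks_multiply, Matrix.fromBlocks_multiply]
      congr 1 <;> simp
end Pool.Agent.VDK
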