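import Pool.Agent.VDK.T1
import Pool.Agent.VDC.P_EUL

/-!
# VDK: unipotent homogeneous matrices are invertible (UNI)
-/

set_option autoImplicit false

open MvPolynomial CategoryTheory Pool.Agent.VDC

noncomputable section

namespace Pool.Agent.VDK

namespace UNI_

theorem coeff_zero {p : Sr} (hp : p ∈ mI Finset.univ 1) : coeff 0 p = 0 := by
  have h : mI Finset.univ 1 ≤ RingHom.ker (constantCoeff : Sr →+* ℂ) := by
    unfold mI
    rw [Ideal.span_le]
    rintro _ ⟨j, -, rfl⟩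
    show (X j : Sr) ^ (1 : Fin 4 → ℕ) j ∈ RingHom.ker (constantCoeff : Sr →+* ℂ)
    rw [RingHom.mem_ker, Pi.one_apply, pow_one, constantCoeff_X]
  have h1 := h hp
  rw [RingHom.mem_ker, constantCoeff_eq] at h1
  exact h1

theorem wd_pos {a : Fin 4 →₀ ℕ} (ha : a ≠ 0) : 1 ≤ wd a := by
  rw [wd, Fin.sum_univ_four]
  by_contra h
  apply ha
  have e0 : wt 0 = 1 := rfl
  have e1 : wt 1 = 1 := rfl
  have e2 : wt 2 = 1 := rfl
  have e3 : wt 3 = 2 := rfl
  rw [e0, e1, e2, e3] at h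
  ext i
  fin_cases i
  · show a 0 = 0
    omega
  · show a 1 = 0
    omega
  · show a 2 = 0
    omega
  · show a 3 = 0
    omega

theorem one_mem (K : PO) : (1 : Matrix K.ι K.ι Sr) ∈ HM K K 0 := by
  intro i j a ha
  by_cases hij : i = j
  · subst hij
    rw [Matrix.one_apply_eq, coeff_one] at ha
    have h0 : a = 0 := by
      by_contra h1
      exact ha (if_neg fun h2 => h1 h2.symm)
    subst h0
    simp [wd]
  · rw [Matrix.one_apply_ne hij] at ha
    exact absurd (by simp) ha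

theorem pow_mem {K : PO} {g : Matrix K.ι K.ι Sr} (hg : g ∈ HM K K 0) (k : ℕ) :
    g ^ k ∈ HM K K 0 := by
  induction k with
  | zero =>
    rw [pow_zero]
    exact one_mem K
  | succ k ih =>
    rw [pow_succ]
    exact EUL_.HM_cast (EUL_.HM_mul hg ih) (add_zero 0)

theorem step {K : PO} {g : Matrix K.ι K.ι Sr} (hg : g ∈ HM K K 0)
    (hI : g ∈ IM (mI Finset.univ 1) K.ι K.ι) {i j : K.ι} (h : g i j ≠ 0) :
    K.deg i + 1 ≤ K.deg j := by
  obtain ⟨a, ha⟩ := MvPolynomial.ne_zero_iff.1 h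
  have h1 : a ≠ 0 := by
    rintro rfl
    exact ha (coeff_zero (hI i j))
  have h2 := wd_pos h1
  have h3 := hg i j a ha
  omega

theorem pow_step {K : PO} {g : Matrix K.ι K.ι Sr} (hg : g ∈ HM K K 0)
    (hI : g ∈ IM (mI Finset.univ 1) K.ι K.ι) (k : ℕ) :
    ∀ i j : K.ι, (g ^ k) i j ≠ 0 → K.deg i + k ≤ K.deg j := by
  induction k with
  | zero =>
    intro i j h
    by_cases hij : i = j
    · subst hij
      simp
    · rw [pow_zero, Matrix.one_apply_ne hij] at h
      exact absurd rfl h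
  | succ k ih =>
    intro i j h
    rw [pow_succ, Matrix.mul_apply] at h
    obtain ⟨l, -, hl⟩ := Finset.exists_ne_zero_of_sum_ne_zero h
    have h1 := ih i l (left_ne_zero_of_mul hl)
    have h2 := step hg hI (right_ne_zero_of_mul hl)
    push_cast
    omega

end UNI_

open UNI_ in
/-- `T_UNI`. -/
theorem p_UNI : T_UNI := by
  intro K u hu h1u
  obtain ⟨g, hg⟩ : ∃ g, g = 1 - u := ⟨_, rfl⟩
  rw [← hg] at h1u
  have hgm : g ∈ HM K K 0 := by
    rw [hg]
    exact sub_mem (one_mem K) hu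
  obtain ⟨N, hN⟩ : ∃ N : ℕ, ∀ i j : K.ι, K.deg j - K.deg i < N := by
    refine ⟨(∑ i, ∑ j, |K.deg j - K.deg i|).toNat + 1, fun i j => ?_⟩
    have h1 : |K.deg j - K.deg i| ≤ ∑ j, |K.deg j - K.deg i| :=
      Finset.single_le_sum (f := fun j => |K.deg j - K.deg i|)
        (fun _ _ => abs_nonneg _) (Finset.mem_univ j)
    have h2 : ∑ j, |K.deg j - K.deg i| ≤ ∑ i, ∑ j, |K.deg j - K.deg i| :=
      Finset.single_le_sum (f := fun i => ∑ j, |K.deg j - K.deg i|)
        (fun _ _ => Finset.sum_nonneg fun _ _ => abs_nonneg _) (Finset.mem_univ i)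
    have h3 := le_abs_self (K.deg j - K.deg i)
    have h4 := Int.self_le_toNat (∑ i, ∑ j, |K.deg j - K.deg i|)
    push_cast
    omega
  have h0 : g ^ N = 0 := by
    ext1 i j
    by_contra h
    have h1 := pow_step hgm h1u N i j h
    have h2 := hN i j
    omega
  have hug : u = 1 - g := by rw [hg, sub_sub_cancel]
  refine ⟨∑ k ∈ Finset.range N, g ^ k, sum_mem fun k _ => pow_mem hgm k, ?_, ?_⟩
  · rw [hug, mul_neg_geom_sum, h0, sub_zero]
  · rw [hug, geom_sum_mul_neg, h0, sub_zero]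

end Pool.Agent.VDK
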