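import Pool.Agent.VDK.T2

/-!
# VDK, target VLA: morphisms in a Verdier quotient
-/

set_option autoImplicit false

open CategoryTheory CategoryTheory.Limits Pretriangulated

noncomputable section

namespace Pool.Agent.VDK

section

variable {C : Type 1} [Category.{0} C] [HasZeroObject C] [HasShift C ℤ] [Preadditive C]
  [∀ n : ℤ, (shiftFunctor C n).Additive] [Pretriangulated C] [IsTriangulated C]
  (S : ObjectProperty C) [S.IsTriangulated] [S.IsClosedUnderIsomorphisms] (N M : C)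

omit [HasZeroObject C] [∀ n : ℤ, (shiftFunctor C n).Additive] [Pretriangulated C]
  [IsTriangulated C] in
private theorem VLA_zero (A : C) (h : ∀ (k : ℤ) (y : (shiftFunctor C k).obj A ⟶ M), y = 0)
    (y : A ⟶ M) : y = 0 := by
  have h1 := h 0 ((shiftFunctorZero C ℤ).hom.app A ≫ y)
  rw [← cancel_epi ((shiftFunctorZero C ℤ).hom.app A), h1, comp_zero]

omit [IsTriangulated C] [S.IsTriangulated] [S.IsClosedUnderIsomorphisms] in
/-- The refinement of a denominator: a smaller denominator with cone `A` not mapping to `M`. -/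
private theorem VLA_refine
    (H : ∀ (T : C) (g : N ⟶ T), S T → ∃ (A : C) (u : N ⟶ A) (v : A ⟶ T), S A ∧ u ≫ v = g ∧
      ∀ (k : ℤ) (y : (shiftFunctor C k).obj A ⟶ M), y = 0)
    {N' : C} (s : N' ⟶ N) (hs : S.trW s) :
    ∃ (N₂ A : C) (w : N₂ ⟶ N') (u : N ⟶ A) (h : A ⟶ N₂⟦(1 : ℤ)⟧), S A ∧
      (∀ (k : ℤ) (y : (shiftFunctor C k).obj A ⟶ M), y = 0) ∧
      Triangle.mk (w ≫ s) u h ∈ distTriang C := by
  rw [S.trW_iff] at hs
  obtain ⟨T, t, t', hT, hST⟩ := hs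
  obtain ⟨A, u, v, hA, huv, hAM⟩ := H T t hST
  obtain ⟨N₂, i, h, hi⟩ := distinguished_cocone_triangle₁ u
  have h1 : i ≫ t = 0 := by
    have h2 : i ≫ u = 0 := comp_distTriang_mor_zero₁₂ _ hi
    rw [← huv, ← Category.assoc, h2, zero_comp]
  obtain ⟨w, hw⟩ : ∃ w : N₂ ⟶ N', i = w ≫ s := Triangle.coyoneda_exact₂ _ hT i h1
  refine ⟨N₂, A, w, u, h, hA, hAM, ?_⟩
  rw [← hw]
  exact hi

end

theorem p_VLA : T_VLA := by
  intro C _ _ _ _ _ _ _ S _ _ N M H
  constructor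
  · intro g₁ g₂ hg
    rw [MorphismProperty.map_eq_iff_precomp S.trW.Q S.trW] at hg
    obtain ⟨N', s, hs, hsg⟩ := hg
    obtain ⟨N₂, A, w, u, h, hA, hAM, hT⟩ := VLA_refine S N M H s hs
    have h1 : (Triangle.mk (w ≫ s) u h).mor₁ ≫ (g₁ - g₂) = 0 := by
      change (w ≫ s) ≫ (g₁ - g₂) = 0
      rw [Category.assoc, Preadditive.comp_sub, hsg, sub_self, comp_zero]
    obtain ⟨y, hy⟩ := Triangle.yoneda_exact₂ _ hT (g₁ - g₂) h1
    have h2 : y = 0 := VLA_zero M A hAM y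
    rw [h2, comp_zero] at hy
    exact sub_eq_zero.1 hy
  · intro α
    obtain ⟨φ, hφ⟩ := Localization.exists_rightFraction S.trW.Q S.trW α
    obtain ⟨N₂, A, w, u, h, hA, hAM, hT⟩ := VLA_refine S N M H φ.s φ.hs
    have hT' := inv_rot_of_distTriang _ hT
    obtain ⟨β, hβ'⟩ : ∃ β : N ⟶ M, w ≫ φ.f = (w ≫ φ.s) ≫ β :=
      Triangle.yoneda_exact₂ _ hT' (w ≫ φ.f) (by
        have h1 := hAM (-1)
          ((Triangle.mk (w ≫ φ.s) u h).invRotate.mor₁ ≫ (w ≫ φ.f))
        exact h1)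
    refine ⟨β, ?_⟩
    have hW : S.trW (w ≫ φ.s) := ObjectProperty.trW.mk S hT hA
    have hiso : IsIso (S.trW.Q.map (w ≫ φ.s)) := Localization.inverts S.trW.Q S.trW _ hW
    rw [← cancel_epi (S.trW.Q.map (w ≫ φ.s)), ← Functor.map_comp, ← hβ', hφ,
      Functor.map_comp, Functor.map_comp, Category.assoc,
      MorphismProperty.RightFraction.map_s_comp_map]

end Pool.Agent.VDK
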