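import Pool.Agent.VDK.T2

/-!
# VDK: no maps from `OK m` (`m ≤ 1`) and `Psi F` to complexes in `Low` (helper13)
-/

set_option autoImplicit false
set_option linter.unusedVariables false

open CategoryTheory CategoryTheory.Limits Pretriangulated MvPolynomial Pool.Agent.VDC

noncomputable section

namespace Pool.Agent.VDK

namespace VLN_

variable {A : Type} [CommRing A] [Algebra ℂ A] {𝒜 : ℤ → Submodule ℂ A} [SetLike.GradedMonoid 𝒜]

lemma isZero_of_isEmpty (X : GF 𝒜) (h : IsEmpty X.ι) : IsZero X :=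
  ⟨fun Y => ⟨⟨⟨0⟩, fun a => gf_ext (Matrix.ext fun i j => h.elim j)⟩⟩,
    fun Y => ⟨⟨⟨0⟩, fun a => gf_ext (Matrix.ext fun i j => h.elim i)⟩⟩⟩

/-- maps from a shift -/
lemma of_shift {X B : KK 𝒜} {k : ℤ} (h : ∀ y : X ⟶ (shiftFunctor (KK 𝒜) (-k)).obj B, y = 0)
    (x : (shiftFunctor (KK 𝒜) k).obj X ⟶ B) : x = 0 := by
  have h1 := h ((shiftShiftNeg X k).inv ≫ (shiftFunctor (KK 𝒜) (-k)).map x)
  have h2 : (shiftFunctor (KK 𝒜) (-k)).map x = 0 := by
    rw [← cancel_epi (shiftShiftNeg X k).inv, h1, comp_zero]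
  exact (shiftFunctor (KK 𝒜) (-k)).map_injective (h2.trans (Functor.map_zero _ _ _).symm)

lemma low_shift {B : KK 𝒜} (h : Low 𝒜 B) (k : ℤ) : Low 𝒜 ((shiftFunctor (KK 𝒜) k).obj B) :=
  fun n d hd => (h (k + n) d hd).shift

/-- the complex which represents `Psi F` -/
def NP {f : Sr} [H6 f] (F : CM f) : CochainComplex (GF (gZ f)) ℤ :=
  ((tge (gZ f) 1).mapHomologicalComplex (ComplexShape.up ℤ)).obj (CF F)

lemma np_le {f : Sr} [H6 f] (F : CM f) : (NP F).IsStrictlyLE (∑ i, |F.deg i|) := by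
  rw [CochainComplex.isStrictlyLE_iff]
  intro n hn
  refine isZero_of_isEmpty _ ⟨?_⟩
  rintro ⟨i, hi⟩
  have h1 : (1 : ℤ) ≤ F.deg i - 3 * n := hi
  have h2 : |F.deg i| ≤ ∑ i, |F.deg i| :=
    Finset.single_le_sum (f := fun i => |F.deg i|) (fun _ _ => abs_nonneg _) (Finset.mem_univ i)
  have h3 := le_abs_self (F.deg i)
  have h4 := abs_nonneg (F.deg i)
  lia

end VLN_

open VLN_ in
theorem p_VLN (h_HTD : T_HTD) : T_VLN := by
  intro f _ B hB
  refine ⟨fun m hm k x => of_shift (fun y => ?_) x, fun F k x => of_shift (fun y => ?_) x⟩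
  · have h := hB (-k) (-m) (by lia)
    unfold CohZero at h
    rw [neg_neg] at h
    exact h y
  · have h := low_shift hB (-k)
    refine h_HTD (RR f) (gZ f) (NP F) _ _ (np_le F) (fun n i => h n _ ?_) y
    have h1 : (1 : ℤ) ≤ ((NP F).X n).deg i := i.2
    lia

end Pool.Agent.VDK
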