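import Pool.Agent.VDC.All
import Pool.Agent.VDC.P_ISO
import Pool.Agent.VDC.P_KA
import Pool.Agent.VDK.P_ACF
import Pool.Agent.VDK.P_ACZ
import Pool.Agent.VDK.P_PBD
import Pool.Agent.VDK.P_TTR
import Pool.Agent.VDK.P_HTU
import Pool.Agent.VDK.P_CCF
import Pool.Agent.VDK.P_HLG
import Pool.Agent.VDK.P_FFC
import Pool.Agent.VDK.P_FFP
import Pool.Agent.VDK.P_VLA
import Pool.Agent.VDK.P_RTR
import Pool.Agent.VDK.P_SGL
import Pool.Agent.VDK.P_HTD
import Pool.Agent.VDK.P_PEX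
import Pool.Agent.VDK.P_KCX
import Pool.Agent.VDK.P_HPK
import Pool.Agent.VDK.P_GPK
import Pool.Agent.VDK.P_DES
import Pool.Agent.VDK.P_TPK
import Pool.Agent.VDK.P_FIN
import Pool.Agent.VDK.P_GFN
import Pool.Agent.VDK.P_DEC
import Pool.Agent.VDK.P_KRX
import Pool.Agent.VDK.P_COP
import Pool.Agent.VDK.P_HPS
import Pool.Agent.VDK.P_LFQ
import Pool.Agent.VDK.P_VLN
import Pool.Agent.VDK.P_LFF
import Pool.Agent.VDK.P_HOP
import Pool.Agent.VDK.P_LOR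
import Pool.Agent.VDK.P_TRC
import Pool.Agent.VDK.P_STG
import Pool.Agent.VDK.P_STL
import Pool.Agent.VDK.P_SOD
import Pool.Agent.VDK.P_IMG
import Pool.Agent.VDK.P_RTI
import Pool.Agent.VDK.P_SNG
import Pool.Agent.VDK.P_BDC
import Pool.Agent.VDK.P_PSR
import Pool.Agent.VDK.P_GE1
import Pool.Agent.VDK.P_LIF
import Pool.Agent.VDK.P_EX0
import Pool.Agent.VDK.P_EXS
import Pool.Agent.VDK.P_EXV
import Pool.Agent.VDK.P_UNI
import Pool.Agent.VDK.P_GIV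
import Pool.Agent.VDK.P_SPI
import Pool.Agent.VDK.P_UMM
import Pool.Agent.VDK.P_MCM
import Pool.Agent.VDK.P_EQI
import Pool.Agent.VDK.P_TAI
import Pool.Agent.VDK.P_GE2
import Pool.Agent.VDK.P_HUL
import Pool.Agent.VDK.P_ESS
import Pool.Agent.VDK.P_TRA
import Pool.Agent.VDK.P_KUE
import Pool.Agent.VDK.P_N08
import Pool.Agent.VDK.P_N09
import Pool.Agent.VDK.P_N02
import Pool.Agent.VDK.P_N04
import Pool.Agent.VDK.P_N01
import Pool.Agent.VDK.P_N06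
import Pool.Agent.VDK.P_N10
import Pool.Agent.VDK.P_N03
import Pool.Agent.VDK.P_N05
import Pool.Agent.VDK.P_N07
import Pool.Agent.VDK.P_N11
import Pool.Agent.VDK.P_N12
import Pool.Agent.VDK.P_N13
import Pool.Agent.VDK.P_N14
import Pool.Agent.VDK.P_N15
import Pool.Agent.VDK.P_N16
import Pool.Agent.VDK.P_N17
import Pool.Agent.VDK.P_U01
import Pool.Agent.VDK.P_U02
import Pool.Agent.VDK.P_U03
import Pool.Agent.VDK.P_U04
import Pool.Agent.VDK.P_U05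
import Pool.Agent.VDK.P_U06

/-!
# VDK: all targets together
-/

set_option autoImplicit false

open MvPolynomial CategoryTheory AlgebraicGeometry Pool.Agent.VDC

noncomputable section

namespace Pool.Agent.VDK

theorem t_ACF : T_ACF := p_ACF

theorem t_ACZ : T_ACZ := p_ACZ

theorem t_PBD : T_PBD := p_PBD t_ACF t_ACZ

theorem t_TTR : T_TTR := p_TTR

theorem t_HTU : T_HTU := p_HTU

theorem t_CCF : T_CCF := p_CCF

theorem t_HLG : T_HLG := p_HLG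

theorem t_FFC : T_FFC := p_FFC

theorem t_FFP : T_FFP := p_FFP t_TTR t_HTU t_CCF t_HLG t_FFC

theorem t_VLA : T_VLA := p_VLA

theorem t_RTR : T_RTR := p_RTR

theorem t_SGL : T_SGL := p_SGL

theorem t_HTD : T_HTD := p_HTD t_ACZ

theorem t_PEX : T_PEX := p_PEX t_RTR t_SGL t_HTD

theorem t_KCX : T_KCX := p_KCX

theorem t_HPK : T_HPK := p_HPK t_KCX

theorem t_GPK : T_GPK := p_GPK

theorem t_DES : T_DES := p_DES t_PEX t_HPK t_ACZ t_GPK

theorem t_TPK : T_TPK := p_TPK t_HPK t_ACZ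

theorem t_FIN : T_FIN := p_FIN

theorem t_GFN : T_GFN := p_GFN

theorem t_DEC : T_DEC := p_DEC t_DES t_TPK t_FIN t_GFN

theorem t_KRX : T_KRX := p_KRX

theorem t_COP : T_COP := p_COP t_KRX

theorem t_HPS : T_HPS := p_HPS t_TTR t_HTD t_ACF t_ACZ t_HTU t_COP

theorem t_LFQ : T_LFQ := p_LFQ t_VLA t_DEC t_HPS

theorem t_VLN : T_VLN := p_VLN t_HTD

theorem t_LFF : T_LFF := p_LFF t_FFP t_LFQ t_VLN

theorem t_HOP : T_HOP := p_HOP t_ACZ

theorem t_LOR : T_LOR := p_LOR t_LFQ t_VLN t_HOP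

theorem t_TRC : T_TRC := p_TRC

theorem t_SOD : T_SOD := p_SOD

theorem t_IMG : T_IMG := p_IMG

theorem t_RTI : T_RTI := p_RTI

theorem t_SNG : T_SNG := p_SNG

theorem t_BDC : T_BDC := p_BDC t_RTR t_RTI t_SNG

theorem t_PSR : T_PSR := p_PSR

theorem t_GE1 : T_GE1 := p_GE1 t_RTR t_BDC t_SGL t_PSR

theorem t_LIF : T_LIF := p_LIF t_ACZ

theorem t_EX0 : T_EX0 := p_EX0

theorem t_EXS : T_EXS := p_EXS

theorem t_EXV : T_EXV := p_EXV t_EXS

theorem t_UNI : T_UNI := p_UNI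

theorem t_GIV : T_GIV := p_GIV t_UNI

theorem t_SPI : T_SPI := p_SPI

theorem t_UMM : T_UMM := p_UMM

theorem t_MCM : T_MCM := p_MCM t_EX0 t_EXV t_GIV t_SPI t_UMM

theorem t_EQI : T_EQI := p_EQI t_ACZ t_HTD

theorem t_TAI : T_TAI := p_TAI t_EQI t_ACF

theorem t_GE2 : T_GE2 := p_GE2 t_LIF t_MCM t_TAI t_RTR t_RTI t_BDC t_PSR

theorem t_HUL : T_HUL := p_HUL t_GE1 t_GE2 t_TPK

theorem t_ESS : T_ESS := p_ESS t_TRC p_STG p_STG p_STL t_SOD t_IMG t_LFF t_LOR t_HUL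

theorem t_TRA : T_TRA := p_TRA

theorem t_KUE : T_KUE := p_KUE t_PBD t_LFF t_LOR t_ESS t_TRC p_STG p_STG p_STL p_STL t_TRA

theorem t_N08 : T_N08 := p_N08

theorem t_N09 : T_N09 := p_N09 t_N08

theorem t_N02 : T_N02 := p_N02

theorem t_N04 : T_N04 := p_N04

theorem t_N01 : T_N01 := p_N01

theorem t_N06 : T_N06 := p_N06 t_N01

theorem t_N10 : T_N10 := p_N10 t_N02 t_N04 t_N06

theorem t_N03 : T_N03 := p_N03

theorem t_N05 : T_N05 := p_N05

theorem t_N07 : T_N07 := p_N07 t_N01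

theorem t_N11 : T_N11 := p_N11 t_N03 t_N05 t_N07

theorem t_N12 : T_N12 := p_N12

theorem t_N13 : T_N13 := p_N13

theorem t_N14 : T_N14 := p_N14 t_N01

theorem t_N15 : T_N15 := p_N15 t_N09 t_N10 t_N11 t_N12 t_N13 t_N14

theorem t_N16 : T_N16 := p_N16 t_N15

theorem t_N17 : T_N17 := p_N17

theorem t_U01 : T_U01 := p_U01

theorem t_U02 : T_U02 := p_U02

theorem t_U04 : T_U04 := p_U04

theorem t_U05 : T_U05 := p_U05 t_U01 t_U02 p_U03 p_U03 t_U04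

theorem t_U06 : T_U06 := p_U06

end Pool.Agent.VDK
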