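import Mathlib

/-!
# Finitely generated graded free modules over a graded ring

`A` is a commutative `ℂ`-algebra with a grading `𝒜 : ℤ → Submodule ℂ A`.
-/

set_option autoImplicit false
set_option linter.unusedVariables false

open CategoryTheory CategoryTheory.Limits

noncomputable section

namespace Pool.Agent.VDK

variable {A : Type} [CommRing A] [Algebra ℂ A]

/-- A finitely generated graded free `A`-module, with basis `ι`, the basis element `i` of degree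
`deg i`. -/
structure GF (𝒜 : ℤ → Submodule ℂ A) where
  ι : Type
  [fin : Fintype ι]
  [dec : DecidableEq ι]
  deg : ι → ℤ

attribute [instance] GF.fin GF.dec

variable {𝒜 : ℤ → Submodule ℂ A}

/-- The `A`-linear maps `X → Y` of degree `0`, as matrices with homogeneous entries. -/
def GFHom (X Y : GF 𝒜) : Submodule ℂ (Matrix Y.ι X.ι A) where
  carrier := {g | ∀ i j, g i j ∈ 𝒜 (X.deg j - Y.deg i)}
  add_mem' ha hb i j := (𝒜 _).add_mem (ha i j) (hb i j)
  zero_mem' _ _ := (𝒜 _).zero_mem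
  smul_mem' c _ ha i j := (𝒜 _).smul_mem c (ha i j)

/-- the type of `A`-linear maps `X → Y` of degree `0` -/
def GFMap (X Y : GF 𝒜) : Type := GFHom X Y

instance (X Y : GF 𝒜) : AddCommGroup (GFMap X Y) := Submodule.addCommGroup (GFHom X Y)

instance (X Y : GF 𝒜) : Module ℂ (GFMap X Y) := Submodule.module (GFHom X Y)

/-- the matrix of a map -/
def GFMap.mat {X Y : GF 𝒜} (g : GFMap X Y) : Matrix Y.ι X.ι A := Subtype.val g

lemma one_mem_GFHom [SetLike.GradedMonoid 𝒜] (X : GF 𝒜) :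
    (1 : Matrix X.ι X.ι A) ∈ GFHom X X := fun i j => by
  by_cases h : i = j
  · subst h
    rw [Matrix.one_apply_eq, sub_self]
    exact SetLike.GradedOne.one_mem
  · rw [Matrix.one_apply_ne h]
    exact (𝒜 _).zero_mem

lemma mul_mem_GFHom [SetLike.GradedMonoid 𝒜] {X Y Z : GF 𝒜} (a : GFMap X Y) (b : GFMap Y Z) :
    b.mat * a.mat ∈ GFHom X Z := fun i j => by
  rw [Matrix.mul_apply]
  refine Submodule.sum_mem _ fun k _ => ?_
  have h := SetLike.GradedMul.mul_mem (b.2 i k) (a.2 k j)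
  rwa [show Y.deg k - Z.deg i + (X.deg j - Y.deg k) = X.deg j - Z.deg i by ring] at h

/-- The category of finitely generated graded free `A`-modules and linear maps of degree `0`. -/
instance instGF (𝒜 : ℤ → Submodule ℂ A) [SetLike.GradedMonoid 𝒜] : Category (GF 𝒜) where
  Hom X Y := GFMap X Y
  id X := ⟨1, one_mem_GFHom X⟩
  comp a b := ⟨b.mat * a.mat, mul_mem_GFHom a b⟩
  id_comp a := Subtype.ext (Matrix.mul_one _)
  comp_id a := Subtype.ext (Matrix.one_mul _)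
  assoc a b c := Subtype.ext (Matrix.mul_assoc _ _ _).symm

variable [SetLike.GradedMonoid 𝒜]

/-- the matrix of a map -/
def mat {X Y : GF 𝒜} (a : X ⟶ Y) : Matrix Y.ι X.ι A := GFMap.mat a

/-- the map with a given matrix -/
def ofm {X Y : GF 𝒜} (g : Matrix Y.ι X.ι A) (h : ∀ i j, g i j ∈ 𝒜 (X.deg j - Y.deg i)) :
    X ⟶ Y := ⟨g, h⟩

lemma gf_ext {X Y : GF 𝒜} {a b : X ⟶ Y} (h : mat a = mat b) : a = b := Subtype.ext h

@[simp] lemma mat_ofm {X Y : GF 𝒜} (g : Matrix Y.ι X.ι A)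
    (h : ∀ i j, g i j ∈ 𝒜 (X.deg j - Y.deg i)) : mat (ofm g h : X ⟶ Y) = g := rfl

@[simp] lemma mat_comp {X Y Z : GF 𝒜} (a : X ⟶ Y) (b : Y ⟶ Z) : mat (a ≫ b) = mat b * mat a := rfl

@[simp] lemma mat_id (X : GF 𝒜) : mat (𝟙 X) = 1 := rfl

lemma mat_mem {X Y : GF 𝒜} (a : X ⟶ Y) (i : Y.ι) (j : X.ι) :
    mat a i j ∈ 𝒜 (X.deg j - Y.deg i) := a.2 i j

instance instGFPre (𝒜 : ℤ → Submodule ℂ A) [SetLike.GradedMonoid 𝒜] : Preadditive (GF 𝒜) where
  homGroup X Y := instAddCommGroupGFMap X Y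
  add_comp X Y Z a b c := Subtype.ext (Matrix.mul_add _ _ _)
  comp_add X Y Z a b c := Subtype.ext (Matrix.add_mul _ _ _)

instance instGFLin (𝒜 : ℤ → Submodule ℂ A) [SetLike.GradedMonoid 𝒜] : Linear ℂ (GF 𝒜) where
  homModule X Y := instModuleComplexGFMap X Y
  smul_comp X Y Z r a b := Subtype.ext (Matrix.mul_smul _ _ _)
  comp_smul X Y Z a r b := Subtype.ext (Matrix.smul_mul _ _ _)

@[simp] lemma mat_add {X Y : GF 𝒜} (a b : X ⟶ Y) : mat (a + b) = mat a + mat b := rfl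

@[simp] lemma mat_zero {X Y : GF 𝒜} : mat (0 : X ⟶ Y) = 0 := rfl

@[simp] lemma mat_neg {X Y : GF 𝒜} (a : X ⟶ Y) : mat (-a) = - mat a := rfl

@[simp] lemma mat_sub {X Y : GF 𝒜} (a b : X ⟶ Y) : mat (a - b) = mat a - mat b := rfl

@[simp] lemma mat_smul {X Y : GF 𝒜} (c : ℂ) (a : X ⟶ Y) : mat (c • a) = c • mat a := rfl

/-- the zero module -/
abbrev GF.zero (𝒜 : ℤ → Submodule ℂ A) : GF 𝒜 := ⟨Empty, fun _ => 0⟩

lemma GF.exists_isZero (𝒜 : ℤ → Submodule ℂ A) [SetLike.GradedMonoid 𝒜] :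
    ∃ X : GF 𝒜, IsZero X :=
  ⟨GF.zero 𝒜, ⟨fun Y => ⟨⟨⟨0⟩, fun a => gf_ext (Matrix.ext fun i j => Empty.elim j)⟩⟩,
    fun Y => ⟨⟨⟨0⟩, fun a => gf_ext (Matrix.ext fun i j => Empty.elim i)⟩⟩⟩⟩

instance instGFZero (𝒜 : ℤ → Submodule ℂ A) [SetLike.GradedMonoid 𝒜] : HasZeroObject (GF 𝒜) :=
  ⟨GF.exists_isZero 𝒜⟩

/-- the direct sum -/
abbrev GF.sum (X Y : GF 𝒜) : GF 𝒜 := ⟨X.ι ⊕ Y.ι, Sum.elim X.deg Y.deg⟩

/-- the biproduct structure of the direct sum -/
def GF.bic (X Y : GF 𝒜) : BinaryBicone X Y where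
  pt := X.sum Y
  fst := ofm (Matrix.fromCols 1 0) (by
    rintro i (j | j)
    · exact one_mem_GFHom X i j
    · exact (𝒜 _).zero_mem)
  snd := ofm (Matrix.fromCols 0 1) (by
    rintro i (j | j)
    · exact (𝒜 _).zero_mem
    · exact one_mem_GFHom Y i j)
  inl := ofm (Matrix.fromRows 1 0) (by
    rintro (i | i) j
    · exact one_mem_GFHom X i j
    · exact (𝒜 _).zero_mem)
  inr := ofm (Matrix.fromRows 0 1) (by
    rintro (i | i) j
    · exact (𝒜 _).zero_mem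
    · exact one_mem_GFHom Y i j)
  inl_fst := gf_ext (by
    show Matrix.fromCols (1 : Matrix X.ι X.ι A) 0 * Matrix.fromRows 1 0 = 1
    rw [Matrix.fromCols_mul_fromRows]; simp)
  inl_snd := gf_ext (by
    show Matrix.fromCols (0 : Matrix Y.ι X.ι A) 1 * Matrix.fromRows 1 0 = 0
    rw [Matrix.fromCols_mul_fromRows]; simp)
  inr_fst := gf_ext (by
    show Matrix.fromCols (1 : Matrix X.ι X.ι A) 0 * Matrix.fromRows 0 1 = 0
    rw [Matrix.fromCols_mul_fromRows]; simp)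
  inr_snd := gf_ext (by
    show Matrix.fromCols (0 : Matrix Y.ι X.ι A) 1 * Matrix.fromRows 0 1 = 1
    rw [Matrix.fromCols_mul_fromRows]; simp)

lemma bic_total {α β R : Type} [Fintype α] [Fintype β] [DecidableEq α] [DecidableEq β]
    [CommRing R] (a : Matrix (α ⊕ β) α R) (b : Matrix α (α ⊕ β) R) (c : Matrix (α ⊕ β) β R)
    (d : Matrix β (α ⊕ β) R) (ha : a = Matrix.fromRows 1 0) (hb : b = Matrix.fromCols 1 0)
    (hc : c = Matrix.fromRows 0 1) (hd : d = Matrix.fromCols 0 1) :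
    a * b + c * d = (1 : Matrix (α ⊕ β) (α ⊕ β) R) := by
  subst ha hb hc hd
  rw [Matrix.fromRows_mul, Matrix.fromRows_mul, Matrix.one_mul, Matrix.zero_mul,
    Matrix.one_mul, Matrix.zero_mul]
  refine Matrix.ext fun i j => ?_
  rcases i with i | i <;> rcases j with j | j <;> simp [Matrix.one_apply]

instance instGFBip (𝒜 : ℤ → Submodule ℂ A) [SetLike.GradedMonoid 𝒜] :
    HasBinaryBiproducts (GF 𝒜) where
  has_binary_biproduct X Y := HasBinaryBiproduct.mk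
    ⟨GF.bic X Y, isBinaryBilimitOfTotal _ (gf_ext (bic_total _ _ _ _ rfl rfl rfl rfl))⟩

/-- the free module `A(m)` of rank one, generated in degree `- m` -/
def GF.tw (𝒜 : ℤ → Submodule ℂ A) (m : ℤ) : GF 𝒜 := ⟨Unit, fun _ => -m⟩

end Pool.Agent.VDK
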