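import Pool.Agent.VDK.Free

/-!
# The derived category of coherent sheaves on `Proj A` and the Kuznetsov component

`A` is a commutative `ℂ`-algebra with a grading `𝒜 : ℤ → Submodule ℂ A`.  For a finitely generated
graded algebra `A` such that `O(1)` is an invertible sheaf on `Proj A`, the category
`D^b(coh Proj A)` is the Verdier quotient of `D^b(gr A)` by the complexes with finite-dimensional
cohomology (Serre), and `D^b(gr A)` is the homotopy category of bounded above complexes of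
finitely generated graded free modules with bounded cohomology.
-/

set_option autoImplicit false
set_option linter.unusedVariables false

open CategoryTheory CategoryTheory.Limits Pretriangulated

noncomputable section

namespace Pool.Agent.VDK

variable {A : Type} [CommRing A] [Algebra ℂ A] (𝒜 : ℤ → Submodule ℂ A) [SetLike.GradedMonoid 𝒜]

/-- The homotopy category of complexes of finitely generated graded free modules. -/
abbrev KK : Type 1 := HomotopyCategory (GF 𝒜) (ComplexShape.up ℤ)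

/-- the module `A(m)`, as a complex in degree `0` -/
def OK (m : ℤ) : KK 𝒜 := (HomotopyCategory.singleFunctor (GF 𝒜) 0).obj (GF.tw 𝒜 m)

variable {𝒜} in
/-- `H^n(C)_d = 0`: here `H^n(C)_d` is the set of maps `A(-d) → C[n]`. -/
def CohZero (C : KK 𝒜) (n d : ℤ) : Prop := ∀ x : OK 𝒜 (-d) ⟶ (shiftFunctor (KK 𝒜) n).obj C, x = 0

/-- complexes isomorphic to bounded above complexes -/
def BddAbove : ObjectProperty (KK 𝒜) := fun C =>
  ∃ (K : CochainComplex (GF 𝒜) ℤ) (n : ℤ), K.IsStrictlyLE n ∧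
    Nonempty (C ≅ (HomotopyCategory.quotient _ _).obj K)

/-- bounded above complexes with bounded cohomology: they are the objects of `D^b(gr A)` -/
def Dgr : ObjectProperty (KK 𝒜) := fun C => BddAbove 𝒜 C ∧ ∃ N : ℤ, ∀ n < N, ∀ d, CohZero C n d

/-- bounded above complexes with finite-dimensional cohomology -/
def Tors : ObjectProperty (KK 𝒜) := fun C =>
  BddAbove 𝒜 C ∧ {p : ℤ × ℤ | ¬ CohZero C p.1 p.2}.Finite

/-! ### These are triangulated subcategories -/

variable {𝒜}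

lemma CohZero.of_iso {C D : KK 𝒜} (e : C ≅ D) {n d : ℤ} (h : CohZero C n d) : CohZero D n d := by
  intro x
  have h1 := h (x ≫ ((shiftFunctor (KK 𝒜) n).mapIso e).inv)
  rw [← cancel_mono ((shiftFunctor (KK 𝒜) n).mapIso e).inv, h1, zero_comp]

lemma CohZero.shift {C : KK 𝒜} {n d k : ℤ} (h : CohZero C (k + n) d) :
    CohZero ((shiftFunctor (KK 𝒜) k).obj C) n d := by
  intro x
  have h1 := h (x ≫ ((shiftFunctorAdd (KK 𝒜) k n).app C).inv)
  rw [← cancel_mono ((shiftFunctorAdd (KK 𝒜) k n).app C).inv, h1, zero_comp]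

lemma CohZero.ext₂ {T : Triangle (KK 𝒜)} (hT : T ∈ distTriang (KK 𝒜)) {n d : ℤ}
    (h₁ : CohZero T.obj₁ n d) (h₃ : CohZero T.obj₃ n d) : CohZero T.obj₂ n d := by
  intro x
  obtain ⟨y, hy⟩ := Triangle.coyoneda_exact₂ _ (Triangle.shift_distinguished _ hT n) x (h₃ _)
  have h0 : y = 0 := h₁ y
  rw [hy, h0]
  exact zero_comp

lemma CohZero.zero {C : KK 𝒜} (hC : IsZero C) {n d : ℤ} : CohZero C n d := fun x =>
  (Functor.map_isZero (shiftFunctor (KK 𝒜) n) hC).eq_of_tgt _ _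

instance : (BddAbove 𝒜).IsClosedUnderIsomorphisms where
  of_iso := by
    rintro C D e ⟨K, n, hK, ⟨e'⟩⟩
    exact ⟨K, n, hK, ⟨e.symm ≪≫ e'⟩⟩

open ZeroObject in
instance : (BddAbove 𝒜).ContainsZero where
  exists_zero := ⟨(HomotopyCategory.quotient _ _).obj 0, Functor.map_isZero _ (isZero_zero _),
    0, 0, inferInstance, ⟨Iso.refl _⟩⟩

instance : (BddAbove 𝒜).IsStableUnderShift ℤ where
  isStableUnderShiftBy k :=
    { le_shift := by
        rintro C ⟨K, n, hK, ⟨e⟩⟩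
        exact ⟨(shiftFunctor (CochainComplex (GF 𝒜) ℤ) k).obj K, n - k,
          K.isStrictlyLE_shift n k (n - k) (by lia),
          ⟨(shiftFunctor (KK 𝒜) k).mapIso e ≪≫
            (((HomotopyCategory.quotient (GF 𝒜) (ComplexShape.up ℤ)).commShiftIso k).symm.app K)⟩⟩ }

lemma isStrictlyLE_mappingCone {K L : CochainComplex (GF 𝒜) ℤ} (f : K ⟶ L)
    (n₁ n₂ n : ℤ) [K.IsStrictlyLE n₁] [L.IsStrictlyLE n₂] (hn₁ : n₁ ≤ n) (hn₂ : n₂ ≤ n) :
    (CochainComplex.mappingCone f).IsStrictlyLE n := by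
  rw [CochainComplex.isStrictlyLE_iff]
  intro i hi
  simp only [CochainComplex.mappingCone.isZero_X_iff]
  exact ⟨K.isZero_of_isStrictlyLE n₁ _ (by lia), L.isZero_of_isStrictlyLE n₂ _ (by lia)⟩

instance : (BddAbove 𝒜).IsTriangulatedClosed₃ where
  ext₃' T hT h₁ h₂ := by
    obtain ⟨K, n₁, _, ⟨e₁⟩⟩ := h₁
    obtain ⟨L, n₂, _, ⟨e₂⟩⟩ := h₂
    obtain ⟨f, hf⟩ := (HomotopyCategory.quotient _ _).map_surjective (e₁.inv ≫ T.mor₁ ≫ e₂.hom)
    refine ObjectProperty.le_isoClosure _ _ ⟨CochainComplex.mappingCone f, max n₁ n₂,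
      isStrictlyLE_mappingCone f n₁ n₂ _ (le_max_left _ _) (le_max_right _ _),
      ⟨Triangle.π₃.mapIso (isoTriangleOfIso₁₂ T _ hT
        (HomotopyCategory.mappingCone_triangleh_distinguished f) e₁ e₂ ?_)⟩⟩
    show T.mor₁ ≫ e₂.hom = e₁.hom ≫ (HomotopyCategory.quotient _ _).map f
    rw [hf, Iso.hom_inv_id_assoc]

instance : (BddAbove 𝒜).IsTriangulated where
  toIsTriangulatedClosed₂ := .of_isTriangulatedClosed₃

instance : (Dgr 𝒜).IsClosedUnderIsomorphisms where
  of_iso := by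
    rintro C D e ⟨h, N, hN⟩
    exact ⟨(BddAbove 𝒜).prop_of_iso e h, N, fun n hn d => (hN n hn d).of_iso e⟩

instance : (Dgr 𝒜).IsTriangulated where
  exists_zero := by
    obtain ⟨Z, hZ, h⟩ := (BddAbove 𝒜).exists_prop_of_containsZero
    exact ⟨Z, hZ, h, 0, fun n hn d => CohZero.zero hZ⟩
  isStableUnderShiftBy k :=
    { le_shift := by
        rintro C ⟨h, N, hN⟩
        exact ⟨(BddAbove 𝒜).le_shift k _ h, N - k,
          fun n hn d => (hN (k + n) (by lia) d).shift⟩ }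
  toIsTriangulatedClosed₂ := .mk' (by
    rintro T hT ⟨h₁, N₁, hN₁⟩ ⟨h₃, N₃, hN₃⟩
    exact ⟨(BddAbove 𝒜).ext_of_isTriangulatedClosed₂ T hT h₁ h₃, min N₁ N₃,
      fun n hn d => CohZero.ext₂ hT (hN₁ n (by lia) d) (hN₃ n (by lia) d)⟩)

instance : (Tors 𝒜).IsClosedUnderIsomorphisms where
  of_iso := by
    rintro C D e ⟨h, hf⟩
    exact ⟨(BddAbove 𝒜).prop_of_iso e h, hf.subset fun p hp h' => hp (h'.of_iso e)⟩

instance : (Tors 𝒜).IsTriangulated where
  exists_zero := by
    obtain ⟨Z, hZ, h⟩ := (BddAbove 𝒜).exists_prop_of_containsZero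
    exact ⟨Z, hZ, h, Set.finite_empty.subset fun p hp => hp (CohZero.zero hZ)⟩
  isStableUnderShiftBy k :=
    { le_shift := by
        rintro C ⟨h, hf⟩
        refine ⟨(BddAbove 𝒜).le_shift k _ h, ?_⟩
        refine (hf.image fun p => (p.1 - k, p.2)).subset ?_
        rintro ⟨n, d⟩ hp
        refine ⟨(k + n, d), fun h' => hp h'.shift, ?_⟩
        simp }
  toIsTriangulatedClosed₂ := .mk' (by
    rintro T hT ⟨h₁, hf₁⟩ ⟨h₃, hf₃⟩
    refine ⟨(BddAbove 𝒜).ext_of_isTriangulatedClosed₂ T hT h₁ h₃,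
      (hf₁.union hf₃).subset fun p hp => ?_⟩
    by_contra h
    rw [Set.mem_union, not_or] at h
    exact hp (CohZero.ext₂ hT (not_not.1 h.1) (not_not.1 h.2)))

variable (𝒜)

/-- the category `D^b(gr A)` -/
abbrev DbGr : Type 1 := (Dgr 𝒜).FullSubcategory

/-- the complexes with finite-dimensional cohomology in `D^b(gr A)` -/
abbrev TorsGr : ObjectProperty (DbGr 𝒜) := (Tors 𝒜).inverseImage (Dgr 𝒜).ι

/-- the category `D^b(coh Proj A)` -/
abbrev DbCoh : Type 1 := (TorsGr 𝒜).trW.Localization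

lemma dgr_OK (m : ℤ) : Dgr 𝒜 (OK 𝒜 m) := by
  refine ⟨⟨(CochainComplex.singleFunctor (GF 𝒜) 0).obj (GF.tw 𝒜 m), 0, inferInstance,
    ⟨Iso.refl _⟩⟩, 0, fun n hn d x => ?_⟩
  let Q := HomotopyCategory.quotient (GF 𝒜) (ComplexShape.up ℤ)
  let K : CochainComplex (GF 𝒜) ℤ := (CochainComplex.singleFunctor (GF 𝒜) 0).obj (GF.tw 𝒜 m)
  let x' : Q.obj ((CochainComplex.singleFunctor (GF 𝒜) 0).obj (GF.tw 𝒜 (-d))) ⟶
      Q.obj ((shiftFunctor (CochainComplex (GF 𝒜) ℤ) n).obj K) :=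
    x ≫ ((Q.commShiftIso n).app K).inv
  obtain ⟨f, hf⟩ := Q.map_surjective x'
  have h : f = 0 := by
    ext i : 1
    by_cases hi : i = 0
    · exact (HomologicalComplex.isZero_single_obj_X (ComplexShape.up ℤ) 0 (GF.tw 𝒜 m) (i + n)
        (by lia)).eq_of_tgt _ _
    · exact (HomologicalComplex.isZero_single_obj_X (ComplexShape.up ℤ) 0 (GF.tw 𝒜 (-d)) i
        hi).eq_of_src _ _
  have hx : x' = 0 := by rw [← hf, h, Functor.map_zero]
  exact (cancel_mono ((Q.commShiftIso n).app K).inv).1 (hx.trans zero_comp.symm)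

/-- the sheaf `O(m)` -/
def OY (m : ℤ) : DbCoh 𝒜 := (TorsGr 𝒜).trW.Q.obj ⟨OK 𝒜 m, dgr_OK 𝒜 m⟩

section

variable {D : Type*} [Category D] [HasZeroObject D] [HasShift D ℤ] [Preadditive D]
  [∀ n : ℤ, (shiftFunctor D n).Additive] [Pretriangulated D]

/-- the objects `E` with `Hom(P, E[k]) = 0` for all `k` -/
def Orth (P : D) : ObjectProperty D := fun E => ∀ (k : ℤ) (x : P ⟶ (shiftFunctor D k).obj E), x = 0

instance (P : D) : (Orth P).IsClosedUnderIsomorphisms where
  of_iso := by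
    intro E E' e h k x
    have h1 := h k (x ≫ ((shiftFunctor D k).mapIso e).inv)
    rw [← cancel_mono ((shiftFunctor D k).mapIso e).inv, h1, zero_comp]

instance (P : D) : (Orth P).IsTriangulated where
  exists_zero := by
    obtain ⟨Z, hZ⟩ := HasZeroObject.zero (C := D)
    exact ⟨Z, hZ, fun k x => (Functor.map_isZero (shiftFunctor D k) hZ).eq_of_tgt _ _⟩
  isStableUnderShiftBy n :=
    { le_shift := by
        intro E h k x
        have h1 := h (n + k) (x ≫ ((shiftFunctorAdd D n k).app E).inv)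
        rw [← cancel_mono ((shiftFunctorAdd D n k).app E).inv, h1, zero_comp] }
  toIsTriangulatedClosed₂ := .mk' (by
    intro T hT h₁ h₃ k x
    obtain ⟨y, hy⟩ := Triangle.coyoneda_exact₂ _ (Triangle.shift_distinguished _ hT k) x (h₃ k _)
    have h0 : y = 0 := h₁ k y
    rw [hy, h0]
    exact zero_comp)

end

/-- the objects `E` with `Hom(O, E[k]) = Hom(O(1), E[k]) = 0` for all `k` -/
def KuProp : ObjectProperty (DbCoh 𝒜) := Orth (OY 𝒜 0) ⊓ Orth (OY 𝒜 1)

instance : (KuProp 𝒜).IsTriangulated :=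
  inferInstanceAs ((Orth (OY 𝒜 0) ⊓ Orth (OY 𝒜 1)).IsTriangulated)

/-- the Kuznetsov component, the right orthogonal of `O` and `O(1)` in `D^b(coh Proj A)` -/
abbrev Ku : Type 1 := (KuProp 𝒜).FullSubcategory

variable {B : Type} [CommRing B] [Algebra ℂ B] (ℬ : ℤ → Submodule ℂ B) [SetLike.GradedMonoid ℬ]

/-- A triangulated `ℂ`-linear equivalence between the Kuznetsov components. -/
structure KuEquiv where
  F : Ku 𝒜 ⥤ Ku ℬ
  isEquiv : F.IsEquivalence
  comm : F.CommShift ℤ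
  tri : F.IsTriangulated
  lin : F.Linear ℂ

end Pool.Agent.VDK
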