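import Pool.Agent.VDK.Per

/-!
# The resolution of the residue field
-/

set_option autoImplicit false
set_option linter.unusedVariables false

open CategoryTheory CategoryTheory.Limits Pretriangulated MvPolynomial Pool.Agent.VDC

noncomputable section

namespace Pool.Agent.VDK

variable {f : Sr}

/-- one step of the cardinality -/
def cdS {ι : Type} (c : ι → ℤ) : ι ⊕ ι → ℤ := Sum.elim (fun i => c i + 1) c

/-- the cardinality of a basis element of the exterior algebra `kk D` -/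
def cd (D : KA f) : (kk D).ι → ℤ := cdS (cdS (cdS (cdS fun _ => 0)))

/-- the nonzero entries of `Φ` change the cardinality by `1` -/
def CdP (Y : PO) (c : Y.ι → ℤ) : Prop := ∀ i j, Y.Φ j i ≠ 0 → c j = c i + 1 ∨ c j + 1 = c i

lemma CdP.step {Y : PO} {c : Y.ι → ℤ} (h : CdP Y c) (l a : Sr) (e : ℤ) (hl : Hmg l e)
    (ha : Hmg a (6 - e)) : CdP (TT Y l a e hl ha) (cdS c) := by
  rintro (i | i) (j | j) hij
  · have h1 := h i j hij
    show c j + 1 = c i + 1 + 1 ∨ c j + 1 + 1 = c i + 1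
    lia
  · have h1 : j = i := by
      by_contra h2
      refine hij ?_
      show (l • (1 : Matrix Y.ι Y.ι Sr)) j i = 0
      rw [Matrix.smul_apply, Matrix.one_apply_ne h2, smul_zero]
    subst h1
    show c j = c j + 1 + 1 ∨ c j + 1 = c j + 1
    exact Or.inr rfl
  · have h1 : j = i := by
      by_contra h2
      refine hij ?_
      show (a • (1 : Matrix Y.ι Y.ι Sr)) j i = 0
      rw [Matrix.smul_apply, Matrix.one_apply_ne h2, smul_zero]
    subst h1
    show c j + 1 = c j + 1 ∨ c j + 1 + 1 = c j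
    exact Or.inl rfl
  · have h1 := h i j fun h2 => hij (by
      show (-Y.Φ) j i = 0
      rw [Matrix.neg_apply, h2, neg_zero])
    show c j = c i + 1 ∨ c j + 1 = c i
    exact h1

lemma cd_prop (D : KA f) (t : ℤ) : CdP (tw t 1 (kk D)).toPO (cd D) := by
  have h : CdP (kk D).toPO (cd D) :=
    CdP.step (CdP.step (CdP.step (CdP.step (fun i j hij => absurd rfl hij)
      (D.kd.l 1) (D.kd.a 1) (D.kd.e 1) (D.kd.hl 1) (D.kd.ha 1))
      (D.kd.l 2) (D.kd.a 2) (D.kd.e 2) (D.kd.hl 2) (D.kd.ha 2))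
      (D.kd.l 3) (D.kd.a 3) (D.kd.e 3) (D.kd.hl 3) (D.kd.ha 3))
      (D.kd.l 0) (D.kd.a 0) (D.kd.e 0) (D.kd.hl 0) (D.kd.ha 0)
  intro i j hij
  refine h i j fun h1 => hij ?_
  show ((1 : ℤ) • (kk D).Φ) j i = 0
  rw [Matrix.smul_apply, h1, smul_zero]

lemma dmat_eq_zero (F : CM f) (n : ℤ) (i j : F.ι) (h : F.Φ j i = 0) (h' : j ≠ i) :
    dmat F n j i = 0 := by
  refine QuadraticAlgebra.ext h ?_
  show (sg n • (1 : Matrix F.ι F.ι Sr)) j i = 0
  rw [Matrix.smul_apply, Matrix.one_apply_ne h', smul_zero]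

variable [H6 f]

/-- the generators of the resolution of the residue field -/
def UK (D : KA f) (t : ℤ) (n : ℤ) (i : ((CF (tw t 1 (kk D))).X n).ι) : Prop := cd D i ≤ -n

lemma UK_qc (D : KA f) (t : ℤ) : QC (CF (tw t 1 (kk D))) (UK D t) := by
  intro n i j hi hj
  rw [mat_CF_d]
  have hi' : ¬ cd D i ≤ -n := hi
  have hj' : cd D j ≤ -(n + 1) := hj
  refine dmat_eq_zero _ _ _ _ ?_ ?_
  · by_contra h
    have h1 := cd_prop D t i j h
    lia
  · intro h
    have h1 : cd D j = cd D i := congrArg _ h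
    lia

/-- The resolution `P_k(t)` of the residue field. -/
def PK (D : KA f) (t : ℤ) : CochainComplex (GF (gZ f)) ℤ :=
  resC (CF (tw t 1 (kk D))) (UK D t) (UK_qc D t).lc

end Pool.Agent.VDK
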