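import Pool.Agent.VDK.Kos

/-!
# VDK: definitions used in the targets
-/

set_option autoImplicit false
set_option linter.unusedVariables false

open CategoryTheory CategoryTheory.Limits Pretriangulated MvPolynomial Pool.Agent.VDC

universe v u

noncomputable section

namespace Pool.Agent.VDK

/-! ### exact functors on matrix factorisations -/

/-- `Θ` commutes with the shift and maps the standard triangles to distinguished triangles -/
def Std {f : Sr} {D : Type u} [Category.{v} D] [HasZeroObject D] [HasShift D ℤ] [Preadditive D]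
    [∀ n : ℤ, (shiftFunctor D n).Additive] [Pretriangulated D] (Θ : CM f ⥤ D) : Prop :=
  ∃ c : sh f ⋙ Θ ≅ Θ ⋙ shiftFunctor D (1 : ℤ), ∀ (X Y : CM f) (g : mor X Y),
    Triangle.mk (Θ.map (cls g)) (Θ.map (cls (inclM g))) (Θ.map (cls (projM g)) ≫ c.hom.app X) ∈
      distTriang D

section

variable (f : Sr) [H6 f] (h : ∀ F : CM f, Dgr (gZ f) ((Psi f).obj F))

/-- `Ψ` with values in `D^b(gr R)` -/
def PsiD : CM f ⥤ DbGr (gZ f) := (Dgr (gZ f)).lift (Psi f) h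

/-- `Ψ` with values in `D^b(coh Y)` -/
def Theta : CM f ⥤ DbCoh (gZ f) := PsiD f h ⋙ (TorsGr (gZ f)).trW.Q

end

/-! ### graded free `S`-modules -/

/-- the free `R`-module `X`, as a matrix factorisation -/
abbrev und {f : Sr} [H6 f] (X : GF (gZ f)) : CM f where
  ι := X.ι ⊕ X.ι
  deg := Sum.elim X.deg fun i => X.deg i + 3
  Φ := Matrix.fromBlocks 0 (-(f • (1 : Matrix X.ι X.ι Sr))) 1 0
  hom := by
    rintro (i | i) (j | j)
    · exact Hmg.zero _
    · show Hmg (-(f • (1 : Matrix X.ι X.ι Sr)) i j) (X.deg j + 3 + 3 - X.deg i)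
      rw [Matrix.smul_apply, smul_eq_mul]
      exact (((H6.out (f := f)).mul (one_hmg X.deg i j)).neg).congr (by ring)
    · show Hmg ((1 : Matrix X.ι X.ι Sr) i j) (X.deg j + 3 - (X.deg i + 3))
      exact (one_hmg X.deg i j).congr (by ring)
    · exact Hmg.zero _
  sq := by
    rw [Matrix.fromBlocks_multiply, ← Matrix.fromBlocks_one, Matrix.fromBlocks_smul,
      Matrix.fromBlocks_neg]
    congr 1 <;> simp

/-- the `S`-linear map given by a matrix over `R` -/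
def um {f : Sr} {ι κ : Type} (M : Matrix ι κ (RR f)) : Matrix (ι ⊕ ι) (κ ⊕ κ) Sr :=
  Matrix.fromBlocks (reM M) (-(f • imM M)) (imM M) (reM M)

/-- exactness of `K₁ → K₂ → K₃` modulo the ideal `I` -/
def ExI (I : Ideal Sr) (K₁ K₂ K₃ : PO) (δ₁ : Matrix K₂.ι K₁.ι Sr) (δ₂ : Matrix K₃.ι K₂.ι Sr) :
    Prop :=
  ∀ (P : PO) (ρ : ℤ), ∀ x ∈ HM P K₂ ρ, δ₂ * x ∈ IM I K₃.ι P.ι →
    ∃ y ∈ HM P K₁ ρ, x - δ₁ * y ∈ IM I K₂.ι P.ι

/-- the positions `≤ m` -/
def Ule (m : ℤ) {A : Type} [CommRing A] [Algebra ℂ A] {𝒜 : ℤ → Submodule ℂ A}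
    [SetLike.GradedMonoid 𝒜] (C : CochainComplex (GF 𝒜) ℤ) (n : ℤ) (_ : (C.X n).ι) : Prop := n ≤ m

/-- the generators of degree `≥ c` -/
def Uge (c : ℤ) {A : Type} [CommRing A] [Algebra ℂ A] {𝒜 : ℤ → Submodule ℂ A}
    [SetLike.GradedMonoid 𝒜] (C : CochainComplex (GF 𝒜) ℤ) (n : ℤ) (i : (C.X n).ι) : Prop :=
  c ≤ (C.X n).deg i

section

variable {A : Type} [CommRing A] [Algebra ℂ A] {𝒜 : ℤ → Submodule ℂ A} [SetLike.GradedMonoid 𝒜]

lemma Ule_qc (C : CochainComplex (GF 𝒜) ℤ) (m : ℤ) : QC C (Ule m C) := fun n i j h h' =>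
  absurd h' (by
    have h1 : ¬ n ≤ m := h
    show ¬ n + 1 ≤ m
    lia)

lemma Uge_qc [NonNeg 𝒜] (C : CochainComplex (GF 𝒜) ℤ) (c : ℤ) : QC C (Uge c C) :=
  fun n i j h h' => mat_eq_zero _ _ _ (by
    have h1 : ¬ c ≤ (C.X n).deg i := h
    have h2 : c ≤ (C.X (n + 1)).deg j := h'
    lia)

lemma QC.inf {C : CochainComplex (GF 𝒜) ℤ} {U V : ∀ n, (C.X n).ι → Prop} (hU : QC C U)
    (hV : QC C V) : QC C (fun n i => U n i ∧ V n i) := by
  intro n i j h h'
  by_cases h1 : U n i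
  · exact hV n i j (fun h2 => h ⟨h1, h2⟩) h'.2
  · exact hU n i j h1 h'.1

lemma QC.sup {C : CochainComplex (GF 𝒜) ℤ} {U V : ∀ n, (C.X n).ι → Prop} (hU : QC C U)
    (hV : QC C V) : QC C (fun n i => U n i ∨ V n i) := by
  intro n i j h h'
  rcases h' with h' | h'
  · exact hU n i j (fun h2 => h (Or.inl h2)) h'
  · exact hV n i j (fun h2 => h (Or.inr h2)) h'

end

/-- The matrix factorisation `F` is the cokernel of `d^m : C^m → C^{m + 1}`: `π : C^{m + 1} → F` is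
`R`-linear, with an `S`-linear section `σ`, and its kernel is the image of `d^m`. -/
structure CokP {f : Sr} [H6 f] (C : CochainComplex (GF (gZ f)) ℤ) (m : ℤ) (F : CM f)
    (π : mor (und (C.X (m + 1))) F) (σ : Matrix (und (C.X (m + 1))).ι F.ι Sr) : Prop where
  sec : σ ∈ HM F.toPO (und (C.X (m + 1))).toPO 0
  one : π.1 * σ = 1
  zero : π.1 * um (mat (C.d m (m + 1))) = 0
  ex : ∀ (P : PO) (ρ : ℤ), ∀ x ∈ HM P (und (C.X (m + 1))).toPO ρ, π.1 * x = 0 →
    ∃ y ∈ HM P (und (C.X m)).toPO ρ, um (mat (C.d m (m + 1))) * y = x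

end Pool.Agent.VDK
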