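import Pool.Agent.VDK.T1
import Pool.Agent.VDC.P_LIN
import Pool.Agent.VDC.P_MMEM

/-!
# VDK: the generalised inverse of the differential in a high position (helper29)
-/

set_option autoImplicit false

open MvPolynomial CategoryTheory Pool.Agent.VDC

noncomputable section

namespace Pool.Agent.VDK

namespace GIV_

/-- the ideal of the variables -/
abbrev IV : Ideal Sr := mI Finset.univ 1

theorem mem_IV (p : Sr) : p ∈ IV ↔ constantCoeff p = 0 := by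
  rw [p_MMEM]
  constructor
  · intro h
    by_contra h0
    obtain ⟨j, -, hj⟩ := h 0 h0
    simp at hj
  · intro h a ha
    by_contra h1
    refine ha ?_
    have : a = 0 := by
      ext j
      by_contra h2
      refine h1 ⟨j, Finset.mem_univ _, ?_⟩
      show 1 ≤ a j
      have : a j ≠ 0 := h2
      omega
    rw [this]
    exact h

/-- constant coefficients of a matrix -/
def cst {ι κ : Type} (M : Matrix ι κ Sr) : Matrix ι κ ℂ := M.map (constantCoeff : Sr →+* ℂ)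

/-- complex matrices as polynomial matrices -/
def emb {ι κ : Type} (N : Matrix ι κ ℂ) : Matrix ι κ Sr := N.map (C : ℂ →+* Sr)

theorem cst_mul {ι κ τ : Type} [Fintype κ] (M : Matrix ι κ Sr) (N : Matrix κ τ Sr) :
    cst (M * N) = cst M * cst N := Matrix.map_mul

theorem cst_sub {ι κ : Type} (M N : Matrix ι κ Sr) : cst (M - N) = cst M - cst N := by
  ext i j
  simp [cst]

theorem cst_emb {ι κ : Type} (N : Matrix ι κ ℂ) : cst (emb N) = N := by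
  ext i j
  simp [cst, emb]

theorem mem_IM {ι κ : Type} (M : Matrix ι κ Sr) : M ∈ IM IV ι κ ↔ cst M = 0 := by
  constructor
  · intro h
    ext i j
    exact (mem_IV _).1 (h i j)
  · intro h i j
    refine (mem_IV _).2 ?_
    exact congrFun (congrFun h i) j

theorem IM_mul_left {ι κ τ : Type} [Fintype κ] (g : Matrix ι κ Sr) {h : Matrix κ τ Sr}
    (hh : h ∈ IM IV κ τ) : g * h ∈ IM IV ι τ := by
  rw [mem_IM] at hh ⊢
  rw [cst_mul, hh, Matrix.mul_zero]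

theorem IM_mul_right {ι κ τ : Type} [Fintype κ] {g : Matrix ι κ Sr} (h : Matrix κ τ Sr)
    (hg : g ∈ IM IV ι κ) : g * h ∈ IM IV ι τ := by
  rw [mem_IM] at hg ⊢
  rw [cst_mul, hg, Matrix.zero_mul]

theorem wd_zero : wd 0 = 0 := by simp [wd]

theorem hmg_cst {X Y : PO} {ρ : ℤ} {g : Matrix Y.ι X.ι Sr} (hg : g ∈ HM X Y ρ) (i : Y.ι) (j : X.ι)
    (h : cst g i j ≠ 0) : X.deg j + ρ = Y.deg i := by
  have h1 := hg i j 0 h
  rw [wd_zero] at h1
  omega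

theorem hmg_emb {X Y : PO} {ρ : ℤ} {N : Matrix Y.ι X.ι ℂ}
    (hN : ∀ i j, N i j ≠ 0 → X.deg j + ρ = Y.deg i) : emb N ∈ HM X Y ρ := by
  intro i j a ha
  have h1 : coeff a (C (N i j) : Sr) ≠ 0 := ha
  rw [coeff_C] at h1
  by_cases h0 : (0 : Fin 4 →₀ ℕ) = a
  · rw [if_pos h0] at h1
    rw [← h0, wd_zero, hN i j h1]
    ring
  · rw [if_neg h0] at h1
    exact absurd rfl h1

theorem HM_mul {X Y Z : PO} {g : Matrix Y.ι X.ι Sr} {h : Matrix Z.ι Y.ι Sr}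
    (hg : g ∈ HM X Y 0) (hh : h ∈ HM Y Z 0) : h * g ∈ HM X Z 0 := by
  intro i j
  rw [Matrix.mul_apply]
  exact Hmg.sum fun k _ => ((hh i k).mul (hg k j)).congr (by ring)

theorem HM_one (X : PO) : (1 : Matrix X.ι X.ι Sr) ∈ HM X X 0 := by
  intro i j
  by_cases h : i = j
  · subst h
    rw [Matrix.one_apply_eq]
    exact Hmg.one.congr (by ring)
  · rw [Matrix.one_apply_ne h]
    exact Hmg.zero _

/-- graded generalised inverses of complex matrices -/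
theorem lin_inv (X Y : PO) (D : Matrix Y.ι X.ι ℂ) (hD : ∀ i j, D i j ≠ 0 → X.deg j = Y.deg i) :
    ∃ N : Matrix X.ι Y.ι ℂ, (∀ i j, N i j ≠ 0 → Y.deg j = X.deg i) ∧ D * N * D = D := by
  obtain ⟨P, N, -, hN, -, hMP, hPM, h1⟩ := p_LIN (X.ι ⊕ Y.ι)
    (Sum.elim X.deg (fun i => Y.deg i + 3)) (Matrix.fromBlocks 0 0 D 0) (by
      rintro (i | i) (j | j) h
      · exact absurd rfl h
      · exact absurd rfl h
      · show Y.deg i + 3 = X.deg j + 3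
        rw [hD i j h]
      · exact absurd rfl h) (by
      rw [Matrix.fromBlocks_multiply]
      ext i j
      rcases i with i | i <;> rcases j with j | j <;> simp)
  have h2 : Matrix.fromBlocks 0 0 D 0 * N * Matrix.fromBlocks 0 0 D 0 =
      (Matrix.fromBlocks 0 0 D 0 : Matrix (X.ι ⊕ Y.ι) (X.ι ⊕ Y.ι) ℂ) := by
    have hMM : (Matrix.fromBlocks 0 0 D 0 : Matrix (X.ι ⊕ Y.ι) (X.ι ⊕ Y.ι) ℂ) *
        Matrix.fromBlocks 0 0 D 0 = 0 := by
      rw [Matrix.fromBlocks_multiply]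
      ext i j
      rcases i with i | i <;> rcases j with j | j <;> simp
    have h3 := congrArg (fun Z => Matrix.fromBlocks 0 0 D 0 * Z) h1
    simp only [Matrix.mul_add, Matrix.mul_one] at h3
    rw [hMP, zero_add, ← Matrix.mul_assoc, hMM, Matrix.zero_mul, zero_add,
      ← Matrix.mul_assoc] at h3
    exact h3
  refine ⟨N.toBlocks₁₂, fun i j h => ?_, ?_⟩
  · have := hN (Sum.inl i) (Sum.inr j) h
    have h4 : X.deg i + 3 = Y.deg j + 3 := this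
    omega
  · have h3 := congrArg Matrix.toBlocks₂₁ h2
    rw [← Matrix.fromBlocks_toBlocks N, Matrix.fromBlocks_multiply,
      Matrix.fromBlocks_multiply] at h3
    simpa using h3

/-- generalised inverses modulo the variables -/
theorem gin (X Y : PO) (δ : Matrix Y.ι X.ι Sr) (hδ : δ ∈ HM X Y 0) :
    ∃ t ∈ HM Y X 0, δ * t * δ - δ ∈ IM IV Y.ι X.ι := by
  obtain ⟨N, hN, h⟩ := lin_inv X Y (cst δ) fun i j h => by
    have := hmg_cst hδ i j h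
    omega
  refine ⟨emb N, hmg_emb fun i j h => by rw [add_zero]; exact hN i j h, ?_⟩
  rw [mem_IM, cst_sub, cst_mul, cst_mul, cst_emb, h, sub_self]

end GIV_

open GIV_ in
theorem p_GIV (h_UNI : T_UNI) : T_GIV := by
  intro K₀ K₁ K₂ K₃ δ₀ δ₁ δ₂ h0 h1 h2 h10 h21 hE1 hE2
  obtain ⟨t₀, ht₀, e0⟩ := gin K₁ K₂ δ₁ h1
  obtain ⟨t₂, ht₂, e2⟩ := gin K₂ K₃ δ₂ h2
  -- first unipotent matrix
  have hx : 1 - t₀ * δ₁ ∈ HM K₁ K₁ 0 := sub_mem (HM_one K₁) (HM_mul h1 ht₀)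
  obtain ⟨s, hs, hs1⟩ := hE1 K₁ 0 (1 - t₀ * δ₁) hx (by
    have : δ₁ * (1 - t₀ * δ₁) = -(δ₁ * t₀ * δ₁ - δ₁) := by
      rw [Matrix.mul_sub, Matrix.mul_one, Matrix.mul_assoc]
      abel
    rw [this]
    exact neg_mem e0)
  obtain ⟨v, hv, huv, hvu⟩ := h_UNI K₁ (t₀ * δ₁ + δ₀ * s) (add_mem (HM_mul h1 ht₀) (HM_mul hs h0))
    (by
      have : (1 : Matrix K₁.ι K₁.ι Sr) - (t₀ * δ₁ + δ₀ * s) = 1 - t₀ * δ₁ - δ₀ * s := by abel
      rw [this]
      exact hs1)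
  -- second unipotent matrix
  have hx2 : 1 - t₂ * δ₂ ∈ HM K₂ K₂ 0 := sub_mem (HM_one K₂) (HM_mul h2 ht₂)
  obtain ⟨w, hw, hw1⟩ := hE2 K₂ 0 (1 - t₂ * δ₂) hx2 (by
    have : δ₂ * (1 - t₂ * δ₂) = -(δ₂ * t₂ * δ₂ - δ₂) := by
      rw [Matrix.mul_sub, Matrix.mul_one, Matrix.mul_assoc]
      abel
    rw [this]
    exact neg_mem e2)
  have hc : 1 - δ₁ * t₀ ∈ HM K₂ K₂ 0 := sub_mem (HM_one K₂) (HM_mul ht₀ h1)
  obtain ⟨v', hv', huv', hvu'⟩ := h_UNI K₂ (δ₁ * t₀ + (1 - δ₁ * t₀) * t₂ * δ₂)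
    (add_mem (HM_mul ht₀ h1) (HM_mul h2 (HM_mul ht₂ hc)))
    (by
      have : (1 : Matrix K₂.ι K₂.ι Sr) - (δ₁ * t₀ + (1 - δ₁ * t₀) * t₂ * δ₂) =
          (1 - δ₁ * t₀) * (1 - t₂ * δ₂ - δ₁ * w) + -(δ₁ * t₀ * δ₁ - δ₁) * w := by
        simp only [Matrix.mul_sub, Matrix.sub_mul, Matrix.one_mul, Matrix.mul_one,
          Matrix.mul_assoc, Matrix.neg_mul]
        abel
      rw [this]
      exact add_mem (IM_mul_left _ hw1) (IM_mul_right _ (neg_mem e0)))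
  have k1 : δ₁ * (t₀ * δ₁ + δ₀ * s) = δ₁ * t₀ * δ₁ := by
    rw [Matrix.mul_add, ← Matrix.mul_assoc, ← Matrix.mul_assoc, h10, Matrix.zero_mul, add_zero]
  have k2 : (δ₁ * t₀ + (1 - δ₁ * t₀) * t₂ * δ₂) * δ₁ = δ₁ * t₀ * δ₁ := by
    rw [Matrix.add_mul, Matrix.mul_assoc ((1 - δ₁ * t₀) * t₂), h21, Matrix.mul_zero, add_zero]
  have k3 : v' * δ₁ = δ₁ * v := by
    calc v' * δ₁ = v' * (δ₁ * ((t₀ * δ₁ + δ₀ * s) * v)) := by rw [huv, Matrix.mul_one]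
      _ = v' * ((δ₁ * (t₀ * δ₁ + δ₀ * s)) * v) := by rw [Matrix.mul_assoc δ₁]
      _ = v' * (((δ₁ * t₀ + (1 - δ₁ * t₀) * t₂ * δ₂) * δ₁) * v) := by rw [k1, k2]
      _ = (v' * (δ₁ * t₀ + (1 - δ₁ * t₀) * t₂ * δ₂)) * (δ₁ * v) := by
          simp only [Matrix.mul_assoc]
      _ = δ₁ * v := by rw [hvu', Matrix.one_mul]
  refine ⟨t₀ * v', HM_mul hv' ht₀, ?_⟩
  calc δ₁ * (t₀ * v') * δ₁ = δ₁ * t₀ * (v' * δ₁) := by simp only [Matrix.mul_assoc]
    _ = δ₁ * t₀ * δ₁ * v := by rw [k3]; simp only [Matrix.mul_assoc]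
    _ = δ₁ * ((t₀ * δ₁ + δ₀ * s) * v) := by rw [← k1, Matrix.mul_assoc]
    _ = δ₁ := by rw [huv, Matrix.mul_one]

end Pool.Agent.VDK

end
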