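import Pool.Agent.VDK.T2

/-!
# VDK-LOR: `Theta F` is in the Kuznetsov component (helper98)
-/

set_option autoImplicit false

open CategoryTheory CategoryTheory.Limits Pretriangulated MvPolynomial Pool.Agent.VDC

noncomputable section

namespace Pool.Agent.VDK

namespace LOR_

theorem low_zero (h2 : T_VLN) (f : Sr) [H6 f] (j : ℤ) (hj : j ≤ 1) (B : KK (gZ f))
    (x : OK (gZ f) j ⟶ B) (hB : Low (gZ f) B) : x = 0 := by
  have h := (h2 f B hB).1 j hj 0 ((shiftFunctorZero (KK (gZ f)) ℤ).hom.app _ ≫ x)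
  have h3 : (shiftFunctorZero (KK (gZ f)) ℤ).inv.app _ ≫
      (shiftFunctorZero (KK (gZ f)) ℤ).hom.app (OK (gZ f) j) ≫ x = 0 := by
    rw [h, comp_zero]
  rwa [Iso.inv_hom_id_app_assoc] at h3

theorem orth (h1 : T_LFQ) (h2 : T_VLN) (h3 : T_HOP) (f : Sr) [H6 f] (D : KA f)
    (h : ∀ F : CM f, Dgr (gZ f) ((Psi f).obj F)) (F : CM f) (j : ℤ) (hj0 : 0 ≤ j) (hj : j ≤ 1) :
    Orth (OY (gZ f) j) ((Theta f h).obj F) := by
  intro k x
  have hb := h1 f D h ⟨OK (gZ f) j, dgr_OK (gZ f) j⟩ F k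
    (fun B y hB => low_zero h2 f j hj B y hB)
  let Q := (TorsGr (gZ f)).trW.Q
  let M : DbGr (gZ f) := (PsiD f h).obj F
  obtain ⟨y, hy⟩ := hb.2 (x ≫ (Q.commShiftIso k).inv.app M)
  have hy0 : y = 0 := by
    apply (Dgr (gZ f)).ι.map_injective
    rw [Functor.map_zero]
    have h4 := h3 f F k (-j) (by linarith)
    unfold CohZero at h4
    rw [neg_neg] at h4
    have h5 := h4 ((Dgr (gZ f)).ι.map y ≫ ((Dgr (gZ f)).ι.commShiftIso k).hom.app M)
    rw [← cancel_mono (((Dgr (gZ f)).ι.commShiftIso k).hom.app M), zero_comp]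
    exact h5
  rw [hy0, Functor.map_zero] at hy
  exact (cancel_mono ((Q.commShiftIso k).inv.app M)).1 (hy.symm.trans zero_comp.symm)

end LOR_

theorem p_LOR (h1 : T_LFQ) (h2 : T_VLN) (h3 : T_HOP) : T_LOR := by
  intro f _ D h F
  exact ⟨LOR_.orth h1 h2 h3 f D h F 0 le_rfl zero_le_one,
    LOR_.orth h1 h2 h3 f D h F 1 zero_le_one le_rfl⟩

end Pool.Agent.VDK
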