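import Pool.Agent.VDK.T3

/-!
# VDK-N06: the graded automorphism `z ↦ z + g` (helper91)
-/

set_option autoImplicit false

open CategoryTheory CategoryTheory.Limits Pretriangulated MvPolynomial AlgebraicGeometry
  Pool.Agent.VDC

noncomputable section

namespace Pool.Agent.VDK

namespace N06_

/-- The substitution. -/
def sb (g : Sr) : P5 →ₐ[ℂ] P5 :=
  aeval fun j : Fin 5 => if j = 4 then X 4 + i5 g else X j

lemma sb_last (g : Sr) : sb g (X 4) = X 4 + i5 g := by
  unfold sb
  rw [aeval_X, if_pos rfl]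

lemma sb_ne (g : Sr) {j : Fin 5} (h : j ≠ 4) : sb g (X j) = X j := by
  unfold sb
  rw [aeval_X, if_neg h]

lemma cast_ne (j : Fin 4) : (Fin.castSucc j : Fin 5) ≠ 4 := by
  revert j
  decide

lemma sb_i5 (g p : Sr) : sb g (i5 p) = i5 p := by
  have h : (sb g).comp i5 = i5 := by
    apply MvPolynomial.algHom_ext
    intro j
    rw [AlgHom.comp_apply]
    unfold i5
    rw [rename_X]
    exact sb_ne g (cast_ne j)
  exact DFunLike.congr_fun h p

lemma sb_comp (g : Sr) : (sb g).comp (sb (-g)) = AlgHom.id ℂ P5 := by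
  apply MvPolynomial.algHom_ext
  intro j
  rw [AlgHom.comp_apply, AlgHom.id_apply]
  by_cases h : j = 4
  · subst h
    rw [sb_last, map_add, sb_last, sb_i5, map_neg]
    ring
  · rw [sb_ne _ h, sb_ne _ h]

lemma sb_hom (h1 : T_N01) (g : Sr) (hg : Hmg g 3) (m : ℤ) (p : P5)
    (hp : IsWeightedHomogeneous w5 p m) : IsWeightedHomogeneous w5 (sb g p) m := by
  have hvar : ∀ j : Fin 5, IsWeightedHomogeneous w5
      ((fun j : Fin 5 => if j = 4 then (X 4 + i5 g : P5) else X j) j) (w5 j) := by
    intro j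
    by_cases h : j = 4
    · subst h
      have e : w5 4 = 3 := rfl
      simp only [if_true]
      rw [e]
      refine IsWeightedHomogeneous.add ?_ ((h1 g 3).1 hg)
      exact isWeightedHomogeneous_X ℂ w5 4
    · simp only [if_neg h]
      exact isWeightedHomogeneous_X ℂ w5 j
  unfold sb
  rw [aeval_def, eval₂_eq']
  refine IsWeightedHomogeneous.sum _ _ _ ?_
  intro d hd
  have hw : Finsupp.weight w5 d = m := hp (mem_support_iff.1 hd)
  have h2 : IsWeightedHomogeneous w5
      (∏ i, (fun j : Fin 5 => if j = 4 then (X 4 + i5 g : P5) else X j) i ^ d i)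
      (∑ i, d i • w5 i) :=
    IsWeightedHomogeneous.prod _ _ _ fun i _ => (hvar i).pow (d i)
  have h3 : (∑ i, d i • w5 i) = m := by
    rw [← hw, Finsupp.weight_apply, Finsupp.sum_fintype]
    intro i
    exact zero_smul ℕ _
  rw [h3] at h2
  have h4 := (isWeightedHomogeneous_C w5 (coeff d p)).mul h2
  rw [zero_add] at h4
  exact h4

end N06_

open N06_ in
/-- The automorphism `z ↦ z + g`. -/
theorem p_N06 (h1 : T_N01) : T_N06 := by
  intro g hg
  have hng : Hmg (-g) 3 := by
    intro a ha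
    refine hg a fun h => ha ?_
    rw [coeff_neg, h, neg_zero]
  have e1 := sb_comp g
  have e2 := sb_comp (-g)
  rw [neg_neg] at e2
  refine ⟨AlgEquiv.ofAlgHom (sb g) (sb (-g)) e1 e2, ?_, ?_, ?_⟩
  · intro m p
    refine ⟨fun h => sb_hom h1 g hg m p h, fun h => ?_⟩
    have h2 := sb_hom h1 (-g) hng m _ h
    have h3 : sb (-g) (sb g p) = p := DFunLike.congr_fun e2 p
    change IsWeightedHomogeneous w5 (sb (-g) (sb g p)) m at h2
    rw [h3] at h2
    exact h2
  · intro p
    exact sb_i5 g p
  · exact sb_last g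

end Pool.Agent.VDK
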