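import Pool.Agent.VDK.T1

/-!
# VDK, target `T_PEX`: maps from `P_k(t)`
-/

set_option autoImplicit false
set_option linter.unusedVariables false

open CategoryTheory CategoryTheory.Limits Pretriangulated MvPolynomial Pool.Agent.VDC

noncomputable section

namespace Pool.Agent.VDK

namespace PEX_

lemma step_deg (Y : PO) (c : Y.ι → ℤ) (K : ℤ) (h : ∀ i, K ≤ Y.deg i + 2 * c i) (l a : Sr)
    (e : ℤ) (hl : Hmg l e) (ha : Hmg a (6 - e)) (he : 1 ≤ e) (K' : ℤ) (hK : K' = K + 3 - e) :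
    ∀ i, K' ≤ (TT Y l a e hl ha).deg i + 2 * cdS c i := by
  rintro (i | i)
  · have := h i
    show K' ≤ Y.deg i + 2 * (c i + 1)
    lia
  · have := h i
    show K' ≤ (Y.deg i + 3 - e) + 2 * c i
    lia

lemma step_nonneg {ι : Type} (c : ι → ℤ) (h : ∀ i, 0 ≤ c i) : ∀ i, 0 ≤ cdS c i := by
  rintro (i | i)
  · have := h i
    show 0 ≤ c i + 1
    lia
  · exact h i

lemma step_zero {ι : Type} (c : ι → ℤ) (h : ∀ i, 0 ≤ c i) (i₀ : ι) (h0 : ∀ i, c i ≤ 0 → i = i₀) :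
    ∀ i, cdS c i ≤ 0 → i = Sum.inr i₀ := by
  rintro (i | i) hi
  · have h1 := h i
    have h2 : c i + 1 ≤ 0 := hi
    lia
  · exact congrArg Sum.inr (h0 i hi)

/-- extension of maps along the first map of a triangle -/
lemma extend {T : Type*} [Category T] [HasZeroObject T] [HasShift T ℤ] [Preadditive T]
    [∀ n : ℤ, (shiftFunctor T n).Additive] [Pretriangulated T] {A P Q W A' : T} (a : A ⟶ P)
    (b : P ⟶ Q) (c : Q ⟶ (shiftFunctor T (1 : ℤ)).obj A)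
    (hT : Triangle.mk a b c ∈ distTriang T) (e : A ≅ A') (x : A' ⟶ W)
    (h : ∀ y : Q ⟶ (shiftFunctor T (1 : ℤ)).obj W, y = 0) :
    ∃ (g : A' ⟶ P) (φ : P ⟶ W), g ≫ φ = x := by
  obtain ⟨g, hg⟩ := Triangle.yoneda_exact₂ _ (rot_of_distTriang _ (rot_of_distTriang _ hT))
    ((shiftFunctor T (1 : ℤ)).map (e.hom ≫ x)) (h _)
  obtain ⟨φ, rfl⟩ := (shiftFunctor T (1 : ℤ)).map_surjective g
  have hg' : (shiftFunctor T (1 : ℤ)).map (e.hom ≫ x) =
      (-(shiftFunctor T (1 : ℤ)).map a) ≫ (shiftFunctor T (1 : ℤ)).map φ := hg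
  have h6 : e.hom ≫ x = -(a ≫ φ) := by
    apply (shiftFunctor T (1 : ℤ)).map_injective
    rw [hg', Functor.map_neg, Functor.map_comp, Preadditive.neg_comp]
  refine ⟨-(e.inv ≫ a), φ, ?_⟩
  rw [Preadditive.neg_comp, Category.assoc, ← Preadditive.comp_neg, ← h6,
    Iso.inv_hom_id_assoc]

variable {f : Sr}

lemma kk_deg (D : KA f) (i : (kk D).ι) : 0 ≤ (kk D).deg i + 2 * cd D i := by
  refine step_deg _ _ (-2) ?_ (D.kd.l 0) (D.kd.a 0) (D.kd.e 0) (D.kd.hl 0) (D.kd.ha 0) ?_ 0 ?_ i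
  · refine step_deg _ _ (-3) ?_ (D.kd.l 3) (D.kd.a 3) (D.kd.e 3) (D.kd.hl 3) (D.kd.ha 3) ?_ _ ?_
    · refine step_deg _ _ (-5) ?_ (D.kd.l 2) (D.kd.a 2) (D.kd.e 2) (D.kd.hl 2) (D.kd.ha 2) ?_ _ ?_
      · refine step_deg (UU (-7)) (fun _ => 0) (-7) ?_ (D.kd.l 1) (D.kd.a 1) (D.kd.e 1)
          (D.kd.hl 1) (D.kd.ha 1) ?_ _ ?_
        · intro i
          show (-7 : ℤ) ≤ -7 + 2 * 0
          norm_num
        · show (1 : ℤ) ≤ wt 1
          simp [wt]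
        · show (-5 : ℤ) = -7 + 3 - wt 1
          simp [wt]
      · show (1 : ℤ) ≤ wt 2
        simp [wt]
      · show (-3 : ℤ) = -5 + 3 - wt 2
        simp [wt]
    · show (1 : ℤ) ≤ wt 3
      simp [wt]
    · show (-2 : ℤ) = -3 + 3 - wt 3
      simp [wt]
  · show (1 : ℤ) ≤ wt 0
    simp [wt]
  · show (0 : ℤ) = -2 + 3 - wt 0
    simp [wt]

lemma cd_nonneg (D : KA f) (i : (kk D).ι) : 0 ≤ cd D i :=
  step_nonneg _ (step_nonneg _ (step_nonneg _ (step_nonneg _ fun _ => le_rfl))) i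

/-- the generator of cardinality zero -/
def i0 (D : KA f) : (kk D).ι := Sum.inr (Sum.inr (Sum.inr (Sum.inr ())))

lemma cd_zero (D : KA f) (i : (kk D).ι) (hi : cd D i ≤ 0) : i = i0 D :=
  step_zero _ (step_nonneg _ (step_nonneg _ (step_nonneg _ fun _ => le_rfl))) _
    (step_zero _ (step_nonneg _ (step_nonneg _ fun _ => le_rfl)) _
      (step_zero _ (step_nonneg _ fun _ => le_rfl) _
        (step_zero (fun _ => 0) (fun _ => le_rfl) () fun _ _ => rfl))) i hi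

lemma cd_i0 (D : KA f) : cd D (i0 D) = 0 := rfl

lemma deg_i0 (D : KA f) : (kk D).deg (i0 D) = 0 := by
  show (-7 + 3 - wt 1 + 3 - wt 2 + 3 - wt 3 + 3 - wt 0 : ℤ) = 0
  simp [wt]

variable [H6 f]

lemma isZero_empty (X : GF (gZ f)) (h : IsEmpty X.ι) : IsZero X :=
  ⟨fun Y => ⟨⟨⟨0⟩, fun a => gf_ext (Matrix.ext fun i j => h.elim j)⟩⟩,
    fun Y => ⟨⟨⟨0⟩, fun a => gf_ext (Matrix.ext fun i j => h.elim i)⟩⟩⟩

lemma le_res (C : CochainComplex (GF (gZ f)) ℤ) (V : ∀ n, (C.X n).ι → Prop) (hV : LC C V)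
    (m : ℤ) (h : ∀ n i, V n i → n ≤ m) : (resC C V hV).IsStrictlyLE m := by
  rw [CochainComplex.isStrictlyLE_iff]
  intro n hn
  refine isZero_empty _ ⟨fun i => ?_⟩
  have := h n i.1 i.2
  lia

lemma shift_iso {m t : ℤ} (h : m = t) :
    Nonempty ((shiftFunctor (KK (gZ f)) (-(0 : ℤ))).obj (OK (gZ f) m) ≅ OK (gZ f) t) := by
  subst h
  exact ⟨(shiftFunctorZero' (KK (gZ f)) (-(0 : ℤ)) neg_zero).app _⟩

end PEX_

open PEX_

theorem p_PEX (hRTR : T_RTR) (hSGL : T_SGL) (hHTD : T_HTD) : T_PEX := by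
  intro f _ D t W hW1 hW0 x
  have hU := UK_qc D t
  have hV := (UK_qc D t).inf (Ule_qc (CF (tw t 1 (kk D))) (-1))
  obtain ⟨a, b, c, hT⟩ := hRTR (RR f) (gZ f) (CF (tw t 1 (kk D))) (UK D t)
    (fun n i => UK D t n i ∧ Ule (-1) (CF (tw t 1 (kk D))) n i) hU hV (fun n i h => h.1)
  obtain ⟨e⟩ := hSGL (RR f) (gZ f) (CF (tw t 1 (kk D)))
    (fun n i => UK D t n i ∧ ¬ (UK D t n i ∧ Ule (-1) (CF (tw t 1 (kk D))) n i))
    (hU.lc_diff hV) 0 (i0 D) (by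
      rintro n i ⟨h1, h2⟩
      have h3 : cd D i ≤ -n := h1
      have h4 := cd_nonneg D i
      have h5 : ¬ n ≤ -1 := fun h => h2 ⟨h1, h⟩
      lia) (by
      intro i
      constructor
      · rintro ⟨h1, h2⟩
        have h3 : cd D i ≤ -0 := h1
        exact cd_zero D i (by simpa using h3)
      · intro h
        subst h
        refine ⟨?_, fun h => ?_⟩
        · show cd D (i0 D) ≤ -0
          rw [cd_i0]
          simp
        · have h3 : (0 : ℤ) ≤ -1 := h.2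
          lia)
  have hdeg : -(((CF (tw t 1 (kk D))).X 0).deg (i0 D)) = t := by
    show -(((kk D).deg (i0 D) - t) - 3 * 0) = t
    rw [deg_i0]
    ring
  obtain ⟨e'⟩ := shift_iso (f := f) hdeg
  set C := CF (tw t 1 (kk D)) with hC
  refine extend a b c hT (e ≪≫ e') x fun y => ?_
  refine hHTD (RR f) (gZ f) (resC C _ hV.lc) (-1) ((shiftFunctor (KK (gZ f)) (1 : ℤ)).obj W)
    (le_res C _ hV.lc (-1) fun n i h => h.2) ?_ _
  rintro n ⟨i, hi1, hi2⟩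
  have h1 : cd D i ≤ -n := hi1
  have h2 : n ≤ -1 := hi2
  have h3 := kk_deg D i
  have h4 : -t < (((kk D).deg i - t) - 3 * n) := by lia
  refine CohZero.shift (k := 1) ?_
  rcases lt_or_eq_of_le (show 1 + n ≤ 0 by lia) with h5 | h5
  · exact hW1 (1 + n) h5 _ h4.le
  · rw [h5]
    exact hW0 _ h4

end Pool.Agent.VDK
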