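import Pool.Agent.VDK.T3

/-!
# VDK: U05, transport of the Kuznetsov component along graded isomorphisms
-/

set_option autoImplicit false
set_option linter.unusedVariables false

open CategoryTheory CategoryTheory.Limits Pretriangulated

noncomputable section

namespace Pool.Agent.VDK

namespace U05_

universe v u

section

variable {D : Type u} [Category.{v} D] [HasZeroObject D] [HasShift D ℤ] [Preadditive D]
  [∀ n : ℤ, (shiftFunctor D n).Additive] [Pretriangulated D]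
  {D' : Type u} [Category.{v} D'] [HasZeroObject D'] [HasShift D' ℤ] [Preadditive D']
  [∀ n : ℤ, (shiftFunctor D' n).Additive] [Pretriangulated D']

lemma orth (E : D ⥤ D') [E.CommShift ℤ] (hE : E.IsEquivalence) (hT : E.IsTriangulated)
    {P : D} {P' : D'} (i : E.obj P ≅ P') (X : D) : Orth P X ↔ Orth P' (E.obj X) := by
  have hz : ∀ {Y Z : D}, E.map (0 : Y ⟶ Z) = 0 := fun {Y Z} => Functor.map_zero E Y Z
  constructor
  · intro h n x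
    obtain ⟨z, hz'⟩ := E.map_surjective (i.hom ≫ x ≫ (E.commShiftIso n).inv.app X)
    have h0 : z = 0 := h n z
    rw [h0, hz] at hz'
    have h1 : x ≫ (E.commShiftIso n).inv.app X = 0 := by
      rw [← cancel_epi i.hom, ← hz', comp_zero]
    rw [← cancel_mono ((E.commShiftIso n).inv.app X), h1, zero_comp]
  · intro h n x
    have h1 := h n (i.inv ≫ E.map x ≫ (E.commShiftIso n).hom.app X)
    have h2 : E.map x ≫ (E.commShiftIso n).hom.app X = 0 := by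
      rw [← cancel_epi i.inv, h1, comp_zero]
    have h3 : E.map x = 0 := by
      rw [← cancel_mono ((E.commShiftIso n).hom.app X), h2, zero_comp]
    exact E.map_injective (h3.trans hz.symm)

end

end U05_

/-- `T_U05` -/
theorem p_U05 (h1 : T_U01) (h2 : T_U02) (h3 : T_U03.{0}) (h3' : T_U03.{1}) (h4 : T_U04) :
    T_U05 := by
  intro A B _ _ _ _ 𝒜 ℬ _ _ e he
  obtain ⟨Φ, c, hE, hT, hL, hO, hB⟩ := h1 A B 𝒜 ℬ e he
  have hC := h2 A B 𝒜 ℬ Φ hE hT hO hB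
  obtain ⟨G, cG, hGE, hGT, hGL, ⟨iG⟩⟩ := h3 (KK 𝒜) (KK ℬ) (Dgr 𝒜) (Dgr ℬ) Φ hE hT hL
    (fun X => (hC X).2.1)
  have hTors : ∀ X, TorsGr 𝒜 X ↔ TorsGr ℬ (G.obj X) := fun X =>
    ((hC X.obj).2.2).trans ((Tors ℬ).prop_iff_of_iso (iG.app X).symm)
  obtain ⟨H, cH, hHE, hHT, hHL, ⟨iH⟩⟩ := h4 (DbGr 𝒜) (DbGr ℬ) (TorsGr 𝒜) (TorsGr ℬ) G hGE hGT
    hGL hTors
  have hOY : ∀ m, Nonempty (H.obj (OY 𝒜 m) ≅ OY ℬ m) := fun m => by
    obtain ⟨i⟩ := hO m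
    exact ⟨iH.app ⟨OK 𝒜 m, dgr_OK 𝒜 m⟩ ≪≫
      (TorsGr ℬ).trW.Q.mapIso ((Dgr ℬ).isoMk (iG.app ⟨OK 𝒜 m, dgr_OK 𝒜 m⟩ ≪≫ i))⟩
  have hKu : ∀ X, KuProp 𝒜 X ↔ KuProp ℬ (H.obj X) := fun X =>
    and_congr (U05_.orth H hHE hHT (hOY 0).some X) (U05_.orth H hHE hHT (hOY 1).some X)
  have hA : (KuProp 𝒜).IsClosedUnderIsomorphisms :=
    inferInstanceAs ((Orth (OY 𝒜 0) ⊓ Orth (OY 𝒜 1)).IsClosedUnderIsomorphisms)
  have hA' : (KuProp ℬ).IsClosedUnderIsomorphisms :=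
    inferInstanceAs ((Orth (OY ℬ 0) ⊓ Orth (OY ℬ 1)).IsClosedUnderIsomorphisms)
  obtain ⟨K, cK, hKE, hKT, hKL, _⟩ := h3' (DbCoh 𝒜) (DbCoh ℬ) (KuProp 𝒜) (KuProp ℬ) H hHE hHT
    hHL hKu
  exact ⟨⟨K, hKE, cK, hKT, hKL⟩⟩

end Pool.Agent.VDK
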