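import Pool.Agent.VDK.Res
import Pool.Agent.VDC.Geo
import Pool.Agent.VDC.Core

/-!
# Matrix factorisations and periodic complexes of graded free modules
-/

set_option autoImplicit false
set_option linter.unusedVariables false

open CategoryTheory CategoryTheory.Limits Pretriangulated MvPolynomial Pool.Agent.VDC

noncomputable section

namespace Pool.Agent.VDK

/-- the grading of `R = S[z] / (z ^ 2 + f)`, indexed by `ℤ` -/
def gZ (f : Sr) (m : ℤ) : Submodule ℂ (RR f) where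
  carrier := {r | Hmg r.re m ∧ Hmg r.im (m - 3)}
  add_mem' ha hb := ⟨ha.1.add hb.1, ha.2.add hb.2⟩
  zero_mem' := ⟨Hmg.zero _, Hmg.zero _⟩
  smul_mem' c _ ha := ⟨ha.1.csmul c, ha.2.csmul c⟩

/-- `f` is homogeneous of degree `6` -/
class H6 (f : Sr) : Prop where
  out : Hmg f 6

variable {f : Sr}

lemma mem_gZ {r : RR f} {m : ℤ} : r ∈ gZ f m ↔ Hmg r.re m ∧ Hmg r.im (m - 3) := Iff.rfl

instance [H6 f] : SetLike.GradedMonoid (gZ f) where
  one_mem := ⟨Hmg.one, Hmg.zero _⟩
  mul_mem := by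
    rintro m k r t ⟨h1, h2⟩ ⟨h3, h4⟩
    constructor
    · rw [QuadraticAlgebra.re_mul]
      exact (h1.mul h3).add ((((H6.out (f := f)).neg.mul h2).mul h4).congr (by ring))
    · rw [QuadraticAlgebra.im_mul, zero_mul, zero_mul, add_zero]
      exact ((h1.mul h4).congr (by ring)).add ((h2.mul h3).congr (by ring))

lemma wd_nonneg (a : Fin 4 →₀ ℕ) : 0 ≤ wd a := by
  refine Finset.sum_nonneg fun i _ => mul_nonneg ?_ (Int.natCast_nonneg _)
  fin_cases i <;> simp [wt]

lemma Hmg.eq_zero {p : Sr} {m : ℤ} (h : Hmg p m) (hm : m < 0) : p = 0 := by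
  ext a
  rw [coeff_zero]
  by_contra h1
  have := wd_nonneg a
  rw [h a h1] at this
  exact absurd this (not_le.2 hm)

instance : NonNeg (gZ f) where
  out m hm a ha := QuadraticAlgebra.ext (Hmg.eq_zero ha.1 hm) (Hmg.eq_zero ha.2 (by lia))

/-- the matrix `P + z Q` -/
def rm (f : Sr) {ι κ : Type} (P Q : Matrix ι κ Sr) : Matrix ι κ (RR f) :=
  Matrix.of fun i j => ⟨P i j, Q i j⟩

/-- the part without `z` -/
def reM {ι κ : Type} (M : Matrix ι κ (RR f)) : Matrix ι κ Sr := Matrix.of fun i j => (M i j).re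

/-- the coefficient of `z` -/
def imM {ι κ : Type} (M : Matrix ι κ (RR f)) : Matrix ι κ Sr := Matrix.of fun i j => (M i j).im

section

variable {ι κ μ : Type}

@[simp] lemma reM_rm (P Q : Matrix ι κ Sr) : reM (rm f P Q) = P := rfl

@[simp] lemma imM_rm (P Q : Matrix ι κ Sr) : imM (rm f P Q) = Q := rfl

lemma rm_eta (M : Matrix ι κ (RR f)) : rm f (reM M) (imM M) = M := rfl

lemma rm_inj {P Q P' Q' : Matrix ι κ Sr} : rm f P Q = rm f P' Q' ↔ P = P' ∧ Q = Q' :=
  ⟨fun h => ⟨congrArg reM h, congrArg imM h⟩, fun h => by rw [h.1, h.2]⟩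

lemma rm_add (P Q P' Q' : Matrix ι κ Sr) : rm f P Q + rm f P' Q' = rm f (P + P') (Q + Q') := rfl

lemma rm_sub (P Q P' Q' : Matrix ι κ Sr) : rm f P Q - rm f P' Q' = rm f (P - P') (Q - Q') := rfl

lemma rm_neg (P Q : Matrix ι κ Sr) : -rm f P Q = rm f (-P) (-Q) := rfl

lemma rm_zero : rm f (0 : Matrix ι κ Sr) 0 = 0 := rfl

lemma rm_smul (c : ℂ) (P Q : Matrix ι κ Sr) : c • rm f P Q = rm f (c • P) (c • Q) := rfl

lemma rm_one [DecidableEq ι] : rm f (1 : Matrix ι ι Sr) 0 = 1 := by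
  refine Matrix.ext fun i j => ?_
  by_cases h : i = j
  · subst h
    rw [Matrix.one_apply_eq]
    show (⟨(1 : Matrix ι ι Sr) i i, 0⟩ : RR f) = 1
    rw [Matrix.one_apply_eq]
    rfl
  · rw [Matrix.one_apply_ne h]
    show (⟨(1 : Matrix ι ι Sr) i j, 0⟩ : RR f) = 0
    rw [Matrix.one_apply_ne h]
    rfl

lemma rm_mul [Fintype κ] (P Q : Matrix ι κ Sr) (P' Q' : Matrix κ μ Sr) :
    rm f P Q * rm f P' Q' = rm f (P * P' - f • (Q * Q')) (P * Q' + Q * P') := by
  refine Matrix.ext fun i j => QuadraticAlgebra.ext ?_ ?_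
  · rw [Matrix.mul_apply, show (∑ k, rm f P Q i k * rm f P' Q' k j).re =
      ∑ k, (rm f P Q i k * rm f P' Q' k j).re from
      map_sum (QuadraticAlgebra.reₗ (-f) (0 : Sr)) _ _]
    show _ = (P * P') i j - f * (Q * Q') i j
    rw [Matrix.mul_apply, Matrix.mul_apply, Finset.mul_sum, ← Finset.sum_sub_distrib]
    refine Finset.sum_congr rfl fun k _ => ?_
    rw [QuadraticAlgebra.re_mul]
    show P i k * P' k j + -f * Q i k * Q' k j = _
    ring
  · rw [Matrix.mul_apply, show (∑ k, rm f P Q i k * rm f P' Q' k j).im =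
      ∑ k, (rm f P Q i k * rm f P' Q' k j).im from
      map_sum (QuadraticAlgebra.imₗ (-f) (0 : Sr)) _ _]
    show _ = (P * Q') i j + (Q * P') i j
    rw [Matrix.mul_apply, Matrix.mul_apply, ← Finset.sum_add_distrib]
    refine Finset.sum_congr rfl fun k _ => ?_
    rw [QuadraticAlgebra.im_mul]
    show P i k * Q' k j + Q i k * P' k j + 0 * Q i k * Q' k j = _
    ring

end

/-! ### the periodic complex of a matrix factorisation -/

/-- the sign `(-1) ^ n`, as an integer -/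
def sg (n : ℤ) : ℤ := ((n.negOnePow : ℤˣ) : ℤ)

lemma sg_succ (n : ℤ) : sg (n + 1) = - sg n := by
  unfold sg
  rw [Int.negOnePow_succ]
  rfl

lemma sg_mul_self (n : ℤ) : sg n * sg n = 1 := by
  unfold sg
  rw [← Units.val_mul, Int.units_mul_self, Units.val_one]

lemma sg_sq {κ : Type*} [AddCommGroup κ] (n : ℤ) (x : κ) : sg n • sg n • x = x := by
  rw [smul_smul, sg_mul_self, one_smul]

/-- the free module `F(3 n) ⊗ R` -/
abbrev perX (F : CM f) (n : ℤ) : GF (gZ f) := ⟨F.ι, fun i => F.deg i - 3 * n⟩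

/-- the matrix `Φ + (-1) ^ n z` -/
def dmat (F : CM f) (n : ℤ) : Matrix F.ι F.ι (RR f) := rm f F.Φ (sg n • (1 : Matrix F.ι F.ι Sr))

lemma one_hmg {ι : Type} [DecidableEq ι] (deg : ι → ℤ) (i j : ι) :
    Hmg ((1 : Matrix ι ι Sr) i j) (deg j - deg i) := by
  by_cases h : i = j
  · subst h
    rw [Matrix.one_apply_eq]
    exact Hmg.one.congr (by ring)
  · rw [Matrix.one_apply_ne h]
    exact Hmg.zero _

lemma dmat_mem (F : CM f) (n : ℤ) (i j : F.ι) :
    dmat F n i j ∈ gZ f ((perX F n).deg j - (perX F (n + 1)).deg i) :=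
  ⟨(F.hom i j).congr (by show _ = F.deg j - 3 * n - (F.deg i - 3 * (n + 1)); ring),
    ((one_hmg F.deg i j).zsmul (sg n)).congr
      (by show _ = F.deg j - 3 * n - (F.deg i - 3 * (n + 1)) - 3; ring)⟩

lemma dmat_mul (F : CM f) (n : ℤ) : dmat F (n + 1) * dmat F n = 0 := by
  unfold dmat
  rw [rm_mul, sg_succ, F.sq, ← rm_zero, rm_inj]
  constructor
  · rw [Matrix.smul_mul, Matrix.mul_smul, Matrix.one_mul, neg_smul, smul_neg, sg_sq, sub_neg_eq_add,
      neg_add_cancel]
  · rw [Matrix.mul_smul, Matrix.smul_mul, Matrix.mul_one, Matrix.one_mul, neg_smul,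
      add_neg_cancel]

section

variable [H6 f]

/-- the periodic complex `… → F(3 n) ⊗ R → F(3 n + 3) ⊗ R → …` with differential
`Φ + (-1) ^ n z` -/
def CF (F : CM f) : CochainComplex (GF (gZ f)) ℤ :=
  CochainComplex.of (perX F) (fun n => ofm (dmat F n) (dmat_mem F n))
    (fun n => gf_ext (dmat_mul F n))

lemma CF_X (F : CM f) (n : ℤ) : (CF F).X n = perX F n := rfl

lemma CF_d (F : CM f) (n : ℤ) : (CF F).d n (n + 1) = ofm (dmat F n) (dmat_mem F n) :=
  CochainComplex.of_d (perX F) (fun n => ofm (dmat F n) (dmat_mem F n)) n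

lemma mat_CF_d (F : CM f) (n : ℤ) : mat ((CF F).d n (n + 1)) = dmat F n := by
  rw [CF_d]
  rfl

end

lemma dmat_comm {X Y : CM f} (g : mor X Y) (n : ℤ) :
    dmat Y n * rm f g.1 0 = rm f g.1 0 * dmat X n := by
  unfold dmat
  rw [rm_mul, rm_mul, rm_inj]
  have h := g.2.2
  constructor
  · rw [h]
    simp
  · rw [Matrix.mul_zero, Matrix.zero_mul, add_zero, zero_add, Matrix.smul_mul,
      Matrix.mul_smul, Matrix.one_mul, Matrix.mul_one]

variable [H6 f]

/-- a map of matrix factorisations, in position `n` -/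
def CFx {X Y : CM f} (g : mor X Y) (n : ℤ) : perX X n ⟶ perX Y n :=
  ofm (rm f g.1 0) fun i j =>
    ⟨(g.2.1 i j).congr (by show _ = X.deg j - 3 * n - (Y.deg i - 3 * n); ring), Hmg.zero _⟩

lemma mat_CFx {X Y : CM f} (g : mor X Y) (n : ℤ) : mat (CFx g n) = rm f g.1 0 := rfl

/-- the map of complexes given by a map of matrix factorisations -/
def CFm {X Y : CM f} (g : mor X Y) : CF X ⟶ CF Y :=
  CochainComplex.ofHom (X := CF X) (Y := CF Y) (CFx g) (fun n => gf_ext (by
    rw [CF_d, CF_d]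
    exact dmat_comm g n))

lemma mat_CFm {X Y : CM f} (g : mor X Y) (n : ℤ) : mat ((CFm g).f n) = rm f g.1 0 := rfl

/-- a map of degree `-3`, as a homotopy between periodic complexes -/
def CFh {X Y : CM f} (h : Matrix Y.ι X.ι Sr)
    (hh : ∀ i j, Hmg (h i j) (X.deg j - 3 - Y.deg i)) (n k : ℤ)
    (hk : (ComplexShape.up ℤ).Rel k n) : (CF X).X n ⟶ (CF Y).X k :=
  ofm (X := perX X n) (Y := perX Y k) (rm f h 0) fun i j =>
    ⟨(hh i j).congr (by
      have h1 : k + 1 = n := hk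
      show _ = X.deg j - 3 * n - (Y.deg i - 3 * k)
      lia), Hmg.zero _⟩

lemma CFh_comp {X Y : CM f} (h : Matrix Y.ι X.ι Sr)
    (hh : ∀ i j, Hmg (h i j) (X.deg j - 3 - Y.deg i)) (n k m : ℤ) (hm : n = m)
    (hk : (ComplexShape.up ℤ).Rel k n) (hk' : k + 1 = m) :
    mat ((CF X).d n (n + 1) ≫ CFh h hh (n + 1) n rfl + CFh h hh n k hk ≫ (CF Y).d k n) =
      rm f (Y.Φ * h + h * X.Φ) 0 := by
  subst hm
  subst hk'
  rw [CF_d, CF_d]
  show rm f h 0 * dmat X (k + 1) + dmat Y k * rm f h 0 = _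
  unfold dmat
  rw [rm_mul, rm_mul, rm_add, rm_inj, sg_succ]
  constructor
  · simp [add_comm]
  · rw [Matrix.zero_mul, Matrix.mul_zero, add_zero, zero_add, neg_smul, Matrix.mul_neg,
      Matrix.mul_smul, Matrix.smul_mul, Matrix.mul_one, Matrix.one_mul, neg_add_cancel]

lemma CFm_null {X Y : CM f} (g : mor X Y) (hg : g ∈ nul X Y) : (qK (gZ f)).map (CFm g) = 0 := by
  obtain ⟨h, hh, h1⟩ := hg
  have h2 : CFm g = Homotopy.nullHomotopicMap' (CFh h hh) := by
    refine HomologicalComplex.Hom.ext (funext fun n => ?_)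
    refine Eq.trans ?_ (Homotopy.nullHomotopicMap'_f (c := ComplexShape.up ℤ) (k₂ := n - 1)
      (k₁ := n) (k₀ := n + 1) (by simp) rfl (CFh h hh)).symm
    refine gf_ext ?_
    refine Eq.trans ?_ (CFh_comp h hh n (n - 1) n rfl (by simp) (by lia)).symm
    rw [← h1]
    rfl
  rw [h2]
  exact (HomotopyCategory.eq_of_homotopy _ _
    (Homotopy.nullHomotopy' (c := ComplexShape.up ℤ) (CFh h hh))).trans (Functor.map_zero _ _ _)

lemma cf_ext {C D : CochainComplex (GF (gZ f)) ℤ} {a b : C ⟶ D}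
    (h : ∀ n, mat (a.f n) = mat (b.f n)) : a = b :=
  HomologicalComplex.Hom.ext (funext fun n => gf_ext (h n))

/-- `CFm` as a linear map to the maps up to homotopy -/
def CFL (X Y : CM f) : mor X Y →ₗ[ℂ] ((qK (gZ f)).obj (CF X) ⟶ (qK (gZ f)).obj (CF Y)) where
  toFun g := (qK (gZ f)).map (CFm g)
  map_add' a b := by
    rw [← Functor.map_add]
    refine congrArg _ (cf_ext fun n => ?_)
    show rm f (a.1 + b.1) 0 = rm f a.1 0 + rm f b.1 0
    rw [rm_add, add_zero]
  map_smul' c a := by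
    rw [RingHom.id_apply, ← Functor.map_smul]
    refine congrArg _ (cf_ext fun n => ?_)
    show rm f (c • a.1) 0 = c • rm f a.1 0
    rw [rm_smul, smul_zero]

/-- The functor which sends a matrix factorisation to its periodic complex. -/
def Cper (f : Sr) [H6 f] : CM f ⥤ KK (gZ f) where
  obj F := (qK (gZ f)).obj (CF F)
  map {X Y} a := Submodule.liftQ (nul X Y) (CFL X Y) (fun g hg => CFm_null g hg) a
  map_id X := by
    refine Eq.trans ?_ ((qK (gZ f)).map_id (CF X))
    exact congrArg (fun g => (qK (gZ f)).map g) (cf_ext fun n => rm_one)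
  map_comp {X Y Z} a b := by
    obtain ⟨a, rfl⟩ := Submodule.mkQ_surjective _ a
    obtain ⟨b, rfl⟩ := Submodule.mkQ_surjective _ b
    refine Eq.trans ?_ ((qK (gZ f)).map_comp (CFm a) (CFm b))
    refine congrArg (fun g => (qK (gZ f)).map g) (cf_ext fun n => ?_)
    show rm f (b.1 * a.1) 0 = rm f b.1 0 * rm f a.1 0
    rw [rm_mul]
    simp

lemma Cper_cls {X Y : CM f} (g : mor X Y) : (Cper f).map (cls g) = (qK (gZ f)).map (CFm g) := rfl

instance : (Cper f).Additive where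
  map_add := map_add _ _ _

instance : (Cper f).Linear ℂ where
  map_smul a r := map_smul _ r a

/-- The functor `Ψ` from matrix factorisations to complexes of free modules: the quotient of the
periodic complex spanned by the generators of degree `≥ 1`. -/
def Psi (f : Sr) [H6 f] : CM f ⥤ KK (gZ f) := Cper f ⋙ Tge (gZ f) 1

end Pool.Agent.VDK
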