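import Pool.Agent.VDK.Kdefs

/-!
# Subquotients of complexes of graded free modules spanned by subsets of the generators
-/

set_option autoImplicit false
set_option linter.unusedVariables false

open CategoryTheory CategoryTheory.Limits Pretriangulated

noncomputable section

namespace Pool.Agent.VDK

variable {A : Type} [CommRing A] [Algebra ℂ A] {𝒜 : ℤ → Submodule ℂ A}

/-- there are no elements of negative degree -/
class NonNeg (𝒜 : ℤ → Submodule ℂ A) : Prop where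
  out : ∀ m < 0, ∀ a ∈ 𝒜 m, a = 0

open scoped Classical in
/-- the free module on the generators `i` with `u i` -/
def resX (X : GF 𝒜) (u : X.ι → Prop) : GF 𝒜 := ⟨{i // u i}, fun i => X.deg i.1⟩

variable [SetLike.GradedMonoid 𝒜]

/-- the corresponding block of a map -/
def resM {X Y : GF 𝒜} (u : X.ι → Prop) (v : Y.ι → Prop) (g : X ⟶ Y) : resX X u ⟶ resX Y v :=
  ofm ((mat g).submatrix Subtype.val Subtype.val) fun i j => mat_mem g i.1 j.1

/-- the inclusion of the submodule spanned by the generators `i` with `u i` -/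
def resI (X : GF 𝒜) (u : X.ι → Prop) : resX X u ⟶ X :=
  ofm ((1 : Matrix X.ι X.ι A).submatrix id Subtype.val) fun i j => one_mem_GFHom X i j.1

/-- the projection to the module spanned by the generators `i` with `u i` -/
def resP (X : GF 𝒜) (u : X.ι → Prop) : X ⟶ resX X u :=
  ofm ((1 : Matrix X.ι X.ι A).submatrix Subtype.val id) fun i j => one_mem_GFHom X i.1 j

/-- a sum over `X.ι` of products vanishing outside of `u` is the sum over the subtype -/
lemma res_mul {X Y Z : GF 𝒜} (u : X.ι → Prop) (v : Y.ι → Prop) (w : Z.ι → Prop) (a : X ⟶ Y)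
    (b : Y ⟶ Z) (h : ∀ i j k, u i → ¬ v j → w k → mat b k j * mat a j i = 0) :
    resM u v a ≫ resM v w b = resM u w (a ≫ b) := by
  classical
  refine gf_ext (Matrix.ext fun k i => ?_)
  show ∑ j : {j // v j}, mat b k.1 j.1 * mat a j.1 i.1 = ∑ j, mat b k.1 j * mat a j i.1
  have h1 : ∑ j : {j // v j}, mat b k.1 j.1 * mat a j.1 i.1 =
      ∑ j ∈ Finset.univ.filter v, mat b k.1 j * mat a j i.1 := by
    rw [← Finset.sum_subtype_eq_sum_filter]
    exact Finset.sum_congr (by ext; simp) fun _ _ => rfl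
  rw [h1, Finset.sum_filter]
  refine Finset.sum_congr rfl fun j _ => ?_
  split_ifs with hj
  · rfl
  · exact (h i.1 j k.1 i.2 hj k.2).symm

/-- `U` is locally closed: the corresponding blocks of the differential form a complex -/
def LC (C : CochainComplex (GF 𝒜) ℤ) (U : ∀ n, (C.X n).ι → Prop) : Prop :=
  ∀ n i j k, U n i → ¬ U (n + 1) j → U (n + 1 + 1) k →
    mat (C.d (n + 1) (n + 1 + 1)) k j * mat (C.d n (n + 1)) j i = 0

/-- `U` is the complement of a subset closed under the differential -/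
def QC (C : CochainComplex (GF 𝒜) ℤ) (U : ∀ n, (C.X n).ι → Prop) : Prop :=
  ∀ n i j, ¬ U n i → U (n + 1) j → mat (C.d n (n + 1)) j i = 0

lemma QC.lc {C : CochainComplex (GF 𝒜) ℤ} {U : ∀ n, (C.X n).ι → Prop} (h : QC C U) : LC C U :=
  fun n i j k hi hj hk => by rw [h (n + 1) j k hj hk, zero_mul]

/-- the difference of two such subsets is locally closed -/
lemma QC.lc_diff {C : CochainComplex (GF 𝒜) ℤ} {U V : ∀ n, (C.X n).ι → Prop} (hU : QC C U)
    (hV : QC C V) : LC C (fun n i => U n i ∧ ¬ V n i) := by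
  intro n i j k hi hj hk
  by_cases h1 : U (n + 1) j
  · have h2 : V (n + 1) j := by
      by_contra h3
      exact hj ⟨h1, h3⟩
    rw [hV n i j hi.2 h2, mul_zero]
  · rw [hU (n + 1) j k h1 hk.1, zero_mul]

/-- the subquotient of `C` spanned by a locally closed subset of the generators -/
def resC (C : CochainComplex (GF 𝒜) ℤ) (U : ∀ n, (C.X n).ι → Prop) (h : LC C U) :
    CochainComplex (GF 𝒜) ℤ :=
  CochainComplex.of (fun n => resX (C.X n) (U n)) (fun n => resM (U n) (U (n + 1)) (C.d n (n + 1)))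
    (fun n => by
      rw [res_mul _ _ _ _ _ (fun i j k hi hj hk => h n i j k hi hj hk), C.d_comp_d]
      exact gf_ext (Matrix.ext fun _ _ => rfl))

lemma resC_X (C : CochainComplex (GF 𝒜) ℤ) (U : ∀ n, (C.X n).ι → Prop) (h : LC C U) (n : ℤ) :
    (resC C U h).X n = resX (C.X n) (U n) := rfl

lemma resC_d (C : CochainComplex (GF 𝒜) ℤ) (U : ∀ n, (C.X n).ι → Prop) (h : LC C U) (n : ℤ) :
    (resC C U h).d n (n + 1) = resM (U n) (U (n + 1)) (C.d n (n + 1)) :=
  CochainComplex.of_d (fun n => resX (C.X n) (U n))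
    (fun n => resM (U n) (U (n + 1)) (C.d n (n + 1))) n

/-! ### truncation by the degree of the generators -/

lemma mat_eq_zero [NonNeg 𝒜] {X Y : GF 𝒜} (a : X ⟶ Y) (i : Y.ι) (j : X.ι)
    (h : X.deg j < Y.deg i) : mat a i j = 0 :=
  NonNeg.out _ (by lia) _ (mat_mem a i j)

/-- the quotient of a free module spanned by the generators of degree `≥ c` -/
def tge (𝒜 : ℤ → Submodule ℂ A) [SetLike.GradedMonoid 𝒜] [NonNeg 𝒜] (c : ℤ) : GF 𝒜 ⥤ GF 𝒜 where
  obj X := resX X fun i => c ≤ X.deg i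
  map a := resM _ _ a
  map_id X := by
    refine gf_ext (Matrix.ext fun i j => ?_)
    show (1 : Matrix X.ι X.ι A) i.1 j.1 = (1 : Matrix _ _ A) i j
    rw [Matrix.one_apply, Matrix.one_apply]
    exact if_congr Subtype.ext_iff.symm rfl rfl
  map_comp {X Y Z} a b := by
    refine (res_mul _ _ _ a b fun i j k hi hj hk => ?_).symm
    rw [mat_eq_zero b k j (by lia), zero_mul]

/-- the submodule of a free module spanned by the generators of degree `< c` -/
def tlt (𝒜 : ℤ → Submodule ℂ A) [SetLike.GradedMonoid 𝒜] [NonNeg 𝒜] (c : ℤ) : GF 𝒜 ⥤ GF 𝒜 where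
  obj X := resX X fun i => X.deg i < c
  map a := resM _ _ a
  map_id X := by
    refine gf_ext (Matrix.ext fun i j => ?_)
    show (1 : Matrix X.ι X.ι A) i.1 j.1 = (1 : Matrix _ _ A) i j
    rw [Matrix.one_apply, Matrix.one_apply]
    exact if_congr Subtype.ext_iff.symm rfl rfl
  map_comp {X Y Z} a b := by
    refine (res_mul _ _ _ a b fun i j k hi hj hk => ?_).symm
    rw [mat_eq_zero a j i (by lia), mul_zero]

instance [NonNeg 𝒜] (c : ℤ) : (tge 𝒜 c).Additive where
  map_add := gf_ext (Matrix.ext fun _ _ => rfl)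

instance [NonNeg 𝒜] (c : ℤ) : (tlt 𝒜 c).Additive where
  map_add := gf_ext (Matrix.ext fun _ _ => rfl)

instance [NonNeg 𝒜] (c : ℤ) : (tge 𝒜 c).Linear ℂ where
  map_smul _ _ := gf_ext (Matrix.ext fun _ _ => rfl)

instance [NonNeg 𝒜] (c : ℤ) : (tlt 𝒜 c).Linear ℂ where
  map_smul _ _ := gf_ext (Matrix.ext fun _ _ => rfl)

/-- `tge` on complexes up to homotopy -/
abbrev Tge (𝒜 : ℤ → Submodule ℂ A) [SetLike.GradedMonoid 𝒜] [NonNeg 𝒜] (c : ℤ) : KK 𝒜 ⥤ KK 𝒜 :=
  (tge 𝒜 c).mapHomotopyCategory (ComplexShape.up ℤ)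

/-- `tlt` on complexes up to homotopy -/
abbrev Tlt (𝒜 : ℤ → Submodule ℂ A) [SetLike.GradedMonoid 𝒜] [NonNeg 𝒜] (c : ℤ) : KK 𝒜 ⥤ KK 𝒜 :=
  (tlt 𝒜 c).mapHomotopyCategory (ComplexShape.up ℤ)

example [NonNeg 𝒜] (c : ℤ) : (Tge 𝒜 c).CommShift ℤ := inferInstance
example [NonNeg 𝒜] (c : ℤ) : (Tge 𝒜 c).IsTriangulated := inferInstance

/-! ### acyclicity of a complex in one degree -/

/-- `H^n(C)_d = 0`, in terms of elements -/
def Acy (C : CochainComplex (GF 𝒜) ℤ) (n d : ℤ) : Prop :=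
  ∀ x : GF.tw 𝒜 (-d) ⟶ C.X n, x ≫ C.d n (n + 1) = 0 →
    ∃ y : GF.tw 𝒜 (-d) ⟶ C.X (n - 1), y ≫ C.d (n - 1) n = x

/-- `H^{-n}(Hom(C, A(-e))) = 0` -/
def Coac (C : CochainComplex (GF 𝒜) ℤ) (n e : ℤ) : Prop :=
  ∀ x : C.X n ⟶ GF.tw 𝒜 (-e), C.d (n - 1) n ≫ x = 0 →
    ∃ y : C.X (n + 1) ⟶ GF.tw 𝒜 (-e), C.d n (n + 1) ≫ y = x

/-- the quotient functor from complexes to the homotopy category -/
abbrev qK (𝒜 : ℤ → Submodule ℂ A) [SetLike.GradedMonoid 𝒜] :
    CochainComplex (GF 𝒜) ℤ ⥤ KK 𝒜 :=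
  HomotopyCategory.quotient (GF 𝒜) (ComplexShape.up ℤ)

end Pool.Agent.VDK
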