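import Pool.Agent.VDK.Kdefs

/-!
# Smooth sextics in `ℙ(1, 1, 1, 2, 3)`
-/

set_option autoImplicit false
set_option linter.unusedVariables false

open MvPolynomial CategoryTheory AlgebraicGeometry

noncomputable section

namespace Pool.Agent.VDK

/-- the polynomial ring `ℂ[x₀, x₁, x₂, y, z]` -/
abbrev P5 : Type := MvPolynomial (Fin 5) ℂ

/-- the weights -/
def w5 : Fin 5 → ℤ := ![1, 1, 1, 2, 3]

/-- `w` is the equation of a smooth hypersurface of degree `6` in `ℙ(1, 1, 1, 2, 3)`. -/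
structure IsVDC5 (w : P5) : Prop where
  hom : IsWeightedHomogeneous w5 w 6
  smooth : ∀ p : Fin 5 → ℂ, (∀ i, eval p (pderiv i w) = 0) → p = 0

/-- The homogeneous coordinate ring `ℂ[x₀, x₁, x₂, y, z] / (w)`. -/
def CR (w : P5) : Type := P5 ⧸ Ideal.span {w}

instance instCRing (w : P5) : CommRing (CR w) := Ideal.Quotient.commRing (Ideal.span {w})

instance instCRAlg (w : P5) : Algebra ℂ (CR w) := Ideal.Quotient.algebra ℂ

/-- the class of a polynomial -/
def clw (w : P5) : P5 →ₐ[ℂ] CR w := Ideal.Quotient.mkₐ ℂ (Ideal.span {w})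

lemma clw_surjective (w : P5) : Function.Surjective (clw w) :=
  Ideal.Quotient.mkₐ_surjective ℂ (Ideal.span {w})

lemma clw_eq_zero (w : P5) (p : P5) : clw w p = 0 ↔ ∃ q, p = w * q := by
  show Ideal.Quotient.mk (Ideal.span {w}) p = 0 ↔ _
  rw [Ideal.Quotient.eq_zero_iff_mem, Ideal.mem_span_singleton]
  rfl

/-- The homogeneous elements of degree `m`. -/
def gr5 (w : P5) (m : ℤ) : Submodule ℂ (CR w) :=
  (weightedHomogeneousSubmodule ℂ w5 m).map (clw w).toLinearMap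

lemma mem_gr5 {w : P5} {m : ℤ} {r : CR w} :
    r ∈ gr5 w m ↔ ∃ p : P5, IsWeightedHomogeneous w5 p m ∧ clw w p = r := Iff.rfl

instance instGM5 (w : P5) : SetLike.GradedMonoid (gr5 w) where
  one_mem := ⟨1, isWeightedHomogeneous_one ℂ w5, map_one (clw w)⟩
  mul_mem := by
    rintro m k _ _ ⟨p, hp, rfl⟩ ⟨q, hq, rfl⟩
    exact ⟨p * q, hp.mul hq, map_mul (clw w) p q⟩

/-- `Proj 𝒜`, as a scheme over `ℂ` -/
def ProjC {A : Type} [CommRing A] [Algebra ℂ A] (𝒜 : ℕ → Submodule ℂ A) [GradedAlgebra 𝒜] :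
    Over (Spec (.of ℂ)) :=
  Over.mk (Proj.toSpecZero 𝒜 ≫ Spec.map (CommRingCat.ofHom (algebraMap ℂ (𝒜 0))))

/-- the homogeneous elements of degree `n ≥ 0` -/
def gr5N (w : P5) (n : ℕ) : Submodule ℂ (CR w) := gr5 w n

end Pool.Agent.VDK
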