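import Pool.Agent.VDK.Loc

/-!
# VDK: first list of targets

Notation: `K = KK 𝒜` is the homotopy category of complexes of graded free modules, `qK 𝒜` the
quotient functor, `OK 𝒜 m` the module `A(m)` (generator of degree `- m`) in position `0`.
-/

set_option autoImplicit false
set_option linter.unusedVariables false

open CategoryTheory CategoryTheory.Limits Pretriangulated MvPolynomial Pool.Agent.VDC

noncomputable section

namespace Pool.Agent.VDK

/-! ## A: complexes of graded free modules -/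

/-- ACZ.  `CohZero` in terms of elements.  Proof: `OK 𝒜 (-d) = q (single₀ A(-d))`; after composing
with the shift isomorphism of `q` (see `dgr_OK` in `Kdefs`) a map `OK 𝒜 (-d) → (q C)[n]` is `q φ`
with `φ : single₀ A(-d) → C⟦n⟧` a chain map, i.e. an element `x` of `C^n` with `d x = 0` (the
differential of `C⟦n⟧` is `± d`), and `q φ = 0` iff `φ` is null-homotopic iff `x = d y`.  Useful in
Mathlib: `CochainComplex.HomComplex.Cocycle.fromSingleMk`, `fromSingleMk_surjective`,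
`fromSingleMk_mem_coboundaries_iff`, and the identification of `Hom (q K) ((q L)⟦n⟧)` with
cocycles modulo coboundaries (`HomComplexCohomology`). -/
def T_ACZ : Prop :=
  ∀ (A : Type) [CommRing A] [Algebra ℂ A] (𝒜 : ℤ → Submodule ℂ A) [SetLike.GradedMonoid 𝒜]
    (C : CochainComplex (GF 𝒜) ℤ) (n d : ℤ), CohZero ((qK 𝒜).obj C) n d ↔ Acy C n d

/-- HTD.  Maps from a bounded above complex `N` to `W` vanish if `W` has no cohomology in the
degrees of the generators of `N`.  Proof: `W = q W'`, `x = q φ`, `φ : N ⟶ W'`.  Downward induction: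
`s^n = 0` for `n > n₀`; given `s^{n+1}`, `s^{n+2}` with `φ^{n+1} = d s^{n+1} + s^{n+2} d`, the map
`ψ = φ^n - s^{n+1} d : N^n → W'^n` satisfies `ψ d = 0` (followed by the differential of `W'`), so each
generator `i` of `N^n` (a map `A(-deg i) → N^n`) has `ψ e_i = d y_i` by `Acy W' n (deg i)` (`hA` and
the hypothesis); let `s^n e_i = y_i`. -/
def T_HTD : Prop :=
  ∀ (A : Type) [CommRing A] [Algebra ℂ A] (𝒜 : ℤ → Submodule ℂ A) [SetLike.GradedMonoid 𝒜]
    (N : CochainComplex (GF 𝒜) ℤ) (n₀ : ℤ) (W : KK 𝒜), N.IsStrictlyLE n₀ →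
    (∀ (n : ℤ) (i : (N.X n).ι), CohZero W n ((N.X n).deg i)) →
    ∀ x : (qK 𝒜).obj N ⟶ W, x = 0

/-- HTU.  The dual statement.  Proof: upward induction: `s^{n+1} : N^{n+1} → W^n` is `0` for
`n < n₁`; given `s^n`, `s^{n-1}`, put `ψ = φ^n - d s^n : N^n → W^n` (first `s^n`, then `d`); then
`d ≫ ψ = 0`, so the component of `ψ` at each generator `j` of `W^n`, a map
`N^n → A(-deg j)`, factors through `d : N^n → N^{n+1}` by `Coac N n (deg j)`; the factorisations
give `s^{n+1}`. -/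
def T_HTU : Prop :=
  ∀ (A : Type) [CommRing A] [Algebra ℂ A] (𝒜 : ℤ → Submodule ℂ A) [SetLike.GradedMonoid 𝒜]
    (N W : CochainComplex (GF 𝒜) ℤ) (n₁ : ℤ), W.IsStrictlyGE n₁ →
    (∀ (n : ℤ) (j : (W.X n).ι), Coac N n ((W.X n).deg j)) →
    ∀ φ : N ⟶ W, (qK 𝒜).map φ = 0

/-- RTR.  The triangle of two complements `V ⊆ U` of subsets closed under the differential.  Proof:
the maps given by the blocks of the identity are chain maps
`res (U - V) → res U → res V`, and form a degreewise split short exact sequence; use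
`CochainComplex.trianglehOfDegreewiseSplit` / `HomotopyCategory.distinguished_iff_iso_...` in
`Mathlib.Algebra.Homology.HomotopyCategory.DegreewiseSplit`. -/
def T_RTR : Prop :=
  ∀ (A : Type) [CommRing A] [Algebra ℂ A] (𝒜 : ℤ → Submodule ℂ A) [SetLike.GradedMonoid 𝒜]
    (C : CochainComplex (GF 𝒜) ℤ) (U V : ∀ n, (C.X n).ι → Prop) (hU : QC C U) (hV : QC C V),
    (∀ n i, V n i → U n i) →
    ∃ (a : (qK 𝒜).obj (resC C (fun n i => U n i ∧ ¬ V n i) (hU.lc_diff hV)) ⟶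
        (qK 𝒜).obj (resC C U hU.lc))
      (b : (qK 𝒜).obj (resC C U hU.lc) ⟶ (qK 𝒜).obj (resC C V hV.lc))
      (c : (qK 𝒜).obj (resC C V hV.lc) ⟶
        (shiftFunctor (KK 𝒜) (1 : ℤ)).obj
          ((qK 𝒜).obj (resC C (fun n i => U n i ∧ ¬ V n i) (hU.lc_diff hV)))),
      Triangle.mk a b c ∈ distTriang (KK 𝒜)

/-- RTI.  All generators: `res C = C`; and equivalent subsets give isomorphic complexes. -/
def T_RTI : Prop :=
  ∀ (A : Type) [CommRing A] [Algebra ℂ A] (𝒜 : ℤ → Submodule ℂ A) [SetLike.GradedMonoid 𝒜]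
    (C : CochainComplex (GF 𝒜) ℤ),
    (∀ (U : ∀ n, (C.X n).ι → Prop) (hU : LC C U), (∀ n i, U n i) → Nonempty (resC C U hU ≅ C)) ∧
    ∀ (U V : ∀ n, (C.X n).ι → Prop) (hU : LC C U) (hV : LC C V), (∀ n i, U n i ↔ V n i) →
      Nonempty (resC C U hU ≅ resC C V hV)

/-- SNG.  A complex concentrated in one position.  Proof: induction on the number of generators of
`X`: `X ≅ X' ⊕ A(-d)` (or use the biproduct `GF.sum` and additivity of the single functor: `G` is
closed under biproducts, see `ObjectProperty.IsClosedUnderBinaryProducts` for triangulated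
properties); `X` without generators is zero; position `n` is a shift of position `0`
(`HomotopyCategory.singleFunctors`, `shiftIso`). -/
def T_SNG : Prop :=
  ∀ (A : Type) [CommRing A] [Algebra ℂ A] (𝒜 : ℤ → Submodule ℂ A) [SetLike.GradedMonoid 𝒜]
    (G : ObjectProperty (KK 𝒜)), G.IsTriangulated → G.IsClosedUnderIsomorphisms →
    ∀ X : GF 𝒜, (∀ i, G (OK 𝒜 (-(X.deg i)))) →
      ∀ n : ℤ, G ((HomotopyCategory.singleFunctor (GF 𝒜) n).obj X)

/-- BDC.  Bounded complexes are iterated extensions of their terms.  Proof: induction on `b - a`;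
if `b < a` the complex is zero.  With `hR` (`T_RTR`, for `U` all positions and `V = Ule (b - 1)`),
`hI` and `hS`: triangle `K^b[-b] → K → res K (Ule (b - 1))`; the first is isomorphic to
`(singleFunctor b).obj (K.X b)`, the third is concentrated in `[a, b - 1]`. -/
def T_BDC : Prop :=
  ∀ (A : Type) [CommRing A] [Algebra ℂ A] (𝒜 : ℤ → Submodule ℂ A) [SetLike.GradedMonoid 𝒜]
    (G : ObjectProperty (KK 𝒜)), G.IsTriangulated → G.IsClosedUnderIsomorphisms →
    ∀ (K : CochainComplex (GF 𝒜) ℤ) (a b : ℤ), K.IsStrictlyGE a → K.IsStrictlyLE b →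
      (∀ (n : ℤ) (i : (K.X n).ι), G (OK 𝒜 (-((K.X n).deg i)))) → G ((qK 𝒜).obj K)

/-- SGL.  A subquotient with one generator. -/
def T_SGL : Prop :=
  ∀ (A : Type) [CommRing A] [Algebra ℂ A] (𝒜 : ℤ → Submodule ℂ A) [SetLike.GradedMonoid 𝒜]
    (C : CochainComplex (GF 𝒜) ℤ) (U : ∀ n, (C.X n).ι → Prop) (hU : LC C U) (n₀ : ℤ)
    (i₀ : (C.X n₀).ι), (∀ n i, U n i → n = n₀) → (∀ i, U n₀ i ↔ i = i₀) →
    Nonempty ((qK 𝒜).obj (resC C U hU) ≅
      (shiftFunctor (KK 𝒜) (-n₀)).obj (OK 𝒜 (-((C.X n₀).deg i₀))))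

/-- TTR.  The natural triangle `Tlt X → X → Tge X`.  Proof: `resP` is a natural transformation
`𝟭 → tge` of functors on `GF 𝒜` (`NatTrans.mapHomotopyCategory`), and for a complex `C` the maps
`resI`, `resP` form a degreewise split short exact sequence `tlt C → C → tge C` of complexes. -/
def T_TTR : Prop :=
  ∀ (A : Type) [CommRing A] [Algebra ℂ A] (𝒜 : ℤ → Submodule ℂ A) [SetLike.GradedMonoid 𝒜]
    [NonNeg 𝒜] (c : ℤ), ∃ π : 𝟭 (KK 𝒜) ⟶ Tge 𝒜 c, ∀ X : KK 𝒜,
    ∃ (a : (Tlt 𝒜 c).obj X ⟶ X) (h : (Tge 𝒜 c).obj X ⟶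
      (shiftFunctor (KK 𝒜) (1 : ℤ)).obj ((Tlt 𝒜 c).obj X)),
      Triangle.mk a (π.app X) h ∈ distTriang (KK 𝒜)

/-- HLG.  There are no maps from complexes with generators of degrees `< c` to complexes with
generators of degrees `≥ c`.  Proof: such a map is `q φ`, and the entries of each `φ.f n` have
negative degree, so `φ = 0` (`mat_eq_zero`). -/
def T_HLG : Prop :=
  ∀ (A : Type) [CommRing A] [Algebra ℂ A] (𝒜 : ℤ → Submodule ℂ A) [SetLike.GradedMonoid 𝒜]
    [NonNeg 𝒜] (c : ℤ) (X Y : KK 𝒜) (k : ℤ)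
    (x : (shiftFunctor (KK 𝒜) k).obj ((Tlt 𝒜 c).obj X) ⟶ (Tge 𝒜 c).obj Y), x = 0

/-- FIN.  The cohomology spaces are finite dimensional.  Proof: they are quotients of subspaces of
`GF.tw 𝒜 (-d) ⟶ C.X n`, which is a subspace of a finite product of spaces `𝒜 m`. -/
def T_FIN : Prop :=
  ∀ (A : Type) [CommRing A] [Algebra ℂ A] (𝒜 : ℤ → Submodule ℂ A) [SetLike.GradedMonoid 𝒜],
    (∀ m, Module.Finite ℂ (𝒜 m)) → ∀ (C : KK 𝒜) (n d : ℤ),
    Module.Finite ℂ (OK 𝒜 (-d) ⟶ (shiftFunctor (KK 𝒜) n).obj C)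

/-- GFN.  The graded pieces of `R` are finite dimensional.  (There are finitely many monomials of
given degree.) -/
def T_GFN : Prop := ∀ (f : Sr) (m : ℤ), Module.Finite ℂ (gZ f m)

/-- EQI.  A quasi-isomorphism of bounded above complexes is a homotopy equivalence.  Proof: by the
two conditions the mapping cone `K` of `φ` satisfies `Acy K n d` for all `n`, `d`: a cycle of the
cone in position `n` is a pair `(x, y)`, `x ∈ N^{n+1}`, `y ∈ W^n` with `d x = 0`, `φ x + d y = 0`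
(signs!), so `x = d x'`, and `y + φ x'` is a cycle, hence `= φ x'' + d w` etc.  So `CohZero` by
`hA` (`T_ACZ`), the identity of the cone is zero by `hH` (`T_HTD`), and `q φ` is an isomorphism. -/
def T_EQI : Prop :=
  ∀ (A : Type) [CommRing A] [Algebra ℂ A] (𝒜 : ℤ → Submodule ℂ A) [SetLike.GradedMonoid 𝒜]
    (N W : CochainComplex (GF 𝒜) ℤ) (n₀ : ℤ), N.IsStrictlyLE n₀ → W.IsStrictlyLE n₀ →
    ∀ φ : N ⟶ W,
    (∀ (n d : ℤ) (x : GF.tw 𝒜 (-d) ⟶ N.X n), x ≫ N.d n (n + 1) = 0 →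
      (∃ y : GF.tw 𝒜 (-d) ⟶ W.X (n - 1), y ≫ W.d (n - 1) n = x ≫ φ.f n) →
      ∃ y : GF.tw 𝒜 (-d) ⟶ N.X (n - 1), y ≫ N.d (n - 1) n = x) →
    (∀ (n d : ℤ) (y : GF.tw 𝒜 (-d) ⟶ W.X n), y ≫ W.d n (n + 1) = 0 →
      ∃ x : GF.tw 𝒜 (-d) ⟶ N.X n, x ≫ N.d n (n + 1) = 0 ∧
        ∃ w : GF.tw 𝒜 (-d) ⟶ W.X (n - 1), w ≫ W.d (n - 1) n = y - x ≫ φ.f n) →
    IsIso ((qK 𝒜).map φ)

/-- LIF.  A bounded above complex with cohomology vanishing below: representative.  Proof: by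
definition of `Dgr`, `CohZero.of_iso` and `T_ACZ`. -/
def T_LIF : Prop :=
  ∀ (A : Type) [CommRing A] [Algebra ℂ A] (𝒜 : ℤ → Submodule ℂ A) [SetLike.GradedMonoid 𝒜]
    (C : KK 𝒜), Dgr 𝒜 C ↔ ∃ (K : CochainComplex (GF 𝒜) ℤ) (a b : ℤ), K.IsStrictlyLE b ∧
      (∀ n < a, ∀ d, Acy K n d) ∧ Nonempty (C ≅ (qK 𝒜).obj K)

/-! ## B: the periodic complexes -/

/-- ACF.  The periodic complex is acyclic.  Proof: `x = a + z b` (a column; `rm a b`) with
`(Φ + ε z) x = 0`, `ε = (-1)^n`: `Φ a = ε f b`, `ε a + Φ b = 0`.  Then `x = d^{n-1} (- ε b)` where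
`d^{n-1} = Φ - ε z`: `(Φ - ε z)(-ε b) = - ε Φ b + z b = a + z b`.  Degrees are right. -/
def T_ACF : Prop := ∀ (f : Sr) [H6 f] (F : CM f) (n d : ℤ), Acy (CF F) n d

/-- CCF.  The dual of the periodic complex is acyclic.  Proof: a row `u = a + z b` with
`u d^{n-1} = 0`, `d^{n-1} = Φ - ε z`, `ε = (-1)^n`: `a Φ + ε f b = 0`, `b Φ = ε a`; so
`u = (ε b) d^n`, `d^n = Φ + ε z`: `ε b Φ + z b = a + z b`. -/
def T_CCF : Prop := ∀ (f : Sr) [H6 f] (F : CM f) (n e : ℤ), Coac (CF F) n e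

/-- FFC.  The functor `Cper` is fully faithful.  Proof.  Surjective: a chain map
`φ^n = A_n + z B_n : CF X → CF Y` satisfies (with `ε_n = (-1)^n`)
`A_{n+1} Φ - ε_n f B_{n+1} = Φ A_n - ε_n f B_n` and `ε_n A_{n+1} + B_{n+1} Φ = Φ B_n + ε_n A_n`.
Choose `h_n` (`n ∈ ℤ`, matrices over `S`, degree `-3`: position `n` to position `n - 1`) with `h_0 = 0`
and `h_{n+1} = h_n + ε_n B_n`; the homotopy `s^n = h_n` changes `φ` to
`φ' = φ - d s - s d` whose `z`-part is `B_n - ε_n (h_{n+1} - h_n) = 0` (`d s + s d` in position `n` is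
`(Φ - ε_n z) h_n + h_{n+1} (Φ + ε_n z)`).  So `φ'^n = A'_n`, and the equations give `A'_{n+1} = A'_n`
and `A' Φ = Φ A'`: `φ' = CFm g`.  Injective: if `CFm g = d s + s d` with `s^n = h_n + z k_n`, then
in position `0` (`ε = 1`): `g = (Φ - z)(h_0 + z k_0) + (h_1 + z k_1)(Φ + z)`; the `z`-part gives
`h_1 = h_0 - Φ k_0 - k_1 Φ`, the other part `g = Φ h_0 + f k_0 + h_1 Φ - f k_1
= Φ (h_0 - Φ k_0) + (h_0 - Φ k_0) Φ` (as `Φ ^ 2 = - f`), so `g ∈ nul X Y`. -/
def T_FFC : Prop :=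
  ∀ (f : Sr) [H6 f] (X Y : CM f), Function.Bijective ((Cper f).map : (X ⟶ Y) → _)

/-- FFP.  `Psi` is fully faithful.  Proof: with the natural map `π : C → Tge C` (`T_TTR`, `c = 1`),
`Hom(CF X, CF Y) → Hom(CF X, Psi Y)` is bijective since the third vertex is
`(Tlt (CF Y))[1]`, and `Hom(CF X, (Tlt (CF Y))[k]) = 0` by `T_HTU` (`Tlt (CF Y)` is bounded below, as
`deg i - 3 n < 1` implies `n` large; `T_CCF`); `Hom(Psi X, Psi Y) → Hom(CF X, Psi Y)` is bijective
since `Hom((Tlt (CF X))[k], Psi Y) = 0` by `T_HLG`; naturality of `π` gives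
`π ∘ φ = Tge φ ∘ π`; and `T_FFC`. -/
def T_FFP : Prop :=
  ∀ (f : Sr) [H6 f] (X Y : CM f), Function.Bijective ((Psi f).map : (X ⟶ Y) → _)

/-- TRC.  `Cper` is exact.  Proof: `CF (X[1])` and `(CF X)⟦1⟧` have the same terms (the generators of
`CF (tw 3 (-1) X)` in position `n` have degree `deg i - 3 - 3 n`) and the same differentials
`- Φ + (-1)^n z = - (Φ + (-1)^{n+1} z)`; the term in position `n` of `CF (cone g)` is
`(CF Y)^n ⊕ (CF X)^{n+1}` with differential `[[d, g], [0, - d]]`: the mapping cone of `CFm g`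
(up to the order of the summands).  The third map of Mathlib's triangle of the mapping cone is
minus the projection, so let `c` be MINUS the isomorphism given by the identity matrices. -/
def T_TRC : Prop := ∀ (f : Sr) [H6 f], Std (Cper f)

/-- STG.  Composition with triangulated functors. -/
def T_STG.{w, w'} : Prop :=
  ∀ (f : Sr) (D : Type 1) [Category.{w} D] [HasZeroObject D] [HasShift D ℤ] [Preadditive D]
    [∀ n : ℤ, (shiftFunctor D n).Additive] [Pretriangulated D]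
    (D' : Type 1) [Category.{w'} D'] [HasZeroObject D'] [HasShift D' ℤ] [Preadditive D']
    [∀ n : ℤ, (shiftFunctor D' n).Additive] [Pretriangulated D'] (Θ : CM f ⥤ D) (F : D ⥤ D')
    [F.CommShift ℤ] [F.IsTriangulated], Std Θ → Std (Θ ⋙ F)

/-- STL.  Lifts to full triangulated subcategories. -/
def T_STL.{w} : Prop :=
  ∀ (f : Sr) (D : Type 1) [Category.{w} D] [HasZeroObject D] [HasShift D ℤ] [Preadditive D]
    [∀ n : ℤ, (shiftFunctor D n).Additive] [Pretriangulated D] (P : ObjectProperty D)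
    [P.IsTriangulated] (Θ : CM f ⥤ D) (h : ∀ X, P (Θ.obj X)), Std Θ → Std (P.lift Θ h)

/-- PBD.  `Psi F` is bounded above with bounded cohomology.  Proof: a generator of `CF F` of
position `n` has degree `deg i - 3 n ≥ 1` only for `n` small, so `Psi F = q (tge (CF F))` is bounded
above; for `n` small all generators in positions `n - 1`, `n`, `n + 1` have degree `≥ 1`, so
`Acy` there follows from `T_ACF`. -/
def T_PBD : Prop := ∀ (f : Sr) [H6 f] (F : CM f), Dgr (gZ f) ((Psi f).obj F)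

/-- HOP.  `Psi F` has no elements of degree `≤ 0`. -/
def T_HOP : Prop :=
  ∀ (f : Sr) [H6 f] (F : CM f) (n d : ℤ), d ≤ 0 → CohZero ((Psi f).obj F) n d

/-- PSR.  `Psi F` as a subquotient of the periodic complex. -/
def T_PSR : Prop :=
  ∀ (f : Sr) [H6 f] (F : CM f),
    Nonempty ((Psi f).obj F ≅ (qK (gZ f)).obj (resC (CF F) (Uge 1 (CF F)) (Uge_qc (CF F) 1).lc))

/-! ## P: the resolution of the residue field -/

/-- the part of `Φ` which lowers the cardinality -/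
def kap {f : Sr} (D : KA f) : Matrix (kk D).ι (kk D).ι Sr :=
  Matrix.of fun i j => if cd D i + 1 = cd D j then (kk D).Φ i j else 0

/-- KCX.  The Koszul complex is exact.  Columns supported on the generators of cardinality `m`.
Proof: induction on the steps `TT` (general statement for a step: `κ' = [[κ, 0], [l, - κ]]`, the
generators of cardinality `m` are `(p, q)` with `p` of cardinality `m - 1`, `q` of cardinality `m`):
claim for the variables `x_j`, `j ∈ J`: exact for `m ≥ 1`, and in cardinality `0` the image is the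
ideal `(x_j)`.  If `κ p = 0`, `κ q = l p`: for `m - 1 ≥ 1` exactness gives `p = κ p'`, for `m = 1`
`l p ∈ (x_j)` and `l` is not a zero divisor modulo `(x_j)` (`T_MNZ`, with exponents `1`; proved:
`p_MNZ` in `Pool.Agent.VDC.P_MNZ`) give `p = κ p'`; then `κ (q - l p') = 0`, `q - l p' = κ q'` (for
`m ≥ 1`) and `(p, q) = κ' (p', - q')`.  Homogeneous preimages: take homogeneous components. -/
def T_KCX : Prop :=
  ∀ (f : Sr) (D : KA f) (m : ℤ) (x : (kk D).ι → Sr) (δ : ℤ),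
    (∀ i, Hmg (x i) (δ - (kk D).deg i)) → (∀ i, x i ≠ 0 → cd D i = m) →
    (kap D).mulVec x = 0 → (m = 0 → δ ≠ 0) →
    ∃ y : (kk D).ι → Sr, (∀ i, Hmg (y i) (δ - 3 - (kk D).deg i)) ∧
      (∀ i, y i ≠ 0 → cd D i = m + 1) ∧ (kap D).mulVec y = x

/-- KRX.  The dual Koszul complex is exact, except at the end.  Rows supported on the generators of
cardinality `m`, exact if `m < 4`, and for `m = 4` if the degree of the entry is not `0`.  Proof:
as for `T_KCX`: `(s, t) κ' = (s κ + l t, - t κ)`; `t κ = 0` gives `t = v κ`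
(`t` of cardinality `m`, less than the number of variables, or, if it is equal to it, because `l t`
is a boundary, i.e. in the ideal of the other variables); `(s + l v) κ = 0`, `s + l v = w κ` and
`(s, t) = (w, - v) κ'`. -/
def T_KRX : Prop :=
  ∀ (f : Sr) (D : KA f) (m : ℤ) (u : (kk D).ι → Sr) (e : ℤ),
    (∀ i, Hmg (u i) ((kk D).deg i - e)) → (∀ i, u i ≠ 0 → cd D i = m) →
    Matrix.vecMul u (kap D) = 0 → (m = 4 → e ≠ -7) →
    ∃ v : (kk D).ι → Sr, (∀ i, Hmg (v i) ((kk D).deg i - 3 - e)) ∧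
      (∀ i, v i ≠ 0 → cd D i = m - 1) ∧ Matrix.vecMul v (kap D) = u

/-- HPK.  `P_k(t)` resolves the residue field (in degree `- t`).  Proof: let `x = a + z b` in position
`n` (supported on cardinality `≤ m = - n`, `ε = (-1)^n`) with `d x = 0`.  Subtract
`d (- ε b) = - ε Φ b + z b` (the `z`-part is unchanged by the truncation): the rest is a column `a'`
over `S`, supported on cardinality `≤ m`, with `d a' = 0` in `P_k`; the `z`-part `ε a'` vanishes in
cardinality `≤ m - 1`, so `a'` has cardinality `m`, and the part of `Φ a'` of cardinality `m - 1`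
vanishes: `κ a' = 0`.  By `T_KCX` `a' = κ c`, `c` of cardinality `m + 1`, and `d c = κ c = a'` in
`P_k` (all other terms are truncated: `Φ c` has cardinalities `m`, `m + 2`, and `z c` has
cardinality `m + 1`).  For `m = 0` this needs `d ≠ - t`; for `m < 0`, `m > 4` there is nothing. -/
def T_HPK : Prop :=
  ∀ (f : Sr) [H6 f] (D : KA f) (t n d : ℤ), ¬ (n = 0 ∧ d = -t) → Acy (PK D t) n d

/-- GPK.  The cohomology of `P_k(t)` in position `0` and degree `- t` is at most one-dimensional.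
Proof: `P_k(t)` has the single generator of degree `- t` in position `0`, and `𝒜 0 = ℂ`. -/
def T_GPK : Prop :=
  ∀ (f : Sr) [H6 f] (D : KA f) (t : ℤ), ∃ g : OK (gZ f) t ⟶ (qK (gZ f)).obj (PK D t),
    ∀ y : OK (gZ f) t ⟶ (qK (gZ f)).obj (PK D t), ∃ c : ℂ, y = c • g

/-- COP.  The dual of `P_k(t)` is exact except in one degree.  Proof: let `u = a + z b` be a row in
position `n` (supported on cardinality `≤ m = - n`, extended by zero) with `u d^{n-1} = 0` on
`P_k^{n-1}` (columns of cardinality `≤ m + 1`); as the differential of the periodic complex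
maps the columns of cardinality `≥ m + 2` to rows of cardinality `≥ m + 1`, `u d^{n-1} = 0` on the
whole periodic complex, and `u = (ε b) d^n`, see `T_CCF`; the `z`-part of `(ε b) d^n` is `b`,
so `b` has cardinality `≤ m`; write `b = b' + b''` with `b''` of cardinality `m`; the part of
`u = ε b d^n` of cardinality `m + 1` is `ε b'' κ = 0`; by `T_KRX` `b'' = c κ` with `c` of
cardinality `m - 1`... and `u = (ε b - c d^{n+1}…)`: precisely `v = ε (b - c d^{n+1})` is supported on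
cardinality `≤ m - 1` up to the `z`-part `c` of cardinality `m - 1`, it is a row in position `n + 1`
of `P_k`, and `v d^n = ε b d^n = u`. -/
def T_COP : Prop :=
  ∀ (f : Sr) [H6 f] (D : KA f) (t n e : ℤ), e ≠ 2 - t → Coac (PK D t) n e

/-- TPK.  Proof: `T_HPK`, `T_ACZ`; bounded above since the cardinalities are `≥ 0`. -/
def T_TPK : Prop :=
  ∀ (f : Sr) [H6 f] (D : KA f) (t : ℤ), Tors (gZ f) ((qK (gZ f)).obj (PK D t))

/-- HPS.  Maps from `P_k(t)`, `t ≤ 1`, to `Psi F`.  Proof: `T_TTR` (`c = 1`) gives the triangle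
`Tlt (CF F) → CF F → Psi F`; `Hom(P_k(t)[k], CF F) = 0` by `T_HTD`, `T_ACF`, `T_ACZ`;
`Hom(P_k(t)[k], (Tlt (CF F))[1]) = 0` by `T_HTU` (the generators of `Tlt (CF F)` have degree `≤ 0`,
`0 < 2 - t`, `T_COP`; it is bounded below; shifts). -/
def T_HPS : Prop :=
  ∀ (f : Sr) [H6 f] (D : KA f) (t : ℤ), t ≤ 1 → ∀ (F : CM f) (k : ℤ)
    (x : (shiftFunctor (KK (gZ f)) k).obj ((qK (gZ f)).obj (PK D t)) ⟶ (Psi f).obj F), x = 0

/-- PEX.  Maps from `P_k(t)`.  Proof: `P_k(t)` in position `0` is `R(t)` (one generator, of degree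
`- t`; `g` is its inclusion, up to a constant: take `g` to be it in `T_GPK`), and the generators in
positions `n < 0` have degree `> - t`.  By `T_RTR` (all generators, and `Ule (-1)`) there is a
triangle `R(t) → P_k(t) → Q`, `Q = res (Ule (-1))`; the composite `Q[-1] → R(t) → W` is zero by
`T_HTD` (a generator of `Q` in position `n ≤ -1` and degree `δ > - t` is in position `n + 1 ≤ 0` of
`Q[-1]`), so `x` extends to `P_k(t)`. -/
def T_PEX : Prop :=
  ∀ (f : Sr) [H6 f] (D : KA f) (t : ℤ) (W : KK (gZ f)), (∀ n < 0, ∀ d, -t ≤ d → CohZero W n d) →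
    (∀ d, -t < d → CohZero W 0 d) → ∀ x : OK (gZ f) t ⟶ W,
    ∃ (g : OK (gZ f) t ⟶ (qK (gZ f)).obj (PK D t)) (φ : (qK (gZ f)).obj (PK D t) ⟶ W),
      g ≫ φ = x

/-! ## G: generation -/

/-- GE1.  All `R(m)` are generated by the complexes with finite-dimensional cohomology, the
`Psi F`, `R` and `R(1)`.  Let `C = CF (tw t 1 (kk D))`; the generator `(n, i)` has degree
`u - t`, `u = (kk D).deg i - 3 n = w + 3 (- n - c)`, `c = cd D i`, `w = (kk D).deg i + 3 c`
(`0 ≤ c ≤ 4`, `c ≤ w ≤ c + 1`, `w = 0` iff `c = 0`: one generator, `w = 5` iff `c = 4`: one generator).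
Let `U₁ = UK D t` (`c ≤ - n`), `U₂ = Uge 1` (`u ≥ t + 1`).  On `U₁`, `u ≥ 0`, and `u = 0` only at
`(0, ∅)`; outside of `U₁`, `u ≤ 2`, and `u = 2` only at `(- 3, full)`.  `G (res U₁)` (first
hypothesis), `G (res U₂)` (`T_PSR`).  Differences of such sets are bounded (`n` bounded above and
below), use `T_BDC`, `T_RTR`, and `T_SGL`.
(a) `t ≥ 2`, induction, `G (R(s))` for `0 ≤ s < t`: `U₂ ⊆ U₁`; let `U₃ = U₁ ∩ {u ≥ 1}`;
`U₃ - U₂` has generators of degree `u - t`, `1 ≤ u ≤ t`, i.e. `R(0), …, R(t - 1)`; so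
`G (res U₃)`, and `U₁ - U₃ = {(0, ∅)}`, so `G (R(t))`.
(b) `t ≤ 1`, downward induction, `G (R(s))` for `t - 1 ≤ s ≤ 1`, shows `G (R(t - 2))`:
`U₁ - U₂` has generators with `0 ≤ u ≤ t`, i.e. `R(0), …, R(t)`; so `G (res (U₁ ∩ U₂))`; let
`U₅ = U₂ ∩ (U₁ ∪ {u ≥ 2})`; `U₂ - U₅` is outside of `U₁`, `t + 1 ≤ u ≤ 1`: `R(t - 1), …, R(-1)`; so
`G (res U₅)`, and `U₅ - U₁ ∩ U₂ = {(- 3, full)}`, so `G (R(t - 2)[3])`. -/
def T_GE1 : Prop :=
  ∀ (f : Sr) [H6 f] (D : KA f) (G : ObjectProperty (KK (gZ f))), G.IsTriangulated →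
    G.IsClosedUnderIsomorphisms → (∀ t, G ((qK (gZ f)).obj (PK D t))) →
    (∀ F : CM f, G ((Psi f).obj F)) → G (OK (gZ f) 0) → G (OK (gZ f) 1) →
    ∀ m, G (OK (gZ f) m)

/-- GE2.  `D^b(gr R)` is generated by the `Psi F` and the `R(m)`.  Proof: represent `C` by a complex
`K` (`T_LIF`), bounded above and acyclic in positions `< a`; let `M = a - 6`.  By `T_MCM` and `T_TAI`
(`m = M - 1`) `q (res K (Ule M)) ≅ q (res (CF F) (Ule M))` for some `F : CM f`.  `T_RTR` + `T_BDC`: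
`G (q K)` follows from `G (q (res K (Ule M)))` (`T_RTI`); and `G (q (res (CF F) (Ule M)))` follows
from `G (q (res (CF F) (Ule M ∩ Uge 1)))` (the difference is bounded: `n ≤ M` and
`deg i - 3 n < 1`), which follows from `G (q (res (CF F) (Uge 1)))` (the difference is bounded:
`n > M` and `deg i - 3 n ≥ 1`) and `T_PSR`. -/
def T_GE2 : Prop :=
  ∀ (f : Sr) [H6 f] (G : ObjectProperty (KK (gZ f))), G.IsTriangulated →
    G.IsClosedUnderIsomorphisms → (∀ F : CM f, G ((Psi f).obj F)) →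
    (∀ m, G (OK (gZ f) m)) → ∀ C, Dgr (gZ f) C → G C

/-! ### syzygies -/

/-- UMM.  The matrix `um`: multiplicative, additive, injective, compatible with `und`. -/
def T_UMM : Prop :=
  (∀ (f : Sr) (ι κ μ : Type) [Fintype κ] (M : Matrix ι κ (RR f)) (M' : Matrix κ μ (RR f)),
    um (M * M') = um M * um M') ∧
  (∀ (f : Sr) (ι κ : Type) (M M' : Matrix ι κ (RR f)), um (M + M') = um M + um M') ∧
  (∀ (f : Sr) (ι κ : Type) (M : Matrix ι κ (RR f)), um M = 0 → M = 0) ∧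
  (∀ (f : Sr) [H6 f] (X Y : GF (gZ f)) (a : X ⟶ Y), um (mat a) ∈ mor (und X) (und Y))

/-- EX0.  Acyclicity in terms of matrices over `S`.  Proof: a column `x ∈ HM` of degree `δ` in
`und (C.X n)` is a pair `(a, b)` of columns over `S`, and `a + z b` is a map `R(-δ) → C.X n`;
`um (d) * x` corresponds to `d (a + z b)`.  Do this for each column of `x` (degree
`P.deg j + ρ`).  (Here `n = k + 1`.) -/
def T_EX0 : Prop :=
  ∀ (f : Sr) [H6 f] (C : CochainComplex (GF (gZ f)) ℤ) (k : ℤ), (∀ d, Acy C (k + 1) d) →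
    ExI ⊥ (und (C.X k)).toPO (und (C.X (k + 1))).toPO (und (C.X (k + 1 + 1))).toPO
      (um (mat (C.d k (k + 1)))) (um (mat (C.d (k + 1) (k + 1 + 1))))

/-- EXS.  Exactness modulo one more element.  Proof: let `δ₂ x ∈ I + (l)`: by `T_DIV` (proved:
`p_DIV`) `δ₂ x = l u` modulo `I`, `u ∈ HM P K₃ (ρ - e)`; `l δ₃ u ∈ I`, so `δ₃ u ∈ I` (`NZ`), so
`u = δ₂ v` modulo `I` and `δ₂ (x - l v) ∈ I`, so `x - l v = δ₁ y` modulo `I`. -/
def T_EXS : Prop :=
  ∀ (I : Ideal Sr) (l : Sr) (e : ℤ), HId I → Hmg l e → NZ l I →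
    ∀ (K₁ K₂ K₃ K₄ : PO) (δ₁ : Matrix K₂.ι K₁.ι Sr) (δ₂ : Matrix K₃.ι K₂.ι Sr)
      (δ₃ : Matrix K₄.ι K₃.ι Sr), δ₁ ∈ HM K₁ K₂ 0 → δ₂ ∈ HM K₂ K₃ 0 → δ₃ ∈ HM K₃ K₄ 0 →
      δ₃ * δ₂ = 0 → ExI I K₁ K₂ K₃ δ₁ δ₂ → ExI I K₂ K₃ K₄ δ₂ δ₃ →
      ExI (I ⊔ Ideal.span {l}) K₁ K₂ K₃ δ₁ δ₂

/-- EXV.  Exactness modulo all variables.  Proof: `T_EXS` four times, with `T_MINS`, `T_MNZ`,
`T_HSPAN` (proved), exponents `1`: exact modulo `mI J 1` in positions `n, …, n + 4 - |J|`. -/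
def T_EXV : Prop :=
  ∀ (K : ℤ → PO) (δ : ∀ n, Matrix (K (n + 1)).ι (K n).ι Sr), (∀ n, δ n ∈ HM (K n) (K (n + 1)) 0) →
    (∀ n, δ (n + 1) * δ n = 0) → ∀ n : ℤ,
    (∀ k, n ≤ k → k ≤ n + 4 → ExI ⊥ (K k) (K (k + 1)) (K (k + 1 + 1)) (δ k) (δ (k + 1))) →
    ExI (mI Finset.univ 1) (K n) (K (n + 1)) (K (n + 1 + 1)) (δ n) (δ (n + 1))

/-- UNI.  Unipotent matrices are invertible.  Proof: `g = 1 - u` has entries homogeneous of degree
`deg j - deg i` in the ideal of the variables, so they are zero unless `deg j > deg i`; so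
`g ^ k = 0` for large `k` and `v = ∑ g ^ k`. -/
def T_UNI : Prop :=
  ∀ (K : PO) (u : Matrix K.ι K.ι Sr), u ∈ HM K K 0 → 1 - u ∈ IM (mI Finset.univ 1) K.ι K.ι →
    ∃ v ∈ HM K K 0, u * v = 1 ∧ v * u = 1

/-- GIV.  The generalised inverse.  Proof.  Modulo the variables (constant coefficients) `T_LIN`
(proved: `p_LIN`), applied to `K₁ ⊕ K₂` (degrees of the second raised by `3`) and
`M = [[0, 0], [δ₁, 0]]`, gives a complex matrix `t₀` with `δ₁ t₀ δ₁ = δ₁` (modulo the variables),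
`t₀ ∈ HM K₂ K₁ 0` (`M = M N M`); similarly `t₂` for `δ₂`.
(1) `x = 1 - t₀ δ₁` has `δ₁ x = 0` modulo the variables, so `x = δ₀ s`: `u = t₀ δ₁ + δ₀ s` is
unipotent.  (2) `δ₂ (1 - t₂ δ₂) = 0` modulo the variables, so `1 - t₂ δ₂ = δ₁ w`, and
`(1 - δ₁ t₀)(1 - t₂ δ₂) = (1 - δ₁ t₀) δ₁ w = 0`, so with `t' = (1 - δ₁ t₀) t₂` the matrix
`u' = δ₁ t₀ + t' δ₂` is unipotent.  By `T_UNI` both are invertible, and
`δ₁ u = δ₁ t₀ δ₁ = u' δ₁` (`δ₁ δ₀ = 0`, `δ₂ δ₁ = 0`).  So `t = t₀ u'^{-1}` has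
`δ₁ t δ₁ = δ₁ t₀ u'^{-1} δ₁ = δ₁ t₀ δ₁ u^{-1} = δ₁`. -/
def T_GIV : Prop :=
  ∀ (K₀ K₁ K₂ K₃ : PO) (δ₀ : Matrix K₁.ι K₀.ι Sr) (δ₁ : Matrix K₂.ι K₁.ι Sr)
    (δ₂ : Matrix K₃.ι K₂.ι Sr), δ₀ ∈ HM K₀ K₁ 0 → δ₁ ∈ HM K₁ K₂ 0 → δ₂ ∈ HM K₂ K₃ 0 →
    δ₁ * δ₀ = 0 → δ₂ * δ₁ = 0 → ExI (mI Finset.univ 1) K₀ K₁ K₂ δ₀ δ₁ →
    ExI (mI Finset.univ 1) K₁ K₂ K₃ δ₁ δ₂ → ∃ t ∈ HM K₂ K₁ 0, δ₁ * t * δ₁ = δ₁

/-- SPI.  Homogeneous idempotents over `S` split.  Proof: induction on the rank (or the trace) of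
the constant coefficients of `e`.  If all constant coefficients vanish, `e = e ^ k = 0` (degrees,
see `T_UNI`): take no generators.  Otherwise `e i j` has constant coefficient `c ≠ 0` for some
`i`, `j`; then `deg i = deg j` and `e i j = c`.  Let `C` be the `j`-th column of `e` and `r` the
`i`-th row of `e` divided by `c`: `r C = 1`, `e C = C`, `r e = r`; `e' = e - C r` is an
idempotent of smaller rank, `e' = ι' b'`, `b' ι' = 1`; `b' C = 0`, `r ι' = 0`; take
`ι = [ι', C]`, `b = [b'; r]`. -/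
def T_SPI : Prop :=
  ∀ (K : PO) (e : Matrix K.ι K.ι Sr), e ∈ HM K K 0 → e * e = e →
    ∃ (F : PO) (i : Matrix K.ι F.ι Sr) (b : Matrix F.ι K.ι Sr), i ∈ HM F K 0 ∧ b ∈ HM K F 0 ∧
      i * b = e ∧ b * i = 1

/-- MCM.  High syzygies are matrix factorisations.  Proof: `T_EX0`, `T_EXV` and `T_GIV` (with
`K₀ = und (C.X m)`, `K₁ = und (C.X (m + 1))`, …; `K n = und (C.X n)`) give `t` with `δ t δ = δ`,
`δ = um (d^{m+1})`; `T_SPI` for `e = δ t` gives `i`, `b`; put `π = b δ`, `σ = t i`, `Φ_F = b Z i`, `Z`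
the operator `Φ` of `und (C.X (m + 2))`.  `i π = e δ = δ`, `π σ = b δ t i = b e i = 1`,
`Z i = Z e i = δ Z t i ∈ im e` (`Z δ = δ Z` by `T_UMM`), so `Z i = i Φ_F`, `Φ_F ^ 2 = - f`,
`i Φ_F π = Z i π = Z δ = δ Z = i π Z`, so `π ∈ mor`; `π x = 0` implies `δ x = 0`, so
`x ∈ im (um (d^m))` by `T_EX0`; `i π um(d^m) = δ um(d^m) = 0`. -/
def T_MCM : Prop :=
  ∀ (f : Sr) [H6 f] (C : CochainComplex (GF (gZ f)) ℤ) (a m : ℤ), (∀ n < a, ∀ d, Acy C n d) →
    m + 7 ≤ a → ∃ (F : CM f) (π : mor (und (C.X (m + 1))) F)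
      (σ : Matrix (und (C.X (m + 1))).ι F.ι Sr), CokP C m F π σ

/-- TAI.  The tail of a complex with cokernel `F` is the tail of a periodic complex.  Proof: let
`M = m + 1`, `F' = tw (-(3 M)) (M.negOnePow) F`: in position `M` the complex `CF F'` has generators of
the degrees of `F`, and `Φ' = (-1)^M Φ`.  Let `π₀` be the columns of `π` at the generators `inl i`.
Define `φ^M = π₀` (`rm π₀ 0`) and recursively `φ^n = (-1)^n φ^{n+1} Q_n` for `n < M`, where
`d_C^n = P_n + z Q_n` (all `φ^n` are matrices over `S`).  This is a chain map between the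
complexes truncated to positions `≤ M`: `v = φ^M d_C^{M-1} = a + z b` satisfies
`a + Φ b = 0` since `π um(d) = 0` and `π (z e_i) = Φ π₀ e_i`, and
`v = - Φ b + z b = d^{M-1} ((-1)^{M-1} b)`; for `n < M - 1` `v = φ^{n+1} d_C^n` has `d^{n+1} v = 0`, so
`v = d^n ((-1)^n b)`, see `T_ACF`.  Now `T_EQI`: in positions `n < M` both are acyclic; in position
`M` the map `(CF F')^M → F`, `a + z b ↦ a + Φ b` has kernel `im d^{M-1}` and composed with `φ^M` it is
`π`, whose kernel is `im (um (d_C^{M-1}))` and which is surjective (`σ`). -/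
def T_TAI : Prop :=
  ∀ (f : Sr) [H6 f] (C : CochainComplex (GF (gZ f)) ℤ) (m : ℤ),
    (∀ n < m + 1, ∀ d, Acy C n d) →
    ∀ (F : CM f) (π : mor (und (C.X (m + 1))) F) (σ : Matrix (und (C.X (m + 1))).ι F.ι Sr),
    CokP C m F π σ →
    Nonempty ((qK (gZ f)).obj (resC C (Ule (m + 1) C) (Ule_qc C (m + 1)).lc) ≅
      (qK (gZ f)).obj (resC (CF (tw (-(3 * (m + 1))) (m + 1).negOnePow F))
        (Ule (m + 1) (CF (tw (-(3 * (m + 1))) (m + 1).negOnePow F)))
        (Ule_qc (CF (tw (-(3 * (m + 1))) (m + 1).negOnePow F)) (m + 1)).lc))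

end Pool.Agent.VDK
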