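import Pool.Agent.VDK.T1

/-!
# VDK: second list of targets (localisation)
-/

set_option autoImplicit false
set_option linter.unusedVariables false

open CategoryTheory CategoryTheory.Limits Pretriangulated MvPolynomial Pool.Agent.VDC

noncomputable section

namespace Pool.Agent.VDK

/-- the complexes without cohomology in degrees `≥ -1` -/
def Low {A : Type} [CommRing A] [Algebra ℂ A] (𝒜 : ℤ → Submodule ℂ A) [SetLike.GradedMonoid 𝒜] :
    ObjectProperty (KK 𝒜) :=
  fun B => ∀ n d : ℤ, -1 ≤ d → CohZero B n d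

/-- DES.  The first step of the decomposition.  Proof: the set of `(n, d)`, `d ≥ -1`, with
`H^n(W)_d ≠ 0` is finite and not empty; choose `n` minimal, and then `d` maximal; `t = - d`.  By
`T_PEX` for `W[n]` and `x ≠ 0` in `H^n(W)_d`: `x = g ≫ φ'`, `φ' : P_k(t) → W[n]`; `φ` is `φ'` shifted
by `- n`.  `Hom(OK(-e), P_k(t)[j]) = 0` unless `(j, e) = (0, - t)` (`T_HPK`, `T_ACZ`), and then it
is spanned by one element `g₀` (`T_GPK`); `g = c g₀`, `c ≠ 0`, so `y = c' g₀` with
`y ≫ φ' = 0` implies `c' x = 0`, `c' = 0`. -/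
def T_DES : Prop :=
  ∀ (f : Sr) [H6 f] (D : KA f) (W : KK (gZ f)), Tors (gZ f) W → ¬ Low (gZ f) W →
    ∃ (t n : ℤ) (φ : (shiftFunctor (KK (gZ f)) n).obj ((qK (gZ f)).obj (PK D t)) ⟶ W),
      t ≤ 1 ∧
      (∀ (m e : ℤ) (y : OK (gZ f) (-e) ⟶ (shiftFunctor (KK (gZ f)) m).obj
        ((shiftFunctor (KK (gZ f)) n).obj ((qK (gZ f)).obj (PK D t)))),
        y ≫ (shiftFunctor (KK (gZ f)) m).map φ = 0 → y = 0) ∧
      ∃ (m e : ℤ), -1 ≤ e ∧ ∃ y : OK (gZ f) (-e) ⟶ (shiftFunctor (KK (gZ f)) m).obj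
        ((shiftFunctor (KK (gZ f)) n).obj ((qK (gZ f)).obj (PK D t))),
        y ≫ (shiftFunctor (KK (gZ f)) m).map φ ≠ 0

/-- DEC.  Decomposition of complexes with finite-dimensional cohomology.  Proof: induction on the
(finite) sum of the `finrank ℂ (OK(-d) ⟶ W[n])` over `n` and `d ≥ -1` (finite-dimensional by `T_FIN`,
`T_GFN`).  If `Low W`: `0 → W → W`.  Otherwise `T_DES`; let `P' → W → W'` be a triangle on `φ`;
`Tors W'` (`T_TPK`).  As `Hom(OK(-e), P'[m+1]) → Hom(OK(-e), W[m+1])` is injective for all `m`, `e`,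
`Hom(OK(-e), W[m]) → Hom(OK(-e), W'[m])` is surjective, with nonzero kernel for one `(m, e)`; so
the sum drops.  By induction `W' ∈ (Tors ⊓ G) * Low`, and
`P' * ((Tors ⊓ G) * Low) = (P' * (Tors ⊓ G)) * Low ⊆ (Tors ⊓ G) * Low`
(`ObjectProperty.extensionProduct_assoc`, `extensionProduct_le_of_isTriangulatedClosed₂`). -/
def T_DEC : Prop :=
  ∀ (f : Sr) [H6 f] (D : KA f) (G : ObjectProperty (KK (gZ f))), G.IsTriangulated →
    G.IsClosedUnderIsomorphisms → (∀ t ≤ 1, G ((qK (gZ f)).obj (PK D t))) →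
    ∀ W, Tors (gZ f) W → (Tors (gZ f) ⊓ G).extensionProduct (Low (gZ f)) W

/-- VLA.  Morphisms in a Verdier quotient.  Proof.  Faithful: if `Q g = 0` there is
`s : N' → N` in `S.trW` with `s g = 0`; let `N' → N → T` be the triangle, `S T`; `N → T` factors
through `A` as in the hypothesis, `u : N → A`; let `N'' → N → A` be a triangle: `N'' → N → T` is
zero, so `N'' → N` factors through `N'`, so `N'' → N → M` is zero, so `g` factors through
`A → M` (`k = 0`, `shiftFunctorZero`), which is zero.  Full: `α : Q N → Q M` is a fraction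
`N ← N' → M`; with the same `N'' → N' → N`: the map `N'' → M` extends to `β : N → M` as
`A[-1] → N'' → M` is zero; `N'' → N` is in `S.trW` and `Q β = α`. -/
def T_VLA : Prop :=
  ∀ (C : Type 1) [Category.{0} C] [HasZeroObject C] [HasShift C ℤ] [Preadditive C]
    [∀ n : ℤ, (shiftFunctor C n).Additive] [Pretriangulated C] [IsTriangulated C]
    (S : ObjectProperty C) [S.IsTriangulated] [S.IsClosedUnderIsomorphisms] (N M : C),
    (∀ (T : C) (g : N ⟶ T), S T → ∃ (A : C) (u : N ⟶ A) (v : A ⟶ T), S A ∧ u ≫ v = g ∧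
      ∀ (k : ℤ) (y : (shiftFunctor C k).obj A ⟶ M), y = 0) →
    Function.Bijective (S.trW.Q.map : (N ⟶ M) → (S.trW.Q.obj N ⟶ S.trW.Q.obj M))

/-- VLN.  No maps to complexes with cohomology in degrees `< -1`.  Proof: `(OK m)[k] → B` is
`OK m → B[-k]`, an element of `H^{-k}(B)_{-m}`, `- m ≥ -1`; the generators of `Psi F` have degree
`≥ 1`, and `T_HTD`. -/
def T_VLN : Prop :=
  ∀ (f : Sr) [H6 f] (B : KK (gZ f)), Low (gZ f) B →
    (∀ m ≤ 1, ∀ (k : ℤ) (x : (shiftFunctor (KK (gZ f)) k).obj (OK (gZ f) m) ⟶ B), x = 0) ∧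
    ∀ (F : CM f) (k : ℤ) (x : (shiftFunctor (KK (gZ f)) k).obj ((Psi f).obj F) ⟶ B), x = 0

/-- LFQ.  Morphisms to `Psi F [k]` in the quotient category.  Proof: `T_VLA` for `C = DbGr`,
`S = TorsGr`, `M = (PsiD F)[k]`: given `g : N → T`, `T ∈ TorsGr`, decompose (in `KK`) `A → T → B`
by `T_DEC` with `G` = the objects without maps to the `(Psi F)[k]` (a left orthogonal:
triangulated; contains the `PK D t`, `t ≤ 1`, by `T_HPS`); `N → B` is zero by the hypothesis, so `g`
factors through `A`; `A ∈ Tors` is in `Dgr`. -/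
def T_LFQ : Prop :=
  ∀ (f : Sr) [H6 f] (D : KA f) (h : ∀ F : CM f, Dgr (gZ f) ((Psi f).obj F)) (N : DbGr (gZ f))
    (F : CM f) (k : ℤ), (∀ (B : KK (gZ f)) (x : N.obj ⟶ B), Low (gZ f) B → x = 0) →
    Function.Bijective ((TorsGr (gZ f)).trW.Q.map :
      (N ⟶ (shiftFunctor (DbGr (gZ f)) k).obj ((PsiD f h).obj F)) → _)

/-- LFF.  `Theta` is fully faithful.  Proof: `T_FFP`, `T_LFQ` (`k = 0`), `T_VLN`. -/
def T_LFF : Prop :=
  ∀ (f : Sr) [H6 f] (D : KA f) (h : ∀ F : CM f, Dgr (gZ f) ((Psi f).obj F)) (X Y : CM f),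
    Function.Bijective ((Theta f h).map : (X ⟶ Y) → _)

/-- LOR.  `Theta F` is in the Kuznetsov component.  Proof: a map `OY j → (Theta F)[k]`
(`j = 0, 1`) is `Q x`, `x : OK j → (Psi F)[k]` (`T_LFQ`, `T_VLN`, the shift isomorphism of `Q`), and
`x = 0` by `T_HOP`. -/
def T_LOR : Prop :=
  ∀ (f : Sr) [H6 f] (D : KA f) (h : ∀ F : CM f, Dgr (gZ f) ((Psi f).obj F)) (F : CM f),
    KuProp (gZ f) ((Theta f h).obj F)

/-- SOD.  Semiorthogonal decompositions.  Proof: let `ℬ` be the left orthogonal of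
`Orth P₀ ⊓ Orth P₁`: triangulated, contains `P₀`, `P₁`, and `Hom(ℬ, 𝒮) = 0`.  Let
`G = ℬ * 𝒮` (`extensionProduct`).  `𝒮 * ℬ ⊆ ℬ * 𝒮`: in a triangle `A → X → B → A[1]` the last map is
zero, so `X ≅ A ⊕ B`.  By associativity `G * G ⊆ G`, so `G` is triangulated; it contains `𝒮`,
`P₀`, `P₁`, hence everything.  If `X ∈ Orth P₀ ⊓ Orth P₁`, `B → X → A → B[1]`: the first map is
zero, so `A → B[1]` has a section `B[1] → A`, which is zero, so `B[1] = 0` and `X ≅ A`. -/
def T_SOD : Prop :=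
  ∀ (D : Type 1) [Category.{1} D] [HasZeroObject D] [HasShift D ℤ] [Preadditive D]
    [∀ n : ℤ, (shiftFunctor D n).Additive] [Pretriangulated D] [IsTriangulated D]
    (𝒮 : ObjectProperty D) [𝒮.IsTriangulated] [𝒮.IsClosedUnderIsomorphisms] (P₀ P₁ : D),
    𝒮 ≤ Orth P₀ ⊓ Orth P₁ →
    (∀ G : ObjectProperty D, G.IsTriangulated → G.IsClosedUnderIsomorphisms → 𝒮 ≤ G → G P₀ →
      G P₁ → ∀ X, G X) →
    Orth P₀ ⊓ Orth P₁ ≤ 𝒮

/-- IMG.  The essential image of a full exact functor is triangulated.  Proof: zero object: the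
matrix factorisation without generators; shifts: `Θ (X[1]) ≅ (Θ X)[1]`, and `sh f` is an
equivalence with inverse `twF f (-3) (-1)` (each `X` is isomorphic to `(sh f).obj` of something);
extensions: a triangle `Θ X → E → Θ Y → (Θ X)[1] ≅ Θ (X[1])`: the last map is `Θ (cls g)`, and
the triangle `Y → X[1] → cone g → Y[1]` shows `E[1] ≅ Θ (cone g)`. -/
def T_IMG : Prop :=
  ∀ (f : Sr) (D : Type 1) [Category.{1} D] [HasZeroObject D] [HasShift D ℤ] [Preadditive D]
    [∀ n : ℤ, (shiftFunctor D n).Additive] [Pretriangulated D] (Θ : CM f ⥤ D), Std Θ →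
    Θ.Additive → (∀ X Y : CM f, Function.Surjective (Θ.map : (X ⟶ Y) → _)) →
    Θ.essImage.IsTriangulated

/-- HUL.  Generation of `D^b(gr R)`.  Proof: apply `T_GE1`, `T_GE2` (and `T_TPK`) to
`G.map (Dgr (gZ f)).ι` (the essential image, triangulated by an instance), and transport back
along the fully faithful inclusion. -/
def T_HUL : Prop :=
  ∀ (f : Sr) [H6 f] (D : KA f) (h : ∀ F : CM f, Dgr (gZ f) ((Psi f).obj F))
    (G : ObjectProperty (DbGr (gZ f))), G.IsTriangulated → G.IsClosedUnderIsomorphisms →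
    TorsGr (gZ f) ≤ G → (∀ F : CM f, G ((PsiD f h).obj F)) →
    G ⟨OK (gZ f) 0, dgr_OK (gZ f) 0⟩ → G ⟨OK (gZ f) 1, dgr_OK (gZ f) 1⟩ → ∀ C, G C

/-- ESS.  `Theta` is essentially surjective onto the Kuznetsov component.  Proof: `T_SOD` for
`DbCoh`, `𝒮 = (Theta f h).essImage` (`T_IMG`, `Std (Theta f h)` by `T_TRC`, `T_STG`, `T_STL`; full by
`T_LFF`; in the orthogonal by `T_LOR`): for `G` as there, the preimage of `G` under
`Q : DbGr → DbCoh` satisfies the hypotheses of `T_HUL`, and `Q` is essentially surjective. -/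
def T_ESS : Prop :=
  ∀ (f : Sr) [H6 f] (D : KA f) (h : ∀ F : CM f, Dgr (gZ f) ((Psi f).obj F))
    (E : DbCoh (gZ f)), KuProp (gZ f) E → ∃ F : CM f, Nonempty ((Theta f h).obj F ≅ E)

/-- TRA.  Transfer of exact equivalences.  Proof: `F = Θ ⋙ E ⋙ Θ'.inv`.  The isomorphism of
`F` with the shifts comes from those of `Θ`, `E` (`commShiftIso`), `Θ'`.  For a map `g` the
triangle `Θ X → Θ Y → Θ (cone g) → (Θ X)[1]` is distinguished, so is its image under `E`; let `g'`
be a representative of `F (cls g)`; the triangle of `g'` for `Θ'` is distinguished with the same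
first map (up to `Θ' F ≅ E Θ`), so there is an isomorphism of triangles which is the identity on
the first two objects (`isoTriangleOfIso₁₂`); its third component gives
`F (cone g) ≅ cone g'` as `Θ'` is fully faithful, compatible with the two other maps. -/
def T_TRA : Prop :=
  ∀ (f f' : Sr) (D : Type 1) [Category.{1} D] [HasZeroObject D] [HasShift D ℤ] [Preadditive D]
    [∀ n : ℤ, (shiftFunctor D n).Additive] [Pretriangulated D] [Linear ℂ D]
    (D' : Type 1) [Category.{1} D'] [HasZeroObject D'] [HasShift D' ℤ] [Preadditive D']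
    [∀ n : ℤ, (shiftFunctor D' n).Additive] [Pretriangulated D'] [Linear ℂ D']
    (Θ : CM f ⥤ D) [Θ.IsEquivalence] [Θ.Additive] [Θ.Linear ℂ]
    (Θ' : CM f' ⥤ D') [Θ'.IsEquivalence] [Θ'.Additive] [Θ'.Linear ℂ]
    (E : D ⥤ D') [E.IsEquivalence] [E.CommShift ℤ] [E.IsTriangulated] [E.Linear ℂ],
    Std Θ → Std Θ' → Nonempty (ExactEquiv f f')

/-- KUE.  From the Kuznetsov components to matrix factorisations.  Proof: `h` from `T_PBD`;
`Θ = (KuProp (gZ f)).lift (Theta f h) (T_LOR)` is an equivalence (`T_LFF`, `T_ESS`), `Std`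
(`T_TRC`, `T_STG`, `T_STL`), `ℂ`-linear; `T_TRA`. -/
def T_KUE : Prop :=
  ∀ (f f' : Sr) [H6 f] [H6 f'], Nonempty (KA f) → Nonempty (KA f') →
    Nonempty (KuEquiv (gZ f) (gZ f')) → Nonempty (ExactEquiv f f')

end Pool.Agent.VDK
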