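import Pool.Agent.VDK.T2
import Pool.Agent.VDK.Sext

/-!
# VDK: third list of targets (arbitrary smooth sextics, transport along isomorphisms)
-/

set_option autoImplicit false
set_option linter.unusedVariables false

open CategoryTheory CategoryTheory.Limits Pretriangulated MvPolynomial AlgebraicGeometry
  Pool.Agent.VDC

noncomputable section

namespace Pool.Agent.VDK

/-! ## N: the normal form of a sextic -/

/-- the polynomials without `z`, as polynomials in `x₀, x₁, x₂, y, z` -/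
def i5 : Sr →ₐ[ℂ] P5 := rename Fin.castSucc

/-- `σ` preserves the degrees -/
def Gr5 (σ : P5 ≃ₐ[ℂ] P5) : Prop :=
  ∀ (m : ℤ) (p : P5), IsWeightedHomogeneous w5 p m ↔ IsWeightedHomogeneous w5 (σ p) m

/-- there is no `y` in `q` -/
def NoY (q : Sr) : Prop := ∀ a, coeff a q ≠ 0 → a 3 = 0

/-- N01.  Homogeneity. -/
def T_N01 : Prop := ∀ (p : Sr) (m : ℤ), Hmg p m ↔ IsWeightedHomogeneous w5 (i5 p) m

/-- N02.  A form of degree `6` is of degree at most `2` in `z`.  Proof: sort the monomials by the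
exponent of `z` (at most `2`, as the weight of `z` is `3`); the coefficient of `z ^ 2` has degree
`0`: it is a constant. -/
def T_N02 : Prop :=
  ∀ w : P5, IsWeightedHomogeneous w5 w 6 → ∃ (a : ℂ) (g F : Sr), Hmg g 3 ∧ Hmg F 6 ∧
    w = C a * X 4 ^ 2 + X 4 * i5 g + i5 F

/-- N03.  The same for `y`. -/
def T_N03 : Prop :=
  ∀ F : Sr, Hmg F 6 → ∃ (b : ℂ) (q₂ q₄ q₆ : Sr), Hmg q₂ 2 ∧ Hmg q₄ 4 ∧ Hmg q₆ 6 ∧
    NoY q₂ ∧ NoY q₄ ∧ NoY q₆ ∧ F = C b * X 3 ^ 3 + q₂ * X 3 ^ 2 + q₄ * X 3 + q₆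

/-- N04.  The coefficient of `z ^ 2` is not zero.  Proof: otherwise all partial derivatives vanish
at `(0, 0, 0, 0, 1)`: `g`, the `∂ g`, and the `∂ F` are homogeneous of positive degree, so they vanish
at `0`. -/
def T_N04 : Prop :=
  ∀ (a : ℂ) (g F : Sr), Hmg g 3 → Hmg F 6 → IsVDC5 (C a * X 4 ^ 2 + X 4 * i5 g + i5 F) → a ≠ 0

/-- N05.  The coefficient of `y ^ 3` is not zero.  Proof: otherwise all partial derivatives vanish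
at `(0, 0, 0, 1, 0)`. -/
def T_N05 : Prop :=
  ∀ (a b : ℂ) (q₂ q₄ q₆ : Sr), Hmg q₂ 2 → Hmg q₄ 4 → Hmg q₆ 6 → NoY q₂ → NoY q₄ → NoY q₆ →
    IsVDC5 (C a * X 4 ^ 2 + i5 (C b * X 3 ^ 3 + q₂ * X 3 ^ 2 + q₄ * X 3 + q₆)) → b ≠ 0

/-- N06.  The automorphism `z ↦ z + g`. -/
def T_N06 : Prop :=
  ∀ g : Sr, Hmg g 3 → ∃ σ : P5 ≃ₐ[ℂ] P5, Gr5 σ ∧ (∀ p : Sr, σ (i5 p) = i5 p) ∧
    σ (X 4) = X 4 + i5 g

/-- N07.  The automorphism `y ↦ t y + q`. -/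
def T_N07 : Prop :=
  ∀ (t : ℂ) (q : Sr), t ≠ 0 → Hmg q 2 → NoY q → ∃ σ : P5 ≃ₐ[ℂ] P5, Gr5 σ ∧
    (∀ p : Sr, NoY p → σ (i5 p) = i5 p) ∧ σ (X 3) = C t * X 3 + i5 q ∧ σ (X 4) = X 4

/-- N08.  The chain rule.  Proof: both sides are derivations in `p` (along `s`) with the same values
on the variables; or induction on `p`. -/
def T_N08 : Prop :=
  ∀ (s : P5 →ₐ[ℂ] P5) (p : P5) (i : Fin 5),
    pderiv i (s p) = ∑ j, s (pderiv j p) * pderiv i (s (X j))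

/-- N09.  Transport of smoothness.  Proof: put `t = σ⁻¹`, `w = t (σ w)`; if the partial derivatives of
`σ w` vanish at the point `p`, let `q` be the point with `q j = eval p (σ (X j))`, so that
`eval q r = eval p (σ r)` for all `r`; by `T_N08` for `t`,
`eval q (pderiv i w) = ∑ j, eval q (t (pderiv j (σ w))) * … = ∑ j, eval p (pderiv j (σ w)) * … = 0`,
so `q = 0`; as `p j = eval p (σ (t (X j))) = eval q (t (X j)) = eval 0 (t (X j)) = 0` (`t (X j)` is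
homogeneous of positive degree), `p = 0`. -/
def T_N09 : Prop :=
  ∀ (w : P5) (σ : P5 ≃ₐ[ℂ] P5), Gr5 σ → IsVDC5 w → IsVDC5 (σ w)

/-- N10.  Completing the square.  Proof: `T_N02`, `T_N04`, and `T_N06` for `- g / (2 a)`:
`a (z - g / 2 a) ^ 2 + (z - g / 2 a) g + F = a z ^ 2 + F - g ^ 2 / (4 a)`. -/
def T_N10 : Prop :=
  ∀ w : P5, IsVDC5 w → ∃ (σ : P5 ≃ₐ[ℂ] P5) (a : ℂ) (F : Sr), Gr5 σ ∧ a ≠ 0 ∧ Hmg F 6 ∧
    σ w = C a * X 4 ^ 2 + i5 F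

/-- N11.  Completing the cube.  Proof: `T_N03`, `T_N05`, and `T_N07` for `t` with `b t ^ 3 = a` and
`q = - q₂ / (3 b)`. -/
def T_N11 : Prop :=
  ∀ (a : ℂ) (F : Sr), a ≠ 0 → Hmg F 6 → IsVDC5 (C a * X 4 ^ 2 + i5 F) →
    ∃ (σ : P5 ≃ₐ[ℂ] P5) (f₄ f₆ : Sr), Gr5 σ ∧ Hmg f₄ 4 ∧ Hmg f₆ 6 ∧ NoY f₄ ∧ NoY f₆ ∧
      σ (C a * X 4 ^ 2 + i5 F) = C a * (X 4 ^ 2 + i5 (X 3 ^ 3 + f₄ * X 3 + f₆))

/-- N12.  Proof: if the partial derivatives of `f` vanish at `p`, those of `z ^ 2 + f` vanish at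
`(p, 0)`. -/
def T_N12 : Prop :=
  ∀ (a : ℂ) (f₄ f₆ : Sr), a ≠ 0 → Hmg f₄ 4 → Hmg f₆ 6 → NoY f₄ → NoY f₆ →
    IsVDC5 (C a * (X 4 ^ 2 + i5 (X 3 ^ 3 + f₄ * X 3 + f₆))) → IsVDC (X 3 ^ 3 + f₄ * X 3 + f₆)

/-- N13.  Isomorphisms of the quotient rings. -/
def T_N13 : Prop :=
  ∀ (w w' : P5) (σ : P5 ≃ₐ[ℂ] P5) (c : ℂ), Gr5 σ → c ≠ 0 → σ w = C c * w' →
    ∃ e : CR w ≃ₐ[ℂ] CR w', ∀ (m : ℤ) (r : CR w), r ∈ gr5 w m ↔ e r ∈ gr5 w' m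

/-- N14.  `ℂ[x, y, z] / (z ^ 2 + f) = S ⊕ S z`.  Proof: the map is induced by `x_i, y ↦ ⟨X i, 0⟩`,
`z ↦ ⟨0, 1⟩`; the inverse is `⟨a, b⟩ ↦ i5 a + i5 b z`. -/
def T_N14 : Prop :=
  ∀ f : Sr, Hmg f 6 → ∃ e : CR (X 4 ^ 2 + i5 f) ≃ₐ[ℂ] RR f,
    ∀ (m : ℤ) (r : CR (X 4 ^ 2 + i5 f)), r ∈ gr5 (X 4 ^ 2 + i5 f) m ↔ e r ∈ gZ f m

/-- N15.  The normal form.  Proof: `T_N10`, `T_N09`, `T_N11`, `T_N09`, `T_N12`, `T_N13` (twice),
`T_N14`. -/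
def T_N15 : Prop :=
  ∀ w : P5, IsVDC5 w → ∃ f : Sr, IsVDC f ∧ ∃ e : CR w ≃ₐ[ℂ] RR f,
    ∀ (m : ℤ) (r : CR w), r ∈ gr5 w m ↔ e r ∈ gZ f m

/-- N16.  The grading.  Proof: transport the grading of `RR f` (`p_GRD` of VDC) along the
isomorphism of `T_N15`; or directly for weighted homogeneous `w`. -/
def T_N16 : Prop := ∀ w : P5, IsVDC5 w → Nonempty (GradedAlgebra (gr5N w))

/-- N17.  Isomorphic graded algebras have isomorphic `Proj`.  Proof: `PRJ_.isoP` and `PRJ_.str` in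
`Pool.Agent.VDC.P_PRJ`. -/
def T_N17 : Prop :=
  ∀ (A B : Type) [CommRing A] [CommRing B] [Algebra ℂ A] [Algebra ℂ B]
    (𝒜 : ℕ → Submodule ℂ A) (ℬ : ℕ → Submodule ℂ B) [GradedAlgebra 𝒜] [GradedAlgebra ℬ]
    (e : A ≃ₐ[ℂ] B), (∀ n r, r ∈ 𝒜 n ↔ e r ∈ ℬ n) → Nonempty (ProjC 𝒜 ≅ ProjC ℬ)

/-! ## U: transport of the Kuznetsov component along isomorphisms of graded algebras -/

/-- U01.  The homotopy categories.  Proof: the functor `GF 𝒜 ⥤ GF ℬ` with `X ↦ ⟨X.ι, X.deg⟩` which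
applies `e` to the entries of the matrices is an additive `ℂ`-linear equivalence (the inverse is
given by `e.symm`); `Functor.mapHomotopyCategory`. -/
def T_U01 : Prop :=
  ∀ (A B : Type) [CommRing A] [CommRing B] [Algebra ℂ A] [Algebra ℂ B]
    (𝒜 : ℤ → Submodule ℂ A) (ℬ : ℤ → Submodule ℂ B) [SetLike.GradedMonoid 𝒜]
    [SetLike.GradedMonoid ℬ] (e : A ≃ₐ[ℂ] B), (∀ m r, r ∈ 𝒜 m ↔ e r ∈ ℬ m) →
    ∃ (Φ : KK 𝒜 ⥤ KK ℬ) (_ : Φ.CommShift ℤ), Φ.IsEquivalence ∧ Φ.IsTriangulated ∧ Φ.Linear ℂ ∧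
      (∀ m, Nonempty (Φ.obj (OK 𝒜 m) ≅ OK ℬ m)) ∧
      ∀ C, BddAbove 𝒜 C ↔ BddAbove ℬ (Φ.obj C)

/-- U02.  The cohomology.  Proof: `Φ` is fully faithful and commutes with the shift. -/
def T_U02 : Prop :=
  ∀ (A B : Type) [CommRing A] [CommRing B] [Algebra ℂ A] [Algebra ℂ B]
    (𝒜 : ℤ → Submodule ℂ A) (ℬ : ℤ → Submodule ℂ B) [SetLike.GradedMonoid 𝒜]
    [SetLike.GradedMonoid ℬ] (Φ : KK 𝒜 ⥤ KK ℬ) [Φ.CommShift ℤ], Φ.IsEquivalence →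
      Φ.IsTriangulated → (∀ m, Nonempty (Φ.obj (OK 𝒜 m) ≅ OK ℬ m)) →
      (∀ C, BddAbove 𝒜 C ↔ BddAbove ℬ (Φ.obj C)) →
      ∀ C, (∀ n d, CohZero C n d ↔ CohZero (Φ.obj C) n d) ∧ (Dgr 𝒜 C ↔ Dgr ℬ (Φ.obj C)) ∧
        (Tors 𝒜 C ↔ Tors ℬ (Φ.obj C))

/-- U03.  Full subcategories.  Proof: `P'.lift (P.ι ⋙ E)`; the isomorphism with the shifts is that
of `P.ι ⋙ E`, see `ObjectProperty.lift` and `CommShift` in Mathlib. -/
def T_U03.{w} : Prop :=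
  ∀ (D : Type 1) [Category.{w} D] [HasZeroObject D] [HasShift D ℤ] [Preadditive D]
    [∀ n : ℤ, (shiftFunctor D n).Additive] [Pretriangulated D] [Linear ℂ D]
    (D' : Type 1) [Category.{w} D'] [HasZeroObject D'] [HasShift D' ℤ] [Preadditive D']
    [∀ n : ℤ, (shiftFunctor D' n).Additive] [Pretriangulated D'] [Linear ℂ D']
    (P : ObjectProperty D) [P.IsTriangulated] [P.IsClosedUnderIsomorphisms]
    (P' : ObjectProperty D') [P'.IsTriangulated] [P'.IsClosedUnderIsomorphisms]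
    (E : D ⥤ D') [E.CommShift ℤ], E.IsEquivalence → E.IsTriangulated → E.Linear ℂ →
    (∀ X, P X ↔ P' (E.obj X)) →
    ∃ (G : P.FullSubcategory ⥤ P'.FullSubcategory) (_ : G.CommShift ℤ), G.IsEquivalence ∧
      G.IsTriangulated ∧ G.Linear ℂ ∧ Nonempty (G ⋙ P'.ι ≅ P.ι ⋙ E)

/-- U04.  Verdier quotients.  Proof: `E` maps `S.trW` to `S'.trW` and reflects it, so the composition
`E ⋙ S'.trW.Q` is a localization functor for `S.trW`; `Localization.lift`/`uniq`; the commutation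
with the shift, exactness and linearity descend (`Functor.commShiftOfLocalization`,
`Triangulated.Localization...`, `Localization.functor_linear_iff`). -/
def T_U04 : Prop :=
  ∀ (D : Type 1) [Category.{0} D] [HasZeroObject D] [HasShift D ℤ] [Preadditive D]
    [∀ n : ℤ, (shiftFunctor D n).Additive] [Pretriangulated D] [IsTriangulated D] [Linear ℂ D]
    (D' : Type 1) [Category.{0} D'] [HasZeroObject D'] [HasShift D' ℤ] [Preadditive D']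
    [∀ n : ℤ, (shiftFunctor D' n).Additive] [Pretriangulated D'] [IsTriangulated D']
    [Linear ℂ D']
    (S : ObjectProperty D) [S.IsTriangulated] [S.IsClosedUnderIsomorphisms]
    (S' : ObjectProperty D') [S'.IsTriangulated] [S'.IsClosedUnderIsomorphisms]
    (E : D ⥤ D') [E.CommShift ℤ], E.IsEquivalence → E.IsTriangulated → E.Linear ℂ →
    (∀ X, S X ↔ S' (E.obj X)) →
    ∃ (G : S.trW.Localization ⥤ S'.trW.Localization) (_ : G.CommShift ℤ), G.IsEquivalence ∧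
      G.IsTriangulated ∧ G.Linear ℂ ∧ Nonempty (S.trW.Q ⋙ G ≅ E ⋙ S'.trW.Q)

/-- U05.  Transport.  Proof: `T_U01`, `T_U02`, `T_U03` (for `Dgr`), `T_U04` (for `TorsGr`); the
resulting equivalence `DbCoh 𝒜 ⥤ DbCoh ℬ` maps `OY 𝒜 m` to `OY ℬ m`, hence `KuProp 𝒜` corresponds to
`KuProp ℬ`; `T_U03` (for `KuProp`). -/
def T_U05 : Prop :=
  ∀ (A B : Type) [CommRing A] [CommRing B] [Algebra ℂ A] [Algebra ℂ B]
    (𝒜 : ℤ → Submodule ℂ A) (ℬ : ℤ → Submodule ℂ B) [SetLike.GradedMonoid 𝒜]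
    [SetLike.GradedMonoid ℬ] (e : A ≃ₐ[ℂ] B), (∀ m r, r ∈ 𝒜 m ↔ e r ∈ ℬ m) →
    Nonempty (KuEquiv 𝒜 ℬ)

/-- U06.  Composition of equivalences. -/
def T_U06 : Prop :=
  ∀ (A B C : Type) [CommRing A] [CommRing B] [CommRing C] [Algebra ℂ A] [Algebra ℂ B]
    [Algebra ℂ C] (𝒜 : ℤ → Submodule ℂ A) (ℬ : ℤ → Submodule ℂ B) (𝒞 : ℤ → Submodule ℂ C)
    [SetLike.GradedMonoid 𝒜] [SetLike.GradedMonoid ℬ] [SetLike.GradedMonoid 𝒞],
    Nonempty (KuEquiv 𝒜 ℬ) → Nonempty (KuEquiv ℬ 𝒞) → Nonempty (KuEquiv 𝒜 𝒞)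

end Pool.Agent.VDK
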